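import Pool.Agent.TH762.WD.Def
import Pool.Agent.TH762.E2.IS

set_option autoImplicit false

/-!
Functions with few values that can be avoided, lists of candidates, and the engine.
-/

namespace Pool.Agent.TH762.WD

open MvPolynomial
open Pool.Agent.TH762.MC (Tn ExL Few world)
open Pool.Agent.TH762.E2 (dc1 dc2 dc_code ofDigits_inj ofDigits_lt count_mono Lc bs ls lm bs_lm ls_lm)

variable {W : Type} [Wd W] {C D : (n : ℕ) → Set (W → (Fin n → ℕ) → Prop)} {Γ Δ : Type}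
  [Cx W Γ] [Cx W Δ] {k : ℕ}

/-- Functions of the class `C` with values at most `k` are avoided by functions of `D`. -/
def Av (C D : (n : ℕ) → Set (W → (Fin n → ℕ) → Prop)) (Γ : Type) [Cx W Γ] (k : ℕ) : Prop :=
  ∀ F : Γ → ℕ, Fn C F → (∀ γ, F γ ≤ k) → ∃ g : Γ → ℕ, Fn D g ∧ ∀ γ, g γ ≤ k ∧ g γ ≠ F γ

theorem Fn.sum (hD : Clo D) {m : ℕ} {f : Fin m → Γ → ℕ} (h : ∀ i, Fn D (f i)) :
    Fn D (fun γ => ∑ i, f i γ) := by
  induction m with
  | zero => exact (Fn.nat hD 0).congr fun γ => by simp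
  | succ m ih =>
    exact ((h 0).add hD (ih fun i => h i.succ)).congr fun γ => Fin.sum_univ_succ _

theorem Fn.pow (hD : Clo D) {f : Γ → ℕ} (h : Fn D f) (m : ℕ) : Fn D (fun γ => f γ ^ m) := by
  induction m with
  | zero => exact (Fn.nat hD 1).congr fun γ => by simp
  | succ m ih => exact (ih.mul hD h).congr fun γ => pow_succ _ _

theorem Fn.tsub (hD : Clo D) {f g : Γ → ℕ} (hf : Fn D f) (hg : Fn D g) :
    Fn D (fun γ => f γ - g γ) := by
  refine Fn.of_le (g := f) ?_ hf (fun γ => Nat.sub_le _ _)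
  refine ((Df.eqf hD ((Vr.snd.fn hD).add hD (hg.fst hD)) (hf.fst hD)).or hD
    ((Df.ltf hD (hf.fst hD) (hg.fst hD)).and hD
      (Df.eqf hD (Vr.snd.fn hD) (Fn.nat hD 0)))).congr fun p => ?_
  omega

theorem Fn.sqrt (hD : Clo D) {f : Γ → ℕ} (hf : Fn D f) : Fn D (fun γ => Nat.sqrt (f γ)) := by
  refine Fn.of_le (g := f) ?_ hf (fun γ => Nat.sqrt_le_self _)
  have h1 : Fn D (fun p : Γ × ℕ => p.2) := Vr.snd.fn hD
  refine ((Df.lef hD (h1.mul hD h1) (hf.fst hD)).and hD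
    (Df.ltf hD (hf.fst hD) ((h1.add hD (Fn.nat hD 1)).mul hD (h1.add hD (Fn.nat hD 1))))).congr
      fun p => ?_
  constructor
  · intro h
    have h' : p.2 = Nat.sqrt (f p.1) := h
    rw [h']
    exact ⟨Nat.sqrt_le _, Nat.lt_succ_sqrt _⟩
  · rintro ⟨h2, h3⟩
    exact Nat.eq_sqrt.2 ⟨h2, h3⟩

theorem Fn.dc1 (hD : Clo D) {f : Γ → ℕ} (hf : Fn D f) : Fn D (fun γ => dc1 (f γ)) :=
  hf.tsub hD ((hf.sqrt hD).mul hD (hf.sqrt hD))

theorem Fn.dc2 (hD : Clo D) {f : Γ → ℕ} (hf : Fn D f) : Fn D (fun γ => dc2 (f γ)) :=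
  (hf.sqrt hD).tsub hD (hf.dc1 hD)

theorem av_step (hC : Clo C) (hD : Clo D) {n : ℕ} (h : Av C D (Bs W (n + 1)) k) :
    Av C D (Bs W (n + 2)) k := by
  intro F hF hk
  let φ : Bs W (n + 1) → Bs W (n + 2) := fun p => ⟨p.w,
    Matrix.vecCons (dc1 (p.v 0)) (Matrix.vecCons (dc2 (p.v 0)) (Fin.tail p.v))⟩
  let ψ : Bs W (n + 2) → Bs W (n + 1) := fun p => ⟨p.w,
    Matrix.vecCons ((p.v 0 + p.v 1) * (p.v 0 + p.v 1) + p.v 0) (Fin.tail (Fin.tail p.v))⟩
  have hφ : Mp C φ := by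
    refine ⟨fun _ => rfl, fun i => ?_⟩
    change Fin (n + 2) at i
    refine Fin.cases ?_ (fun i => ?_) i
    · exact ((Vr.fin (0 : Fin (n + 1))).fn hC).dc1 hC
    · refine Fin.cases ?_ (fun i => ?_) i
      · exact ((Vr.fin (0 : Fin (n + 1))).fn hC).dc2 hC
      · exact (Vr.fin i.succ).fn hC
  have hψ : Mp D ψ := by
    refine ⟨fun _ => rfl, fun i => ?_⟩
    change Fin (n + 1) at i
    have h0 := (Vr.fin (W := W) (0 : Fin (n + 2))).fn hD
    have h1 := (Vr.fin (W := W) (1 : Fin (n + 2))).fn hD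
    refine Fin.cases ?_ (fun i => ?_) i
    · exact ((h0.add hD h1).mul hD (h0.add hD h1)).add hD h0
    · exact (Vr.fin i.succ.succ).fn hD
  obtain ⟨g, hg, hgk⟩ := h (fun w => F (φ w)) (hF.map hC hφ) (fun w => hk _)
  refine ⟨fun v => g (ψ v), hg.map hD hψ, fun v => ?_⟩
  have h1 := hgk (ψ v)
  have h2 : φ (ψ v) = v := by
    obtain ⟨w, v⟩ := v
    show (⟨w, _⟩ : Bs W (n + 2)) = ⟨w, v⟩
    congr 1
    funext i
    refine Fin.cases ?_ (fun i => ?_) i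
    · exact (dc_code (v 0) (v 1)).1
    · refine Fin.cases ?_ (fun i => ?_) i
      · exact (dc_code (v 0) (v 1)).2
      · rfl
  rw [h2] at h1
  exact h1

theorem av_all (hC : Clo C) (hD : Clo D) (h : Av C D (Bs W 1) k) :
    ∀ n, Av C D (Bs W n) k := by
  have h1 : ∀ n, Av C D (Bs W (n + 1)) k := by
    intro n
    induction n with
    | zero => exact h
    | succ n ih => exact av_step hC hD ih
  intro n
  rcases n with _ | n
  · intro F hF hk
    obtain ⟨g, hg, hgk⟩ := h (fun p => F ⟨p.w, Fin.elim0⟩)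
      (hF.map hC (φ := fun p : Bs W 1 => (⟨p.w, Fin.elim0⟩ : Bs W 0))
        ⟨fun _ => rfl, fun i => Fin.elim0 i⟩) (fun w => hk _)
    refine ⟨fun p => g ⟨p.w, fun _ => 0⟩, hg.map hD
      (φ := fun p : Bs W 0 => (⟨p.w, fun _ => 0⟩ : Bs W 1))
      ⟨fun _ => rfl, fun i => Fn.nat hD 0⟩, fun v => ?_⟩
    have h1 := hgk ⟨v.w, fun _ => 0⟩
    obtain ⟨w, v⟩ := v
    have h2 : v = Fin.elim0 := _root_.funext fun i => i.elim0
    rw [h2]
    exact h1
  · exact h1 n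

open Classical in
theorem av_preds (hC : Clo C) (hD : Clo D) (h : Av C D (Bs W (Cx.n Γ)) k)
    {A : Fin k → Γ → Prop} (hA : ∀ s, Df C (A s)) :
    ∃ Ex : ℕ → Γ → Prop, (∀ c, Df D (Ex c)) ∧ ∀ γ, (∃ c ≤ k, Ex c γ) ∧
      ∀ c, Ex c γ → (Finset.univ.filter (fun s => A s γ)).card ≠ c := by
  choose R hR hRA using hA
  let F : Bs W (Cx.n Γ) → ℕ := fun v => ∑ s, if R s v.w v.v then 1 else 0
  have hR' : ∀ s, Df C (fun p : Bs W (Cx.n Γ) => R s p.w p.v) := fun s =>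
    ⟨R s, hR s, fun _ => Iff.rfl⟩
  have hF : Fn C F := Fn.sum hC fun s => Fn.ite hC (hR' s) (Fn.nat hC 1) (Fn.nat hC 0)
  have hFk : ∀ v, F v ≤ k := by
    intro v
    calc F v ≤ ∑ _s : Fin k, 1 := Finset.sum_le_sum fun s _ => by split_ifs <;> omega
      _ = k := by simp
  obtain ⟨g, hg, hgk⟩ := h F hF hFk
  refine ⟨fun c γ => g ⟨Cx.o γ, Cx.x γ⟩ = c, fun c => ?_,
    fun γ => ⟨⟨g ⟨Cx.o γ, Cx.x γ⟩, (hgk _).1, rfl⟩, ?_⟩⟩
  · exact Df.eqf hD (hg.ren hD (φ := fun γ : Γ => (⟨Cx.o γ, Cx.x γ⟩ : Bs W (Cx.n Γ)))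
      ⟨fun _ => rfl, fun i => ⟨i, fun _ => rfl⟩⟩) (Fn.nat hD c)
  · intro c hc hcard
    have h1 := (hgk ⟨Cx.o γ, Cx.x γ⟩).2
    refine h1 (hc.trans ?_)
    rw [← hcard, Finset.card_filter]
    exact Finset.sum_congr rfl fun s _ => by
      have := hRA s γ
      by_cases h2 : A s γ
      · rw [if_pos h2, if_pos (this.1 h2)]
      · rw [if_neg h2, if_neg (fun h3 => h2 (this.2 h3))]

theorem Fn.ofDigits (hD : Clo D) {f : Γ → ℕ} (hf : Fn D f) (l : List (Γ → ℕ))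
    (hl : ∀ g ∈ l, Fn D g) : Fn D (fun γ => Nat.ofDigits (f γ) (l.map fun g => g γ)) := by
  induction l with
  | nil => exact (Fn.nat hD 0).congr fun γ => by simp
  | cons a l ih =>
    have h1 := (hl a (by simp)).add hD (hf.mul hD (ih fun g hg => hl g (List.mem_cons_of_mem _ hg)))
    exact h1.congr fun γ => by rw [List.map_cons, Nat.ofDigits_cons]

instance instLc (W Γ : Type) [Cx W Γ] : ∀ m, Cx W (Lc Γ m)
  | 0 => inferInstanceAs (Cx W Γ)
  | m + 1 =>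
    letI := instLc W Γ m
    inferInstanceAs (Cx W ((Lc Γ m × ℕ) × ℕ))

theorem rn_bs : ∀ m, Rn (bs (Γ := Γ) m)
  | 0 => Rn.id
  | m + 1 => (Rn.fst.comp Rn.fst).comp (rn_bs m)

theorem vr_ls : ∀ (m i : ℕ), i < m → Vr (fun p : Lc Γ m => ((ls m p).getD i (0, 0)).1)
  | 0, i, h => absurd h (Nat.not_lt_zero _)
  | m + 1, 0, _ => Vr.snd.ren (φ := fun p : (Lc Γ m × ℕ) × ℕ => p.1) Rn.fst
  | m + 1, i + 1, h => (vr_ls m i (by omega)).ren
      (φ := fun p : (Lc Γ m × ℕ) × ℕ => p.1.1) (Rn.fst.comp Rn.fst)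

theorem fn_digits (hD : Clo D) {N : Γ → ℕ} (hN : Fn D N) : ∀ m,
    Fn D (fun p : Lc Γ m => Nat.ofDigits (N (bs m p) + 1) ((ls m p).map Prod.snd))
  | 0 => Fn.nat hD 0
  | m + 1 => by
    have h1 := fn_digits hD hN m
    have h2 : Fn D (fun p : (Lc Γ m × ℕ) × ℕ => p.2 + (N (bs m p.1.1) + 1) *
        Nat.ofDigits (N (bs m p.1.1) + 1) ((ls m p.1.1).map Prod.snd)) :=
      (Vr.snd.fn hD).add hD ((((hN.ren hD (rn_bs m)).add hD (Fn.nat hD 1)).mul hD h1).ren hD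
        (φ := fun p : (Lc Γ m × ℕ) × ℕ => p.1.1) (Rn.fst.comp Rn.fst))
    exact h2

theorem tn_df (hD : Clo D) {K : ℕ} {N : Γ → ℕ} (hN : Fn D N) {L : Γ → List (ℕ × ℕ) → Prop}
    (hL : Df D (fun p : Lc Γ K => L (bs K p) (ls K p))) :
    ∀ d j, j + d = K → Df D (fun p : Lc Γ j => Tn (N (bs j p)) (L (bs j p)) d (ls j p)) := by
  intro d
  induction d with
  | zero =>
    intro j hj
    obtain rfl : j = K := by omega
    exact hL
  | succ d ih =>
    intro j hj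
    have h1 : Df D (fun p : (Lc Γ j × ℕ) × ℕ =>
        Tn (N (bs j p.1.1)) (L (bs j p.1.1)) d ((p.1.2, p.2) :: ls j p.1.1)) := ih (j + 1) (by omega)
    have hb := hN.ren hD (rn_bs (Γ := Γ) j)
    exact (h1.ex hD (hb.fst hD)).all hD hb

theorem exL_df (hD : Clo D) {K : ℕ} {N : Γ → ℕ} (hN : Fn D N) {P : Γ → List (ℕ × ℕ) → Prop}
    (hP : Df D (fun p : Lc Γ K => P (bs K p) (ls K p))) :
    ∀ m j, j + m = K → Df D (fun p : Lc Γ j => ExL (N (bs j p)) (P (bs j p)) m (ls j p)) := by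
  intro m
  induction m with
  | zero =>
    intro j hj
    obtain rfl : j = K := by omega
    exact hP
  | succ m ih =>
    intro j hj
    have h1 : Df D (fun p : (Lc Γ j × ℕ) × ℕ =>
        ExL (N (bs j p.1.1)) (P (bs j p.1.1)) m ((p.1.2, p.2) :: ls j p.1.1)) :=
      ih (j + 1) (by omega)
    have hb := hN.ren hD (rn_bs (Γ := Γ) j)
    exact (h1.ex hD (hb.fst hD)).ex hD hb

/-- The lists of patterns. -/
theorem lists_exist (hC : Clo C) (hD : Clo D) (hA : ∀ n, Av C D (Bs W n) k) {N : Γ → ℕ}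
    (hNC : Fn C N) (hND : Fn D N) {τ : Γ → ℕ → ℕ} (hτ : Fn C (fun p : Γ × ℕ => τ p.1 p.2))
    (hle : ∀ γ t, τ γ t ≤ N γ) : ∃ L : Γ → List (ℕ × ℕ) → Prop,
      Df D (fun p : Lc Γ k => L (bs k p) (ls k p)) ∧ ∀ γ,
        (∀ J : List ℕ, J.length = k → (∀ g ∈ J, g ≤ N γ) → L γ (J.map fun g => (g, τ γ g))) ∧
          Few (N γ) k (L γ) 0 := by
  classical
  let A : Fin k → ((Γ × (Fin k → ℕ)) × (Fin (k + 1) → ℕ)) → Prop := fun s q =>
    q.2 s.succ ≤ Nat.ofDigits (N q.1.1 + 1) (List.ofFn fun i => τ q.1.1 (q.1.2 i))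
  have hAdf : ∀ s, Df C (A s) := by
    intro s
    refine Df.lef hC ((Vr.sndV s.succ).fn hC) ?_
    have hN' : Fn C (fun q : (Γ × (Fin k → ℕ)) × (Fin (k + 1) → ℕ) => N q.1.1 + 1) :=
      (hNC.ren hC (Rn.fstV.comp Rn.fstV)).add hC (Fn.nat hC 1)
    have h1 := hN'.ofDigits hC (List.ofFn fun (i : Fin k)
      (q : (Γ × (Fin k → ℕ)) × (Fin (k + 1) → ℕ)) => τ q.1.1 (q.1.2 i)) (by
        intro g hg
        rw [List.mem_ofFn] at hg
        obtain ⟨i, rfl⟩ := hg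
        exact hτ.ren hC (φ := fun q : (Γ × (Fin k → ℕ)) × (Fin (k + 1) → ℕ) =>
          (q.1.1, q.1.2 i)) ((Rn.fstV.comp Rn.fstV).pair ((Vr.sndV i).ren Rn.fstV)))
    refine h1.congr fun q => ?_
    rw [List.map_ofFn]
    rfl
  obtain ⟨Ex, hEx, hEx2⟩ := av_preds hC hD (hA _) hAdf
  refine ⟨fun γ l => ∀ c : Fin (k + 1) → ℕ, (∀ i, c i ≤ (N γ + 1) ^ k) →
    ((∀ i : Fin k, c i.castSucc < c i.succ) → ∀ s : Fin (k + 1),
      (c s = Nat.ofDigits (N γ + 1) (l.map Prod.snd) →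
        ¬ Ex s.val ((γ, fun i : Fin k => (l.getD i.val (0, 0)).1), c))), ?_, fun γ => ⟨?_, ?_⟩⟩
  · have hM : Fn D (fun p : Lc Γ k => (N (bs k p) + 1) ^ k) :=
      ((hND.ren hD (rn_bs k)).add hD (Fn.nat hD 1)).pow hD k
    refine Df.allV hD (P := fun q : Lc Γ k × (Fin (k + 1) → ℕ) =>
      (∀ i : Fin k, q.2 i.castSucc < q.2 i.succ) → ∀ s : Fin (k + 1),
      (q.2 s = Nat.ofDigits (N (bs k q.1) + 1) ((ls k q.1).map Prod.snd) →
        ¬ Ex s.val ((bs k q.1, fun i : Fin k => ((ls k q.1).getD i.val (0, 0)).1), q.2))) ?_ hM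
    refine Df.imp hD (Df.fin hD fun i => Df.ltf hD ((Vr.sndV _).fn hD) ((Vr.sndV _).fn hD))
      (Df.fin hD fun s => Df.imp hD (Df.eqf hD ((Vr.sndV _).fn hD)
        ((fn_digits hD hND k).ren hD Rn.fstV)) (Df.not hD ?_))
    exact (hEx s.val).ren hD (φ := fun q : Lc Γ k × (Fin (k + 1) → ℕ) =>
      ((bs k q.1, fun i : Fin k => ((ls k q.1).getD i.val (0, 0)).1), q.2))
      (((Rn.fstV.comp (rn_bs k)).pairV fun i => (vr_ls k i.val i.2).ren Rn.fstV).pairV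
        fun i => Vr.sndV i)
  · intro J hJ hJN c _ hc s hs hEs
    have h1 := (hEx2 ((γ, fun i : Fin k => ((J.map fun g => (g, τ γ g)).getD i.val (0, 0)).1),
      c)).2 s.val hEs
    apply h1
    have h2 : (List.ofFn fun i : Fin k =>
        τ γ (((J.map fun g => (g, τ γ g)).getD i.val (0, 0)).1)) = J.map (τ γ) := by
      apply List.ext_getElem
      · simp [hJ]
      · intro i hi1 hi2
        have hi3 : i < J.length := by simpa using hi2
        simp [List.getD_eq_getElem?_getD, hi3]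
    have h3 : ((J.map fun g => (g, τ γ g)).map Prod.snd) = J.map (τ γ) := by
      rw [List.map_map]
      rfl
    rw [h3] at hs
    have hsm : StrictMono c := Fin.strictMono_iff_lt_succ.2 hc
    have h4 := count_mono hsm hs
    refine (congrArg Finset.card (Finset.ext fun i => ?_)).trans h4
    simp only [Finset.mem_filter, Finset.mem_univ, true_and]
    show c i.succ ≤ Nat.ofDigits (N γ + 1) (List.ofFn fun i : Fin k =>
        τ γ (((J.map fun g => (g, τ γ g)).getD i.val (0, 0)).1)) ↔ _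
    rw [h2]
  · intro J hJ hJN S hS
    by_contra hcon
    have hJk : J.length = k := by omega
    have hcard : k + 1 ≤ S.card := by omega
    let S' : Finset ℕ := S.image (Nat.ofDigits (N γ + 1))
    have hS' : S'.card = S.card := by
      refine Finset.card_image_of_injOn ?_
      intro p hp q hq he
      have hp' := hS p hp
      have hq' := hS q hq
      exact ofDigits_inj p q (hp'.1.trans hq'.1.symm) hp'.2.1 hq'.2.1 he
    obtain ⟨T, hTS, hT⟩ := Finset.exists_subset_card_eq (show k + 1 ≤ S'.card by omega)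
    let c : Fin (k + 1) → ℕ := fun i => T.orderEmbOfFin hT i
    have hcT : ∀ i, c i ∈ T := fun i => Finset.orderEmbOfFin_mem _ _ _
    have hcm : StrictMono c := (T.orderEmbOfFin hT).strictMono
    have hcS : ∀ i, ∃ p ∈ S, Nat.ofDigits (N γ + 1) p = c i := fun i => by
      have := hTS (hcT i)
      rw [Finset.mem_image] at this
      exact this
    obtain ⟨s, hs, hEs⟩ := (hEx2 ((γ, fun i : Fin k => J.getD i.val 0), c)).1
    obtain ⟨p, hp, hpc⟩ := hcS ⟨s, by omega⟩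
    have hp' := hS p hp
    have h1 := hp'.2.2 c (by
      intro i
      obtain ⟨q, hq, hqc⟩ := hcS i
      have hq' := hS q hq
      rw [← hqc]
      have := ofDigits_lt q hq'.2.1
      rw [hq'.1, hJk] at this
      exact this.le) (Fin.strictMono_iff_lt_succ.1 hcm) ⟨s, by omega⟩ (by
        rw [← hpc]
        congr 1
        rw [← List.unzip_snd, List.unzip_zip_right (by rw [hp'.1])])
    apply h1
    have h2 : (fun i : Fin k => ((J.zip p).getD i.val (0, 0)).1) =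
        fun i : Fin k => J.getD i.val 0 := by
      funext i
      have hi1 : i.val < J.length := by have := i.2; omega
      have hi2 : i.val < p.length := by rw [hp'.1]; exact hi1
      simp [List.getD_eq_getElem?_getD, hi1, hi2]
    rw [h2]
    exact hEs

/-- The lists of patterns from the relations that name wrong counts. -/
theorem lists_of_ex (hD : Clo D) {N : Γ → ℕ} (hND : Fn D N) {τ : Γ → ℕ → ℕ}
    {Ex : ℕ → (Γ × (Fin k → ℕ)) × (Fin (k + 1) → ℕ) → Prop} (hEx : ∀ c, Df D (Ex c))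
    (hEx2 : ∀ q, (∃ c ≤ k, Ex c q) ∧ ((∀ i : Fin k, q.2 i.castSucc < q.2 i.succ) →
      ∀ c : Fin (k + 1), q.2 c = Nat.ofDigits (N q.1.1 + 1) (List.ofFn fun i =>
        τ q.1.1 (q.1.2 i)) → ¬ Ex c.val q)) :
    ∃ L : Γ → List (ℕ × ℕ) → Prop,
      Df D (fun p : Lc Γ k => L (bs k p) (ls k p)) ∧ ∀ γ,
        (∀ J : List ℕ, J.length = k → (∀ g ∈ J, g ≤ N γ) → L γ (J.map fun g => (g, τ γ g))) ∧
          Few (N γ) k (L γ) 0 := by
  classical
  refine ⟨fun γ l => ∀ c : Fin (k + 1) → ℕ, (∀ i, c i ≤ (N γ + 1) ^ k) →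
    ((∀ i : Fin k, c i.castSucc < c i.succ) → ∀ s : Fin (k + 1),
      (c s = Nat.ofDigits (N γ + 1) (l.map Prod.snd) →
        ¬ Ex s.val ((γ, fun i : Fin k => (l.getD i.val (0, 0)).1), c))), ?_, fun γ => ⟨?_, ?_⟩⟩
  · have hM : Fn D (fun p : Lc Γ k => (N (bs k p) + 1) ^ k) :=
      ((hND.ren hD (rn_bs k)).add hD (Fn.nat hD 1)).pow hD k
    refine Df.allV hD (P := fun q : Lc Γ k × (Fin (k + 1) → ℕ) =>
      (∀ i : Fin k, q.2 i.castSucc < q.2 i.succ) → ∀ s : Fin (k + 1),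
      (q.2 s = Nat.ofDigits (N (bs k q.1) + 1) ((ls k q.1).map Prod.snd) →
        ¬ Ex s.val ((bs k q.1, fun i : Fin k => ((ls k q.1).getD i.val (0, 0)).1), q.2))) ?_ hM
    refine Df.imp hD (Df.fin hD fun i => Df.ltf hD ((Vr.sndV _).fn hD) ((Vr.sndV _).fn hD))
      (Df.fin hD fun s => Df.imp hD (Df.eqf hD ((Vr.sndV _).fn hD)
        ((fn_digits hD hND k).ren hD Rn.fstV)) (Df.not hD ?_))
    exact (hEx s.val).ren hD (φ := fun q : Lc Γ k × (Fin (k + 1) → ℕ) =>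
      ((bs k q.1, fun i : Fin k => ((ls k q.1).getD i.val (0, 0)).1), q.2))
      (((Rn.fstV.comp (rn_bs k)).pairV fun i => (vr_ls k i.val i.2).ren Rn.fstV).pairV
        fun i => Vr.sndV i)
  · intro J hJ hJN c _ hc s hs
    refine (hEx2 ((γ, fun i : Fin k => ((J.map fun g => (g, τ γ g)).getD i.val (0, 0)).1),
      c)).2 hc s ?_
    have h2 : (List.ofFn fun i : Fin k =>
        τ γ (((J.map fun g => (g, τ γ g)).getD i.val (0, 0)).1)) = J.map (τ γ) := by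
      apply List.ext_getElem
      · simp [hJ]
      · intro i hi1 hi2
        have hi3 : i < J.length := by simpa using hi2
        simp [List.getD_eq_getElem?_getD, hi3]
    have h3 : ((J.map fun g => (g, τ γ g)).map Prod.snd) = J.map (τ γ) := by
      rw [List.map_map]
      rfl
    rw [h3] at hs
    show c s = Nat.ofDigits (N γ + 1) (List.ofFn fun i : Fin k =>
        τ γ (((J.map fun g => (g, τ γ g)).getD i.val (0, 0)).1))
    rw [h2]
    exact hs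
  · intro J hJ hJN S hS
    by_contra hcon
    have hJk : J.length = k := by omega
    have hcard : k + 1 ≤ S.card := by omega
    let S' : Finset ℕ := S.image (Nat.ofDigits (N γ + 1))
    have hS' : S'.card = S.card := by
      refine Finset.card_image_of_injOn ?_
      intro p hp q hq he
      have hp' := hS p hp
      have hq' := hS q hq
      exact ofDigits_inj p q (hp'.1.trans hq'.1.symm) hp'.2.1 hq'.2.1 he
    obtain ⟨T, hTS, hT⟩ := Finset.exists_subset_card_eq (show k + 1 ≤ S'.card by omega)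
    let c : Fin (k + 1) → ℕ := fun i => T.orderEmbOfFin hT i
    have hcT : ∀ i, c i ∈ T := fun i => Finset.orderEmbOfFin_mem _ _ _
    have hcm : StrictMono c := (T.orderEmbOfFin hT).strictMono
    have hcS : ∀ i, ∃ p ∈ S, Nat.ofDigits (N γ + 1) p = c i := fun i => by
      have := hTS (hcT i)
      rw [Finset.mem_image] at this
      exact this
    obtain ⟨s, hs, hEs⟩ := (hEx2 ((γ, fun i : Fin k => J.getD i.val 0), c)).1
    obtain ⟨p, hp, hpc⟩ := hcS ⟨s, by omega⟩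
    have hp' := hS p hp
    have h1 := hp'.2.2 c (by
      intro i
      obtain ⟨q, hq, hqc⟩ := hcS i
      have hq' := hS q hq
      rw [← hqc]
      have := ofDigits_lt q hq'.2.1
      rw [hq'.1, hJk] at this
      exact this.le) (Fin.strictMono_iff_lt_succ.1 hcm) ⟨s, by omega⟩ (by
        rw [← hpc]
        congr 1
        rw [← List.unzip_snd, List.unzip_zip_right (by rw [hp'.1])])
    apply h1
    have h2 : (fun i : Fin k => ((J.zip p).getD i.val (0, 0)).1) =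
        fun i : Fin k => J.getD i.val 0 := by
      funext i
      have hi1 : i.val < J.length := by have := i.2; omega
      have hi2 : i.val < p.length := by rw [hp'.1]; exact hi1
      simp [List.getD_eq_getElem?_getD, hi1, hi2]
    rw [h2]
    exact hEs

theorem rn_lm {φ : Δ → Γ} (hφ : Rn φ) : ∀ m, Rn (lm φ m)
  | 0 => hφ
  | m + 1 => (((Rn.fst.comp Rn.fst).comp (rn_lm hφ m)).pair
      ((Vr.snd (Γ := Lc Δ m)).ren (φ := fun p : (Lc Δ m × ℕ) × ℕ => p.1) Rn.fst)).pair Vr.snd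

/-- The engine. -/
theorem engine (hD : Clo D) {N : Γ → ℕ} (hN : Fn D N) {τ : Γ → ℕ → ℕ}
    (hle : ∀ γ, ∀ g ≤ N γ, τ γ g ≤ N γ) {L : Γ → List (ℕ × ℕ) → Prop}
    (hL : Df D (fun p : Lc Γ k => L (bs k p) (ls k p)))
    (hL2 : ∀ γ, (∀ J : List ℕ, J.length = k → (∀ g ∈ J, g ≤ N γ) →
      L γ (J.map fun g => (g, τ γ g))) ∧ Few (N γ) k (L γ) 0)
    (Ck : Γ → (ℕ → ℕ → Prop) → Prop)
    (h1 : ∀ γ Q, Ck γ Q → ∀ g ≤ N γ, ∀ w ≤ N γ, (Q g w ↔ w = τ γ g))
    (h2 : ∀ γ Q, (∀ g ≤ N γ, ∀ w ≤ N γ, (Q g w ↔ w = τ γ g)) → Ck γ Q)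
    (h3 : ∀ {Δ : Type} [Cx W Δ] (φ : Δ → Γ), Rn φ → ∀ Q : (Δ × ℕ) × ℕ → Prop, Df D Q →
      Df D (fun δ => Ck (φ δ) (fun g w => Q ((δ, g), w)))) :
    Df D (fun q : (Γ × ℕ) × ℕ => (q.1.2 ≤ N q.1.1 ∧ q.2 ≤ N q.1.1) ∧ q.2 = τ q.1.1 q.1.2) := by
  classical
  have h11 : Rn (fun q : (Γ × ℕ) × ℕ => q.1.1) := Rn.fst.comp Rn.fst
  have hN' : Fn D (fun q : (Γ × ℕ) × ℕ => N q.1.1) := hN.ren hD h11
  have hL' : Df D (fun p : Lc ((Γ × ℕ) × ℕ) k => L (bs k p).1.1 (ls k p)) := by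
    refine (hL.ren hD (rn_lm h11 k)).congr fun p => ?_
    rw [bs_lm, ls_lm]
  have key : Df D (fun q : (Γ × ℕ) × ℕ => ∃ d : Fin k,
      ExL (N q.1.1) (fun l => Ck q.1.1 (fun g w => Tn (N q.1.1) (L q.1.1) d.val ((g, w) :: l)) ∧
        Tn (N q.1.1) (L q.1.1) d.val ((q.1.2, q.2) :: l)) (k - (d.val + 1)) []) := by
    refine Df.exfin hD fun d => ?_
    have hd := d.2
    refine exL_df hD hN' (K := k - (d.val + 1)) (P := fun (q : (Γ × ℕ) × ℕ) (l : List (ℕ × ℕ)) =>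
      Ck q.1.1 (fun g w => Tn (N q.1.1) (L q.1.1) d.val ((g, w) :: l)) ∧
        Tn (N q.1.1) (L q.1.1) d.val ((q.1.2, q.2) :: l)) ?_ (k - (d.val + 1)) 0 (by omega)
    set m := k - (d.val + 1) with hm
    have hQ : Df D (fun p : (Lc ((Γ × ℕ) × ℕ) m × ℕ) × ℕ =>
        Tn (N (bs m p.1.1).1.1) (L (bs m p.1.1).1.1) d.val ((p.1.2, p.2) :: ls m p.1.1)) :=
      tn_df hD hN' (L := fun q : (Γ × ℕ) × ℕ => L q.1.1) hL' d.val (m + 1) (by omega)
    have hb : Rn (bs (Γ := (Γ × ℕ) × ℕ) m) := rn_bs m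
    refine Df.and hD (h3 (fun p : Lc ((Γ × ℕ) × ℕ) m => (bs m p).1.1) (hb.comp h11) _ hQ) ?_
    exact hQ.ren hD (φ := fun p : Lc ((Γ × ℕ) × ℕ) m => ((p, (bs m p).1.2), (bs m p).2))
      ((Rn.id.pair ((Vr.snd.ren (φ := fun q : (Γ × ℕ) × ℕ => q.1) Rn.fst).ren hb)).pair
        (Vr.snd.ren hb))
  have hr : Df D (fun q : (Γ × ℕ) × ℕ => q.1.2 ≤ N q.1.1 ∧ q.2 ≤ N q.1.1) :=
    (Df.lef hD ((Vr.snd.ren (φ := fun q : (Γ × ℕ) × ℕ => q.1) Rn.fst).fn hD) hN').and hD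
      (Df.lef hD (Vr.snd.fn hD) hN')
  refine (hr.and hD key).congr fun q => and_congr_right fun hq => ?_
  constructor
  · intro hqτ
    obtain ⟨hT, hFew⟩ := hL2 q.1.1
    obtain ⟨d, hd, J, hJ, hJN, hw⟩ := world (N := N q.1.1) (k := k) (τ := τ q.1.1)
      (fun t ht => hle _ t ht) hT hFew
    refine ⟨⟨d, hd⟩, ?_⟩
    have hlen : k - (d + 1) = (J.map fun t => (t, τ q.1.1 t)).reverse.length := by
      simp; omega
    show ExL (N q.1.1) _ (k - (d + 1)) []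
    rw [hlen]
    refine ExL.of _ [] ?_ ?_
    · intro e he
      rw [List.mem_reverse, List.mem_map] at he
      obtain ⟨t, ht, rfl⟩ := he
      exact ⟨hJN t ht, hle _ t (hJN t ht)⟩
    · rw [List.reverse_reverse, List.append_nil]
      exact ⟨h2 _ _ hw, (hw _ hq.1 _ hq.2).2 hqτ⟩
  · rintro ⟨d, hd⟩
    refine ExL.sound ?_ _ _ hd
    rintro l ⟨g0, g1⟩
    exact (h1 _ _ g0 _ hq.1 _ hq.2).1 g1

end Pool.Agent.TH762.WD
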