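import Pool.Agent.TH762.WD.Lba

set_option autoImplicit false

/-!
Reachability predicates are closed under transitive closure, bounded quantification and complement
(Immerman, Szelepcsenyi).
-/

namespace Pool.Agent.TH762.WD

open MvPolynomial Relation
open Pool.Agent.TH762.E2 (dc1 dc2 dc_code rtg_lift Rch rch_le rch_sound rch_mono rch_sat pr pr_mono pr_inj uA uB uX act act_dec Itr cnt cnt_succ cnt_le cnt_mono cnt_lt cnt_eq_self itr_guess itr_exact itr_fun)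

variable {W : Type} [Wd W] {C D : (n : ℕ) → Set (W → (Fin n → ℕ) → Prop)} {Γ Δ : Type}
  [Cx W Γ] [Cx W Δ] {k n : ℕ}

theorem Fn.uA (hD : Clo D) {f : Γ → ℕ} (hf : Fn D f) : Fn D (fun γ => uA (f γ)) :=
  (((hf.tsub hD (Fn.nat hD 1)).div hD (Fn.nat hD 1))).dc1 hD

theorem Fn.uB (hD : Clo D) {f : Γ → ℕ} (hf : Fn D f) : Fn D (fun γ => uB (f γ)) :=
  ((((hf.tsub hD (Fn.nat hD 1)).div hD (Fn.nat hD 1))).dc2 hD).dc1 hD

theorem Fn.uX (hD : Clo D) {f : Γ → ℕ} (hf : Fn D f) : Fn D (fun γ => uX (f γ)) :=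
  ((((hf.tsub hD (Fn.nat hD 1)).div hD (Fn.nat hD 1))).dc2 hD).dc2 hD

theorem Fn.act (hD : Clo D) {f g h : Γ → ℕ} (hf : Fn D f) (hg : Fn D g) (hh : Fn D h) :
    Fn D (fun γ => act (f γ) (g γ) (h γ)) :=
  ((Fn.nat hD 2).mul hD (hf.pr hD (hg.pr hD hh))).add hD (Fn.nat hD 1)

/-- Reachability predicates are closed under transitive closure. -/
theorem np_rtg (hC : Clo C) {G : (Γ × ℕ) × ℕ → Prop} (hG : Np C G) {b : Γ → ℕ} (hb : Fn C b) :
    Np C (fun q : (Γ × ℕ) × ℕ => ReflTransGen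
      (fun a a' => a ≤ b q.1.1 ∧ a' ≤ b q.1.1 ∧ G ((q.1.1, a), a')) q.1.2 q.2) := by
  obtain ⟨E, b', s, e, hE, hb', hs, he, h1, h2⟩ := hG
  obtain ⟨B, hB⟩ := ((hb'.add hC hs).add hC he).2
  have h11 : Rn (fun q : (Γ × ℕ) × ℕ => q.1.1) := Rn.fst.comp Rn.fst
  -- a bound for the inner states
  let Bv : Γ → ℕ := fun γ =>
    eval (yv (Cx.o γ) (Cx.x (((γ, b γ), b γ) : (Γ × ℕ) × ℕ))) B
  have hBv : Fn C Bv := (Fn.poly (Γ := (Γ × ℕ) × ℕ) hC B).map hC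
    (φ := fun γ : Γ => ((γ, b γ), b γ)) (((Mp.id hC).pair hb).pair hb)
  have hBd : ∀ γ a a', a ≤ b γ → a' ≤ b γ → b' ((γ, a), a') + s ((γ, a), a') +
      e ((γ, a), a') ≤ Bv γ := by
    intro γ a a' ha ha'
    refine (hB ((γ, a), a')).trans (eval_mono B fun j => ?_)
    change Fin (Cx.n Γ + 1 + 1 + 1) at j
    refine Fin.cases ?_ (fun j => ?_) j
    · exact le_rfl
    · refine Fin.cases ?_ (fun j => ?_) j
      · exact ha'
      · refine Fin.cases ?_ (fun j => ?_) j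
        · exact ha
        · exact le_rfl
  let Z : (Γ × ℕ) × ℕ → ℕ := fun q =>
    act (b q.1.1) (b q.1.1) (Bv q.1.1) + 2 * (b q.1.1 + q.1.2 + q.2)
  have hZ : Fn C Z := by
    have hbq := hb.ren hC h11
    exact (hbq.act hC hbq (hBv.ren hC h11)).add hC ((Fn.nat hC 2).mul hC
      ((hbq.add hC ((Vr.snd.ren Rn.fst).fn hC)).add hC (Vr.snd.fn hC)))
  let H : (Γ × ℕ) × ℕ → ℕ → ℕ → Prop := fun q z z' =>
    (z ≤ Z q ∧ z' ≤ Z q) ∧
    ((z = 2 * uA z' ∧ act (uA z') (uB z') (uX z') = z' ∧ uA z' ≤ b q.1.1 ∧ uB z' ≤ b q.1.1 ∧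
        uX z' = s ((q.1.1, uA z'), uB z')) ∨
     (act (uA z) (uB z) (uX z) = z ∧ act (uA z') (uB z') (uX z') = z' ∧ uA z = uA z' ∧
        uB z = uB z' ∧ E ((((q.1.1, uA z), uB z), uX z), uX z')) ∨
     (act (uA z) (uB z) (uX z) = z ∧ z' = 2 * uB z ∧ uX z = e ((q.1.1, uA z), uB z)))
  refine ⟨fun r => H r.1.1 r.1.2 r.2, Z, fun q => 2 * q.1.2, fun q => 2 * q.2, ?_, hZ,
    (Fn.nat hC 2).mul hC ((Vr.snd.ren Rn.fst).fn hC), (Fn.nat hC 2).mul hC (Vr.snd.fn hC),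
    fun q z z' h => h.1, ?_⟩
  · have hz : Fn C (fun r : (((Γ × ℕ) × ℕ) × ℕ) × ℕ => r.1.2) := (Vr.snd.ren Rn.fst).fn hC
    have hz' : Fn C (fun r : (((Γ × ℕ) × ℕ) × ℕ) × ℕ => r.2) := Vr.snd.fn hC
    have hq : Rn (fun r : (((Γ × ℕ) × ℕ) × ℕ) × ℕ => r.1.1) := Rn.fst.comp Rn.fst
    have hγ : Rn (fun r : (((Γ × ℕ) × ℕ) × ℕ) × ℕ => r.1.1.1.1) := hq.comp h11
    have hZr := hZ.ren hC hq
    have hbr := hb.ren hC hγ
    have A1 := hz.uA hC
    have A2 := hz.uB hC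
    have A3 := hz.uX hC
    have B1 := hz'.uA hC
    have B2 := hz'.uB hC
    have B3 := hz'.uX hC
    have va : Df C (fun r : (((Γ × ℕ) × ℕ) × ℕ) × ℕ =>
        act (uA r.1.2) (uB r.1.2) (uX r.1.2) = r.1.2) := Df.eqf hC (A1.act hC A2 A3) hz
    have vb : Df C (fun r : (((Γ × ℕ) × ℕ) × ℕ) × ℕ =>
        act (uA r.2) (uB r.2) (uX r.2) = r.2) := Df.eqf hC (B1.act hC B2 B3) hz'
    refine Df.and hC (Df.and hC (Df.lef hC hz hZr) (Df.lef hC hz' hZr)) (Df.or hC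
      (Df.and hC (Df.eqf hC hz ((Fn.nat hC 2).mul hC B1)) (Df.and hC vb (Df.and hC
        (Df.lef hC B1 hbr) (Df.and hC (Df.lef hC B2 hbr) (Df.eqf hC B3 ?_)))))
      (Df.or hC (Df.and hC va (Df.and hC vb (Df.and hC (Df.eqf hC A1 B1) (Df.and hC
        (Df.eqf hC A2 B2) ?_)))) (Df.and hC va (Df.and hC (Df.eqf hC hz'
          ((Fn.nat hC 2).mul hC A2)) (Df.eqf hC A3 ?_)))))
    · exact hs.map hC (φ := fun r : (((Γ × ℕ) × ℕ) × ℕ) × ℕ =>
        ((r.1.1.1.1, uA r.2), uB r.2)) (((hγ.mp hC).pair B1).pair B2)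
    · exact hE.map hC (φ := fun r : (((Γ × ℕ) × ℕ) × ℕ) × ℕ =>
        ((((r.1.1.1.1, uA r.1.2), uB r.1.2), uX r.1.2), uX r.2))
        (((((hγ.mp hC).pair A1).pair A2).pair A3).pair B3)
    · exact he.map hC (φ := fun r : (((Γ × ℕ) × ℕ) × ℕ) × ℕ =>
        ((r.1.1.1.1, uA r.1.2), uB r.1.2)) (((hγ.mp hC).pair A1).pair A2)
  · intro q
    have hact : ∀ a a' x, a ≤ b q.1.1 → a' ≤ b q.1.1 → x ≤ Bv q.1.1 → act a a' x ≤ Z q := by
      intro a a' x ha ha' hx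
      refine le_trans ?_ (Nat.le_add_right _ _)
      have := pr_mono ha (pr_mono ha' hx)
      unfold act
      omega
    have hin : ∀ a a', a ≤ b q.1.1 → a' ≤ b q.1.1 → ∀ x,
        ReflTransGen (fun x x' => E ((((q.1.1, a), a'), x), x')) (s ((q.1.1, a), a')) x →
        x ≤ Bv q.1.1 := by
      intro a a' ha ha' x hx
      have h3 := hBd q.1.1 a a' ha ha'
      rcases hx.cases_tail with h4 | ⟨y, _, h4⟩
      · rw [h4]; omega
      · have := (h1 ((q.1.1, a), a') y x h4).2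
        omega
    constructor
    · intro hr
      -- lift a path
      have step : ∀ a a', a ≤ b q.1.1 → a' ≤ b q.1.1 → G ((q.1.1, a), a') →
          ReflTransGen (H q) (2 * a) (2 * a') := by
        intro a a' ha ha' hG
        have hp := (h2 ((q.1.1, a), a')).1 hG
        have hs' := hin a a' ha ha' _ ReflTransGen.refl
        have p1 : H q (2 * a) (act a a' (s ((q.1.1, a), a'))) := by
          have hd := act_dec a a' (s ((q.1.1, a), a'))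
          refine ⟨⟨?_, hact _ _ _ ha ha' hs'⟩, Or.inl ?_⟩
          · show 2 * a ≤ act _ _ _ + 2 * (b q.1.1 + q.1.2 + q.2)
            omega
          · rw [hd.1, hd.2.1, hd.2.2]
            exact ⟨rfl, rfl, ha, ha', rfl⟩
        have p2 : ∀ x, ReflTransGen (fun x x' => E ((((q.1.1, a), a'), x), x'))
            (s ((q.1.1, a), a')) x →
            ReflTransGen (H q) (act a a' (s ((q.1.1, a), a'))) (act a a' x) := by
          intro x hx
          induction hx with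
          | refl => exact ReflTransGen.refl
          | @tail y z hy hstep ih =>
            refine ih.tail ⟨⟨hact _ _ _ ha ha' (hin a a' ha ha' y hy),
              hact _ _ _ ha ha' (hin a a' ha ha' z (hy.tail hstep))⟩, Or.inr (Or.inl ?_)⟩
            have hd := act_dec a a' y
            have hd' := act_dec a a' z
            rw [hd.1, hd.2.1, hd.2.2, hd'.1, hd'.2.1, hd'.2.2]
            exact ⟨rfl, rfl, rfl, rfl, hstep⟩
        have p3 : H q (act a a' (e ((q.1.1, a), a'))) (2 * a') := by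
          have hd := act_dec a a' (e ((q.1.1, a), a'))
          refine ⟨⟨hact _ _ _ ha ha' (hin a a' ha ha' _ hp), ?_⟩, Or.inr (Or.inr ?_)⟩
          · show 2 * a' ≤ act _ _ _ + 2 * (b q.1.1 + q.1.2 + q.2)
            omega
          · rw [hd.1, hd.2.1, hd.2.2]
            exact ⟨rfl, rfl, rfl⟩
        exact (ReflTransGen.head p1 (p2 _ hp)).tail p3
      have all : ∀ x, ReflTransGen
          (fun a a' => a ≤ b q.1.1 ∧ a' ≤ b q.1.1 ∧ G ((q.1.1, a), a')) q.1.2 x →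
          ReflTransGen (H q) (2 * q.1.2) (2 * x) := by
        intro x hx
        induction hx with
        | refl => exact ReflTransGen.refl
        | tail _ hstep ih => exact ih.trans (step _ _ hstep.1 hstep.2.1 hstep.2.2)
      exact all _ hr
    · intro hr
      have inv : ∀ z, ReflTransGen (H q) (2 * q.1.2) z →
          (∃ a, z = 2 * a ∧ ReflTransGen
            (fun a a' => a ≤ b q.1.1 ∧ a' ≤ b q.1.1 ∧ G ((q.1.1, a), a')) q.1.2 a) ∨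
          (∃ a a' x, z = act a a' x ∧ a ≤ b q.1.1 ∧ a' ≤ b q.1.1 ∧ ReflTransGen
            (fun a a' => a ≤ b q.1.1 ∧ a' ≤ b q.1.1 ∧ G ((q.1.1, a), a')) q.1.2 a ∧
            ReflTransGen (fun x x' => E ((((q.1.1, a), a'), x), x')) (s ((q.1.1, a), a')) x) := by
        intro z hz
        induction hz with
        | refl => exact Or.inl ⟨_, rfl, ReflTransGen.refl⟩
        | @tail z z' _ hstep ih =>
          obtain ⟨_, g | g | g⟩ := hstep
          · obtain ⟨g1, g2, g3, g4, g5⟩ := g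
            rcases ih with ⟨a, ha, hr⟩ | ⟨a, a', x, hx, _⟩
            · have : a = uA z' := by omega
              rw [this] at hr
              refine Or.inr ⟨uA z', uB z', uX z', g2.symm, g3, g4, hr, ?_⟩
              rw [g5]
            · unfold act at hx
              omega
          · obtain ⟨g1, g2, g3, g4, g5⟩ := g
            rcases ih with ⟨a, ha, hr⟩ | ⟨a, a', x, hx, ha, ha', hr, hr'⟩
            · unfold act at g1
              omega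
            · have hd := act_dec a a' x
              rw [← hx] at hd
              rw [hd.1, hd.2.1, hd.2.2] at g5
              rw [hd.1] at g3
              rw [hd.2.1] at g4
              refine Or.inr ⟨a, a', uX z', ?_, ha, ha', hr, hr'.tail g5⟩
              rw [g3, g4, g2]
          · obtain ⟨g1, g2, g3⟩ := g
            rcases ih with ⟨a, ha, hr⟩ | ⟨a, a', x, hx, ha, ha', hr, hr'⟩
            · unfold act at g1
              omega
            · have hd := act_dec a a' x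
              rw [← hx] at hd
              rw [hd.1, hd.2.1, hd.2.2] at g3
              rw [hd.2.1] at g2
              rw [g3] at hr'
              exact Or.inl ⟨a', g2, hr.tail ⟨ha, ha', (h2 ((q.1.1, a), a')).2 hr'⟩⟩
      rcases inv _ hr with ⟨a, ha, hr'⟩ | ⟨a, a', x, hx, _⟩
      · have hq2 : 2 * q.2 = 2 * a := ha
        have : a = q.2 := by omega
        rw [this] at hr'
        exact hr'
      · exfalso
        have hx' : 2 * q.2 = act a a' x := hx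
        unfold act at hx'
        omega

/-- Bounded existential quantification. -/
theorem Np.ex (hC : Clo C) {P : Γ × ℕ → Prop} (h : Np C P) {f : Γ → ℕ} (hf : Fn C f) :
    Np C (fun γ => ∃ y ≤ f γ, P (γ, y)) := by
  have h11 : Rn (fun q : (Γ × ℕ) × ℕ => q.1.1) := Rn.fst.comp Rn.fst
  have hx : Fn C (fun q : (Γ × ℕ) × ℕ => q.1.2) := (Vr.snd.ren Rn.fst).fn hC
  have hy : Fn C (fun q : (Γ × ℕ) × ℕ => q.2) := Vr.snd.fn hC
  have hG : Np C (fun q : (Γ × ℕ) × ℕ =>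
      (q.1.2 = 0 ∧ 2 ≤ q.2 ∧ q.2 - 2 ≤ f q.1.1) ∨
        ((2 ≤ q.1.2 ∧ q.2 = 1 ∧ q.1.2 - 2 ≤ f q.1.1) ∧ P (q.1.1, q.1.2 - 2))) := by
    refine Np.or hC (Np.of_df hC ((Df.eqf hC hx (Fn.nat hC 0)).and hC ((Df.lef hC (Fn.nat hC 2)
      hy).and hC (Df.lef hC (hy.tsub hC (Fn.nat hC 2)) (hf.ren hC h11)))))
      (Np.and hC (Np.of_df hC ((Df.lef hC (Fn.nat hC 2) hx).and hC ((Df.eqf hC hy
        (Fn.nat hC 1)).and hC (Df.lef hC (hx.tsub hC (Fn.nat hC 2)) (hf.ren hC h11))))) ?_)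
    exact h.map hC (φ := fun q : (Γ × ℕ) × ℕ => (q.1.1, q.1.2 - 2))
      ((h11.mp hC).pair (hx.tsub hC (Fn.nat hC 2)))
  have h3 := (np_rtg hC hG (hf.add hC (Fn.nat hC 2))).map hC
    (φ := fun γ : Γ => ((γ, 0), 1)) (((Mp.id hC).pair (Fn.nat hC 0)).pair (Fn.nat hC 1))
  refine h3.congr fun γ => ?_
  show (∃ y ≤ f γ, P (γ, y)) ↔ ReflTransGen (fun a a' => a ≤ f γ + 2 ∧ a' ≤ f γ + 2 ∧
    ((a = 0 ∧ 2 ≤ a' ∧ a' - 2 ≤ f γ) ∨ ((2 ≤ a ∧ a' = 1 ∧ a - 2 ≤ f γ) ∧ P (γ, a - 2)))) 0 1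
  constructor
  · rintro ⟨y, hy, hP⟩
    refine (ReflTransGen.single (b := y + 2) ⟨by omega, by omega,
      Or.inl ⟨rfl, by omega, by omega⟩⟩).tail ⟨by omega, by omega, Or.inr
        ⟨⟨by omega, rfl, by omega⟩, ?_⟩⟩
    rw [Nat.add_sub_cancel]
    exact hP
  · intro hr
    have inv : ∀ x, ReflTransGen (fun a a' => a ≤ f γ + 2 ∧ a' ≤ f γ + 2 ∧
        ((a = 0 ∧ 2 ≤ a' ∧ a' - 2 ≤ f γ) ∨ ((2 ≤ a ∧ a' = 1 ∧ a - 2 ≤ f γ) ∧ P (γ, a - 2))))
        0 x → x = 0 ∨ 2 ≤ x ∨ (x = 1 ∧ ∃ y ≤ f γ, P (γ, y)) := by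
      intro x hx
      induction hx with
      | refl => exact Or.inl rfl
      | tail _ hstep ih =>
        obtain ⟨_, _, ⟨_, g, _⟩ | ⟨⟨_, g1, g2⟩, g3⟩⟩ := hstep
        · exact Or.inr (Or.inl g)
        · exact Or.inr (Or.inr ⟨g1, _, g2, g3⟩)
    rcases inv 1 hr with h0 | h0 | ⟨_, h0⟩
    · omega
    · omega
    · exact h0

theorem np_itr (hC : Clo C) {M : ((Γ × ℕ) × ℕ) × ℕ → Prop} (hM : Np C M) {g m0 : Γ → ℕ}
    (hg : Fn C g) (hm : Fn C m0) (hb : ∀ γ a m m', M (((γ, a), m), m') → m' ≤ g γ) :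
    Np C (fun q : (Γ × ℕ) × ℕ =>
      Itr (fun a m m' => M (((q.1.1, a), m), m')) (m0 q.1.1) q.1.2 q.2) := by
  have h11 : Rn (fun q : (Γ × ℕ) × ℕ => q.1.1) := Rn.fst.comp Rn.fst
  have q11 : Rn (fun r : (((Γ × ℕ) × ℕ) × ℕ) × ℕ => r.1.1) := Rn.fst.comp Rn.fst
  have hx : Fn C (fun r : (((Γ × ℕ) × ℕ) × ℕ) × ℕ => r.1.2) := (Vr.snd.ren Rn.fst).fn hC
  have hy : Fn C (fun r : (((Γ × ℕ) × ℕ) × ℕ) × ℕ => r.2) := Vr.snd.fn hC
  let B : (Γ × ℕ) × ℕ → ℕ := fun q => pr q.1.2 (g q.1.1 + m0 q.1.1)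
  have hB : Fn C B := ((Vr.snd.ren Rn.fst).fn hC).pr hC
    ((hg.ren hC h11).add hC (hm.ren hC h11))
  have hG : Np C (fun r : (((Γ × ℕ) × ℕ) × ℕ) × ℕ =>
      (pr (dc1 r.1.2) (dc2 r.1.2) = r.1.2 ∧ pr (dc1 r.2) (dc2 r.2) = r.2 ∧
        dc1 r.2 = dc1 r.1.2 + 1) ∧ M (((r.1.1.1.1, dc1 r.1.2), dc2 r.1.2), dc2 r.2)) := by
    refine Np.and hC (Np.of_df hC ((Df.eqf hC ((hx.dc1 hC).pr hC (hx.dc2 hC)) hx).and hC
      ((Df.eqf hC ((hy.dc1 hC).pr hC (hy.dc2 hC)) hy).and hC (Df.eqf hC (hy.dc1 hC)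
        ((hx.dc1 hC).add hC (Fn.nat hC 1)))))) ?_
    exact hM.map hC (φ := fun r : (((Γ × ℕ) × ℕ) × ℕ) × ℕ =>
      (((r.1.1.1.1, dc1 r.1.2), dc2 r.1.2), dc2 r.2))
      (((((q11.comp h11).mp hC).pair (hx.dc1 hC)).pair (hx.dc2 hC)).pair (hy.dc2 hC))
  have h3 := (np_rtg hC hG hB).map hC
    (φ := fun q : (Γ × ℕ) × ℕ => ((q, pr 0 (m0 q.1.1)), pr q.1.2 q.2))
    (((Mp.id hC).pair ((Fn.nat hC 0).pr hC (hm.ren hC h11))).pair
      (((Vr.snd.ren Rn.fst).fn hC).pr hC (Vr.snd.fn hC)))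
  refine h3.congr fun q => ?_
  show Itr (fun a m m' => M (((q.1.1, a), m), m')) (m0 q.1.1) q.1.2 q.2 ↔
    ReflTransGen (fun z z' => z ≤ B q ∧ z' ≤ B q ∧ (pr (dc1 z) (dc2 z) = z ∧
      pr (dc1 z') (dc2 z') = z' ∧ dc1 z' = dc1 z + 1) ∧
        M (((q.1.1, dc1 z), dc2 z), dc2 z')) (pr 0 (m0 q.1.1)) (pr q.1.2 q.2)
  have hdec : ∀ a m, dc1 (pr a m) = a ∧ dc2 (pr a m) = m := fun a m => dc_code a m
  have hbd : ∀ n m, Itr (fun a m m' => M (((q.1.1, a), m), m')) (m0 q.1.1) n m →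
      m ≤ g q.1.1 + m0 q.1.1 := by
    intro n m h
    rcases n with _ | n
    · have h' : m = m0 q.1.1 := h
      omega
    · obtain ⟨m', _, h'⟩ := h
      have := hb _ _ _ _ h'
      omega
  constructor
  · intro h
    have key : ∀ n, n ≤ q.1.2 → ∀ m, Itr (fun a m m' => M (((q.1.1, a), m), m')) (m0 q.1.1) n m →
        ReflTransGen (fun z z' => z ≤ B q ∧ z' ≤ B q ∧ (pr (dc1 z) (dc2 z) = z ∧
          pr (dc1 z') (dc2 z') = z' ∧ dc1 z' = dc1 z + 1) ∧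
          M (((q.1.1, dc1 z), dc2 z), dc2 z')) (pr 0 (m0 q.1.1)) (pr n m) := by
      intro n
      induction n with
      | zero =>
        intro _ m h
        have h' : m = m0 q.1.1 := h
        rw [h']
      | succ n ih =>
        intro hn m hm'
        have hmm := hm'
        obtain ⟨m', h', hM'⟩ := hm'
        refine (ih (by omega) m' h').tail ⟨pr_mono (by omega) (hbd _ _ h'),
          pr_mono hn (hbd _ _ hmm), ?_⟩
        rw [(hdec n m').1, (hdec n m').2, (hdec (n + 1) m).1, (hdec (n + 1) m).2]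
        exact ⟨⟨rfl, rfl, rfl⟩, hM'⟩
    exact key _ le_rfl _ h
  · intro hr
    have inv : ∀ z, ReflTransGen (fun z z' => z ≤ B q ∧ z' ≤ B q ∧ (pr (dc1 z) (dc2 z) = z ∧
        pr (dc1 z') (dc2 z') = z' ∧ dc1 z' = dc1 z + 1) ∧
        M (((q.1.1, dc1 z), dc2 z), dc2 z')) (pr 0 (m0 q.1.1)) z →
        ∃ n m, z = pr n m ∧ Itr (fun a m m' => M (((q.1.1, a), m), m')) (m0 q.1.1) n m := by
      intro z hz
      induction hz with
      | refl => exact ⟨0, _, rfl, rfl⟩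
      | @tail z z' _ hstep ih =>
        obtain ⟨n, m, hz, hI⟩ := ih
        obtain ⟨_, _, ⟨_, g2, g3⟩, g4⟩ := hstep
        rw [hz, (hdec n m).1] at g3
        rw [hz, (hdec n m).1, (hdec n m).2] at g4
        refine ⟨n + 1, dc2 z', ?_, m, hI, g4⟩
        rw [← g3, g2]
    obtain ⟨n, m, hz, hI⟩ := inv _ hr
    obtain ⟨e1, e2⟩ := pr_inj hz
    rw [e1, e2]
    exact hI

/-- **Complementation** (Immerman, Szelepcsenyi). -/
theorem Np.not (hC : Clo C) {P : Γ → Prop} (h : Np C P) : Np C (fun γ => ¬ P γ) := by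
  classical
  obtain ⟨E, b, s, e, hE, hb, hs, he, h1, h2⟩ := h
  let R : Γ → ℕ → ℕ → Prop := fun γ t c => Rch (fun a a' => E ((γ, a), a')) (s γ) t c
  have hR : Np C (fun q : (Γ × ℕ) × ℕ => R q.1.1 q.1.2 q.2) := np_rch hC hE hb hs h1
  let ct : Γ → ℕ → ℕ := fun γ t => cnt (fun c => R γ t c) (b γ + 1)
  -- not reached, in the context (((γ, t), r), c)
  let NR : ((Γ × ℕ) × ℕ) × ℕ → Prop := fun p =>
    Itr (fun a m m' => m' ≤ b p.1.1.1 + 1 ∧ (m' = m ∨ (m' = m + 1 ∧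
      (R p.1.1.1 p.1.1.2 a ∧ ¬ E ((p.1.1.1, a), p.2) ∧ a ≠ p.2)))) 0 (b p.1.1.1 + 1) p.1.2
  have p111 : Rn (fun p : ((Γ × ℕ) × ℕ) × ℕ => p.1.1.1) := (Rn.fst.comp Rn.fst).comp Rn.fst
  have hNR : Np C NR := by
    have hM : Np C (fun u : (((((Γ × ℕ) × ℕ) × ℕ) × ℕ) × ℕ) × ℕ =>
        u.2 ≤ b u.1.1.1.1.1.1 + 1 ∧ (u.2 = u.1.2 ∨ (u.2 = u.1.2 + 1 ∧
          (R u.1.1.1.1.1.1 u.1.1.1.1.1.2 u.1.1.2 ∧
            ¬ E ((u.1.1.1.1.1.1, u.1.1.2), u.1.1.1.2) ∧ u.1.1.2 ≠ u.1.1.1.2)))) := by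
      have u11 : Rn (fun u : (((((Γ × ℕ) × ℕ) × ℕ) × ℕ) × ℕ) × ℕ => u.1.1.1) :=
        (Rn.fst.comp Rn.fst).comp Rn.fst
      have uγ : Rn (fun u : (((((Γ × ℕ) × ℕ) × ℕ) × ℕ) × ℕ) × ℕ => u.1.1.1.1.1.1) :=
        u11.comp p111
      have ut : Vr (fun u : (((((Γ × ℕ) × ℕ) × ℕ) × ℕ) × ℕ) × ℕ => u.1.1.1.1.1.2) :=
        Vr.snd.ren (u11.comp (Rn.fst.comp Rn.fst))
      have uc : Vr (fun u : (((((Γ × ℕ) × ℕ) × ℕ) × ℕ) × ℕ) × ℕ => u.1.1.1.2) :=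
        Vr.snd.ren u11
      have ua : Vr (fun u : (((((Γ × ℕ) × ℕ) × ℕ) × ℕ) × ℕ) × ℕ => u.1.1.2) :=
        Vr.snd.ren (Rn.fst.comp Rn.fst)
      have um : Vr (fun u : (((((Γ × ℕ) × ℕ) × ℕ) × ℕ) × ℕ) × ℕ => u.1.2) :=
        Vr.snd.ren Rn.fst
      have um' : Vr (fun u : (((((Γ × ℕ) × ℕ) × ℕ) × ℕ) × ℕ) × ℕ => u.2) := Vr.snd
      refine Np.and hC (Np.of_df hC (Df.lef hC (um'.fn hC) ((hb.ren hC uγ).add hC
        (Fn.nat hC 1)))) (Np.or hC (Np.of_df hC (Df.eqf hC (um'.fn hC) (um.fn hC)))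
          (Np.and hC (Np.of_df hC (Df.eqf hC (um'.fn hC) ((um.fn hC).add hC (Fn.nat hC 1))))
            (Np.and hC ?_ (Np.of_df hC (Df.and hC (Df.not hC ?_) (Df.not hC
              (Df.eqf hC (ua.fn hC) (uc.fn hC))))))))
      · exact hR.map hC (φ := fun u : (((((Γ × ℕ) × ℕ) × ℕ) × ℕ) × ℕ) × ℕ =>
          ((u.1.1.1.1.1.1, u.1.1.1.1.1.2), u.1.1.2)) (((uγ.pair ut).pair ua).mp hC)
      · exact hE.ren hC (φ := fun u : (((((Γ × ℕ) × ℕ) × ℕ) × ℕ) × ℕ) × ℕ =>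
          ((u.1.1.1.1.1.1, u.1.1.2), u.1.1.1.2)) ((uγ.pair ua).pair uc)
    have h3 := np_itr (Γ := ((Γ × ℕ) × ℕ) × ℕ) hC hM (g := fun p => b p.1.1.1 + 1)
      (m0 := fun _ => 0) ((hb.ren hC p111).add hC (Fn.nat hC 1)) (Fn.nat hC 0)
      (fun p a m m' h => h.1)
    exact h3.map hC (φ := fun p : ((Γ × ℕ) × ℕ) × ℕ => ((p, b p.1.1.1 + 1), p.1.2))
      (((Mp.id hC).pair ((hb.ren hC p111).add hC (Fn.nat hC 1))).pair
        ((Vr.snd.ren Rn.fst).fn hC))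
  have itr_bd : ∀ (M : ℕ → ℕ → ℕ → Prop) (N : ℕ), (∀ a m m', m ≤ a → M a m m' → m' ≤ a + 1) →
      ∀ n, n ≤ N → ∀ r, (Itr (fun a m m' => m' ≤ N ∧ M a m m') 0 n r ↔ Itr M 0 n r) := by
    intro M N hM
    have hle : ∀ n r, Itr M 0 n r → r ≤ n := by
      intro n
      induction n with
      | zero =>
        intro r h
        have h' : r = 0 := h
        omega
      | succ n ih =>
        rintro r ⟨m', g1, g2⟩
        exact hM _ _ _ (ih _ g1) g2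
    intro n
    induction n with
    | zero => intro _ r; exact Iff.rfl
    | succ n ih =>
      intro hn r
      constructor
      · rintro ⟨m', g1, _, g2⟩
        exact ⟨m', (ih (by omega) m').1 g1, g2⟩
      · rintro ⟨m', g1, g2⟩
        refine ⟨m', (ih (by omega) m').2 g1, ?_, g2⟩
        have := hM _ _ _ (hle _ _ g1) g2
        omega
  have hNRs : ∀ γ t c, c ≤ b γ → (NR (((γ, t), ct γ t), c) ↔ ¬ R γ (t + 1) c) := by
    intro γ t c hc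
    have e0 := (itr_bd (fun a m m' => m' = m ∨ (m' = m + 1 ∧
      (R γ t a ∧ ¬ E ((γ, a), c) ∧ a ≠ c))) (b γ + 1) (by
        rintro a m m' hm (h | ⟨h, _⟩) <;> omega) (b γ + 1) le_rfl (ct γ t)).trans
          (itr_guess (fun a => R γ t a ∧ ¬ E ((γ, a), c) ∧ a ≠ c) (b γ + 1) (ct γ t))
    refine Iff.trans e0 ?_
    show cnt (fun c => R γ t c) (b γ + 1) ≤ _ ↔ _
    constructor
    · intro hle hR'
      have hlt : cnt (fun a => R γ t a ∧ ¬ E ((γ, a), c) ∧ a ≠ c) (b γ + 1) <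
          cnt (fun a => R γ t a) (b γ + 1) := by
        rcases hR' with hR' | ⟨a, hR', hEa⟩
        · exact cnt_lt (fun a _ h => h.1) (a := c) (by omega) hR' (fun h => h.2.2 rfl)
        · have ha := (h1 γ a c hEa).1
          exact cnt_lt (fun a _ h => h.1) (a := a) (by omega) hR' (fun h => h.2.1 hEa)
      omega
    · intro hR'
      refine cnt_mono fun a _ ha => ⟨ha, fun hEa => hR' (Or.inr ⟨a, ha, hEa⟩),
        fun hac => hR' (Or.inl ?_)⟩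
      rw [← hac]
      exact ha
  -- the next number, in the context (((γ, t), r), r')
  let SC : ((Γ × ℕ) × ℕ) × ℕ → Prop := fun p =>
    Itr (fun c m m' => m' ≤ b p.1.1.1 + 1 ∧ ((m' = m + 1 ∧ R p.1.1.1 (p.1.1.2 + 1) c) ∨
      (m' = m ∧ NR (p.1, c)))) 0 (b p.1.1.1 + 1) p.2
  have hSC : Np C SC := by
    have hM : Np C (fun u : (((((Γ × ℕ) × ℕ) × ℕ) × ℕ) × ℕ) × ℕ =>
        u.2 ≤ b u.1.1.1.1.1.1 + 1 ∧ ((u.2 = u.1.2 + 1 ∧
          R u.1.1.1.1.1.1 (u.1.1.1.1.1.2 + 1) u.1.1.2) ∨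
          (u.2 = u.1.2 ∧ NR (u.1.1.1.1, u.1.1.2)))) := by
      have u11 : Rn (fun u : (((((Γ × ℕ) × ℕ) × ℕ) × ℕ) × ℕ) × ℕ => u.1.1.1) :=
        (Rn.fst.comp Rn.fst).comp Rn.fst
      have uγ : Rn (fun u : (((((Γ × ℕ) × ℕ) × ℕ) × ℕ) × ℕ) × ℕ => u.1.1.1.1.1.1) :=
        u11.comp p111
      have ut : Vr (fun u : (((((Γ × ℕ) × ℕ) × ℕ) × ℕ) × ℕ) × ℕ => u.1.1.1.1.1.2) :=
        Vr.snd.ren (u11.comp (Rn.fst.comp Rn.fst))
      have ua : Vr (fun u : (((((Γ × ℕ) × ℕ) × ℕ) × ℕ) × ℕ) × ℕ => u.1.1.2) :=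
        Vr.snd.ren (Rn.fst.comp Rn.fst)
      have um : Vr (fun u : (((((Γ × ℕ) × ℕ) × ℕ) × ℕ) × ℕ) × ℕ => u.1.2) :=
        Vr.snd.ren Rn.fst
      have um' : Vr (fun u : (((((Γ × ℕ) × ℕ) × ℕ) × ℕ) × ℕ) × ℕ => u.2) := Vr.snd
      refine Np.and hC (Np.of_df hC (Df.lef hC (um'.fn hC) ((hb.ren hC uγ).add hC
        (Fn.nat hC 1)))) (Np.or hC (Np.and hC (Np.of_df hC (Df.eqf hC (um'.fn hC)
          ((um.fn hC).add hC (Fn.nat hC 1)))) ?_) (Np.and hC (Np.of_df hC (Df.eqf hC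
            (um'.fn hC) (um.fn hC))) ?_))
      · exact hR.map hC (φ := fun u : (((((Γ × ℕ) × ℕ) × ℕ) × ℕ) × ℕ) × ℕ =>
          ((u.1.1.1.1.1.1, u.1.1.1.1.1.2 + 1), u.1.1.2))
          (((uγ.mp hC).pair ((ut.fn hC).add hC (Fn.nat hC 1))).pair (ua.fn hC))
      · exact hNR.map hC (φ := fun u : (((((Γ × ℕ) × ℕ) × ℕ) × ℕ) × ℕ) × ℕ =>
          (u.1.1.1.1, u.1.1.2)) (((u11.comp Rn.fst).pair ua).mp hC)
    have h3 := np_itr (Γ := ((Γ × ℕ) × ℕ) × ℕ) hC hM (g := fun p => b p.1.1.1 + 1)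
      (m0 := fun _ => 0) ((hb.ren hC p111).add hC (Fn.nat hC 1)) (Fn.nat hC 0)
      (fun p a m m' h => h.1)
    exact h3.map hC (φ := fun p : ((Γ × ℕ) × ℕ) × ℕ => ((p, b p.1.1.1 + 1), p.2))
      (((Mp.id hC).pair ((hb.ren hC p111).add hC (Fn.nat hC 1))).pair (Vr.snd.fn hC))
  have hSCs : ∀ γ t r', SC (((γ, t), ct γ t), r') ↔ r' = ct γ (t + 1) := by
    intro γ t r'
    have e0 := (itr_bd (fun c m m' => (m' = m + 1 ∧ R γ (t + 1) c) ∨
      (m' = m ∧ NR (((γ, t), ct γ t), c))) (b γ + 1) (by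
        rintro a m m' hm (⟨h, _⟩ | ⟨h, _⟩) <;> omega) (b γ + 1) le_rfl r').trans
          (itr_exact (fun c => R γ (t + 1) c) (fun c => NR (((γ, t), ct γ t), c)) (b γ + 1)
            (fun c hc => hNRs γ t c (by omega)) r')
    exact e0
  -- the numbers, in the context ((γ, t), r)
  let r0 : Γ → ℕ := fun γ => if s γ ≤ b γ then 1 else 0
  have hr0 : ∀ γ, r0 γ = ct γ 0 := by
    intro γ
    exact cnt_eq_self
  have hCn : Np C (fun q : (Γ × ℕ) × ℕ => Itr (fun t r r' => r' ≤ b q.1.1 + 1 ∧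
      SC (((q.1.1, t), r), r')) (r0 q.1.1) q.1.2 q.2) := by
    have hM : Np C (fun p : ((Γ × ℕ) × ℕ) × ℕ => p.2 ≤ b p.1.1.1 + 1 ∧ SC p) :=
      Np.and hC (Np.of_df hC (Df.lef hC (Vr.snd.fn hC) ((hb.ren hC p111).add hC
        (Fn.nat hC 1)))) hSC
    exact np_itr (Γ := Γ) hC hM (g := fun γ => b γ + 1) (m0 := r0)
      (hb.add hC (Fn.nat hC 1)) (Fn.ite hC (Df.lef hC hs hb) (Fn.nat hC 1) (Fn.nat hC 0))
      (fun p a m m' h => h.1)
  have hCns : ∀ γ t r, Itr (fun t r r' => r' ≤ b γ + 1 ∧ SC (((γ, t), r), r')) (r0 γ) t r ↔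
      r = ct γ t := by
    intro γ t r
    rw [hr0]
    refine itr_fun _ (ct γ) (fun n m => ?_) t r
    rw [hSCs]
    constructor
    · rintro ⟨_, h⟩
      exact h
    · intro h
      exact ⟨by rw [h]; exact cnt_le _ _, h⟩
  -- the end
  have fin : Np C (fun γ : Γ => (b γ < e γ ∧ e γ ≠ s γ) ∨ (e γ ≤ b γ ∧
      ∃ r ≤ b γ + 1, Itr (fun t r r' => r' ≤ b γ + 1 ∧ SC (((γ, t), r), r')) (r0 γ) (b γ + 2) r ∧
        NR (((γ, b γ + 2), r), e γ))) := by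
    refine Np.or hC (Np.of_df hC ((Df.ltf hC hb he).and hC ((Df.eqf hC he hs).not hC)))
      (Np.and hC (Np.of_df hC (Df.lef hC he hb)) ?_)
    refine Np.ex hC (P := fun p : Γ × ℕ => Itr (fun t r r' => r' ≤ b p.1 + 1 ∧
      SC (((p.1, t), r), r')) (r0 p.1) (b p.1 + 2) p.2 ∧
        NR (((p.1, b p.1 + 2), p.2), e p.1)) ?_ (hb.add hC (Fn.nat hC 1))
    have hb2 : Fn C (fun p : Γ × ℕ => b p.1 + 2) := (hb.fst hC).add hC (Fn.nat hC 2)
    refine Np.and hC ?_ ?_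
    · exact hCn.map hC (φ := fun p : Γ × ℕ => ((p.1, b p.1 + 2), p.2))
        (((Rn.fst.mp hC).pair hb2).pair (Vr.snd.fn hC))
    · exact hNR.map hC (φ := fun p : Γ × ℕ => (((p.1, b p.1 + 2), p.2), e p.1))
        ((((Rn.fst.mp hC).pair hb2).pair (Vr.snd.fn hC)).pair (he.fst hC))
  refine fin.congr fun γ => ?_
  have hEγ : ∀ a a', E ((γ, a), a') → a ≤ b γ ∧ a' ≤ b γ := h1 γ
  rw [h2]
  rcases Nat.lt_or_ge (b γ) (e γ) with h3 | h3
  · constructor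
    · intro hn
      refine Or.inl ⟨h3, fun hes => hn ?_⟩
      rw [hes]
    · rintro (⟨_, hes⟩ | ⟨h4, _⟩) hr
      · rcases rch_le hEγ _ _ ((rch_sat hEγ (e γ)).1 hr) with h5 | h5
        · exact hes h5
        · omega
      · omega
  · have key : (∃ r ≤ b γ + 1, Itr (fun t r r' => r' ≤ b γ + 1 ∧ SC (((γ, t), r), r')) (r0 γ)
        (b γ + 2) r ∧ NR (((γ, b γ + 2), r), e γ)) ↔ ¬ R γ (b γ + 3) (e γ) := by
      constructor
      · rintro ⟨r, _, g1, g2⟩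
        rw [hCns] at g1
        rw [g1, hNRs γ _ _ h3] at g2
        exact g2
      · intro hn
        exact ⟨ct γ (b γ + 2), cnt_le _ _, (hCns _ _ _).2 rfl, (hNRs γ _ _ h3).2 hn⟩
    constructor
    · intro hn
      refine Or.inr ⟨h3, key.2 fun hr => hn (rch_sound _ _ hr)⟩
    · rintro (⟨h4, _⟩ | ⟨_, h4⟩) hr
      · omega
      · exact key.1 h4 (rch_mono (by omega) ((rch_sat hEγ (e γ)).1 hr))

/-- Reachability classes are closed under Boolean operations and bounded quantification. -/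
theorem clo_NR (hC : Clo C) : Clo (NR C) where
  eq n p q := nr_of_np hC (Np.of_df hC (df_of_mem (hC.eq n p q)))
  le n p q := nr_of_np hC (Np.of_df hC (df_of_mem (hC.le n p q)))
  not n P hP := nr_of_np hC (Np.not hC (np_of_nr hC hP))
  and n P Q hP hQ := nr_of_np hC (Np.and hC (np_of_nr hC hP) (np_of_nr hC hQ))
  ex n P p hP := by
    have h1 : Np C (fun q : Bs W n × ℕ => P q.1.w (Matrix.vecCons q.2 q.1.v)) :=
      (np_of_nr hC hP).map hC (φ := fun q : Bs W n × ℕ =>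
        (⟨q.1.w, Matrix.vecCons q.2 q.1.v⟩ : Bs W (n + 1)))
        (Rn.mp hC ⟨fun _ => rfl, fun i => ⟨i, fun _ => rfl⟩⟩)
    exact nr_of_np hC (Np.ex hC h1 (Fn.poly (Γ := Bs W n) hC p))
  ren n m ρ P hP := nr_of_np hC ((np_of_nr hC hP).map hC
    (φ := fun (v : Bs W m) => (⟨v.w, fun i : Fin n => v.v (ρ i)⟩ : Bs W n))
      (Rn.mp hC ⟨fun _ => rfl, fun i => ⟨ρ i, fun _ => rfl⟩⟩))

theorem sub_NR (hC : Clo C) {R : W → (Fin n → ℕ) → Prop} (h : R ∈ C n) : R ∈ NR C n :=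
  nr_of_np hC (Np.of_df hC (df_of_mem h))

end Pool.Agent.TH762.WD
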