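import Pool.Agent.TH762.WD.Cyk
import Pool.Agent.TH762.WD.IS
import Pool.Agent.TH762.E2.Lba

set_option autoImplicit false

/-!
The law for context-free languages.
-/

namespace Pool.Agent.TH762.WD

open Pool.Agent.TH762.E2 (count_mono ofDigits_mono)

variable {m r : ℕ}

theorem Df.exF {W Γ : Type} [Wd W] [Cx W Γ] {D : (n : ℕ) → Set (W → (Fin n → ℕ) → Prop)}
    (hD : Clo D) {ι : Type} [Fintype ι] {P : ι → Γ → Prop} (h : ∀ i, Df D (P i)) :
    Df D (fun γ => ∃ i, P i γ) := by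
  refine (Df.exfin hD fun j => h ((Fintype.equivFin ι).symm j)).congr fun γ => ?_
  constructor
  · rintro ⟨i, hi⟩
    exact ⟨Fintype.equivFin ι i, by simpa using hi⟩
  · rintro ⟨j, hj⟩
    exact ⟨_, hj⟩

theorem Df.allF {W Γ : Type} [Wd W] [Cx W Γ] {D : (n : ℕ) → Set (W → (Fin n → ℕ) → Prop)}
    (hD : Clo D) {ι : Type} [Fintype ι] {P : ι → Γ → Prop} (h : ∀ i, Df D (P i)) :
    Df D (fun γ => ∀ i, P i γ) :=
  ((Df.exF hD fun i => (h i).not hD).not hD).congr fun γ => by push Not; exact Iff.rfl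

section Dec

variable {W Δ : Type} [Wd W] [Cx W Δ] {D : (n : ℕ) → Set (W → (Fin n → ℕ) → Prop)}

theorem Fn.qA (hD : Clo D) {f : Δ → ℕ} (hf : Fn D f) : Fn D (fun δ => qA r (f δ)) :=
  Fn.mod hD hf (Fn.nat hD r)

theorem Fn.qi (hD : Clo D) {n f : Δ → ℕ} (hn : Fn D n) (hf : Fn D f) :
    Fn D (fun δ => qi r (n δ) (f δ)) :=
  Fn.mod hD (Fn.div hD hf (Fn.nat hD r)) hn

theorem Fn.qj (hD : Clo D) {n f : Δ → ℕ} (hn : Fn D n) (hf : Fn D f) :
    Fn D (fun δ => qj r (n δ) (f δ)) :=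
  Fn.div hD (Fn.div hD hf (Fn.nat hD r)) hn

theorem Fn.cd (hD : Clo D) {n i j : Δ → ℕ} (A : ℕ) (hn : Fn D n) (hi : Fn D i) (hj : Fn D j) :
    Fn D (fun δ => cd r (n δ) A (i δ) (j δ)) :=
  (Fn.nat hD A).add hD ((Fn.nat hD (r + 1)).mul hD
    (hi.add hD ((hn.add hD (Fn.nat hD 1)).mul hD hj)))

/-- The bound for the places. -/
def NN (r n : ℕ) : ℕ := (r + 1) * ((n + 1) * (n + 1))

theorem Fn.NN (hD : Clo D) {n : Δ → ℕ} (hn : Fn D n) : Fn D (fun δ => NN r (n δ)) :=
  (Fn.nat hD (r + 1)).mul hD ((hn.add hD (Fn.nat hD 1)).mul hD (hn.add hD (Fn.nat hD 1)))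

end Dec

/-- The conditions for the table of the derived places. -/
def CkG (G : Gr (Fin m) (Fin r)) (w : List (Fin m)) (Q : ℕ → ℕ → Prop) : Prop :=
  (∀ x ≤ NN r w.length, ∀ y ≤ NN r w.length, Q x y → y ≤ 1) ∧
  (∀ x ≤ NN r w.length, (Q x 0 ↔ ¬ Q x 1)) ∧
  ∀ x ≤ NN r w.length, (Q x 1 ↔ St G w (fun y => Q y 1) x)

open Classical in
/-- The table of the derived places. -/
noncomputable def tb (G : Gr (Fin m) (Fin r)) (w : List (Fin m)) (x : ℕ) : ℕ :=
  if Tr G w x then 1 else 0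

theorem tb_one {G : Gr (Fin m) (Fin r)} {w : List (Fin m)} {x : ℕ} :
    1 = tb G w x ↔ Tr G w x := by
  unfold tb
  split_ifs with h
  · exact ⟨fun _ => h, fun _ => rfl⟩
  · exact ⟨fun h1 => absurd h1 (by decide), fun h1 => absurd h1 h⟩

theorem tb_zero {G : Gr (Fin m) (Fin r)} {w : List (Fin m)} {x : ℕ} :
    0 = tb G w x ↔ ¬ Tr G w x := by
  unfold tb
  split_ifs with h
  · exact ⟨fun h1 => absurd h1 (by decide), fun h1 => absurd h h1⟩
  · exact ⟨fun _ => h, fun _ => rfl⟩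

theorem tb_le {G : Gr (Fin m) (Fin r)} {w : List (Fin m)} {x : ℕ} : tb G w x ≤ 1 := by
  unfold tb
  split_ifs <;> omega

theorem nn_pos (r n : ℕ) : 1 ≤ NN r n := by
  unfold NN
  exact Nat.mul_pos (by omega) (Nat.mul_pos (by omega) (by omega))

theorem ckG_sound {G : Gr (Fin m) (Fin r)} {w : List (Fin m)} {Q : ℕ → ℕ → Prop}
    (h : CkG G w Q) : ∀ x ≤ NN r w.length, ∀ y ≤ NN r w.length, (Q x y ↔ y = tb G w x) := by
  obtain ⟨h1, h2, h3⟩ := h
  have h4 := st_uniq G w (P := fun y => Q y 1) h3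
  intro x hx y hy
  rcases y with _ | _ | y
  · rw [h2 x hx, tb_zero]
    exact not_congr (h4 x hx)
  · rw [show (0 + 1 : ℕ) = 1 from rfl, tb_one]
    exact h4 x hx
  · constructor
    · intro h5
      have := h1 x hx _ hy h5
      omega
    · intro h5
      have := tb_le (G := G) (w := w) (x := x)
      omega

theorem ckG_complete {G : Gr (Fin m) (Fin r)} {w : List (Fin m)} {Q : ℕ → ℕ → Prop}
    (h : ∀ x ≤ NN r w.length, ∀ y ≤ NN r w.length, (Q x y ↔ y = tb G w x)) : CkG G w Q := by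
  have h1 := nn_pos r w.length
  have hT : ∀ x ≤ NN r w.length, (Q x 1 ↔ Tr G w x) := fun x hx =>
    (h x hx 1 h1).trans tb_one
  refine ⟨?_, ?_, ?_⟩
  · intro x hx y hy hQ
    rw [(h x hx y hy).1 hQ]
    exact tb_le
  · intro x hx
    rw [hT x hx, h x hx 0 (by omega), tb_zero]
  · intro x hx
    rw [hT x hx, tr_st]
    unfold St
    refine exists_congr fun A => and_congr_right fun hA => or_congr Iff.rfl
      (exists_congr fun h => and_congr_right fun h0 => and_congr_right fun h1 =>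
        and_congr_right fun h2 => exists_congr fun B => exists_congr fun C =>
        and_congr_right fun _ => and_congr ?_ ?_)
    · exact (hT _ (cd_le B.2.le (by omega) h0)).symm
    · exact (hT _ (cd_le C.2.le h0 hA.2.2)).symm

theorem ckG_df {D : (n : ℕ) → Set (List (Fin m) → (Fin n → ℕ) → Prop)} (hD : Clo D)
    (hI : Fn D (fun p : Bs (List (Fin m)) 1 => Wi.inp p.w (p.v 0)))
    (G : Gr (Fin m) (Fin r)) {Δ : Type} [Cx (List (Fin m)) Δ] {Q : (Δ × ℕ) × ℕ → Prop}
    (hQ : Df D Q) : Df D (fun δ : Δ => CkG G (Cx.o δ) (fun g w => Q ((δ, g), w))) := by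
  have hn : Fn D (fun δ : Δ => (Cx.o δ : List (Fin m)).length) := Fn.len hD
  have hN : Fn D (fun δ : Δ => NN r (Cx.o δ : List (Fin m)).length) := Fn.NN hD hn
  have hQc : ∀ c : ℕ, Df D (fun q : Δ × ℕ => Q (q, c)) := fun c => hQ.sub hD (Fn.nat hD c)
  have hx : Fn D (fun q : Δ × ℕ => q.2) := Vr.snd.fn hD
  have hi : Fn D (fun q : Δ × ℕ => qi r (Cx.o q.1 : List (Fin m)).length q.2) :=
    Fn.qi hD (hn.fst hD) hx
  have hj : Fn D (fun q : Δ × ℕ => qj r (Cx.o q.1 : List (Fin m)).length q.2) :=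
    Fn.qj hD (hn.fst hD) hx
  have hy : Fn D (fun q : (Δ × ℕ) × ℕ => q.2) := Vr.snd.fn hD
  have hin : Fn D (fun q : Δ × ℕ => Wi.inp (Cx.o q.1 : List (Fin m))
      (qi r (Cx.o q.1 : List (Fin m)).length q.2)) :=
    hI.map hD (φ := fun q : Δ × ℕ => (⟨Cx.o q.1, fun _ =>
      qi r (Cx.o q.1 : List (Fin m)).length q.2⟩ : Bs (List (Fin m)) 1))
      ⟨fun _ => rfl, fun _ => hi⟩
  have hSt : Df D (fun q : Δ × ℕ => St G (Cx.o q.1) (fun y => Q ((q.1, y), 1)) q.2) := by
    refine Df.exfin hD fun A => ?_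
    refine Df.and hD (Df.and hD (Df.eqf hD (Fn.qA hD hx) (Fn.nat hD A.val))
      (Df.and hD (Df.ltf hD hi hj) (Df.lef hD hj (hn.fst hD)))) (Df.or hD ?_ ?_)
    · exact Df.and hD (Df.eqf hD hj (hi.add hD (Fn.nat hD 1))) (Df.exfin hD fun a =>
        Df.and hD (Df.const hD _) (Df.eqf hD hin (Fn.nat hD (a.val + 1))))
    · refine Df.ex hD (P := fun p : (Δ × ℕ) × ℕ =>
        qi r (Cx.o p.1.1 : List (Fin m)).length p.1.2 < p.2 ∧
        p.2 < qj r (Cx.o p.1.1 : List (Fin m)).length p.1.2 ∧ ∃ B C : Fin r, G.bin A B C ∧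
          Q ((p.1.1, cd r (Cx.o p.1.1 : List (Fin m)).length B.val
            (qi r (Cx.o p.1.1 : List (Fin m)).length p.1.2) p.2), 1) ∧
          Q ((p.1.1, cd r (Cx.o p.1.1 : List (Fin m)).length C.val p.2
            (qj r (Cx.o p.1.1 : List (Fin m)).length p.1.2)), 1)) ?_ (hn.fst hD)
      refine Df.and hD (Df.ltf hD (hi.fst hD) hy) (Df.and hD (Df.ltf hD hy (hj.fst hD))
        (Df.exfin hD fun B => Df.exfin hD fun C => Df.and hD (Df.const hD _) (Df.and hD ?_ ?_)))
      · exact (hQc 1).map hD (φ := fun p : (Δ × ℕ) × ℕ =>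
          (p.1.1, cd r (Cx.o p.1.1 : List (Fin m)).length B.val
            (qi r (Cx.o p.1.1 : List (Fin m)).length p.1.2) p.2))
          (((Rn.fst.comp Rn.fst).mp hD).pair (Fn.cd hD B.val ((hn.fst hD).fst hD) (hi.fst hD) hy))
      · exact (hQc 1).map hD (φ := fun p : (Δ × ℕ) × ℕ =>
          (p.1.1, cd r (Cx.o p.1.1 : List (Fin m)).length C.val p.2
            (qj r (Cx.o p.1.1 : List (Fin m)).length p.1.2)))
          (((Rn.fst.comp Rn.fst).mp hD).pair (Fn.cd hD C.val ((hn.fst hD).fst hD) hy (hj.fst hD)))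
  refine Df.and hD ?_ (Df.and hD ?_ ?_)
  · exact Df.all hD (P := fun q : Δ × ℕ => ∀ y ≤ NN r (Cx.o q.1 : List (Fin m)).length,
      Q (q, y) → y ≤ 1) (Df.all hD (P := fun q : (Δ × ℕ) × ℕ => Q q → q.2 ≤ 1)
        (Df.imp hD hQ (Df.lef hD hy (Fn.nat hD 1))) (hN.fst hD)) hN
  · exact Df.all hD (P := fun q : Δ × ℕ => (Q (q, 0) ↔ ¬ Q (q, 1)))
      (Df.iff hD (hQc 0) ((hQc 1).not hD)) hN
  · exact Df.all hD (P := fun q : Δ × ℕ => (Q (q, 1) ↔
      St G (Cx.o q.1) (fun y => Q ((q.1, y), 1)) q.2)) (Df.iff hD (hQc 1) hSt) hN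

/-- Families of classes of relations between words and numbers, for all alphabets. -/
structure Fam (D : (m n : ℕ) → Set (List (Fin m) → (Fin n → ℕ) → Prop)) : Prop where
  clo : ∀ m, Clo (D m)
  inp : ∀ m, Fn (D m) (fun p : Bs (List (Fin m)) 1 => Wi.inp p.w (p.v 0))
  sub : ∀ (m m' N : ℕ) (I : List (Fin m) → (Fin N → ℕ) → List (Fin m')), Gm N I →
    ∀ R ∈ D m' 0,
      (fun (w : List (Fin m)) (v : Fin N → ℕ) => R (I w v) (fun i => i.elim0)) ∈ D m N

open Classical in
/-- For every decreasing sequence of `k` context-free languages there is a function whose values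
are never the number of the languages that contain the word, with the values in `0, ..., k`, and
whose level sets are in the class. -/
def Wrong (D : (m n : ℕ) → Set (List (Fin m) → (Fin n → ℕ) → Prop)) (k : ℕ) : Prop :=
  ∀ (m : ℕ) (X : Fin k → List (Fin m) → Prop), (∀ s, IsCF (X s)) →
    (∀ s s' : Fin k, s ≤ s' → ∀ w, X s' w → X s w) →
    ∃ g : List (Fin m) → ℕ,
      (∀ w, g w ≤ k ∧ g w ≠ (Finset.univ.filter fun s => X s w).card) ∧
      ∀ c : ℕ, (fun (w : List (Fin m)) (_ : Fin 0 → ℕ) => g w = c) ∈ D m 0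

open Classical in
theorem cf_mem {D : (m n : ℕ) → Set (List (Fin m) → (Fin n → ℕ) → Prop)} (hF : Fam D) {k : ℕ}
    (hW : Wrong D k) {L : List (Fin m) → Prop} (hL : IsCF L) :
    (fun (w : List (Fin m)) (_ : Fin 0 → ℕ) => L w) ∈ D m 0 := by
  obtain ⟨r, G, A0, hG⟩ := hL
  have hD := hF.clo m
  let Γ := Bs (List (Fin m)) 0
  have hn : Fn (D m) (fun γ : Γ => γ.w.length) := Fn.len (Γ := Γ) hD
  have hN : Fn (D m) (fun γ : Γ => NN r γ.w.length) := Fn.NN hD hn
  let ι := (Fin k → Option (Fin r)) × (Fin k → (Fin k → Bool) → Bool)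
  let good : ι → Prop := fun a =>
    (∀ s (b b' : Fin k → Bool), (∀ i, b i = true → b' i = true) → a.2 s b = true →
      a.2 s b' = true) ∧ ∀ s s' : Fin k, s ≤ s' → ∀ b, a.2 s' b = true → a.2 s b = true
  have hg : ∀ a : ι, ∃ g : List (Fin (m + 1)) → ℕ, (∀ w, g w ≤ k) ∧ (good a → ∀ w,
      g w ≠ (Finset.univ.filter fun s => XL G a.1 (a.2 s) w).card) ∧
      ∀ c : ℕ, (fun (w : List (Fin (m + 1))) (_ : Fin 0 → ℕ) => g w = c) ∈ D (m + 1) 0 := by
    intro a
    by_cases ha : good a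
    · obtain ⟨g, h1, h2⟩ := hW (m + 1) (fun s => XL G a.1 (a.2 s)) (fun s => (xl_cn G _ _).cf)
        (by
          rintro s s' hs w ⟨b, hb, h⟩
          exact ⟨b, ha.2 s s' hs b hb, h⟩)
      exact ⟨g, fun w => (h1 w).1, fun _ w => (h1 w).2, h2⟩
    · exact ⟨fun _ => 0, fun _ => Nat.zero_le _, fun h => absurd h ha, fun c =>
        mem_of_df (Df.const (hF.clo (m + 1)) _)⟩
  choose g hg1 hg2 hg3 using hg
  let Ω := (Γ × (Fin k → ℕ)) × (Fin (k + 1) → ℕ)
  let idx : Ω → ι := fun q => (fun i => tag r q.1.1.w.length (q.1.2 i), fun s b =>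
    decide (q.2 s.succ ≤ Nat.ofDigits (NN r q.1.1.w.length + 1)
      (List.ofFn fun i => if b i = true then 1 else 0)))
  let I : Ω → List (Fin (m + 1)) := fun q => enc (List.ofFn fun s =>
    sb q.1.1.w (qi r q.1.1.w.length (q.1.2 s)) (qj r q.1.1.w.length (q.1.2 s)))
  have hJ : ∀ s : Fin k, Vr (fun q : Ω => q.1.2 s) := fun s => (Vr.sndV s).ren Rn.fstV
  choose js hjs using hJ
  have hn' : Fn (D m) (fun q : Ω => q.1.1.w.length) := hn.ren hD (Rn.fstV.comp Rn.fstV)
  have hidx : ∀ a : ι, Df (D m) (fun q : Ω => idx q = a) := by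
    intro a
    have h1 : Df (D m) (fun q : Ω => (∀ i, tag r q.1.1.w.length (q.1.2 i) = a.1 i) ∧
        ∀ s b, (decide (q.2 s.succ ≤ Nat.ofDigits (NN r q.1.1.w.length + 1)
          (List.ofFn fun i => if b i = true then 1 else 0))) = a.2 s b) := by
      refine Df.and hD (Df.fin hD fun i => ?_) (Df.fin hD fun s => Df.allF hD fun b => ?_)
      · have hx : Fn (D m) (fun q : Ω => q.1.2 i) := ((Vr.sndV i).ren Rn.fstV).fn hD
        cases ha : a.1 i with
        | none =>
          refine ((Df.and hD (Df.ltf hD (Fn.qA (r := r) hD hx) (Fn.nat hD r)) (Df.and hD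
            (Df.ltf hD (Fn.qi (r := r) hD hn' hx) (Fn.qj (r := r) hD hn' hx))
            (Df.lef hD (Fn.qj (r := r) hD hn' hx) hn'))).not hD).congr fun q => tag_none
        | some A =>
          refine (Df.and hD (Df.eqf hD (Fn.qA (r := r) hD hx) (Fn.nat hD A.val)) (Df.and hD
            (Df.ltf hD (Fn.qi (r := r) hD hn' hx) (Fn.qj (r := r) hD hn' hx))
            (Df.lef hD (Fn.qj (r := r) hD hn' hx) hn'))).congr fun q => tag_some
      · have h2 : Df (D m) (fun q : Ω => q.2 s.succ ≤ Nat.ofDigits (NN r q.1.1.w.length + 1)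
            (List.ofFn fun i => if b i = true then 1 else 0)) := by
          refine Df.lef hD ((Vr.sndV s.succ).fn hD) ?_
          have h3 := ((Fn.NN (r := r) hD hn').add hD (Fn.nat hD 1)).ofDigits hD
            (List.ofFn fun (i : Fin k) (_ : Ω) => if b i = true then 1 else 0) (by
              intro g hg
              rw [List.mem_ofFn] at hg
              obtain ⟨i, rfl⟩ := hg
              exact Fn.nat hD _)
          refine h3.congr fun q => ?_
          rw [List.map_ofFn]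
          rfl
        cases ha : a.2 s b with
        | true => exact h2.congr fun q => decide_eq_true_iff
        | false => exact (h2.not hD).congr fun q => decide_eq_false_iff_not
    refine h1.congr fun q => ?_
    constructor
    · rintro rfl
      exact ⟨fun i => rfl, fun s b => rfl⟩
    · rintro ⟨h2, h3⟩
      exact Prod.ext (by ext1 i; exact h2 i) (by ext1 s; ext1 b; exact h3 s b)
  have hGm : Gm (Cx.n Ω) (fun (w : List (Fin m)) (v : Fin (Cx.n Ω) → ℕ) => enc (List.ofFn fun s =>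
      sb w (qi r w.length (v (js s))) (qj r w.length (v (js s))))) := by
    have hC : Clo (Pd (LF (W := List (Fin m)))) := clo_Pd fcl_LF
    have hl : Fn (Pd LF) (fun p : Bs (List (Fin m)) (Cx.n Ω) => p.w.length) :=
      Fn.len (Γ := Bs (List (Fin m)) (Cx.n Ω)) hC
    refine gm_enc k (fun s w v => qi r w.length (v (js s))) (fun s w v => qj r w.length (v (js s)))
      (fun s => ?_) (fun s => ?_)
    · exact S_of_fn' fcl_LF (Fn.qi hC hl ((Vr.fin (js s)).fn hC))
    · exact S_of_fn' fcl_LF (Fn.qj hC hl ((Vr.fin (js s)).fn hC))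
  let Ex : ℕ → Ω → Prop := fun c q => ∃ a : ι, idx q = a ∧ g a (I q) = c
  have hEx : ∀ c, Df (D m) (Ex c) := by
    intro c
    refine Df.exF hD fun a => Df.and hD (hidx a) ?_
    refine ⟨_, hF.sub m (m + 1) (Cx.n Ω) _ hGm _ (hg3 a c), fun q => ?_⟩
    show g a (I q) = c ↔ g a (enc (List.ofFn fun s => sb (Cx.o q)
      (qi r (Cx.o q : List (Fin m)).length (Cx.x q (js s)))
      (qj r (Cx.o q : List (Fin m)).length (Cx.x q (js s))))) = c
    have h1 : (fun s : Fin k => sb (Cx.o q) (qi r (Cx.o q : List (Fin m)).length (Cx.x q (js s)))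
        (qj r (Cx.o q : List (Fin m)).length (Cx.x q (js s)))) = fun s : Fin k =>
        sb q.1.1.w (qi r q.1.1.w.length (q.1.2 s)) (qj r q.1.1.w.length (q.1.2 s)) := by
      ext1 s
      rw [← hjs s q]
      rfl
    rw [h1]
  have hEx2 : ∀ q : Ω, (∃ c ≤ k, Ex c q) ∧ ((∀ i : Fin k, q.2 i.castSucc < q.2 i.succ) →
      ∀ c : Fin (k + 1), q.2 c = Nat.ofDigits (NN r q.1.1.w.length + 1) (List.ofFn fun i =>
        tb G q.1.1.w (q.1.2 i)) → ¬ Ex c.val q) := by
    intro q
    refine ⟨⟨g (idx q) (I q), hg1 _ _, idx q, rfl, rfl⟩, ?_⟩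
    rintro hc s hs ⟨a, rfl, ha⟩
    have hsm : StrictMono q.2 := Fin.strictMono_iff_lt_succ.2 hc
    have h1 : good (idx q) := by
      refine ⟨?_, ?_⟩
      · intro s b b' hb h2
        have h2' := of_decide_eq_true h2
        refine decide_eq_true (h2'.trans (ofDigits_mono _ _ fun i => ?_))
        by_cases h3 : b i = true
        · rw [if_pos h3, if_pos (hb i h3)]
        · rw [if_neg h3]
          exact Nat.zero_le _
      · intro s s' hss b h2
        have h2' := of_decide_eq_true h2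
        exact decide_eq_true ((hsm.monotone (Fin.succ_le_succ_iff.2 hss)).trans h2')
    refine hg2 (idx q) h1 (I q) (ha.trans ?_)
    have h4 := count_mono hsm hs
    rw [← h4]
    refine congrArg Finset.card (Finset.ext fun i => ?_)
    simp only [Finset.mem_filter, Finset.mem_univ, true_and]
    show _ ↔ XL G (idx q).1 ((idx q).2 i) (enc (List.ofFn fun s =>
      sb q.1.1.w (qi r q.1.1.w.length (q.1.2 s)) (qj r q.1.1.w.length (q.1.2 s))))
    rw [xl_enc G _ _ (h1.1 i)]
    show q.2 i.succ ≤ _ ↔ decide (q.2 i.succ ≤ _) = true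
    rw [decide_eq_true_iff]
    have h5 : (fun j : Fin k => tb G q.1.1.w (q.1.2 j)) = fun j : Fin k =>
        if decide (∃ A, (idx q).1 j = some A ∧ Der G A (sb q.1.1.w
          (qi r q.1.1.w.length (q.1.2 j)) (qj r q.1.1.w.length (q.1.2 j)))) = true
        then 1 else 0 := by
      ext1 j
      show (if Tr G q.1.1.w (q.1.2 j) then 1 else 0) = _
      by_cases h6 : Tr G q.1.1.w (q.1.2 j)
      · rw [if_pos h6]
        refine (if_pos ?_).symm
        exact decide_eq_true h6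
      · rw [if_neg h6]
        refine (if_neg ?_).symm
        intro h7
        have h8 := of_decide_eq_true h7
        exact h6 h8
    rw [h5]
  obtain ⟨Ls, hLs, hLs2⟩ := lists_of_ex (Γ := Γ) hD hN (τ := fun γ x => tb G γ.w x) hEx hEx2
  have hE := engine (Γ := Γ) hD hN (τ := fun γ x => tb G γ.w x)
    (fun γ x _ => tb_le.trans (nn_pos _ _)) hLs hLs2 (fun γ Q => CkG G γ.w Q)
    (fun γ Q h => ckG_sound h) (fun γ Q h => ckG_complete h) (by
      intro Δ _ φ hφ Q hQ
      refine (ckG_df hD (hF.inp m) G hQ).congr fun δ => ?_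
      rw [← hφ.1 δ]
      exact Iff.rfl)
  have h1 := hE.sub hD (Fn.nat hD 1)
  have h2 : Fn (D m) (fun γ : Γ => cd r γ.w.length A0.val 0 γ.w.length) :=
    Fn.cd hD A0.val hn (Fn.nat hD 0) hn
  have h3 := h1.sub hD h2
  refine mem_of_df (n := 0) ((Df.or hD (Df.and hD (Df.eqf hD hn (Fn.nat hD 0))
    (Df.const hD (L []))) (Df.and hD (Df.lef hD (Fn.nat hD 1) hn) h3)).congr fun γ => ?_)
  show L γ.w ↔ (γ.w.length = 0 ∧ L []) ∨ (1 ≤ γ.w.length ∧
    (cd r γ.w.length A0.val 0 γ.w.length ≤ NN r γ.w.length ∧ 1 ≤ NN r γ.w.length) ∧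
    1 = tb G γ.w (cd r γ.w.length A0.val 0 γ.w.length))
  by_cases h4 : γ.w = []
  · rw [h4]
    constructor
    · intro h
      exact Or.inl ⟨rfl, h⟩
    · rintro (⟨_, h⟩ | ⟨h, _⟩)
      · exact h
      · exact absurd h (by simp)
  · have h5 : 1 ≤ γ.w.length := List.length_pos_iff.2 h4
    have h6 : sb γ.w 0 γ.w.length = γ.w := by
      unfold sb
      simp
    rw [hG _ h4, tb_one, tr_cd G γ.w A0 (by omega) le_rfl, h6]
    constructor
    · intro h
      exact Or.inr ⟨h5, ⟨cd_le A0.2.le (by omega) le_rfl, nn_pos _ _⟩, h⟩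
    · rintro (⟨h, _⟩ | ⟨_, _, h⟩)
      · omega
      · exact h

/-- The law for context-free languages. -/
theorem law_cfl {D : (m n : ℕ) → Set (List (Fin m) → (Fin n → ℕ) → Prop)} (hF : Fam D) :
    (∀ (m : ℕ) (L : List (Fin m) → Prop), IsCF L →
      (fun (w : List (Fin m)) (_ : Fin 0 → ℕ) => L w) ∈ D m 0) ↔ ∃ k, Wrong D k := by
  classical
  constructor
  · intro h
    refine ⟨1, fun m X hX _ => ?_⟩
    refine ⟨fun w => if X 0 w then 0 else 1, fun w => ?_, fun c => ?_⟩
    · show (if X 0 w then 0 else 1) ≤ 1 ∧ (if X 0 w then 0 else 1) ≠ _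
      by_cases h1 : X 0 w
      · rw [if_pos h1]
        refine ⟨Nat.zero_le _, ?_⟩
        intro h2
        have h3 := Finset.card_eq_zero.1 h2.symm
        have h4 : (0 : Fin 1) ∈ Finset.univ.filter fun s => X s w := by simp [h1]
        rw [h3] at h4
        exact absurd h4 (Finset.notMem_empty _)
      · rw [if_neg h1]
        refine ⟨le_rfl, ?_⟩
        intro h2
        have h4 : (Finset.univ.filter fun s => X s w) = ∅ := by
          ext s
          have : s = 0 := Subsingleton.elim _ _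
          subst this
          simp [h1]
        rw [h4] at h2
        exact absurd h2 (by decide)
    · have hD := hF.clo m
      have h1 : Df (D m) (fun p : Bs (List (Fin m)) 0 => X 0 p.w) := ⟨_, h m (X 0) (hX 0),
        fun p => Iff.rfl⟩
      refine mem_of_df (n := 0) (((h1.and hD (Df.const hD (c = 0))).or hD
        ((h1.not hD).and hD (Df.const hD (c = 1)))).congr fun p => ?_)
      show (if X 0 p.w then 0 else 1) = c ↔ _
      by_cases h2 : X 0 p.w
      · simp [h2, eq_comm]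
      · simp [h2, eq_comm]
  · rintro ⟨k, hW⟩ m L hL
    exact cf_mem hF hW hL

/-- Logarithmic space. -/
theorem fam_L : Fam (fun m n => Pd (LF (W := List (Fin m))) n) where
  clo m := clo_Pd fcl_LF
  inp m := inp_Pd fcl_LF
  sub m m' N I hI R hR := by
    have h := Pd_subst (n' := 0) hR hI (hs := fun i => i.elim0) (fun i => i.elim0)
    have e : (fun (w : List (Fin m)) (v : Fin N → ℕ) => R (I w v) (fun i => i.elim0)) =
        fun (w : List (Fin m)) (v : Fin N → ℕ) => R (I w v)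
          (fun i : Fin 0 => (fun i : Fin 0 => i.elim0 :
            Fin 0 → List (Fin m) → (Fin N → ℕ) → ℕ) i w v) := by
      ext w v
      exact iff_of_eq (congrArg (R (I w v)) (Subsingleton.elim _ _))
    rw [e]
    exact h

/-- Nondeterministic logarithmic space. -/
theorem fam_NL : Fam (fun m n => NR (Pd (LF (W := List (Fin m)))) n) where
  clo m := clo_NR (clo_Pd fcl_LF)
  inp m := inp_NR fcl_LF
  sub m m' N I hI R hR := NR_subst hR hI

end Pool.Agent.TH762.WD
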