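import Pool.Agent.TH762.WD.NrLaw

set_option autoImplicit false

/-!
Words over an alphabet of `m` symbols as inputs.
-/

namespace Pool.Agent.TH762.WD

/-- The input is read symbol by symbol: the number of the symbol, or `0` after the end. -/
instance wiWord (m : ℕ) : Wi (List (Fin m)) where
  len w := w.length
  inp w i := (w.map fun a => a.val + 1).getD i 0
  bd := by
    refine ⟨m, fun w i => ?_⟩
    rw [List.getD_eq_getElem?_getD, List.getElem?_map]
    cases w[i]? with
    | none => exact Nat.zero_le _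
    | some a => exact a.2

theorem LF.pf {W : Type} [Wi W] {n : ℕ} {f : W → (Fin n → ℕ) → ℕ} (h : LF n f) : PF n f :=
  fun S hS _ => h S hS

theorem Pd_LF_PF {W : Type} [Wi W] {n : ℕ} {R : W → (Fin n → ℕ) → Prop} (h : R ∈ Pd LF n) :
    R ∈ Pd PF n := by
  obtain ⟨f, hf, h⟩ := h
  exact ⟨f, hf.pf, h⟩

end Pool.Agent.TH762.WD
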