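import Pool.Agent.TH762.WD.Look
import Pool.Agent.TH762.WD.Word

set_option autoImplicit false

/-!
Functions computed by comparator circuits, and their law.
-/

namespace Pool.Agent.TH762.WD

open MvPolynomial

variable {W : Type} [Wi W]

/-- Closure under evaluation of comparator circuits: `F w (t, i, v)` is the bit on the wire `i`
before step `t`, and at the step `t` a comparator joins the wires `p w (t, v)` and `q w (t, v)`. -/
def CmpCl (S : (n : ℕ) → (W → (Fin n → ℕ) → ℕ) → Prop) : Prop :=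
  ∀ (n : ℕ) (a p q : W → (Fin (n + 1) → ℕ) → ℕ) (F : W → (Fin (n + 2) → ℕ) → ℕ),
    S (n + 1) a → S (n + 1) p → S (n + 1) q →
    (∀ w (v : Fin n → ℕ) (i : ℕ),
      F w (Matrix.vecCons 0 (Matrix.vecCons i v)) = min (a w (Matrix.vecCons i v)) 1) →
    (∀ w (v : Fin n → ℕ) (t i : ℕ),
      F w (Matrix.vecCons (t + 1) (Matrix.vecCons i v)) =
        if i = p w (Matrix.vecCons t v) then
          min (F w (Matrix.vecCons t (Matrix.vecCons (p w (Matrix.vecCons t v)) v)))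
            (F w (Matrix.vecCons t (Matrix.vecCons (q w (Matrix.vecCons t v)) v)))
        else if i = q w (Matrix.vecCons t v) then
          max (F w (Matrix.vecCons t (Matrix.vecCons (p w (Matrix.vecCons t v)) v)))
            (F w (Matrix.vecCons t (Matrix.vecCons (q w (Matrix.vecCons t v)) v)))
        else F w (Matrix.vecCons t (Matrix.vecCons i v))) →
    S (n + 2) F

/-- The smallest class of functions closed under composition, limited recursion and evaluation of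
comparator circuits. -/
def CF (n : ℕ) (f : W → (Fin n → ℕ) → ℕ) : Prop :=
  ∀ S : (n : ℕ) → (W → (Fin n → ℕ) → ℕ) → Prop, FCl S → CmpCl S → S n f

theorem fcl_CF : FCl (CF (W := W)) where
  zero n := fun _ hS _ => hS.zero n
  suc := fun _ hS _ => hS.suc
  proj n i := fun _ hS _ => hS.proj n i
  mul := fun _ hS _ => hS.mul
  len := fun _ hS _ => hS.len
  inp := fun _ hS _ => hS.inp
  comp n m g hs hg hh := fun S hS hT => hS.comp n m g hs (hg S hS hT) fun i => hh i S hS hT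
  lrec n g h b F hg hh hb e1 e2 e3 := fun S hS hT =>
    hS.lrec n g h b F (hg S hS hT) (hh S hS hT) (hb S hS hT) e1 e2 e3

theorem cmp_CF : CmpCl (CF (W := W)) := by
  intro n a p q F ha hp hq h1 h2 S hS hT
  exact hT n a p q F (ha S hS hT) (hp S hS hT) (hq S hS hT) h1 h2

theorem cmp_le {n : ℕ} {a p q : W → (Fin (n + 1) → ℕ) → ℕ} {F : W → (Fin (n + 2) → ℕ) → ℕ}
    (h1 : ∀ w (v : Fin n → ℕ) (i : ℕ),
      F w (Matrix.vecCons 0 (Matrix.vecCons i v)) = min (a w (Matrix.vecCons i v)) 1)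
    (h2 : ∀ w (v : Fin n → ℕ) (t i : ℕ),
      F w (Matrix.vecCons (t + 1) (Matrix.vecCons i v)) =
        if i = p w (Matrix.vecCons t v) then
          min (F w (Matrix.vecCons t (Matrix.vecCons (p w (Matrix.vecCons t v)) v)))
            (F w (Matrix.vecCons t (Matrix.vecCons (q w (Matrix.vecCons t v)) v)))
        else if i = q w (Matrix.vecCons t v) then
          max (F w (Matrix.vecCons t (Matrix.vecCons (p w (Matrix.vecCons t v)) v)))
            (F w (Matrix.vecCons t (Matrix.vecCons (q w (Matrix.vecCons t v)) v)))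
        else F w (Matrix.vecCons t (Matrix.vecCons i v))) (w : W) (u : Fin (n + 2) → ℕ) :
    F w u ≤ 1 := by
  have key : ∀ (v : Fin n → ℕ) (t i : ℕ),
      F w (Matrix.vecCons t (Matrix.vecCons i v)) ≤ 1 := by
    intro v t
    induction t with
    | zero =>
      intro i
      rw [h1]
      exact min_le_right _ _
    | succ t ih =>
      intro i
      rw [h2]
      split_ifs
      · exact (min_le_left _ _).trans (ih _)
      · exact max_le (ih _) (ih _)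
      · exact ih _
  have e : u = Matrix.vecCons (u 0) (Matrix.vecCons (u 1) (Fin.tail (Fin.tail u))) := by
    ext i
    refine Fin.cases ?_ (fun i => ?_) i
    · rfl
    · refine Fin.cases ?_ (fun i => ?_) i
      · rfl
      · rfl
  rw [e]
  exact key _ _ _

theorem cmp_Pb : CmpCl (Pb (W := W)) := by
  intro n a p q F _ _ _ h1 h2
  refine ⟨1, fun w u => ?_⟩
  rw [map_one]
  exact cmp_le h1 h2 w u

theorem CF.bound {n : ℕ} {f : W → (Fin n → ℕ) → ℕ} (hf : CF n f) : Pb n f :=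
  hf _ fcl_Pb cmp_Pb

variable {C D : (n : ℕ) → Set (W → (Fin n → ℕ) → Prop)} {k n : ℕ}

theorem cmprec_law (hC : Clo C) (hD : Clo D) (hA : ∀ n, Av C D (Bs W n) k)
    {a p q : W → (Fin (n + 1) → ℕ) → ℕ} {F : W → (Fin (n + 2) → ℕ) → ℕ}
    (ha' : Fn D (fun r : Bs W (n + 1) => a r.w r.v))
    (hp' : Fn D (fun r : Bs W (n + 1) => p r.w r.v))
    (hq' : Fn D (fun r : Bs W (n + 1) => q r.w r.v))
    (e1 : Fn C (fun r : Bs W (n + 2) => F r.w r.v))
    (h2 : ∀ w (v : Fin n → ℕ) (i : ℕ),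
      F w (Matrix.vecCons 0 (Matrix.vecCons i v)) = min (a w (Matrix.vecCons i v)) 1)
    (h3 : ∀ w (v : Fin n → ℕ) (t i : ℕ),
      F w (Matrix.vecCons (t + 1) (Matrix.vecCons i v)) =
        if i = p w (Matrix.vecCons t v) then
          min (F w (Matrix.vecCons t (Matrix.vecCons (p w (Matrix.vecCons t v)) v)))
            (F w (Matrix.vecCons t (Matrix.vecCons (q w (Matrix.vecCons t v)) v)))
        else if i = q w (Matrix.vecCons t v) then
          max (F w (Matrix.vecCons t (Matrix.vecCons (p w (Matrix.vecCons t v)) v)))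
            (F w (Matrix.vecCons t (Matrix.vecCons (q w (Matrix.vecCons t v)) v)))
        else F w (Matrix.vecCons t (Matrix.vecCons i v))) :
    Fn D (fun r : Bs W (n + 2) => F r.w r.v) := by
  have e2 : Fn C (fun r : (Bs W n × ℕ) × ℕ =>
      F r.1.1.w (Matrix.vecCons r.2 (Matrix.vecCons r.1.2 r.1.1.v))) :=
    e1.ren hC (φ := fun r : (Bs W n × ℕ) × ℕ =>
      (⟨r.1.1.w, Matrix.vecCons r.2 (Matrix.vecCons r.1.2 r.1.1.v)⟩ : Bs W (n + 2)))
      ⟨fun _ => rfl, fun i => ⟨i, fun _ => rfl⟩⟩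
  have l : ∀ (f : W → (Fin (n + 1) → ℕ) → ℕ), Fn D (fun r : Bs W (n + 1) => f r.w r.v) →
      Fn D (fun r : Bs W n × ℕ => f r.1.w (Matrix.vecCons r.2 r.1.v)) := fun f hf =>
    hf.ren hD (φ := fun r : Bs W n × ℕ =>
      (⟨r.1.w, Matrix.vecCons r.2 r.1.v⟩ : Bs W (n + 1)))
      ⟨fun _ => rfl, fun i => ⟨i, fun _ => rfl⟩⟩
  have la := (l a ha').min hD (Fn.nat hD 1)
  have lp := l p hp'
  have lq := l q hq'
  have hh : Fn D (fun r : (((((Bs W n × ℕ) × ℕ) × ℕ) × ℕ) × ℕ) =>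
      if r.1.1.1.1.2 = p r.1.1.1.1.1.w (Matrix.vecCons r.1.1.1.2 r.1.1.1.1.1.v) then
        min r.2 r.1.2
      else if r.1.1.1.1.2 = q r.1.1.1.1.1.w (Matrix.vecCons r.1.1.1.2 r.1.1.1.1.1.v) then
        max r.2 r.1.2
      else r.1.1.2) := by
    have r1 : Rn (fun r : (((((Bs W n × ℕ) × ℕ) × ℕ) × ℕ) × ℕ) => r.1) := Rn.fst
    have r2 : Rn (fun r : (((((Bs W n × ℕ) × ℕ) × ℕ) × ℕ) × ℕ) => r.1.1) := r1.comp Rn.fst
    have r3 : Rn (fun r : (((((Bs W n × ℕ) × ℕ) × ℕ) × ℕ) × ℕ) => r.1.1.1) := r2.comp Rn.fst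
    have r4 : Rn (fun r : (((((Bs W n × ℕ) × ℕ) × ℕ) × ℕ) × ℕ) => r.1.1.1.1) :=
      r3.comp Rn.fst
    have r5 : Rn (fun r : (((((Bs W n × ℕ) × ℕ) × ℕ) × ℕ) × ℕ) => r.1.1.1.1.1) :=
      r4.comp Rn.fst
    have vx : Fn D (fun r : (((((Bs W n × ℕ) × ℕ) × ℕ) × ℕ) × ℕ) => r.2) := Vr.snd.fn hD
    have vy : Fn D (fun r : (((((Bs W n × ℕ) × ℕ) × ℕ) × ℕ) × ℕ) => r.1.2) :=
      (Vr.snd.ren r1).fn hD
    have vz : Fn D (fun r : (((((Bs W n × ℕ) × ℕ) × ℕ) × ℕ) × ℕ) => r.1.1.2) :=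
      (Vr.snd.ren r2).fn hD
    have vt : Vr (fun r : (((((Bs W n × ℕ) × ℕ) × ℕ) × ℕ) × ℕ) => r.1.1.1.2) := Vr.snd.ren r3
    have vi : Fn D (fun r : (((((Bs W n × ℕ) × ℕ) × ℕ) × ℕ) × ℕ) => r.1.1.1.1.2) :=
      (Vr.snd.ren r4).fn hD
    have vp := lp.ren hD (φ := fun r : (((((Bs W n × ℕ) × ℕ) × ℕ) × ℕ) × ℕ) =>
      (r.1.1.1.1.1, r.1.1.1.2)) (r5.pair vt)
    have vq := lq.ren hD (φ := fun r : (((((Bs W n × ℕ) × ℕ) × ℕ) × ℕ) × ℕ) =>
      (r.1.1.1.1.1, r.1.1.1.2)) (r5.pair vt)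
    refine Fn.ite hD (Df.eqf hD vi vp) (vx.min hD vy) (Fn.ite hD (Df.eqf hD vi vq) ?_ vz)
    refine (Fn.ite hD (Df.lef hD vx vy) vy vx).congr fun r => ?_
    by_cases hxy : r.2 ≤ r.1.2
    · rw [if_pos hxy, max_eq_right hxy]
    · rw [if_neg hxy, max_eq_left (by omega)]
  have e4 := look_law hC hD hA e2 la lp lq hh (fun γ i => h2 γ.w γ.v i)
    (fun γ i t => h3 γ.w γ.v t i)
  have e5 := e4.ren hD (φ := fun r : Bs W (n + 2) =>
    ((((⟨r.w, Fin.tail (Fin.tail r.v)⟩ : Bs W n), r.v 1), r.v 0) : (Bs W n × ℕ) × ℕ))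
    ⟨fun _ => rfl, by
      intro i
      change Fin (n + 2) at i
      refine Fin.cases ?_ (fun i => ?_) i
      · exact ⟨(0 : Fin (n + 2)), fun _ => rfl⟩
      · refine Fin.cases ?_ (fun i => ?_) i
        · exact ⟨(1 : Fin (n + 2)), fun _ => rfl⟩
        · exact ⟨(i.succ.succ : Fin (n + 2)), fun _ => rfl⟩⟩
  refine e5.congr fun r => ?_
  show F r.w r.v = F r.w (Matrix.vecCons (r.v 0) (Matrix.vecCons (r.v 1)
    (Fin.tail (Fin.tail r.v))))
  congr 1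
  ext i
  refine Fin.cases ?_ (fun i => ?_) i
  · rfl
  · refine Fin.cases ?_ (fun i => ?_) i
    · rfl
    · rfl

theorem fnC_closed (hD : Clo D) (hI : Fn D (fun p : Bs W 1 => Wi.inp p.w (p.v 0)))
    (hA : Av (Pd CF) D (Bs W 1) k) {f : W → (Fin n → ℕ) → ℕ} (hf : CF n f) :
    CF n f ∧ Fn D (fun p : Bs W n => f p.w p.v) := by
  have hS := fcl_CF (W := W)
  have hC : Clo (Pd (CF (W := W))) := clo_Pd hS
  have hA' := av_all hC hD hA
  have hcl : FCl (fun (n : ℕ) (f : W → (Fin n → ℕ) → ℕ) =>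
      CF n f ∧ Fn D (fun p : Bs W n => f p.w p.v)) := {
    zero := fun n => ⟨hS.zero n, Fn.nat hD 0⟩
    suc := ⟨hS.suc, ((Vr.fin 0).fn hD).add hD (Fn.nat hD 1)⟩
    proj := fun n i => ⟨hS.proj n i, (Vr.fin i).fn hD⟩
    mul := ⟨hS.mul, (((Vr.fin 0).fn hD).add hD (Fn.nat hD 1)).mul hD
      (((Vr.fin 1).fn hD).add hD (Fn.nat hD 1))⟩
    len := ⟨hS.len, Fn.len hD⟩
    inp := ⟨hS.inp, hI⟩
    comp := by
      rintro n m g hs ⟨hg, hg'⟩ hh
      exact ⟨hS.comp n m g hs hg fun i => (hh i).1, hg'.map hD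
        (φ := fun (p : Bs W n) => (⟨p.w, fun i => hs i p.w p.v⟩ : Bs W m))
        ⟨fun _ => rfl, fun i => (hh i).2⟩⟩
    lrec := by
      rintro n g h b F ⟨hg, hg'⟩ ⟨hh, hh'⟩ ⟨hb, _⟩ h1 h2 h3
      have hF : CF (n + 1) F := hS.lrec n g h b F hg hh hb h1 h2 h3
      obtain ⟨B, hB⟩ := hF.bound
      exact ⟨hF, lrec_law hC hD hA' hg' hh' (fn_of_S hS hF hB) h2 h3⟩ }
  refine hf _ hcl ?_
  rintro n a p q F ⟨ha, ha'⟩ ⟨hp, hp'⟩ ⟨hq, hq'⟩ h2 h3
  have hF : CF (n + 2) F := cmp_CF n a p q F ha hp hq h2 h3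
  obtain ⟨B, hB⟩ := hF.bound
  exact ⟨hF, cmprec_law hC hD hA' ha' hp' hq' (fn_of_S hS hF hB) h2 h3⟩

/-- The law for comparator circuits. -/
theorem law_CF (hD : Clo D) (hI : Fn D (fun p : Bs W 1 => Wi.inp p.w (p.v 0))) :
    (∀ (n : ℕ) (R : W → (Fin n → ℕ) → Prop), R ∈ Pd CF n → R ∈ D n) ↔
      ∃ k : ℕ, Avoid CF D k := by
  constructor
  · intro h
    have hS := fcl_CF (W := W)
    refine ⟨1, fun f hf hk => ⟨fun w v => 1 - f w v, fun w v => ?_, fun c => ?_⟩⟩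
    · have := hk w v
      constructor <;> (beta_reduce; omega)
    · have h1 : CF 1 (fun w v => 1 - f w v) := hS.subf (hS.constf 1) hf
      exact h _ _ (Pd.of_zero hS (hS.addf (hS.subf h1 (hS.constf c))
        (hS.subf (hS.constf c) h1)) fun w v => by
          show 1 - f w v = c ↔ 1 - f w v - c + (c - (1 - f w v)) = 0
          omega)
  · rintro ⟨k, h⟩ n R hR
    obtain ⟨f, hf, _, h'⟩ := Pd.zero hR
    refine mem_of_df ((Df.eqf hD (fnC_closed hD hI (av_of_avoid fcl_CF hD h) hf).2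
      (Fn.nat hD 0)).congr fun p => h' p.w p.v)

theorem law_CC_NL : (∀ (n : ℕ) (R : W → (Fin n → ℕ) → Prop), R ∈ Pd CF n → R ∈ NR (Pd LF) n) ↔
    ∃ k : ℕ, Avoid CF (NR (Pd (LF (W := W)))) k :=
  law_CF (clo_NR (clo_Pd fcl_LF)) (inp_NR fcl_LF)

theorem law_P_CC : (∀ (n : ℕ) (R : W → (Fin n → ℕ) → Prop), R ∈ Pd PF n → R ∈ Pd CF n) ↔
    ∃ k : ℕ, Avoid PF (Pd (CF (W := W))) k := law_PF (clo_Pd fcl_CF) (inp_Pd fcl_CF)

end Pool.Agent.TH762.WD
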