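import Pool.Agent.TH762.WD.Nsp

set_option autoImplicit false

/-!
Division, and reachability classes.
-/

namespace Pool.Agent.TH762.WD

open MvPolynomial Relation
open Pool.Agent.TH762.E2 (dc1 dc2 dc_code rtg_lift)

variable {W : Type} [Wd W] {C D : (n : ℕ) → Set (W → (Fin n → ℕ) → Prop)} {Γ Δ : Type}
  [Cx W Γ] [Cx W Δ] {k n : ℕ}

theorem Fn.div (hD : Clo D) {f g : Γ → ℕ} (hf : Fn D f) (hg : Fn D g) :
    Fn D (fun γ => f γ / (g γ + 1)) := by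
  refine Fn.of_le (g := f) ?_ hf (fun γ => Nat.div_le_self _ _)
  have hq : Fn D (fun p : Γ × ℕ => p.2) := Vr.snd.fn hD
  have hg' : Fn D (fun p : Γ × ℕ => g p.1 + 1) := (hg.fst hD).add hD (Fn.nat hD 1)
  refine ((Df.lef hD (hq.mul hD hg') (hf.fst hD)).and hD (Df.ltf hD (hf.fst hD)
    ((hq.add hD (Fn.nat hD 1)).mul hD hg'))).congr fun p => ?_
  show p.2 = f p.1 / (g p.1 + 1) ↔ _
  rw [eq_comm, Nat.div_eq_iff (by omega)]
  constructor
  · rintro ⟨h1, h2⟩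
    refine ⟨h1, ?_⟩
    rw [Nat.add_mul]
    omega
  · rintro ⟨h1, h2⟩
    rw [Nat.add_mul] at h2
    exact ⟨h1, by omega⟩

theorem Fn.mod (hD : Clo D) {f g : Γ → ℕ} (hf : Fn D f) (hg : Fn D g) :
    Fn D (fun γ => f γ % (g γ + 1)) := by
  refine (hf.tsub hD ((hg.add hD (Fn.nat hD 1)).mul hD (hf.div hD hg))).congr fun γ => ?_
  have := Nat.div_add_mod (f γ) (g γ + 1)
  omega

theorem Df.of_sub (hs : ∀ n (R : W → (Fin n → ℕ) → Prop), R ∈ C n → R ∈ D n) {P : Γ → Prop}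
    (h : Df C P) : Df D P := by
  obtain ⟨R, hR, h⟩ := h
  exact ⟨R, hs _ R hR, h⟩

theorem Fn.of_sub (hs : ∀ n (R : W → (Fin n → ℕ) → Prop), R ∈ C n → R ∈ D n) {f : Γ → ℕ}
    (h : Fn C f) : Fn D f := ⟨h.1.of_sub hs, h.2⟩

theorem mem_of_df {R : W → (Fin n → ℕ) → Prop} (h : Df D (fun p : Bs W n => R p.w p.v)) :
    R ∈ D n := by
  obtain ⟨R', hR', h⟩ := h
  have : R = R' := by
    funext w v
    exact propext (h ⟨w, v⟩)
  rw [this]
  exact hR'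

theorem df_of_mem {R : W → (Fin n → ℕ) → Prop} (h : R ∈ D n) :
    Df D (fun p : Bs W n => R p.w p.v) := ⟨R, h, fun _ => Iff.rfl⟩

/-- Predicates that say that there is a path from `0` to `1` in a graph on the numbers up to a
polynomial, whose edges are given by a predicate in `C`. -/
def NR (C : (n : ℕ) → Set (W → (Fin n → ℕ) → Prop)) (n : ℕ) : Set (W → (Fin n → ℕ) → Prop) :=
  {R | ∃ Q ∈ C (n + 2), ∃ p : MvPolynomial (Fin (n + 1)) ℕ, ∀ (w : W) (v : Fin n → ℕ), R w v ↔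
    Relation.ReflTransGen (fun a a' : ℕ => a ≤ MvPolynomial.eval (yv w v) p ∧
      a' ≤ MvPolynomial.eval (yv w v) p ∧ Q w (Matrix.vecCons a' (Matrix.vecCons a v))) 0 1}

theorem np_of_nr (hC : Clo C) {R : W → (Fin n → ℕ) → Prop} (h : R ∈ NR C n) :
    Np C (fun b : Bs W n => R b.w b.v) := by
  obtain ⟨Q, hQ, p, h⟩ := h
  have hx : Fn C (fun q : (Bs W n × ℕ) × ℕ => q.1.2) := (Vr.snd.ren Rn.fst).fn hC
  have hp : Fn C (fun b : Bs W n => eval (yv b.w b.v) p) := Fn.poly (Γ := Bs W n) hC p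
  have hp' := hp.ren hC (φ := fun q : (Bs W n × ℕ) × ℕ => q.1.1) (Rn.fst.comp Rn.fst)
  refine ⟨fun q => q.1.2 ≤ eval (yv q.1.1.w q.1.1.v) p ∧ q.2 ≤ eval (yv q.1.1.w q.1.1.v) p ∧
    Q q.1.1.w (Matrix.vecCons q.2 (Matrix.vecCons q.1.2 q.1.1.v)),
    fun b => eval (yv b.w b.v) p, fun _ => 0,
    fun _ => 1, ?_, hp, Fn.nat hC 0, Fn.nat hC 1, fun γ a a' h => ⟨h.1, h.2.1⟩,
    fun b => h b.w b.v⟩
  exact (Df.lef hC hx hp').and hC ((Df.lef hC (Vr.snd.fn hC) hp').and hC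
    ⟨Q, hQ, fun _ => Iff.rfl⟩)

theorem nr_of_np (hC : Clo C) {R : W → (Fin n → ℕ) → Prop}
    (h : Np C (fun b : Bs W n => R b.w b.v)) : R ∈ NR C n := by
  obtain ⟨E, b, s, e, hE, hb, hs, he, h1, h2⟩ := h
  have hx : Fn C (fun q : (Bs W n × ℕ) × ℕ => q.1.2) := (Vr.snd.ren Rn.fst).fn hC
  have hy : Fn C (fun q : (Bs W n × ℕ) × ℕ => q.2) := Vr.snd.fn hC
  have h11 : Rn (fun q : (Bs W n × ℕ) × ℕ => q.1.1) := Rn.fst.comp Rn.fst
  let G : Bs W n → ℕ → ℕ → Prop := fun v x x' =>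
    (x = 0 ∧ x' = s v + 2) ∨ (x = e v + 2 ∧ x' = 1) ∨
      (2 ≤ x ∧ 2 ≤ x' ∧ E ((v, x - 2), x' - 2))
  have hG : Df C (fun q : (Bs W n × ℕ) × ℕ => G q.1.1 q.1.2 q.2) := by
    refine Df.or hC ((Df.eqf hC hx (Fn.nat hC 0)).and hC
      (Df.eqf hC hy ((hs.ren hC h11).add hC (Fn.nat hC 2)))) (Df.or hC ((Df.eqf hC hx
        ((he.ren hC h11).add hC (Fn.nat hC 2))).and hC (Df.eqf hC hy (Fn.nat hC 1)))
        (Df.and hC (Df.lef hC (Fn.nat hC 2) hx) (Df.and hC (Df.lef hC (Fn.nat hC 2) hy) ?_)))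
    exact hE.map hC (φ := fun q : (Bs W n × ℕ) × ℕ => ((q.1.1, q.1.2 - 2), q.2 - 2))
      (((h11.mp hC).pair (hx.tsub hC (Fn.nat hC 2))).pair (hy.tsub hC (Fn.nat hC 2)))
  obtain ⟨Q, hQ, hQG⟩ := hG
  obtain ⟨p, hp⟩ := (((hb.add hC hs).add hC he).add hC (Fn.nat hC 2)).2
  have hGb : ∀ v x x', G v x x' → x ≤ eval (yv v.w v.v) p ∧ x' ≤ eval (yv v.w v.v) p := by
    intro v x x' h
    have h3 : b v + s v + e v + 2 ≤ eval (yv v.w v.v) p := hp v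
    rcases h with ⟨g1, g2⟩ | ⟨g1, g2⟩ | ⟨g1, g2, g3⟩
    · omega
    · omega
    · have := h1 v _ _ g3
      omega
  refine ⟨Q, hQ, p, fun w' v' => ?_⟩
  let v : Bs W n := ⟨w', v'⟩
  show R v.w v.v ↔ ReflTransGen (fun a a' : ℕ => a ≤ eval (yv v.w v.v) p ∧
      a' ≤ eval (yv v.w v.v) p ∧ Q v.w (Matrix.vecCons a' (Matrix.vecCons a v.v))) 0 1
  have h2 : R v.w v.v ↔ ReflTransGen (fun a a' => E ((v, a), a')) (s v) (e v) := h2 v
  have hrel : (fun a a' : ℕ => a ≤ eval (yv v.w v.v) p ∧ a' ≤ eval (yv v.w v.v) p ∧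
      Q v.w (Matrix.vecCons a' (Matrix.vecCons a v.v))) = G v := by
    funext a a'
    refine propext ⟨fun h => (hQG ((v, a), a')).2 h.2.2, fun h => ?_⟩
    exact ⟨(hGb v a a' h).1, (hGb v a a' h).2, (hQG ((v, a), a')).1 h⟩
  rw [hrel, h2]
  constructor
  · intro hr
    have q1 : ReflTransGen (G v) (s v + 2) (e v + 2) :=
      rtg_lift (p := G v) (fun a => a + 2) (fun a a' h => Or.inr (Or.inr ⟨by omega, by omega, by
        simpa using h⟩)) hr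
    have g1 : G v 0 (s v + 2) := Or.inl ⟨rfl, rfl⟩
    have g2 : G v (e v + 2) 1 := Or.inr (Or.inl ⟨rfl, rfl⟩)
    exact (ReflTransGen.head g1 q1).tail g2
  · intro hr
    have inv : ∀ x, ReflTransGen (G v) 0 x → x = 0 ∨
        (2 ≤ x ∧ ReflTransGen (fun a a' => E ((v, a), a')) (s v) (x - 2)) ∨
        (x = 1 ∧ ReflTransGen (fun a a' => E ((v, a), a')) (s v) (e v)) := by
      intro x hx
      induction hx with
      | refl => exact Or.inl rfl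
      | tail _ hstep ih =>
        rcases hstep with ⟨g1, g2⟩ | ⟨g1, g2⟩ | ⟨g1, g2, g3⟩
        · refine Or.inr (Or.inl ⟨by omega, ?_⟩)
          rw [g2]
          exact ReflTransGen.refl
        · rcases ih with h0 | ⟨h0, hr⟩ | ⟨h0, _⟩
          · omega
          · rw [g1] at hr
            exact Or.inr (Or.inr ⟨g2, hr⟩)
          · omega
        · rcases ih with h0 | ⟨h0, hr⟩ | ⟨h0, _⟩
          · omega
          · exact Or.inr (Or.inl ⟨g2, hr.tail g3⟩)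
          · omega
    rcases inv 1 hr with h0 | ⟨h0, _⟩ | ⟨_, h0⟩
    · omega
    · omega
    · exact h0

end Pool.Agent.TH762.WD
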