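import Pool.Agent.TH762.WD.Sb
import Pool.Agent.TH762.WD.Lba

set_option autoImplicit false

/-!
Places: a nonterminal and a subword; the table of the derived places.
-/

namespace Pool.Agent.TH762.WD

variable {m r : ℕ}

/-- The number of the nonterminal of a place. -/
def qA (r x : ℕ) : ℕ := x % (r + 1)

/-- The beginning of the subword of a place. -/
def qi (r n x : ℕ) : ℕ := x / (r + 1) % (n + 1)

/-- The end of the subword of a place. -/
def qj (r n x : ℕ) : ℕ := x / (r + 1) / (n + 1)

/-- The number of a place. -/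
def cd (r n A i j : ℕ) : ℕ := A + (r + 1) * (i + (n + 1) * j)

theorem cd_A {r n A i j : ℕ} (hA : A ≤ r) : qA r (cd r n A i j) = A := by
  unfold qA cd
  rw [Nat.add_mul_mod_self_left, Nat.mod_eq_of_lt (by omega)]

theorem cd_i {r n A i j : ℕ} (hA : A ≤ r) (hi : i ≤ n) : qi r n (cd r n A i j) = i := by
  unfold qi cd
  rw [Nat.add_mul_div_left _ _ (by omega), Nat.div_eq_of_lt (show A < r + 1 by omega),
    Nat.zero_add, Nat.add_mul_mod_self_left, Nat.mod_eq_of_lt (by omega)]

theorem cd_j {r n A i j : ℕ} (hA : A ≤ r) (hi : i ≤ n) : qj r n (cd r n A i j) = j := by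
  unfold qj cd
  rw [Nat.add_mul_div_left _ _ (by omega), Nat.div_eq_of_lt (show A < r + 1 by omega),
    Nat.zero_add, Nat.add_mul_div_left _ _ (by omega), Nat.div_eq_of_lt (show i < n + 1 by omega),
    Nat.zero_add]

theorem cd_le {r n A i j : ℕ} (hA : A ≤ r) (hi : i ≤ n) (hj : j ≤ n) :
    cd r n A i j ≤ (r + 1) * ((n + 1) * (n + 1)) := by
  unfold cd
  have h1 : i + (n + 1) * j + 1 ≤ (n + 1) * (n + 1) := by
    have h2 : (n + 1) * j ≤ (n + 1) * n := Nat.mul_le_mul_left _ hj
    have h3 : (n + 1) * (n + 1) = (n + 1) * n + (n + 1) := by ring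
    omega
  calc A + (r + 1) * (i + (n + 1) * j) ≤ (r + 1) * (i + (n + 1) * j + 1) := by
        rw [Nat.mul_add (r + 1) _ 1, Nat.mul_one]
        omega
    _ ≤ _ := Nat.mul_le_mul_left _ h1

/-- The nonterminal of a proper place. -/
def tag (r n x : ℕ) : Option (Fin r) :=
  if h : qA r x < r ∧ qi r n x < qj r n x ∧ qj r n x ≤ n then some ⟨qA r x, h.1⟩ else none

theorem tag_none {r n x : ℕ} : tag r n x = none ↔
    ¬ (qA r x < r ∧ qi r n x < qj r n x ∧ qj r n x ≤ n) := by
  unfold tag
  by_cases h : qA r x < r ∧ qi r n x < qj r n x ∧ qj r n x ≤ n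
  · rw [dif_pos h]
    constructor
    · intro h1
      cases h1
    · intro h1
      exact absurd h h1
  · rw [dif_neg h]
    exact ⟨fun _ => h, fun _ => rfl⟩

theorem tag_some {r n x : ℕ} {A : Fin r} : tag r n x = some A ↔
    qA r x = A.val ∧ qi r n x < qj r n x ∧ qj r n x ≤ n := by
  unfold tag
  by_cases h : qA r x < r ∧ qi r n x < qj r n x ∧ qj r n x ≤ n
  · rw [dif_pos h, Option.some_inj, Fin.ext_iff]
    exact ⟨fun h1 => ⟨h1, h.2⟩, fun h1 => h1.1⟩
  · rw [dif_neg h]
    constructor
    · intro h1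
      cases h1
    · rintro ⟨h1, h2⟩
      exact absurd ⟨by rw [h1]; exact A.2, h2⟩ h

/-- The place is derived. -/
def Tr (G : Gr (Fin m) (Fin r)) (w : List (Fin m)) (x : ℕ) : Prop :=
  ∃ A, tag r w.length x = some A ∧ Der G A (sb w (qi r w.length x) (qj r w.length x))

/-- The place is derived from places with the property `P`. -/
def St (G : Gr (Fin m) (Fin r)) (w : List (Fin m)) (P : ℕ → Prop) (x : ℕ) : Prop :=
  ∃ A : Fin r, (qA r x = A.val ∧ qi r w.length x < qj r w.length x ∧
      qj r w.length x ≤ w.length) ∧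
    ((qj r w.length x = qi r w.length x + 1 ∧
        ∃ a : Fin m, G.ter A a ∧ Wi.inp w (qi r w.length x) = a.val + 1) ∨
      ∃ h ≤ w.length, qi r w.length x < h ∧ h < qj r w.length x ∧ ∃ B C : Fin r, G.bin A B C ∧
        P (cd r w.length B.val (qi r w.length x) h) ∧
        P (cd r w.length C.val h (qj r w.length x)))

theorem tr_cd (G : Gr (Fin m) (Fin r)) (w : List (Fin m)) (B : Fin r) {i h : ℕ} (h1 : i < h)
    (h2 : h ≤ w.length) : Tr G w (cd r w.length B.val i h) ↔ Der G B (sb w i h) := by
  unfold Tr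
  have hB : B.val ≤ r := B.2.le
  rw [cd_i hB (by omega), cd_j hB (by omega)]
  constructor
  · rintro ⟨A, hA, hd⟩
    rw [tag_some, cd_A hB] at hA
    have : B = A := Fin.ext hA.1
    rw [this]
    exact hd
  · intro hd
    refine ⟨B, ?_, hd⟩
    rw [tag_some, cd_A hB, cd_i hB (by omega), cd_j hB (by omega)]
    exact ⟨rfl, h1, h2⟩

theorem tr_st (G : Gr (Fin m) (Fin r)) (w : List (Fin m)) (x : ℕ) :
    Tr G w x ↔ St G w (Tr G w) x := by
  unfold St
  constructor
  · rintro ⟨A, hA, hd⟩
    rw [tag_some] at hA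
    refine ⟨A, hA, ?_⟩
    rcases (der_sb G A w _ _ hA.2.1 hA.2.2).1 hd with h | ⟨h, h0, h1, h2, B, C, h3, h4, h5⟩
    · exact Or.inl h
    · exact Or.inr ⟨h, h0, h1, h2, B, C, h3, (tr_cd G w B h1 h0).2 h4,
        (tr_cd G w C h2 hA.2.2).2 h5⟩
  · rintro ⟨A, hA, hd⟩
    refine ⟨A, tag_some.2 hA, (der_sb G A w _ _ hA.2.1 hA.2.2).2 ?_⟩
    rcases hd with h | ⟨h, h0, h1, h2, B, C, h3, h4, h5⟩
    · exact Or.inl h
    · exact Or.inr ⟨h, h0, h1, h2, B, C, h3, (tr_cd G w B h1 h0).1 h4,
        (tr_cd G w C h2 hA.2.2).1 h5⟩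

/-- The table is determined by the derivation steps. -/
theorem st_uniq (G : Gr (Fin m) (Fin r)) (w : List (Fin m)) {P : ℕ → Prop}
    (hP : ∀ x ≤ (r + 1) * ((w.length + 1) * (w.length + 1)), (P x ↔ St G w P x)) :
    ∀ x ≤ (r + 1) * ((w.length + 1) * (w.length + 1)), (P x ↔ Tr G w x) := by
  have key : ∀ d x, x ≤ (r + 1) * ((w.length + 1) * (w.length + 1)) →
      qj r w.length x - qi r w.length x < d → (P x ↔ Tr G w x) := by
    intro d
    induction d with
    | zero => intro x _ h; exact absurd h (Nat.not_lt_zero _)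
    | succ d ih =>
      intro x hx hd
      rw [hP x hx, tr_st]
      unfold St
      refine exists_congr fun A => and_congr_right fun hA => or_congr Iff.rfl
        (exists_congr fun h => and_congr_right fun h0 => and_congr_right fun h1 =>
          and_congr_right fun h2 => exists_congr fun B => exists_congr fun C =>
          and_congr_right fun _ => and_congr (ih _ ?_ ?_) (ih _ ?_ ?_))
      · exact cd_le B.2.le (by omega) h0
      · rw [cd_i B.2.le (by omega), cd_j B.2.le (by omega)]
        omega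
      · exact cd_le C.2.le h0 hA.2.2
      · rw [cd_i C.2.le h0, cd_j C.2.le h0]
        omega
  intro x hx
  exact key _ x hx (Nat.lt_succ_self _)

/-- The code of a list of words belongs to the language of the lists of words. -/
theorem PL_ofFn {k : ℕ} (L : Fin k → List (Fin m) → Prop) (u : Fin k → List (Fin m)) :
    PL (List.ofFn L) (enc (List.ofFn u)) ↔ ∀ i, L i (u i) := by
  rw [PL_enc _ _ (by simp)]
  have e : List.zip (List.ofFn L) (List.ofFn u) = List.ofFn fun i => (L i, u i) := by
    apply List.ext_getElem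
    · simp
    · intro i h1 h2
      simp
  rw [e]
  constructor
  · intro h i
    exact h (L i, u i) (List.mem_ofFn.2 ⟨i, rfl⟩)
  · intro h p hp
    obtain ⟨i, rfl⟩ := List.mem_ofFn.1 hp
    exact h i

/-- The languages of lists of words: enough of the words are derived. -/
def XL {k : ℕ} (G : Gr (Fin m) (Fin r)) (t : Fin k → Option (Fin r))
    (U : (Fin k → Bool) → Bool) (w : List (Fin (m + 1))) : Prop :=
  ∃ b : Fin k → Bool, U b = true ∧
    PL (List.ofFn fun i => (fun u : List (Fin m) => b i = true → ∃ A, t i = some A ∧ Der G A u)) w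

theorem xl_cn {k : ℕ} (G : Gr (Fin m) (Fin r)) (t : Fin k → Option (Fin r))
    (U : (Fin k → Bool) → Bool) : CN (XL G t U) := by
  refine CN.exF fun b => ?_
  cases hU : U b with
  | false => exact CN.empty.congr fun w => ⟨fun h => absurd h.1 (by decide), fun h => h.elim⟩
  | true =>
    have h1 : CN (PL (List.ofFn fun i => (fun u : List (Fin m) => b i = true →
        ∃ A, t i = some A ∧ Der G A u))) := by
      refine CN.PL _ fun L hL => ?_
      obtain ⟨i, rfl⟩ := List.mem_ofFn.1 hL
      cases hb : b i with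
      | false =>
        refine CN.any.congr fun w => ?_
        constructor
        · rintro ⟨x, _, hx⟩
          exact ⟨x, hx⟩
        · rintro ⟨x, hx⟩
          exact ⟨x, fun h => absurd h (by decide), hx⟩
      | true =>
        cases ht : t i with
        | none =>
          refine CN.empty.congr fun w => ?_
          constructor
          · rintro ⟨x, h, _⟩
            obtain ⟨A, hA, _⟩ := h rfl
            cases hA
          · intro h
            exact h.elim
        | some A =>
          refine (CN.spup G A).congr fun w => ?_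
          constructor
          · rintro ⟨x, h, hx⟩
            obtain ⟨A', hA, hd⟩ := h rfl
            rw [Option.some_inj] at hA
            rw [← hA] at hd
            exact ⟨x, hd, hx⟩
          · rintro ⟨x, hd, hx⟩
            exact ⟨x, fun _ => ⟨A, rfl, hd⟩, hx⟩
    exact h1.congr fun w => ⟨fun h => h.2, fun h => ⟨rfl, h⟩⟩

open Classical in
theorem xl_enc {k : ℕ} (G : Gr (Fin m) (Fin r)) (t : Fin k → Option (Fin r))
    (U : (Fin k → Bool) → Bool) (hU : ∀ b b' : Fin k → Bool, (∀ i, b i = true → b' i = true) →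
      U b = true → U b' = true) (u : Fin k → List (Fin m)) :
    XL G t U (enc (List.ofFn u)) ↔
      U (fun i => decide (∃ A, t i = some A ∧ Der G A (u i))) = true := by
  unfold XL
  constructor
  · rintro ⟨b, hb, h⟩
    rw [PL_ofFn] at h
    exact hU b _ (fun i hi => decide_eq_true (h i hi)) hb
  · intro h
    refine ⟨_, h, ?_⟩
    rw [PL_ofFn]
    intro i hi
    exact of_decide_eq_true hi

end Pool.Agent.TH762.WD
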