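import Pool.Agent.TH762.WD.Avd
import Pool.Agent.TH762.E2.FCl

set_option autoImplicit false

/-!
Classes of functions of an input and numbers that are closed under composition and limited
recursion, and their predicates.
-/

namespace Pool.Agent.TH762.WD

open MvPolynomial
open Pool.Agent.TH762.E2 (E2 ch ch_pos ch_neg ch_le)

/-- Inputs which are read symbol by symbol. -/
class Wi (W : Type) extends Wd W where
  inp : W → ℕ → ℕ
  bd : ∃ c, ∀ w i, inp w i ≤ c

variable {W : Type} [Wi W]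

/-- Classes of functions of an input and numbers closed under composition and limited
recursion. -/
structure FCl (S : (n : ℕ) → (W → (Fin n → ℕ) → ℕ) → Prop) : Prop where
  zero : ∀ n : ℕ, S n (fun _ _ => (0 : ℕ))
  suc : S 1 (fun _ v => v 0 + 1)
  proj : ∀ (n : ℕ) (i : Fin n), S n (fun _ v => v i)
  mul : S 2 (fun _ v => (v 0 + 1) * (v 1 + 1))
  len : S 0 (fun w _ => Wd.len w)
  inp : S 1 (fun w v => Wi.inp w (v 0))
  comp : ∀ (n m : ℕ) (g : W → (Fin m → ℕ) → ℕ) (hs : Fin m → W → (Fin n → ℕ) → ℕ),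
    S m g → (∀ i, S n (hs i)) → S n (fun w v => g w (fun i => hs i w v))
  lrec : ∀ (n : ℕ) (g : W → (Fin n → ℕ) → ℕ) (h : W → (Fin (n + 2) → ℕ) → ℕ)
    (b F : W → (Fin (n + 1) → ℕ) → ℕ),
    S n g → S (n + 2) h → S (n + 1) b →
    (∀ w v, F w v ≤ b w v) →
    (∀ w (v : Fin n → ℕ), F w (Matrix.vecCons 0 v) = g w v) →
    (∀ w (v : Fin n → ℕ) (y : ℕ), F w (Matrix.vecCons (y + 1) v) =
      h w (Matrix.vecCons (F w (Matrix.vecCons y v)) (Matrix.vecCons y v))) →
    S (n + 1) F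

/-- The predicates of a class of functions. -/
def Pd (S : (n : ℕ) → (W → (Fin n → ℕ) → ℕ) → Prop) (k : ℕ) : Set (W → (Fin k → ℕ) → Prop) :=
  {R | ∃ f, S k f ∧ ∀ (w : W) (v : Fin k → ℕ), (R w v → f w v = 0) ∧ (¬ R w v → f w v = 1)}

variable {S : (n : ℕ) → (W → (Fin n → ℕ) → ℕ) → Prop} {n : ℕ}

/-- Every function of `E^2` is in the class. -/
theorem FCl.of_E2 (hS : FCl S) {f : (Fin n → ℕ) → ℕ} (hf : E2 n f) : S n (fun _ v => f v) :=
  hf (fun n => {f | S n (fun _ v => f v)}) hS.zero hS.suc hS.proj hS.mul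
    (fun n m g hs hg hh => hS.comp n m (fun _ v => g v) (fun i _ v => hs i v) hg hh)
    (fun n g h b F hg hh hb h1 h2 h3 => hS.lrec n (fun _ v => g v) (fun _ v => h v)
      (fun _ v => b v) (fun _ v => F v) hg hh hb (fun _ => h1) (fun _ => h2) (fun _ => h3))

theorem FCl.cmp {m : ℕ} (hS : FCl S) {g : W → (Fin m → ℕ) → ℕ}
    {hs : Fin m → W → (Fin n → ℕ) → ℕ} (hg : S m g) (hh : ∀ i, S n (hs i)) :
    S n (fun w v => g w (fun i => hs i w v)) :=
  hS.comp n m g hs hg hh

theorem FCl.app2 (hS : FCl S) {g : ℕ → ℕ → ℕ} (hg : E2 2 (fun v => g (v 0) (v 1)))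
    {f f' : W → (Fin n → ℕ) → ℕ} (hf : S n f) (hf' : S n f') :
    S n (fun w v => g (f w v) (f' w v)) := by
  have h1 : S 2 (fun _ v => g (v 0) (v 1)) := hS.of_E2 hg
  have h2 : ∀ i : Fin 2, S n ((![f, f'] : Fin 2 → W → (Fin n → ℕ) → ℕ) i) := by
    intro i
    match i with
    | 0 => exact hf
    | 1 => exact hf'
  exact hS.comp n 2 (fun _ v => g (v 0) (v 1)) ![f, f'] h1 h2

theorem FCl.congr (_ : FCl S) {f g : W → (Fin n → ℕ) → ℕ} (h : S n f)
    (e : ∀ w v, g w v = f w v) : S n g := by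
  have : g = f := by
    funext w v
    exact e w v
  rw [this]
  exact h

theorem FCl.addf (hS : FCl S) {f g : W → (Fin n → ℕ) → ℕ} (hf : S n f) (hg : S n g) :
    S n (fun w v => f w v + g w v) :=
  hS.app2 (g := fun a b => a + b) (f := f) (f' := g) ((E2.proj 2 0).add (E2.proj 2 1)) hf hg

theorem FCl.mulf (hS : FCl S) {f g : W → (Fin n → ℕ) → ℕ} (hf : S n f) (hg : S n g) :
    S n (fun w v => f w v * g w v) :=
  hS.app2 (g := fun a b => a * b) (f := f) (f' := g) ((E2.proj 2 0).mul (E2.proj 2 1)) hf hg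

theorem FCl.subf (hS : FCl S) {f g : W → (Fin n → ℕ) → ℕ} (hf : S n f) (hg : S n g) :
    S n (fun w v => f w v - g w v) :=
  hS.app2 (g := fun a b => a - b) (f := f) (f' := g) ((E2.proj 2 0).sub (E2.proj 2 1)) hf hg

theorem FCl.constf (hS : FCl S) (c : ℕ) : S n (fun _ _ => c) := hS.of_E2 (E2.const c)

theorem FCl.lenf (hS : FCl S) : S n (fun w _ => Wd.len w) :=
  hS.cmp (hs := fun i => i.elim0) hS.len (fun i => i.elim0)

theorem FCl.inpf (hS : FCl S) {f : W → (Fin n → ℕ) → ℕ} (hf : S n f) :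
    S n (fun w v => Wi.inp w (f w v)) := hS.cmp (hs := fun _ => f) hS.inp (fun _ => hf)

theorem FCl.polyf (hS : FCl S) (b : MvPolynomial (Fin (n + 1)) ℕ) :
    S n (fun w v => eval (yv w v) b) := by
  refine hS.congr (hS.cmp (hs := Fin.cases (fun w _ => Wd.len w) (fun i _ v => v i))
    (hS.of_E2 (E2.poly b)) (by
      intro i
      refine Fin.cases ?_ (fun i => ?_) i
      · exact hS.lenf
      · exact hS.proj n i)) fun w v => ?_
  congr 2
  funext i
  refine Fin.cases ?_ (fun i => ?_) i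
  · rfl
  · rfl

theorem Pd.of_zero (hS : FCl S) {R : W → (Fin n → ℕ) → Prop} {f : W → (Fin n → ℕ) → ℕ}
    (hf : S n f) (h : ∀ w v, R w v ↔ f w v = 0) : R ∈ Pd S n := by
  refine ⟨fun w v => 1 - (1 - f w v), hS.subf (hS.constf 1) (hS.subf (hS.constf 1) hf),
    fun w v => ⟨fun hR => ?_, fun hR => ?_⟩⟩
  · have := (h w v).1 hR
    show 1 - (1 - f w v) = 0
    omega
  · have : f w v ≠ 0 := fun h' => hR ((h w v).2 h')
    show 1 - (1 - f w v) = 1
    omega

theorem Pd.zero {R : W → (Fin n → ℕ) → Prop} (h : R ∈ Pd S n) :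
    ∃ f, S n f ∧ (∀ w v, f w v ≤ 1) ∧ ∀ w v, R w v ↔ f w v = 0 := by
  classical
  obtain ⟨f, hf, h⟩ := h
  refine ⟨f, hf, fun w v => ?_, fun w v => ⟨(h w v).1, fun h0 => ?_⟩⟩
  · by_cases hR : R w v
    · rw [(h w v).1 hR]; omega
    · rw [(h w v).2 hR]
  · by_contra hR
    have := (h w v).2 hR
    omega

theorem Pd.bex (hS : FCl S) {P : W → (Fin (n + 1) → ℕ) → Prop} (hP : P ∈ Pd S (n + 1))
    {b : W → (Fin n → ℕ) → ℕ} (hb : S n b) :
    (fun w (v : Fin n → ℕ) => ∃ x, x ≤ b w v ∧ P w (Matrix.vecCons x v)) ∈ Pd S n := by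
  classical
  obtain ⟨f, hf, hf1, h⟩ := Pd.zero hP
  let F : W → (Fin (n + 1) → ℕ) → ℕ := fun w u =>
    ch (∃ x, x ≤ u 0 ∧ P w (Matrix.vecCons x (Fin.tail u)))
  have hF : S (n + 1) F := by
    refine hS.lrec n (fun w v => f w (Matrix.vecCons 0 v))
      (fun w u => u 0 * f w (Matrix.vecCons (u 1 + 1) (Fin.tail (Fin.tail u))))
      (fun _ _ => 1) F ?_ ?_ (hS.constf 1) ?_ ?_ ?_
    · have := hS.cmp hf (n := n) (hs := Fin.cases (fun _ _ => 0) (fun i _ v => v i)) (by
        intro i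
        refine Fin.cases ?_ (fun i => ?_) i
        · exact hS.zero n
        · exact hS.proj n i)
      refine hS.congr this fun w v => ?_
      congr 1
      funext i
      refine Fin.cases ?_ (fun i => ?_) i
      · rfl
      · rfl
    · refine hS.mulf (hS.proj (n + 2) 0) ?_
      have := hS.cmp hf (n := n + 2)
        (hs := Fin.cases (fun _ u => u 1 + 1) (fun i _ u => u i.succ.succ)) (by
          intro i
          refine Fin.cases ?_ (fun i => ?_) i
          · exact hS.addf (hS.proj (n + 2) 1) (hS.constf 1)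
          · exact hS.proj (n + 2) i.succ.succ)
      refine hS.congr this fun w v => ?_
      congr 1
      funext i
      refine Fin.cases ?_ (fun i => ?_) i
      · rfl
      · rfl
    · intro w v
      exact ch_le _
    · intro w v
      show ch (∃ x, x ≤ 0 ∧ P w (Matrix.vecCons x v)) = f w (Matrix.vecCons 0 v)
      by_cases h0 : P w (Matrix.vecCons 0 v)
      · rw [ch_pos ⟨0, le_rfl, h0⟩, (h _ _).1 h0]
      · rw [ch_neg]
        · have h1 := hf1 w (Matrix.vecCons 0 v)
          have h2 : f w (Matrix.vecCons 0 v) ≠ 0 := fun h' => h0 ((h _ _).2 h')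
          omega
        · rintro ⟨x, hx, hP⟩
          have : x = 0 := by omega
          subst this
          exact h0 hP
    · intro w v y
      show ch (∃ x, x ≤ y + 1 ∧ P w (Matrix.vecCons x v)) =
        ch (∃ x, x ≤ y ∧ P w (Matrix.vecCons x v)) * f w (Matrix.vecCons (y + 1) v)
      by_cases h0 : ∃ x, x ≤ y ∧ P w (Matrix.vecCons x v)
      · obtain ⟨x, hx, hP⟩ := h0
        rw [ch_pos ⟨x, by omega, hP⟩, ch_pos ⟨x, hx, hP⟩, Nat.zero_mul]
      · rw [ch_neg h0, Nat.one_mul]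
        by_cases h1 : P w (Matrix.vecCons (y + 1) v)
        · rw [ch_pos ⟨y + 1, le_rfl, h1⟩, (h _ _).1 h1]
        · rw [ch_neg]
          · have h3 := hf1 w (Matrix.vecCons (y + 1) v)
            have h2 : f w (Matrix.vecCons (y + 1) v) ≠ 0 := fun h' => h1 ((h _ _).2 h')
            omega
          · rintro ⟨x, hx, hP⟩
            rcases Nat.lt_or_ge y x with h5 | h5
            · have : x = y + 1 := by omega
              subst this
              exact h1 hP
            · exact h0 ⟨x, h5, hP⟩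
  have h4 := hS.cmp hF (n := n) (hs := Fin.cases b (fun i _ v => v i)) (by
    intro i
    refine Fin.cases ?_ (fun i => ?_) i
    · exact hb
    · exact hS.proj n i)
  refine Pd.of_zero hS h4 fun w v => ?_
  show _ ↔ ch (∃ x, x ≤ b w v ∧ P w (Matrix.vecCons x v)) = 0
  by_cases h0 : ∃ x, x ≤ b w v ∧ P w (Matrix.vecCons x v)
  · exact ⟨fun _ => ch_pos h0, fun _ => h0⟩
  · exact ⟨fun h' => absurd h' h0, fun h' => by rw [ch_neg h0] at h'; omega⟩

theorem clo_Pd (hS : FCl S) : Clo (Pd S) where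
  eq n p q := Pd.of_zero hS
    (hS.addf (hS.subf (hS.polyf p) (hS.polyf q)) (hS.subf (hS.polyf q) (hS.polyf p)))
    fun w v => by omega
  le n p q := Pd.of_zero hS (hS.subf (hS.polyf p) (hS.polyf q)) fun w v => by omega
  not n P hP := by
    obtain ⟨f, hf, hf1, h⟩ := Pd.zero hP
    refine Pd.of_zero hS (hS.subf (hS.constf 1) hf) fun w v => ?_
    have := hf1 w v
    rw [h w v]
    omega
  and n P Q hP hQ := by
    obtain ⟨f, hf, hf1, h⟩ := Pd.zero hP
    obtain ⟨f', hf', hf1', h'⟩ := Pd.zero hQ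
    refine Pd.of_zero hS (hS.addf hf hf') fun w v => ?_
    rw [h w v, h' w v]
    omega
  ex n P p hP := Pd.bex hS hP (hS.polyf p)
  ren n m ρ P hP := by
    obtain ⟨f, hf, h⟩ := hP
    exact ⟨_, hS.cmp hf fun i => hS.proj m (ρ i), fun w v => h _ _⟩

/-- The graph of a function of the class. -/
theorem fn_of_S (hS : FCl S) {f : W → (Fin n → ℕ) → ℕ} (hf : S n f)
    {b : MvPolynomial (Fin (n + 1)) ℕ} (hb : ∀ w v, f w v ≤ eval (yv w v) b) :
    Fn (Pd S) (fun p : Bs W n => f p.w p.v) := by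
  refine ⟨⟨fun w u => u 0 = f w (Fin.tail u), ?_, fun p => Iff.rfl⟩, b, fun p => hb p.w p.v⟩
  have h1 : S (n + 1) (fun w (u : Fin (n + 1) → ℕ) => f w (Fin.tail u)) :=
    hS.cmp hf fun i => hS.proj (n + 1) i.succ
  have h2 := hS.proj (n + 1) 0
  refine Pd.of_zero hS (hS.addf (hS.subf h2 h1) (hS.subf h1 h2)) fun w u => ?_
  omega

/-- Definable functions bounded by a constant are in the class. -/
theorem S_of_fn (hS : FCl S) {f : W → (Fin n → ℕ) → ℕ}
    (hf : Fn (Pd S) (fun p : Bs W n => f p.w p.v)) {k : ℕ} (hk : ∀ w v, f w v ≤ k) :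
    S n f := by
  classical
  have hC := clo_Pd hS
  have key : ∀ k : ℕ, S n (fun w v => min (f w v) k) := by
    intro k
    induction k with
    | zero => exact hS.congr (hS.zero n) fun w v => by simp
    | succ k ih =>
      obtain ⟨R, hR, h⟩ := Df.lef hC (Fn.nat hC (k + 1)) hf
      obtain ⟨g, hg, h'⟩ := hR
      refine hS.congr (hS.addf ih (hS.subf (hS.constf 1) hg)) fun w v => ?_
      have h1 := h ⟨w, v⟩
      have h2 := h' w v
      by_cases h3 : k + 1 ≤ f w v
      · have h4 := h2.1 (h1.1 h3)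
        omega
      · have h4 := h2.2 (fun h5 => h3 (h1.2 h5))
        omega
  refine hS.congr (key k) fun w v => ?_
  have := hk w v
  omega

end Pool.Agent.TH762.WD
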