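import Mathlib

set_option autoImplicit false

/-!
Context-free grammars in Chomsky normal form.
-/

namespace Pool.Agent.TH762.WD

variable {α ν ν' : Type}

/-- Grammars in Chomsky normal form: rules `A → B C` and `A → a`. -/
structure Gr (α ν : Type) where
  bin : ν → ν → ν → Prop
  ter : ν → α → Prop

/-- The words derived from a nonterminal. -/
inductive Der (G : Gr α ν) : ν → List α → Prop
  | ter (A : ν) (a : α) : G.ter A a → Der G A [a]
  | bin (A B C : ν) (u v : List α) : G.bin A B C → Der G B u → Der G C v → Der G A (u ++ v)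

theorem Der.ne {G : Gr α ν} {A : ν} {w : List α} (h : Der G A w) : w ≠ [] := by
  induction h with
  | ter => simp
  | bin A B C u v _ _ _ ih _ =>
    intro h
    exact ih (List.append_eq_nil_iff.1 h).1

/-- The languages generated by a grammar in Chomsky normal form (the context-free languages without
the empty word). -/
def CN (L : List α → Prop) : Prop :=
  ∃ (n : ℕ) (G : Gr α (Fin n)) (A : Fin n), ∀ w, L w ↔ Der G A w

/-- Context-free languages: some grammar in Chomsky normal form generates the nonempty words of the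
language. -/
def IsCF (L : List α → Prop) : Prop :=
  ∃ (n : ℕ) (G : Gr α (Fin n)) (A : Fin n), ∀ w, w ≠ [] → (L w ↔ Der G A w)

theorem CN.cf {L : List α → Prop} (h : CN L) : IsCF L := by
  obtain ⟨n, G, A, h⟩ := h
  exact ⟨n, G, A, fun w _ => h w⟩

/-- Embedding of a grammar. -/
theorem der_embed {G : Gr α ν} {G' : Gr α ν'} (f : ν → ν')
    (h1 : ∀ A B' C', G'.bin (f A) B' C' ↔ ∃ B C, B' = f B ∧ C' = f C ∧ G.bin A B C)
    (h2 : ∀ A a, G'.ter (f A) a ↔ G.ter A a) (A : ν) (w : List α) :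
    Der G' (f A) w ↔ Der G A w := by
  constructor
  · intro h
    generalize hX : f A = X at h
    induction h generalizing A with
    | ter X a h =>
      subst hX
      exact Der.ter A a ((h2 A a).1 h)
    | bin X B' C' u v h _ _ ih1 ih2 =>
      subst hX
      obtain ⟨B, C, hB, hC, h3⟩ := (h1 A B' C').1 h
      exact Der.bin A B C u v h3 (ih1 B hB.symm) (ih2 C hC.symm)
  · intro h
    induction h with
    | ter A a h => exact Der.ter _ a ((h2 A a).2 h)
    | bin A B C u v h _ _ ih1 ih2 =>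
      exact Der.bin _ (f B) (f C) u v ((h1 A _ _).2 ⟨B, C, rfl, rfl, h⟩) ih1 ih2

theorem CN.of_fintype [Fintype ν] (G : Gr α ν) (A : ν) {L : List α → Prop}
    (h : ∀ w, L w ↔ Der G A w) : CN L := by
  let e := Fintype.equivFin ν
  let G' : Gr α (Fin (Fintype.card ν)) :=
    ⟨fun A B C => G.bin (e.symm A) (e.symm B) (e.symm C), fun A a => G.ter (e.symm A) a⟩
  refine ⟨_, G', e A, fun w => (h w).trans (der_embed (G := G) (G' := G') e ?_ ?_ A w).symm⟩
  · intro A B' C'
    show G.bin (e.symm (e A)) (e.symm B') (e.symm C') ↔ _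
    rw [Equiv.symm_apply_apply]
    constructor
    · intro h
      exact ⟨e.symm B', e.symm C', by simp, by simp, h⟩
    · rintro ⟨B, C, rfl, rfl, h⟩
      simpa using h
  · intro A a
    show G.ter (e.symm (e A)) a ↔ _
    rw [Equiv.symm_apply_apply]

theorem CN.union {L L' : List α → Prop} (h : CN L) (h' : CN L') : CN (fun w => L w ∨ L' w) := by
  obtain ⟨n, G, A, h⟩ := h
  obtain ⟨n', G', A', h'⟩ := h'
  let H : Gr α (Option (Fin n ⊕ Fin n')) := {
    bin := fun X Y Z => match X with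
      | none => (∃ B C, Y = some (Sum.inl B) ∧ Z = some (Sum.inl C) ∧ G.bin A B C) ∨
          (∃ B C, Y = some (Sum.inr B) ∧ Z = some (Sum.inr C) ∧ G'.bin A' B C)
      | some (Sum.inl X) => ∃ B C, Y = some (Sum.inl B) ∧ Z = some (Sum.inl C) ∧ G.bin X B C
      | some (Sum.inr X) => ∃ B C, Y = some (Sum.inr B) ∧ Z = some (Sum.inr C) ∧ G'.bin X B C
    ter := fun X a => match X with
      | none => G.ter A a ∨ G'.ter A' a
      | some (Sum.inl X) => G.ter X a
      | some (Sum.inr X) => G'.ter X a }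
  have e1 : ∀ X w, Der H (some (Sum.inl X)) w ↔ Der G X w :=
    der_embed (G := G) (G' := H) (fun X => some (Sum.inl X)) (fun _ _ _ => Iff.rfl)
      (fun _ _ => Iff.rfl)
  have e2 : ∀ X w, Der H (some (Sum.inr X)) w ↔ Der G' X w :=
    der_embed (G := G') (G' := H) (fun X => some (Sum.inr X)) (fun _ _ _ => Iff.rfl)
      (fun _ _ => Iff.rfl)
  refine CN.of_fintype H none fun w => ?_
  rw [h, h']
  constructor
  · rintro (h1 | h1)
    · cases h1 with
      | ter _ a h2 => exact Der.ter none a (Or.inl h2)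
      | bin _ B C u v h2 h3 h4 =>
        exact Der.bin none _ _ u v (Or.inl ⟨B, C, rfl, rfl, h2⟩) ((e1 B u).2 h3) ((e1 C v).2 h4)
    · cases h1 with
      | ter _ a h2 => exact Der.ter none a (Or.inr h2)
      | bin _ B C u v h2 h3 h4 =>
        exact Der.bin none _ _ u v (Or.inr ⟨B, C, rfl, rfl, h2⟩) ((e2 B u).2 h3) ((e2 C v).2 h4)
  · intro h1
    cases h1 with
    | ter _ a h2 =>
      rcases h2 with h2 | h2
      · exact Or.inl (Der.ter A a h2)
      · exact Or.inr (Der.ter A' a h2)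
    | bin _ Y Z u v h2 h3 h4 =>
      rcases h2 with ⟨B, C, rfl, rfl, h2⟩ | ⟨B, C, rfl, rfl, h2⟩
      · exact Or.inl (Der.bin A B C u v h2 ((e1 B u).1 h3) ((e1 C v).1 h4))
      · exact Or.inr (Der.bin A' B C u v h2 ((e2 B u).1 h3) ((e2 C v).1 h4))

theorem CN.concat {L L' : List α → Prop} (h : CN L) (h' : CN L') :
    CN (fun w => ∃ u v, L u ∧ L' v ∧ w = u ++ v) := by
  obtain ⟨n, G, A, h⟩ := h
  obtain ⟨n', G', A', h'⟩ := h'
  let H : Gr α (Option (Fin n ⊕ Fin n')) := {
    bin := fun X Y Z => match X with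
      | none => Y = some (Sum.inl A) ∧ Z = some (Sum.inr A')
      | some (Sum.inl X) => ∃ B C, Y = some (Sum.inl B) ∧ Z = some (Sum.inl C) ∧ G.bin X B C
      | some (Sum.inr X) => ∃ B C, Y = some (Sum.inr B) ∧ Z = some (Sum.inr C) ∧ G'.bin X B C
    ter := fun X a => match X with
      | none => False
      | some (Sum.inl X) => G.ter X a
      | some (Sum.inr X) => G'.ter X a }
  have e1 : ∀ X w, Der H (some (Sum.inl X)) w ↔ Der G X w :=
    der_embed (G := G) (G' := H) (fun X => some (Sum.inl X)) (fun _ _ _ => Iff.rfl)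
      (fun _ _ => Iff.rfl)
  have e2 : ∀ X w, Der H (some (Sum.inr X)) w ↔ Der G' X w :=
    der_embed (G := G') (G' := H) (fun X => some (Sum.inr X)) (fun _ _ _ => Iff.rfl)
      (fun _ _ => Iff.rfl)
  refine CN.of_fintype H none fun w => ?_
  constructor
  · rintro ⟨u, v, h1, h2, rfl⟩
    exact Der.bin none _ _ u v ⟨rfl, rfl⟩ ((e1 A u).2 ((h u).1 h1)) ((e2 A' v).2 ((h' v).1 h2))
  · intro h1
    cases h1 with
    | ter _ a h2 => exact absurd h2 id
    | bin _ Y Z u v h2 h3 h4 =>
      obtain ⟨rfl, rfl⟩ := h2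
      exact ⟨u, v, (h u).2 ((e1 A u).1 h3), (h' v).2 ((e2 A' v).1 h4), rfl⟩

theorem CN.congr {L L' : List α → Prop} (h : CN L) (e : ∀ w, L' w ↔ L w) : CN L' := by
  obtain ⟨n, G, A, h⟩ := h
  exact ⟨n, G, A, fun w => (e w).trans (h w)⟩

theorem CN.empty : CN (fun _ : List α => False) := by
  refine ⟨1, ⟨fun _ _ _ => False, fun _ _ => False⟩, 0, fun w => ⟨fun h => h.elim, fun h => ?_⟩⟩
  cases h with
  | ter _ _ h => exact h
  | bin _ _ _ _ _ h _ _ => exact h

theorem CN.exF {ι : Type} [Fintype ι] {L : ι → List α → Prop} (h : ∀ i, CN (L i)) :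
    CN (fun w => ∃ i, L i w) := by
  have key : ∀ (m : ℕ) (L : Fin m → List α → Prop), (∀ i, CN (L i)) →
      CN (fun w => ∃ i, L i w) := by
    intro m
    induction m with
    | zero => intro L _; exact CN.empty.congr fun w => by simp
    | succ m ih =>
      intro L h
      exact ((h 0).union (ih _ fun i => h i.succ)).congr fun w => Fin.exists_fin_succ
  refine (key _ _ fun j => h ((Fintype.equivFin ι).symm j)).congr fun w => ?_
  constructor
  · rintro ⟨i, hi⟩
    exact ⟨Fintype.equivFin ι i, by simpa using hi⟩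
  · rintro ⟨j, hj⟩
    exact ⟨_, hj⟩

section Enc

variable {m : ℕ}

/-- The word with an additional last symbol as a separator. -/
def up (u : List (Fin m)) : List (Fin (m + 1)) := u.map Fin.castSucc

/-- The separator. -/
def sp : Fin (m + 1) := Fin.last m

/-- The code of a list of words. -/
def enc : List (List (Fin m)) → List (Fin (m + 1))
  | [] => [sp]
  | u :: us => sp :: (up u ++ enc us)

/-- The words which code lists of words that belong to given languages. -/
def PL : List (List (Fin m) → Prop) → List (Fin (m + 1)) → Prop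
  | [], w => w = [sp]
  | L :: Ls, w => ∃ u v, (∃ x, L x ∧ u = sp :: up x) ∧ PL Ls v ∧ w = u ++ v

theorem up_sp {u v : List (Fin m)} {r s : List (Fin (m + 1))}
    (h : up u ++ sp :: r = up v ++ sp :: s) : u = v ∧ r = s := by
  induction u generalizing v with
  | nil =>
    cases v with
    | nil =>
      have h' : (sp :: r : List (Fin (m + 1))) = sp :: s := h
      exact ⟨rfl, (List.cons.inj h').2⟩
    | cons b v =>
      have h' : (sp :: r : List (Fin (m + 1))) = b.castSucc :: (up v ++ sp :: s) := h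
      exact absurd (List.cons.inj h').1 (Fin.castSucc_lt_last b).ne'
  | cons a u ih =>
    cases v with
    | nil =>
      have h' : a.castSucc :: (up u ++ sp :: r) = (sp :: s : List (Fin (m + 1))) := h
      exact absurd (List.cons.inj h').1 (Fin.castSucc_lt_last a).ne
    | cons b v =>
      have h' : a.castSucc :: (up u ++ sp :: r) = b.castSucc :: (up v ++ sp :: s) := h
      have h1 := List.cons.inj h'
      have h2 := ih h1.2
      exact ⟨by rw [Fin.castSucc_injective m h1.1, h2.1], h2.2⟩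

theorem PL_sp : ∀ (Ls : List (List (Fin m) → Prop)) (w : List (Fin (m + 1))), PL Ls w →
    ∃ r, w = sp :: r
  | [], w, h => ⟨[], h⟩
  | L :: Ls, w, ⟨u, v, ⟨x, _, hu⟩, _, hw⟩ => ⟨up x ++ v, by rw [hw, hu]; rfl⟩

theorem enc_sp : ∀ us : List (List (Fin m)), ∃ r, enc us = sp :: r
  | [] => ⟨[], rfl⟩
  | _ :: _ => ⟨_, rfl⟩

theorem PL_enc : ∀ (Ls : List (List (Fin m) → Prop)) (us : List (List (Fin m))),
    Ls.length = us.length → (PL Ls (enc us) ↔ ∀ p ∈ Ls.zip us, p.1 p.2)
  | [], [], _ => by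
    constructor
    · intro _ p hp
      exact absurd hp (List.not_mem_nil)
    · intro _
      exact rfl
  | L :: Ls, u :: us, h => by
    have ih := PL_enc Ls us (by simpa using h)
    constructor
    · rintro ⟨u', v, ⟨x, hx, hu⟩, hv, hw⟩ p hp
      obtain ⟨r, hr⟩ := PL_sp Ls v hv
      obtain ⟨s, hs⟩ := enc_sp us
      have hw' : up u ++ enc us = up x ++ v := by
        rw [hu] at hw
        have hw2 : (sp : Fin (m + 1)) :: (up u ++ enc us) = sp :: (up x ++ v) := hw
        exact (List.cons.inj hw2).2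
      rw [hs, hr] at hw'
      have h3 := up_sp hw'
      have h4 : enc us = v := by rw [hs, hr, h3.2]
      rw [← h4] at hv
      rcases List.mem_cons.1 hp with h5 | h5
      · rw [h5]
        show L u
        rw [h3.1]
        exact hx
      · exact ih.1 hv p h5
    · intro h1
      refine ⟨sp :: up u, enc us, ⟨u, h1 (L, u) (List.mem_cons_self), rfl⟩,
        ih.2 fun p hp => h1 p (List.mem_cons_of_mem _ hp), rfl⟩

/-- The word `sp`. -/
theorem CN.sp : CN (fun w : List (Fin (m + 1)) => w = [sp]) := by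
  refine ⟨1, ⟨fun _ _ _ => False, fun _ a => a = Fin.last m⟩, 0, fun w => ⟨?_, fun h => ?_⟩⟩
  · rintro rfl
    exact Der.ter _ _ rfl
  · cases h with
    | ter _ _ h => rw [h]; rfl
    | bin _ _ _ _ _ h _ _ => exact h.elim

/-- The separator followed by any word. -/
theorem CN.any : CN (fun w : List (Fin (m + 1)) => ∃ x, w = Pool.Agent.TH762.WD.sp :: up x) := by
  let G : Gr (Fin (m + 1)) (Fin 2) := ⟨fun A B C => A = 0 ∧ B = 0 ∧ C = 1,
    fun A a => (A = 0 ∧ a = Fin.last m) ∨ (A = 1 ∧ ∃ b : Fin m, a = b.castSucc)⟩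
  have h1 : ∀ A w, Der G A w → (A = 0 → ∃ x, w = Pool.Agent.TH762.WD.sp :: up x) ∧
      (A = 1 → ∃ b : Fin m, w = [b.castSucc]) := by
    intro A w h
    induction h with
    | ter A a h =>
      rcases h with ⟨h, rfl⟩ | ⟨h, b, rfl⟩
      · subst h
        exact ⟨fun _ => ⟨[], rfl⟩, fun h => absurd h (by decide)⟩
      · subst h
        exact ⟨fun h => absurd h (by decide), fun _ => ⟨b, rfl⟩⟩
    | bin A B C u v h _ _ ih1 ih2 =>
      obtain ⟨hA, hB, hC⟩ := h
      subst hA hB hC
      obtain ⟨x, hx⟩ := ih1.1 rfl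
      obtain ⟨b, hb⟩ := ih2.2 rfl
      refine ⟨fun _ => ⟨x ++ [b], ?_⟩, fun h => absurd h (by decide)⟩
      rw [hx, hb]
      simp [up]
  refine ⟨2, G, 0, fun w => ⟨?_, fun h => (h1 0 w h).1 rfl⟩⟩
  rintro ⟨x, rfl⟩
  induction x using List.reverseRecOn with
  | nil => exact Der.ter 0 _ (Or.inl ⟨rfl, rfl⟩)
  | append_singleton x b ih =>
    have h2 := Der.bin (G := G) 0 0 1 _ _ ⟨rfl, rfl, rfl⟩ ih
      (Der.ter 1 b.castSucc (Or.inr ⟨rfl, b, rfl⟩))
    have h3 : (Pool.Agent.TH762.WD.sp :: up (x ++ [b]) : List (Fin (m + 1))) =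
        (Pool.Agent.TH762.WD.sp :: up x) ++ [b.castSucc] := by simp [up]
    rw [h3]
    exact h2

/-- The words of a grammar with the larger alphabet. -/
theorem CN.up {n : ℕ} (G : Gr (Fin m) (Fin n)) (A : Fin n) :
    CN (fun w : List (Fin (m + 1)) => ∃ x, Der G A x ∧ w = up x) := by
  let G' : Gr (Fin (m + 1)) (Fin n) := ⟨G.bin, fun A a => ∃ b, a = Fin.castSucc b ∧ G.ter A b⟩
  refine ⟨n, G', A, fun w => ⟨?_, fun h => ?_⟩⟩
  · rintro ⟨x, hx, rfl⟩
    induction hx with
    | ter A a h => exact Der.ter A _ ⟨a, rfl, h⟩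
    | bin A B C u v h _ _ ih1 ih2 =>
      have h3 : Pool.Agent.TH762.WD.up (u ++ v) = Pool.Agent.TH762.WD.up u ++
        Pool.Agent.TH762.WD.up v := by simp [Pool.Agent.TH762.WD.up]
      rw [h3]
      exact Der.bin A B C _ _ h ih1 ih2
  · induction h with
    | ter A a h =>
      obtain ⟨b, rfl, h⟩ := h
      exact ⟨[b], Der.ter A b h, rfl⟩
    | bin A B C u v h _ _ ih1 ih2 =>
      obtain ⟨x, hx, rfl⟩ := ih1
      obtain ⟨y, hy, rfl⟩ := ih2
      exact ⟨x ++ y, Der.bin A B C x y h hx hy, by simp [Pool.Agent.TH762.WD.up]⟩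

theorem CN.spup {n : ℕ} (G : Gr (Fin m) (Fin n)) (A : Fin n) :
    CN (fun w : List (Fin (m + 1)) => ∃ x, Der G A x ∧ w = Pool.Agent.TH762.WD.sp ::
      Pool.Agent.TH762.WD.up x) := by
  refine (CN.concat CN.sp (CN.up G A)).congr fun w => ?_
  constructor
  · rintro ⟨x, hx, rfl⟩
    exact ⟨[Pool.Agent.TH762.WD.sp], _, rfl, ⟨x, hx, rfl⟩, rfl⟩
  · rintro ⟨u, v, rfl, ⟨x, hx, rfl⟩, rfl⟩
    exact ⟨x, hx, rfl⟩

theorem CN.PL : ∀ (Ls : List (List (Fin m) → Prop)),
    (∀ L ∈ Ls, CN (fun w : List (Fin (m + 1)) => ∃ x, L x ∧ w = Pool.Agent.TH762.WD.sp ::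
      Pool.Agent.TH762.WD.up x)) → CN (Pool.Agent.TH762.WD.PL Ls)
  | [], _ => CN.sp
  | L :: Ls, h => CN.concat (h L List.mem_cons_self)
      (CN.PL Ls fun L' hL' => h L' (List.mem_cons_of_mem _ hL'))

end Enc

end Pool.Agent.TH762.WD
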