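import Pool.Agent.TH762.WD.Tab

set_option autoImplicit false

/-!
Classes of functions of a word and numbers (logarithmic space, polynomial time, polylogarithmic
space), and their laws.
-/

namespace Pool.Agent.TH762.WD

open MvPolynomial

variable {W : Type} [Wi W]

/-- Closure under limited recursion on tableaux, in which the value at a cell depends on the
values at the neighbouring cells one step before. -/
def TabCl (S : (n : ℕ) → (W → (Fin n → ℕ) → ℕ) → Prop) : Prop :=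
  ∀ (n : ℕ) (g : W → (Fin (n + 1) → ℕ) → ℕ) (h : W → (Fin (n + 5) → ℕ) → ℕ)
    (b F : W → (Fin (n + 2) → ℕ) → ℕ),
    S (n + 1) g → S (n + 5) h → S (n + 2) b →
    (∀ w u, F w u ≤ b w u) →
    (∀ w (v : Fin n → ℕ) (i : ℕ),
      F w (Matrix.vecCons 0 (Matrix.vecCons i v)) = g w (Matrix.vecCons i v)) →
    (∀ w (v : Fin n → ℕ) (t i : ℕ),
      F w (Matrix.vecCons (t + 1) (Matrix.vecCons i v)) =
        h w (Matrix.vecCons (F w (Matrix.vecCons t (Matrix.vecCons (i - 1) v)))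
          (Matrix.vecCons (F w (Matrix.vecCons t (Matrix.vecCons i v)))
            (Matrix.vecCons (F w (Matrix.vecCons t (Matrix.vecCons (i + 1) v)))
              (Matrix.vecCons t (Matrix.vecCons i v)))))) →
    S (n + 2) F

/-- The smallest class of functions closed under composition and limited recursion. -/
def LF (n : ℕ) (f : W → (Fin n → ℕ) → ℕ) : Prop :=
  ∀ S : (n : ℕ) → (W → (Fin n → ℕ) → ℕ) → Prop, FCl S → S n f

/-- The smallest class of functions closed under composition, limited recursion and limited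
recursion on tableaux. -/
def PF (n : ℕ) (f : W → (Fin n → ℕ) → ℕ) : Prop :=
  ∀ S : (n : ℕ) → (W → (Fin n → ℕ) → ℕ) → Prop, FCl S → TabCl S → S n f

/-- The smallest class of functions closed under composition and limited recursion that contains
the smash function. -/
def QF (n : ℕ) (f : W → (Fin n → ℕ) → ℕ) : Prop :=
  ∀ S : (n : ℕ) → (W → (Fin n → ℕ) → ℕ) → Prop, FCl S →
    S 2 (fun _ v => 2 ^ (Nat.size (v 0) * Nat.size (v 1))) → S n f

theorem fcl_LF : FCl (LF (W := W)) where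
  zero n := fun _ hS => hS.zero n
  suc := fun _ hS => hS.suc
  proj n i := fun _ hS => hS.proj n i
  mul := fun _ hS => hS.mul
  len := fun _ hS => hS.len
  inp := fun _ hS => hS.inp
  comp n m g hs hg hh := fun S hS => hS.comp n m g hs (hg S hS) fun i => hh i S hS
  lrec n g h b F hg hh hb e1 e2 e3 := fun S hS =>
    hS.lrec n g h b F (hg S hS) (hh S hS) (hb S hS) e1 e2 e3

theorem fcl_PF : FCl (PF (W := W)) where
  zero n := fun _ hS _ => hS.zero n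
  suc := fun _ hS _ => hS.suc
  proj n i := fun _ hS _ => hS.proj n i
  mul := fun _ hS _ => hS.mul
  len := fun _ hS _ => hS.len
  inp := fun _ hS _ => hS.inp
  comp n m g hs hg hh := fun S hS hT => hS.comp n m g hs (hg S hS hT) fun i => hh i S hS hT
  lrec n g h b F hg hh hb e1 e2 e3 := fun S hS hT =>
    hS.lrec n g h b F (hg S hS hT) (hh S hS hT) (hb S hS hT) e1 e2 e3

theorem fcl_QF : FCl (QF (W := W)) where
  zero n := fun _ hS _ => hS.zero n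
  suc := fun _ hS _ => hS.suc
  proj n i := fun _ hS _ => hS.proj n i
  mul := fun _ hS _ => hS.mul
  len := fun _ hS _ => hS.len
  inp := fun _ hS _ => hS.inp
  comp n m g hs hg hh := fun S hS hT => hS.comp n m g hs (hg S hS hT) fun i => hh i S hS hT
  lrec n g h b F hg hh hb e1 e2 e3 := fun S hS hT =>
    hS.lrec n g h b F (hg S hS hT) (hh S hS hT) (hb S hS hT) e1 e2 e3

theorem tab_PF : TabCl (PF (W := W)) := by
  intro n g h b F hg hh hb h1 h2 h3 S hS hT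
  exact hT n g h b F (hg S hS hT) (hh S hS hT) (hb S hS hT) h1 h2 h3

/-- Bounded by a polynomial. -/
def Pb (n : ℕ) (f : W → (Fin n → ℕ) → ℕ) : Prop :=
  ∃ b : MvPolynomial (Fin (n + 1)) ℕ, ∀ w v, f w v ≤ eval (yv w v) b

theorem fcl_Pb : FCl (Pb (W := W)) where
  zero n := ⟨0, fun w v => Nat.zero_le _⟩
  suc := ⟨X 1 + 1, fun w v => by
    rw [eval_add, eval_X, map_one]
    exact le_rfl⟩
  proj n i := ⟨X i.succ, fun w v => by
    rw [eval_X]
    exact le_rfl⟩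
  mul := ⟨(X 1 + 1) * (X 2 + 1), fun w v => by
    rw [eval_mul, eval_add, eval_add, eval_X, eval_X, map_one]
    exact le_rfl⟩
  len := ⟨X 0, fun w v => by
    rw [eval_X]
    exact le_rfl⟩
  inp := by
    obtain ⟨c, hc⟩ := Wi.bd (W := W)
    refine ⟨C c, fun w v => ?_⟩
    rw [eval_C]
    exact hc _ _
  comp n m g hs hg hh := by
    obtain ⟨b, hb⟩ := hg
    choose c hc using hh
    let d : Fin (m + 1) → MvPolynomial (Fin (n + 1)) ℕ := Fin.cases (X 0) c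
    refine ⟨bind₁ d b, fun w v => (hb _ _).trans ?_⟩
    have e : eval (yv w v) (bind₁ d b) = eval (fun i => eval (yv w v) (d i)) b :=
      eval₂Hom_bind₁ (RingHom.id ℕ) (yv w v) d b
    rw [e]
    refine eval_mono b fun i => ?_
    refine Fin.cases ?_ (fun i => ?_) i
    · show Wd.len w ≤ eval (yv w v) (X 0)
      rw [eval_X]
      exact le_rfl
    · exact hc i w v
  lrec n g h b F _ _ hb h1 _ _ := by
    obtain ⟨c, hc⟩ := hb
    exact ⟨c, fun w v => (h1 w v).trans (hc w v)⟩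

theorem tab_Pb : TabCl (Pb (W := W)) := by
  intro n g h b F _ _ hb h1 _ _
  obtain ⟨c, hc⟩ := hb
  exact ⟨c, fun w v => (h1 w v).trans (hc w v)⟩

theorem LF.bound {n : ℕ} {f : W → (Fin n → ℕ) → ℕ} (hf : LF n f) : Pb n f := hf _ fcl_Pb

theorem PF.bound {n : ℕ} {f : W → (Fin n → ℕ) → ℕ} (hf : PF n f) : Pb n f :=
  hf _ fcl_Pb tab_Pb

variable {C D : (n : ℕ) → Set (W → (Fin n → ℕ) → Prop)} {k n : ℕ}

/-- Every function of a class with values `0..k` can be avoided by a function with values `0..k`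
whose level sets are in `D`. -/
def Avoid (S : (n : ℕ) → (W → (Fin n → ℕ) → ℕ) → Prop)
    (D : (n : ℕ) → Set (W → (Fin n → ℕ) → Prop)) (k : ℕ) : Prop :=
  ∀ f : W → (Fin 1 → ℕ) → ℕ, S 1 f → (∀ w v, f w v ≤ k) →
    ∃ g : W → (Fin 1 → ℕ) → ℕ, (∀ w v, g w v ≤ k ∧ g w v ≠ f w v) ∧
      ∀ c : ℕ, (fun (w : W) (v : Fin 1 → ℕ) => g w v = c) ∈ D 1

theorem fn_of_levels (hD : Clo D) {g : W → (Fin 1 → ℕ) → ℕ} (hk : ∀ w v, g w v ≤ k)
    (hg : ∀ c : ℕ, (fun (w : W) (v : Fin 1 → ℕ) => g w v = c) ∈ D 1) :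
    Fn D (fun p : Bs W 1 => g p.w p.v) := by
  refine Fn.of_le (g := fun _ => k) ?_ (Fn.nat hD k) (fun p => hk p.w p.v)
  have h1 : Df D (fun p : Bs W 1 × ℕ => ∃ c : Fin (k + 1), p.2 = c.val ∧
      g p.1.w p.1.v = c.val) :=
    Df.exfin hD fun c => (Df.eqf hD (Vr.snd.fn hD) (Fn.nat hD c.val)).and hD
      (Df.fst hD (P := fun p : Bs W 1 => g p.w p.v = c.val) (df_of_mem (hg c.val)))
  refine h1.congr fun p => ?_
  constructor
  · intro h2
    have h2' : p.2 = g p.1.w p.1.v := h2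
    exact ⟨⟨g p.1.w p.1.v, by have := hk p.1.w p.1.v; omega⟩, h2', rfl⟩
  · rintro ⟨c, h2, h3⟩
    exact h2.trans h3.symm

theorem levels_of_fn (hD : Clo D) {g : W → (Fin 1 → ℕ) → ℕ}
    (hg : Fn D (fun p : Bs W 1 => g p.w p.v)) (c : ℕ) :
    (fun (w : W) (v : Fin 1 → ℕ) => g w v = c) ∈ D 1 :=
  mem_of_df (Df.eqf hD hg (Fn.nat hD c))

theorem av_of_avoid {S : (n : ℕ) → (W → (Fin n → ℕ) → ℕ) → Prop} (hS : FCl S) (hD : Clo D)
    (h : Avoid S D k) : Av (Pd S) D (Bs W 1) k := by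
  intro F hF hk
  obtain ⟨g, hg, hg2⟩ := h (fun w v => F ⟨w, v⟩)
    (S_of_fn hS (f := fun w v => F ⟨w, v⟩) hF (fun w v => hk _)) (fun w v => hk _)
  exact ⟨fun p => g p.w p.v, fn_of_levels hD (fun w v => (hg w v).1) hg2,
    fun p => hg p.w p.v⟩

theorem lrec_law (hC : Clo C) (hD : Clo D) (hA : ∀ n, Av C D (Bs W n) k)
    {g : W → (Fin n → ℕ) → ℕ} {h : W → (Fin (n + 2) → ℕ) → ℕ} {F : W → (Fin (n + 1) → ℕ) → ℕ}
    (hg' : Fn D (fun p : Bs W n => g p.w p.v)) (hh' : Fn D (fun p : Bs W (n + 2) => h p.w p.v))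
    (e1 : Fn C (fun p : Bs W (n + 1) => F p.w p.v))
    (h2 : ∀ w (v : Fin n → ℕ), F w (Matrix.vecCons 0 v) = g w v)
    (h3 : ∀ w (v : Fin n → ℕ) (y : ℕ), F w (Matrix.vecCons (y + 1) v) =
      h w (Matrix.vecCons (F w (Matrix.vecCons y v)) (Matrix.vecCons y v))) :
    Fn D (fun p : Bs W (n + 1) => F p.w p.v) := by
  have e2 : Fn C (fun p : Bs W n × ℕ => F p.1.w (Matrix.vecCons p.2 p.1.v)) :=
    e1.ren hC (φ := fun p : Bs W n × ℕ =>
      (⟨p.1.w, Matrix.vecCons p.2 p.1.v⟩ : Bs W (n + 1)))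
      ⟨fun _ => rfl, fun i => ⟨i, fun _ => rfl⟩⟩
  have e3 : Fn D (fun q : (Bs W n × ℕ) × ℕ =>
      h q.1.1.w (Matrix.vecCons q.2 (Matrix.vecCons q.1.2 q.1.1.v))) :=
    hh'.ren hD (φ := fun q : (Bs W n × ℕ) × ℕ =>
      (⟨q.1.1.w, Matrix.vecCons q.2 (Matrix.vecCons q.1.2 q.1.1.v)⟩ : Bs W (n + 2)))
      ⟨fun _ => rfl, fun i => ⟨i, fun _ => rfl⟩⟩
  have e4 := rec_law hC hD hA e2 hg' e3 (fun γ => h2 γ.w γ.v) (fun γ t => h3 γ.w γ.v t)
  have e5 := e4.ren hD (φ := fun p : Bs W (n + 1) =>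
    (((⟨p.w, Fin.tail p.v⟩ : Bs W n), p.v 0) : Bs W n × ℕ))
    ⟨fun _ => rfl, by
      intro i
      change Fin (n + 1) at i
      refine Fin.cases ?_ (fun i => ?_) i
      · exact ⟨(0 : Fin (n + 1)), fun _ => rfl⟩
      · exact ⟨(i.succ : Fin (n + 1)), fun _ => rfl⟩⟩
  refine e5.congr fun p => ?_
  show F p.w p.v = F p.w (Matrix.vecCons (p.v 0) (Fin.tail p.v))
  congr 1
  ext i
  refine Fin.cases ?_ (fun i => ?_) i
  · rfl
  · rfl

theorem tabrec_law (hC : Clo C) (hD : Clo D) (hA : ∀ n, Av C D (Bs W n) k)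
    {g : W → (Fin (n + 1) → ℕ) → ℕ} {h : W → (Fin (n + 5) → ℕ) → ℕ}
    {F : W → (Fin (n + 2) → ℕ) → ℕ}
    (hg' : Fn D (fun p : Bs W (n + 1) => g p.w p.v))
    (hh' : Fn D (fun p : Bs W (n + 5) => h p.w p.v))
    (e1 : Fn C (fun p : Bs W (n + 2) => F p.w p.v))
    (h2 : ∀ w (v : Fin n → ℕ) (i : ℕ),
      F w (Matrix.vecCons 0 (Matrix.vecCons i v)) = g w (Matrix.vecCons i v))
    (h3 : ∀ w (v : Fin n → ℕ) (t i : ℕ),
      F w (Matrix.vecCons (t + 1) (Matrix.vecCons i v)) =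
        h w (Matrix.vecCons (F w (Matrix.vecCons t (Matrix.vecCons (i - 1) v)))
          (Matrix.vecCons (F w (Matrix.vecCons t (Matrix.vecCons i v)))
            (Matrix.vecCons (F w (Matrix.vecCons t (Matrix.vecCons (i + 1) v)))
              (Matrix.vecCons t (Matrix.vecCons i v)))))) :
    Fn D (fun p : Bs W (n + 2) => F p.w p.v) := by
  have e2 : Fn C (fun p : (Bs W n × ℕ) × ℕ =>
      F p.1.1.w (Matrix.vecCons p.2 (Matrix.vecCons p.1.2 p.1.1.v))) :=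
    e1.ren hC (φ := fun p : (Bs W n × ℕ) × ℕ =>
      (⟨p.1.1.w, Matrix.vecCons p.2 (Matrix.vecCons p.1.2 p.1.1.v)⟩ : Bs W (n + 2)))
      ⟨fun _ => rfl, fun i => ⟨i, fun _ => rfl⟩⟩
  have e2' : Fn D (fun p : Bs W n × ℕ => g p.1.w (Matrix.vecCons p.2 p.1.v)) :=
    hg'.ren hD (φ := fun p : Bs W n × ℕ =>
      (⟨p.1.w, Matrix.vecCons p.2 p.1.v⟩ : Bs W (n + 1)))
      ⟨fun _ => rfl, fun i => ⟨i, fun _ => rfl⟩⟩
  have e3 : Fn D (fun q : (((((Bs W n × ℕ) × ℕ) × ℕ) × ℕ) × ℕ) =>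
      h q.1.1.1.1.1.w (Matrix.vecCons q.2 (Matrix.vecCons q.1.2 (Matrix.vecCons q.1.1.2
        (Matrix.vecCons q.1.1.1.2 (Matrix.vecCons q.1.1.1.1.2 q.1.1.1.1.1.v)))))) :=
    hh'.ren hD (φ := fun q : (((((Bs W n × ℕ) × ℕ) × ℕ) × ℕ) × ℕ) =>
      (⟨q.1.1.1.1.1.w, Matrix.vecCons q.2 (Matrix.vecCons q.1.2 (Matrix.vecCons q.1.1.2
        (Matrix.vecCons q.1.1.1.2 (Matrix.vecCons q.1.1.1.1.2 q.1.1.1.1.1.v))))⟩ :
          Bs W (n + 5)))
      ⟨fun _ => rfl, fun i => ⟨i, fun _ => rfl⟩⟩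
  have e4 := tab_law hC hD hA e2 e2' e3 (fun γ i => h2 γ.w γ.v i)
    (fun γ i t => h3 γ.w γ.v t i)
  have e5 := e4.ren hD (φ := fun p : Bs W (n + 2) =>
    ((((⟨p.w, Fin.tail (Fin.tail p.v)⟩ : Bs W n), p.v 1), p.v 0) : (Bs W n × ℕ) × ℕ))
    ⟨fun _ => rfl, by
      intro i
      change Fin (n + 2) at i
      refine Fin.cases ?_ (fun i => ?_) i
      · exact ⟨(0 : Fin (n + 2)), fun _ => rfl⟩
      · refine Fin.cases ?_ (fun i => ?_) i
        · exact ⟨(1 : Fin (n + 2)), fun _ => rfl⟩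
        · exact ⟨(i.succ.succ : Fin (n + 2)), fun _ => rfl⟩⟩
  refine e5.congr fun p => ?_
  show F p.w p.v = F p.w (Matrix.vecCons (p.v 0) (Matrix.vecCons (p.v 1)
    (Fin.tail (Fin.tail p.v))))
  congr 1
  ext i
  refine Fin.cases ?_ (fun i => ?_) i
  · rfl
  · refine Fin.cases ?_ (fun i => ?_) i
    · rfl
    · rfl

/-- If few-valued functions of polynomial time can be avoided by functions with level sets in a
class, then all functions of polynomial time are definable in it. -/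
theorem fnP_closed (hD : Clo D) (hI : Fn D (fun p : Bs W 1 => Wi.inp p.w (p.v 0)))
    (hA : Av (Pd PF) D (Bs W 1) k) {f : W → (Fin n → ℕ) → ℕ} (hf : PF n f) :
    PF n f ∧ Fn D (fun p : Bs W n => f p.w p.v) := by
  have hS := fcl_PF (W := W)
  have hC : Clo (Pd (PF (W := W))) := clo_Pd hS
  have hA' := av_all hC hD hA
  have hcl : FCl (fun (n : ℕ) (f : W → (Fin n → ℕ) → ℕ) =>
      PF n f ∧ Fn D (fun p : Bs W n => f p.w p.v)) := {
    zero := fun n => ⟨hS.zero n, Fn.nat hD 0⟩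
    suc := ⟨hS.suc, ((Vr.fin 0).fn hD).add hD (Fn.nat hD 1)⟩
    proj := fun n i => ⟨hS.proj n i, (Vr.fin i).fn hD⟩
    mul := ⟨hS.mul, (((Vr.fin 0).fn hD).add hD (Fn.nat hD 1)).mul hD
      (((Vr.fin 1).fn hD).add hD (Fn.nat hD 1))⟩
    len := ⟨hS.len, Fn.len hD⟩
    inp := ⟨hS.inp, hI⟩
    comp := by
      rintro n m g hs ⟨hg, hg'⟩ hh
      exact ⟨hS.comp n m g hs hg fun i => (hh i).1, hg'.map hD
        (φ := fun (p : Bs W n) => (⟨p.w, fun i => hs i p.w p.v⟩ : Bs W m))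
        ⟨fun _ => rfl, fun i => (hh i).2⟩⟩
    lrec := by
      rintro n g h b F ⟨hg, hg'⟩ ⟨hh, hh'⟩ ⟨hb, _⟩ h1 h2 h3
      have hF : PF (n + 1) F := hS.lrec n g h b F hg hh hb h1 h2 h3
      obtain ⟨B, hB⟩ := hF.bound
      exact ⟨hF, lrec_law hC hD hA' hg' hh' (fn_of_S hS hF hB) h2 h3⟩ }
  refine hf _ hcl ?_
  rintro n g h b F ⟨hg, hg'⟩ ⟨hh, hh'⟩ ⟨hb, _⟩ h1 h2 h3
  have hF : PF (n + 2) F := tab_PF n g h b F hg hh hb h1 h2 h3
  obtain ⟨B, hB⟩ := hF.bound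
  exact ⟨hF, tabrec_law hC hD hA' hg' hh' (fn_of_S hS hF hB) h2 h3⟩

/-- The law for polynomial time. -/
theorem law_PF (hD : Clo D) (hI : Fn D (fun p : Bs W 1 => Wi.inp p.w (p.v 0))) :
    (∀ (n : ℕ) (R : W → (Fin n → ℕ) → Prop), R ∈ Pd PF n → R ∈ D n) ↔
      ∃ k : ℕ, Avoid PF D k := by
  constructor
  · intro h
    have hS := fcl_PF (W := W)
    refine ⟨1, fun f hf hk => ⟨fun w v => 1 - f w v, fun w v => ?_, fun c => ?_⟩⟩
    · have := hk w v
      constructor <;> (beta_reduce; omega)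
    · have h1 : PF 1 (fun w v => 1 - f w v) := hS.subf (hS.constf 1) hf
      exact h _ _ (Pd.of_zero hS (hS.addf (hS.subf h1 (hS.constf c))
        (hS.subf (hS.constf c) h1)) fun w v => by
          show 1 - f w v = c ↔ 1 - f w v - c + (c - (1 - f w v)) = 0
          omega)
  · rintro ⟨k, h⟩ n R hR
    obtain ⟨f, hf, _, h'⟩ := Pd.zero hR
    refine mem_of_df ((Df.eqf hD (fnP_closed hD hI (av_of_avoid fcl_PF hD h) hf).2
      (Fn.nat hD 0)).congr fun p => h' p.w p.v)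

/-- The symbols of the input are definable. -/
theorem inp_Pd {S : (n : ℕ) → (W → (Fin n → ℕ) → ℕ) → Prop} (hS : FCl S) :
    Fn (Pd S) (fun p : Bs W 1 => Wi.inp p.w (p.v 0)) := by
  obtain ⟨c, hc⟩ := Wi.bd (W := W)
  refine fn_of_S hS (f := fun w v => Wi.inp w (v 0)) hS.inp (b := C c) fun w v => ?_
  rw [eval_C]
  exact hc _ _

theorem inp_NR {S : (n : ℕ) → (W → (Fin n → ℕ) → ℕ) → Prop} (hS : FCl S) :
    Fn (NR (Pd S)) (fun p : Bs W 1 => Wi.inp p.w (p.v 0)) :=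
  (inp_Pd hS).of_sub fun _ _ h => sub_NR (clo_Pd hS) h

theorem law_P_L : (∀ (n : ℕ) (R : W → (Fin n → ℕ) → Prop), R ∈ Pd PF n → R ∈ Pd LF n) ↔
    ∃ k : ℕ, Avoid PF (Pd (LF (W := W))) k := law_PF (clo_Pd fcl_LF) (inp_Pd fcl_LF)

theorem law_P_QF : (∀ (n : ℕ) (R : W → (Fin n → ℕ) → Prop), R ∈ Pd PF n → R ∈ Pd QF n) ↔
    ∃ k : ℕ, Avoid PF (Pd (QF (W := W))) k := law_PF (clo_Pd fcl_QF) (inp_Pd fcl_QF)

theorem law_P_NL : (∀ (n : ℕ) (R : W → (Fin n → ℕ) → Prop), R ∈ Pd PF n → R ∈ NR (Pd LF) n) ↔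
    ∃ k : ℕ, Avoid PF (NR (Pd (LF (W := W)))) k :=
  law_PF (clo_NR (clo_Pd fcl_LF)) (inp_NR fcl_LF)

end Pool.Agent.TH762.WD
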