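import Pool.Agent.TH762.WD.NrLaw

set_option autoImplicit false

/-!
Recursions in which the value of a cell depends on its own value and the values of two cells which
depend on the time, and their law.
-/

namespace Pool.Agent.TH762.WD

open MvPolynomial
open Pool.Agent.TH762.E2 (dc1 dc2 dc_code Lc bs ls)
open Pool.Agent.TH762.MC (Tn ExL Few world)

variable {W : Type} [Wd W] {C D : (n : ℕ) → Set (W → (Fin n → ℕ) → Prop)} {Γ Δ : Type}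
  [Cx W Γ] [Cx W Δ] {k n : ℕ}

/-- The check. -/
def CkL (N M : (Γ × ℕ) × ℕ → ℕ) (g p q : Γ × ℕ → ℕ)
    (h : (((((Γ × ℕ) × ℕ) × ℕ) × ℕ) × ℕ) → ℕ) (δ : (Γ × ℕ) × ℕ) (Q : ℕ → ℕ → Prop) : Prop :=
  (∀ i ≤ M δ, ∀ w ≤ N δ, (Q i w ↔ w = g (δ.1.1, i))) ∧
  (∀ t ≤ δ.2, t + 1 ≤ δ.2 → ∀ i ≤ M δ, ∀ w ≤ N δ,
    (Q (i + (M δ + 1) * (t + 1)) w ↔ ∃ a ≤ N δ, Q (p (δ.1.1, t) + (M δ + 1) * t) a ∧
      ∃ b ≤ N δ, Q (q (δ.1.1, t) + (M δ + 1) * t) b ∧ ∃ c ≤ N δ, Q (i + (M δ + 1) * t) c ∧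
        w = h (((((δ.1.1, i), t), c), b), a))) ∧
  ∀ x ≤ N δ, δ.2 < x / (M δ + 1) → ∀ w ≤ N δ, (Q x w ↔ w = 0)

theorem ckL_df (hD : Clo D) {N M : (Γ × ℕ) × ℕ → ℕ} {g p q : Γ × ℕ → ℕ}
    {h : (((((Γ × ℕ) × ℕ) × ℕ) × ℕ) × ℕ) → ℕ} (hN : Fn D N) (hM : Fn D M) (hg : Fn D g)
    (hp : Fn D p) (hq : Fn D q) (hh : Fn D h)
    (φ : Δ → (Γ × ℕ) × ℕ) (hφ : Rn φ) (Q : (Δ × ℕ) × ℕ → Prop) (hQ : Df D Q) :
    Df D (fun δ => CkL N M g p q h (φ δ) (fun x w => Q ((δ, x), w))) := by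
  have hT : Fn D (fun δ => (φ δ).2) := (Vr.snd.ren hφ).fn hD
  have hM' : Fn D (fun δ => M (φ δ)) := hM.ren hD hφ
  have hN' : Fn D (fun δ => N (φ δ)) := hN.ren hD hφ
  have hγ : Rn (fun δ => (φ δ).1.1) := hφ.comp (Rn.fst.comp Rn.fst)
  refine Df.and hD ?_ (Df.and hD ?_ ?_)
  · refine Df.all hD (P := fun p : Δ × ℕ => ∀ w ≤ N (φ p.1), (Q ((p.1, p.2), w) ↔
      w = g ((φ p.1).1.1, p.2))) ?_ hM'
    refine Df.all hD (P := fun q : (Δ × ℕ) × ℕ => (Q ((q.1.1, q.1.2), q.2) ↔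
      q.2 = g ((φ q.1.1).1.1, q.1.2))) ?_ (hN'.fst hD)
    refine Df.iff hD hQ (Df.eqf hD (Vr.snd.fn hD) ?_)
    exact hg.ren hD (φ := fun q : (Δ × ℕ) × ℕ => ((φ q.1.1).1.1, q.1.2))
      (((Rn.fst.comp Rn.fst).comp hγ).pair (Vr.snd.ren Rn.fst))
  · refine Df.all hD (P := fun u : Δ × ℕ => u.2 + 1 ≤ (φ u.1).2 → ∀ i ≤ M (φ u.1),
      ∀ w ≤ N (φ u.1),
      (Q ((u.1, i + (M (φ u.1) + 1) * (u.2 + 1)), w) ↔
        ∃ a ≤ N (φ u.1), Q ((u.1, p ((φ u.1).1.1, u.2) + (M (φ u.1) + 1) * u.2), a) ∧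
        ∃ b ≤ N (φ u.1), Q ((u.1, q ((φ u.1).1.1, u.2) + (M (φ u.1) + 1) * u.2), b) ∧
        ∃ c ≤ N (φ u.1), Q ((u.1, i + (M (φ u.1) + 1) * u.2), c) ∧
          w = h ((((((φ u.1).1.1, i), u.2), c), b), a))) ?_ hT
    refine Df.imp hD (Df.lef hD ((Vr.snd.fn hD).add hD (Fn.nat hD 1)) (hT.fst hD)) ?_
    refine Df.all hD (P := fun r : (Δ × ℕ) × ℕ =>
      ∀ w ≤ N (φ r.1.1),
      (Q ((r.1.1, r.2 + (M (φ r.1.1) + 1) * (r.1.2 + 1)), w) ↔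
        ∃ a ≤ N (φ r.1.1), Q ((r.1.1, p ((φ r.1.1).1.1, r.1.2) + (M (φ r.1.1) + 1) * r.1.2), a) ∧
        ∃ b ≤ N (φ r.1.1), Q ((r.1.1, q ((φ r.1.1).1.1, r.1.2) + (M (φ r.1.1) + 1) * r.1.2), b) ∧
        ∃ c ≤ N (φ r.1.1), Q ((r.1.1, r.2 + (M (φ r.1.1) + 1) * r.1.2), c) ∧
          w = h ((((((φ r.1.1).1.1, r.2), r.1.2), c), b), a))) ?_ (hM'.fst hD)
    refine Df.all hD (P := fun r : ((Δ × ℕ) × ℕ) × ℕ =>
      (Q ((r.1.1.1, r.1.2 + (M (φ r.1.1.1) + 1) * (r.1.1.2 + 1)), r.2) ↔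
        ∃ a ≤ N (φ r.1.1.1), Q ((r.1.1.1, p ((φ r.1.1.1).1.1, r.1.1.2) +
          (M (φ r.1.1.1) + 1) * r.1.1.2), a) ∧
        ∃ b ≤ N (φ r.1.1.1), Q ((r.1.1.1, q ((φ r.1.1.1).1.1, r.1.1.2) +
          (M (φ r.1.1.1) + 1) * r.1.1.2), b) ∧
        ∃ c ≤ N (φ r.1.1.1), Q ((r.1.1.1, r.1.2 + (M (φ r.1.1.1) + 1) * r.1.1.2), c) ∧
          r.2 = h ((((((φ r.1.1.1).1.1, r.1.2), r.1.1.2), c), b), a))) ?_
      ((hN'.fst hD).fst hD)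
    have r111 : Rn (fun r : ((Δ × ℕ) × ℕ) × ℕ => r.1.1.1) := (Rn.fst.comp Rn.fst).comp Rn.fst
    have hM3 : Fn D (fun r : ((Δ × ℕ) × ℕ) × ℕ => M (φ r.1.1.1) + 1) :=
      (((hM'.fst hD).fst hD).fst hD).add hD (Fn.nat hD 1)
    have hN3 : Fn D (fun r : ((Δ × ℕ) × ℕ) × ℕ => N (φ r.1.1.1)) :=
      ((hN'.fst hD).fst hD).fst hD
    have hi3 : Vr (fun r : ((Δ × ℕ) × ℕ) × ℕ => r.1.2) := Vr.snd.ren Rn.fst
    have ht3 : Vr (fun r : ((Δ × ℕ) × ℕ) × ℕ => r.1.1.2) := Vr.snd.ren (Rn.fst.comp Rn.fst)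
    have hp3 : Fn D (fun r : ((Δ × ℕ) × ℕ) × ℕ => p ((φ r.1.1.1).1.1, r.1.1.2)) :=
      hp.ren hD (φ := fun r : ((Δ × ℕ) × ℕ) × ℕ => ((φ r.1.1.1).1.1, r.1.1.2))
        ((r111.comp hγ).pair ht3)
    have hq3 : Fn D (fun r : ((Δ × ℕ) × ℕ) × ℕ => q ((φ r.1.1.1).1.1, r.1.1.2)) :=
      hq.ren hD (φ := fun r : ((Δ × ℕ) × ℕ) × ℕ => ((φ r.1.1.1).1.1, r.1.1.2))
        ((r111.comp hγ).pair ht3)
    refine Df.iff hD ?_ ?_
    · exact hQ.map hD (φ := fun r : ((Δ × ℕ) × ℕ) × ℕ =>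
        ((r.1.1.1, r.1.2 + (M (φ r.1.1.1) + 1) * (r.1.1.2 + 1)), r.2))
        (((r111.mp hD).pair ((hi3.fn hD).add hD (hM3.mul hD ((ht3.fn hD).add hD
          (Fn.nat hD 1))))).pair (Vr.snd.fn hD))
    · refine Df.ex hD (P := fun s : (((Δ × ℕ) × ℕ) × ℕ) × ℕ =>
        Q ((s.1.1.1.1, p ((φ s.1.1.1.1).1.1, s.1.1.1.2) +
          (M (φ s.1.1.1.1) + 1) * s.1.1.1.2), s.2) ∧
        ∃ b ≤ N (φ s.1.1.1.1), Q ((s.1.1.1.1, q ((φ s.1.1.1.1).1.1, s.1.1.1.2) +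
          (M (φ s.1.1.1.1) + 1) * s.1.1.1.2), b) ∧
        ∃ c ≤ N (φ s.1.1.1.1),
          Q ((s.1.1.1.1, s.1.1.2 + (M (φ s.1.1.1.1) + 1) * s.1.1.1.2), c) ∧
          s.1.2 = h ((((((φ s.1.1.1.1).1.1, s.1.1.2), s.1.1.1.2), c), b), s.2)) ?_ hN3
      have s111 : Rn (fun s : (((Δ × ℕ) × ℕ) × ℕ) × ℕ => s.1.1.1.1) := Rn.fst.comp r111
      refine Df.and hD ?_ ?_
      · exact hQ.map hD (φ := fun s : (((Δ × ℕ) × ℕ) × ℕ) × ℕ =>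
          ((s.1.1.1.1, p ((φ s.1.1.1.1).1.1, s.1.1.1.2) +
            (M (φ s.1.1.1.1) + 1) * s.1.1.1.2), s.2))
          (((s111.mp hD).pair ((hp3.fst hD).add hD
            ((hM3.fst hD).mul hD ((ht3.ren Rn.fst).fn hD)))).pair (Vr.snd.fn hD))
      · refine Df.ex hD (P := fun u : ((((Δ × ℕ) × ℕ) × ℕ) × ℕ) × ℕ =>
          Q ((u.1.1.1.1.1, q ((φ u.1.1.1.1.1).1.1, u.1.1.1.1.2) +
            (M (φ u.1.1.1.1.1) + 1) * u.1.1.1.1.2), u.2) ∧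
          ∃ c ≤ N (φ u.1.1.1.1.1),
          Q ((u.1.1.1.1.1, u.1.1.1.2 + (M (φ u.1.1.1.1.1) + 1) * u.1.1.1.1.2), c) ∧
          u.1.1.2 = h ((((((φ u.1.1.1.1.1).1.1, u.1.1.1.2), u.1.1.1.1.2), c), u.2), u.1.2)) ?_
          (hN3.fst hD)
        have u111 : Rn (fun u : ((((Δ × ℕ) × ℕ) × ℕ) × ℕ) × ℕ => u.1.1.1.1.1) :=
          Rn.fst.comp s111
        have u11 : Rn (fun u : ((((Δ × ℕ) × ℕ) × ℕ) × ℕ) × ℕ => u.1.1) := Rn.fst.comp Rn.fst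
        refine Df.and hD ?_ ?_
        · exact hQ.map hD (φ := fun u : ((((Δ × ℕ) × ℕ) × ℕ) × ℕ) × ℕ =>
            ((u.1.1.1.1.1, q ((φ u.1.1.1.1.1).1.1, u.1.1.1.1.2) +
              (M (φ u.1.1.1.1.1) + 1) * u.1.1.1.1.2), u.2))
            (((u111.mp hD).pair (((hq3.fst hD).fst hD).add hD
              (((hM3.fst hD).fst hD).mul hD ((ht3.ren u11).fn hD)))).pair (Vr.snd.fn hD))
        · refine Df.ex hD (P := fun z : (((((Δ × ℕ) × ℕ) × ℕ) × ℕ) × ℕ) × ℕ =>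
            Q ((z.1.1.1.1.1.1, z.1.1.1.1.2 + (M (φ z.1.1.1.1.1.1) + 1) *
              z.1.1.1.1.1.2), z.2) ∧
            z.1.1.1.2 = h ((((((φ z.1.1.1.1.1.1).1.1, z.1.1.1.1.2), z.1.1.1.1.1.2), z.2),
              z.1.2), z.1.1.2)) ?_ ((hN3.fst hD).fst hD)
          have z11 : Rn (fun z : (((((Δ × ℕ) × ℕ) × ℕ) × ℕ) × ℕ) × ℕ => z.1.1.1) :=
            Rn.fst.comp u11
          have z111 : Rn (fun z : (((((Δ × ℕ) × ℕ) × ℕ) × ℕ) × ℕ) × ℕ => z.1.1.1.1.1.1) :=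
            Rn.fst.comp u111
          refine Df.and hD ?_ (Df.eqf hD ((Vr.snd.ren z11).fn hD) ?_)
          · exact hQ.map hD (φ := fun z : (((((Δ × ℕ) × ℕ) × ℕ) × ℕ) × ℕ) × ℕ =>
              ((z.1.1.1.1.1.1, z.1.1.1.1.2 + (M (φ z.1.1.1.1.1.1) + 1) *
                z.1.1.1.1.1.2), z.2))
              (((z111.mp hD).pair (((hi3.ren z11).fn hD).add hD
                ((((hM3.fst hD).fst hD).fst hD).mul hD ((ht3.ren z11).fn hD)))).pair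
                  (Vr.snd.fn hD))
          · exact hh.ren hD (φ := fun z : (((((Δ × ℕ) × ℕ) × ℕ) × ℕ) × ℕ) × ℕ =>
              ((((((φ z.1.1.1.1.1.1).1.1, z.1.1.1.1.2), z.1.1.1.1.1.2), z.2), z.1.2),
                z.1.1.2))
              ((((((z111.comp hγ).pair (hi3.ren z11)).pair (ht3.ren z11)).pair Vr.snd).pair
                (Vr.snd.ren Rn.fst)).pair (Vr.snd.ren (Rn.fst.comp Rn.fst)))
  · refine Df.all hD (P := fun p : Δ × ℕ =>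
      (φ p.1).2 < p.2 / (M (φ p.1) + 1) → ∀ w ≤ N (φ p.1),
        (Q ((p.1, p.2), w) ↔ w = 0)) ?_ hN'
    refine Df.imp hD (Df.ltf hD (hT.fst hD) ((Vr.snd.fn hD).div hD (hM'.fst hD))) ?_
    refine Df.all hD (P := fun q : (Δ × ℕ) × ℕ => (Q ((q.1.1, q.1.2), q.2) ↔ q.2 = 0)) ?_
      (hN'.fst hD)
    exact Df.iff hD hQ (Df.eqf hD (Vr.snd.fn hD) (Fn.nat hD 0))

/-- Functions defined by such recursions are definable in `D` if few-valued functions of `C`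
can be avoided by functions of `D`. -/
theorem look_law (hC : Clo C) (hD : Clo D) (hA : ∀ n, Av C D (Bs W n) k)
    {F : (Γ × ℕ) × ℕ → ℕ} {g p q : Γ × ℕ → ℕ} {h : (((((Γ × ℕ) × ℕ) × ℕ) × ℕ) × ℕ) → ℕ}
    (hF : Fn C F) (hg : Fn D g) (hp : Fn D p) (hq : Fn D q) (hh : Fn D h)
    (h0 : ∀ γ i, F ((γ, i), 0) = g (γ, i))
    (h1 : ∀ γ i t, F ((γ, i), t + 1) =
      h (((((γ, i), t), F ((γ, i), t)), F ((γ, q (γ, t)), t)), F ((γ, p (γ, t)), t))) :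
    Fn D F := by
  classical
  obtain ⟨B, hB⟩ := hF.2
  obtain ⟨P, hP⟩ := (hp.add hD hq).2
  have h11 : Rn (fun δ : (Γ × ℕ) × ℕ => δ.1.1) := Rn.fst.comp Rn.fst
  have h12 : Vr (fun δ : (Γ × ℕ) × ℕ => δ.1.2) := Vr.snd.ren Rn.fst
  have h2 : Vr (fun δ : (Γ × ℕ) × ℕ => δ.2) := Vr.snd
  let M : (Γ × ℕ) × ℕ → ℕ := fun δ =>
    δ.1.2 + eval (yv (Cx.o δ.1.1) (Cx.x ((δ.1.1, δ.2) : Γ × ℕ))) P
  have hM : ∀ {E : (n : ℕ) → Set (W → (Fin n → ℕ) → Prop)}, Clo E → Fn E M := fun hE =>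
    (h12.fn hE).add hE ((Fn.poly (Γ := Γ × ℕ) hE P).map hE
      (φ := fun δ : (Γ × ℕ) × ℕ => ((δ.1.1, δ.2) : Γ × ℕ)) ((h11.mp hE).pair (h2.fn hE)))
  let Bv : (Γ × ℕ) × ℕ → ℕ := fun δ =>
    eval (yv (Cx.o δ.1.1) (Cx.x (((δ.1.1, M δ), δ.2) : (Γ × ℕ) × ℕ))) B
  have hBv : ∀ {E : (n : ℕ) → Set (W → (Fin n → ℕ) → Prop)}, Clo E → Fn E Bv := fun hE =>
    (Fn.poly (Γ := (Γ × ℕ) × ℕ) hE B).map hE
      (φ := fun δ : (Γ × ℕ) × ℕ => ((δ.1.1, M δ), δ.2))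
      (((h11.mp hE).pair (hM hE)).pair (h2.fn hE))
  let N : (Γ × ℕ) × ℕ → ℕ := fun δ => M δ + (M δ + 1) * δ.2 + Bv δ
  have hN : ∀ {E : (n : ℕ) → Set (W → (Fin n → ℕ) → Prop)}, Clo E → Fn E N := fun hE =>
    ((hM hE).add hE (((hM hE).add hE (Fn.nat hE 1)).mul hE (h2.fn hE))).add hE (hBv hE)
  let τ : (Γ × ℕ) × ℕ → ℕ → ℕ := fun δ x =>
    if x / (M δ + 1) ≤ δ.2 then F ((δ.1.1, x % (M δ + 1)), x / (M δ + 1)) else 0
  have hτ : Fn C (fun p : ((Γ × ℕ) × ℕ) × ℕ => τ p.1 p.2) := by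
    have hT := (hM hC).fst hC
    have hx : Fn C (fun p : ((Γ × ℕ) × ℕ) × ℕ => p.2) := Vr.snd.fn hC
    refine Fn.ite hC (Df.lef hC (hx.div hC hT) ((h2.ren Rn.fst).fn hC)) ?_ (Fn.nat hC 0)
    exact hF.map hC (φ := fun p : ((Γ × ℕ) × ℕ) × ℕ =>
      ((p.1.1.1, p.2 % (M p.1 + 1)), p.2 / (M p.1 + 1)))
      ((((Rn.fst.comp h11).mp hC).pair (hx.mod hC hT)).pair (hx.div hC hT))
  have hpq : ∀ (δ : (Γ × ℕ) × ℕ) (t : ℕ), t ≤ δ.2 →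
      p (δ.1.1, t) ≤ M δ ∧ q (δ.1.1, t) ≤ M δ := by
    intro δ t ht
    have h3 : p (δ.1.1, t) + q (δ.1.1, t) ≤
        eval (yv (Cx.o δ.1.1) (Cx.x ((δ.1.1, δ.2) : Γ × ℕ))) P := by
      refine (hP (δ.1.1, t)).trans (eval_mono P fun j => ?_)
      change Fin (Cx.n Γ + 1 + 1) at j
      refine Fin.cases ?_ (fun j => ?_) j
      · exact le_rfl
      · refine Fin.cases ?_ (fun j => ?_) j
        · exact ht
        · exact le_rfl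
    show p (δ.1.1, t) ≤ δ.1.2 + eval (yv (Cx.o δ.1.1) (Cx.x ((δ.1.1, δ.2) : Γ × ℕ))) P ∧
      q (δ.1.1, t) ≤ δ.1.2 + eval (yv (Cx.o δ.1.1) (Cx.x ((δ.1.1, δ.2) : Γ × ℕ))) P
    omega
  have hi0 : ∀ δ : (Γ × ℕ) × ℕ, δ.1.2 ≤ M δ := fun δ => Nat.le_add_right _ _
  have hFb : ∀ (δ : (Γ × ℕ) × ℕ) (i t : ℕ), i ≤ M δ → t ≤ δ.2 →
      F ((δ.1.1, i), t) ≤ Bv δ := by
    intro δ i t hi ht
    refine (hB _).trans (eval_mono B fun j => ?_)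
    change Fin (Cx.n Γ + 1 + 1 + 1) at j
    refine Fin.cases ?_ (fun j => ?_) j
    · exact le_rfl
    · refine Fin.cases ?_ (fun j => ?_) j
      · exact ht
      · refine Fin.cases ?_ (fun j => ?_) j
        · exact hi
        · exact le_rfl
  have hmod : ∀ (δ : (Γ × ℕ) × ℕ) (x : ℕ), x % (M δ + 1) ≤ M δ := by
    intro δ x
    have := Nat.mod_lt x (show 0 < M δ + 1 by omega)
    omega
  have hle : ∀ δ x, τ δ x ≤ N δ := by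
    intro δ x
    show (if _ then _ else 0) ≤ M δ + (M δ + 1) * δ.2 + Bv δ
    split_ifs with hx
    · exact (hFb δ _ _ (hmod δ x) hx).trans (Nat.le_add_left _ _)
    · exact Nat.zero_le _
  obtain ⟨L, hL, hL2⟩ := lists_exist (k := k) hC hD hA (hN hC) (hN hD) hτ hle
  have hcode : ∀ (δ : (Γ × ℕ) × ℕ) (i t : ℕ), i ≤ M δ → t ≤ δ.2 →
      i + (M δ + 1) * t ≤ N δ ∧ τ δ (i + (M δ + 1) * t) = F ((δ.1.1, i), t) := by
    intro δ i t hi ht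
    constructor
    · have := Nat.mul_le_mul_left (M δ + 1) ht
      show _ ≤ M δ + (M δ + 1) * δ.2 + Bv δ
      omega
    · show (if _ then _ else 0) = _
      rw [Nat.add_mul_div_left _ _ (by omega), Nat.div_eq_of_lt (show i < M δ + 1 by omega),
        Nat.add_mul_mod_self_left, Nat.mod_eq_of_lt (show i < M δ + 1 by omega), Nat.zero_add,
        if_pos ht]
  have hFN : ∀ (δ : (Γ × ℕ) × ℕ) (i t : ℕ), i ≤ M δ → t ≤ δ.2 →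
      F ((δ.1.1, i), t) ≤ N δ := by
    intro δ i t hi ht
    rw [← (hcode δ i t hi ht).2]
    exact hle _ _
  have eng := engine (k := k) hD (hN hD) (τ := τ) (fun δ x _ => hle δ x) hL hL2
    (CkL N M g p q h)
    (by
      rintro δ Q ⟨q1, q2, q3⟩ x hx w hw
      have key : ∀ t, t ≤ δ.2 → ∀ i, i ≤ M δ → ∀ w ≤ N δ,
          (Q (i + (M δ + 1) * t) w ↔ w = F ((δ.1.1, i), t)) := by
        intro t
        induction t with
        | zero =>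
          intro _ i hi w hw
          rw [Nat.mul_zero, Nat.add_zero, h0]
          exact q1 i hi w hw
        | succ t ih =>
          intro ht i hi w hw
          have ht' : t ≤ δ.2 := by omega
          have hpq' := hpq δ t ht'
          rw [q2 t ht' ht i hi w hw, h1]
          constructor
          · rintro ⟨a, ha, ga, b, hb, gb, c, hc, gc, hw'⟩
            rw [ih ht' _ hpq'.1 a ha] at ga
            rw [ih ht' _ hpq'.2 b hb] at gb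
            rw [ih ht' i hi c hc] at gc
            rw [hw', ga, gb, gc]
          · intro hw'
            refine ⟨_, hFN δ _ t hpq'.1 ht', (ih ht' _ hpq'.1 _
              (hFN δ _ t hpq'.1 ht')).2 rfl, _, hFN δ _ t hpq'.2 ht',
              (ih ht' _ hpq'.2 _ (hFN δ _ t hpq'.2 ht')).2 rfl, _, hFN δ i t hi ht',
              (ih ht' i hi _ (hFN δ i t hi ht')).2 rfl, hw'⟩
      have hx2 : x % (M δ + 1) + (M δ + 1) * (x / (M δ + 1)) = x := Nat.mod_add_div _ _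
      by_cases hc : x / (M δ + 1) ≤ δ.2
      · have h3 := key _ hc _ (hmod δ x) w hw
        rw [hx2] at h3
        rw [h3]
        show _ ↔ w = if _ then _ else 0
        rw [if_pos hc]
      · rw [q3 x hx (by omega) w hw]
        show _ ↔ w = if _ then _ else 0
        rw [if_neg hc])
    (by
      intro δ Q hQ
      have hval : ∀ t i, i ≤ M δ → t ≤ δ.2 → ∀ w ≤ N δ,
          (Q (i + (M δ + 1) * t) w ↔ w = F ((δ.1.1, i), t)) := by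
        intro t i hi ht w hw
        have h3 := hcode δ i t hi ht
        rw [hQ _ h3.1 w hw, h3.2]
      refine ⟨?_, ?_, ?_⟩
      · intro i hi w hw
        have h3 := hval 0 i hi (Nat.zero_le _) w hw
        rw [Nat.mul_zero, Nat.add_zero, h0] at h3
        exact h3
      · intro t ht ht1 i hi w hw
        have hpq' := hpq δ t ht
        rw [hval (t + 1) i hi ht1 w hw, h1]
        constructor
        · intro hw'
          refine ⟨_, hFN δ _ t hpq'.1 ht, (hval t _ hpq'.1 ht _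
            (hFN δ _ t hpq'.1 ht)).2 rfl, _, hFN δ _ t hpq'.2 ht,
            (hval t _ hpq'.2 ht _ (hFN δ _ t hpq'.2 ht)).2 rfl, _, hFN δ i t hi ht,
            (hval t i hi ht _ (hFN δ i t hi ht)).2 rfl, hw'⟩
        · rintro ⟨a, ha, ga, b, hb, gb, c, hc, gc, hw'⟩
          rw [hval t _ hpq'.1 ht a ha] at ga
          rw [hval t _ hpq'.2 ht b hb] at gb
          rw [hval t i hi ht c hc] at gc
          rw [hw', ga, gb, gc]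
      · intro x hx hxT w hw
        rw [hQ x hx w hw]
        show w = (if _ then _ else 0) ↔ _
        rw [if_neg (by omega)])
    (fun φ hφ Q hQ => ckL_df hD (hN hD) (hM hD) hg hp hq hh φ hφ Q hQ)
  refine ⟨?_, B, hB⟩
  have fin : Df D (fun q : ((Γ × ℕ) × ℕ) × ℕ =>
      ((q.1.1.2 + (M q.1 + 1) * q.1.2 ≤ N q.1 ∧ q.2 ≤ N q.1) ∧
        q.2 = τ q.1 (q.1.1.2 + (M q.1 + 1) * q.1.2))) := by
    have hi : Fn D (fun q : ((Γ × ℕ) × ℕ) × ℕ => q.1.1.2) :=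
      (Vr.snd.ren (Rn.fst.comp Rn.fst)).fn hD
    have ht : Fn D (fun q : ((Γ × ℕ) × ℕ) × ℕ => q.1.2) := (Vr.snd.ren Rn.fst).fn hD
    exact eng.map hD (φ := fun q : ((Γ × ℕ) × ℕ) × ℕ =>
      ((q.1, q.1.1.2 + (M q.1 + 1) * q.1.2), q.2))
      (((Rn.fst.mp hD).pair (hi.add hD ((((hM hD).fst hD).add hD (Fn.nat hD 1)).mul hD
        ht))).pair (Vr.snd.fn hD))
  refine fin.congr fun q => ?_
  have h3 := hcode q.1 q.1.1.2 q.1.2 (hi0 q.1) le_rfl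
  rw [h3.2]
  constructor
  · intro hq
    have hq' : q.2 = F q.1 := hq
    exact ⟨⟨h3.1, hq'.le.trans (hFN q.1 q.1.1.2 q.1.2 (hi0 q.1) le_rfl)⟩, hq'⟩
  · rintro ⟨_, hq⟩
    exact hq

end Pool.Agent.TH762.WD
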