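import Pool.Agent.TH762.WD.Ncl

set_option autoImplicit false

/-!
The law for the class NC.
-/

namespace Pool.Agent.TH762.WD

open MvPolynomial

variable {W : Type} [Wi W] {C D : (n : ℕ) → Set (W → (Fin n → ℕ) → Prop)} {k n : ℕ}

theorem ncrec_law {S : (n : ℕ) → (W → (Fin n → ℕ) → ℕ) → Prop} (hS : FCl S) (hN : NcCl S)
    (hSb : ∀ (n : ℕ) (f : W → (Fin n → ℕ) → ℕ), S n f → Pb n f)
    (hD : Clo D) (hA : ∀ n, Av (Pd S) D (Bs W n) k) {n c : ℕ}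
    {g : W → (Fin (n + 1) → ℕ) → ℕ} {p q : W → (Fin (n + 2) → ℕ) → ℕ}
    {h : W → (Fin (n + 5) → ℕ) → ℕ} {b : W → (Fin (n + 2) → ℕ) → ℕ}
    {β T B : W → (Fin n → ℕ) → ℕ} {F : W → (Fin (n + 2) → ℕ) → ℕ}
    (hg : S (n + 1) g) (hp : S (n + 2) p) (hq : S (n + 2) q) (hh : S (n + 5) h)
    (hb : S (n + 2) b) (hβ : S n β) (hT : S n T) (hB : S n B)
    (dg : Fn D (fun r : Bs W (n + 1) => g r.w r.v)) (dp : Fn D (fun r : Bs W (n + 2) => p r.w r.v))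
    (dq : Fn D (fun r : Bs W (n + 2) => q r.w r.v)) (dh : Fn D (fun r : Bs W (n + 5) => h r.w r.v))
    (dβ : Fn D (fun r : Bs W n => β r.w r.v)) (dT : Fn D (fun r : Bs W n => T r.w r.v))
    (e1 : ∀ w v, 2 ^ T w v ≤ B w v)
    (e2 : ∀ w u, F w u ≤ b w u)
    (e3 : ∀ w (v : Fin n → ℕ) (t i : ℕ), p w (Matrix.vecCons t (Matrix.vecCons i v)) ≤ β w v)
    (e4 : ∀ w (v : Fin n → ℕ) (t i : ℕ), q w (Matrix.vecCons t (Matrix.vecCons i v)) ≤ β w v)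
    (e5 : ∀ w (v : Fin n → ℕ) (i : ℕ),
      F w (Matrix.vecCons 0 (Matrix.vecCons i v)) = g w (Matrix.vecCons i v))
    (e6 : ∀ w (v : Fin n → ℕ) (t i : ℕ),
      F w (Matrix.vecCons (t + 1) (Matrix.vecCons i v)) =
        h w (Matrix.vecCons
            (F w (Matrix.vecCons t
              (Matrix.vecCons (p w (Matrix.vecCons t (Matrix.vecCons i v))) v)))
          (Matrix.vecCons
            (F w (Matrix.vecCons t
              (Matrix.vecCons (q w (Matrix.vecCons t (Matrix.vecCons i v))) v)))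
            (Matrix.vecCons (F w (Matrix.vecCons t (Matrix.vecCons i v)))
              (Matrix.vecCons t (Matrix.vecCons i v)))))) :
    Fn D (fun r : Bs W (n + 1) => F r.w (Matrix.vecCons (T r.w (Fin.tail r.v) ^ c) r.v)) := by
  have hC : Clo (Pd S) := clo_Pd hS
  -- the values in the class
  have h1 := nc_trunc hS hN (c := c) hg hp hq hh hb hβ hT hB e1 e2 e3 e4 e5 e6
  obtain ⟨P, hP⟩ := hSb _ _ h1
  have h2 := fn_of_S hS h1 hP
  have h3 : Fn (Pd S) (fun δ : (Bs W n × ℕ) × ℕ => F δ.1.1.w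
      (Matrix.vecCons (min δ.2 (T δ.1.1.w δ.1.1.v ^ c)) (Matrix.vecCons δ.1.2 δ.1.1.v))) := by
    have h4 := h2.ren hC (φ := fun δ : (Bs W n × ℕ) × ℕ =>
      (⟨δ.1.1.w, Matrix.vecCons δ.1.2 (Matrix.vecCons δ.2 δ.1.1.v)⟩ : Bs W (n + 2)))
      ⟨fun _ => rfl, by
        intro i
        change Fin (n + 2) at i
        refine Fin.cases ?_ (fun i => ?_) i
        · exact ⟨(1 : Fin (n + 2)), fun _ => rfl⟩
        · refine Fin.cases ?_ (fun i => ?_) i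
          · exact ⟨(0 : Fin (n + 2)), fun _ => rfl⟩
          · exact ⟨(i.succ.succ : Fin (n + 2)), fun _ => rfl⟩⟩
    refine h4.congr fun δ => ?_
    show F δ.1.1.w (Matrix.vecCons (min δ.2 (T δ.1.1.w δ.1.1.v ^ c))
      (Matrix.vecCons δ.1.2 δ.1.1.v)) = F δ.1.1.w (Matrix.vecCons
        (min (T δ.1.1.w δ.1.1.v ^ c) δ.2) (Matrix.vecCons δ.1.2 δ.1.1.v))
    rw [min_comm]
  obtain ⟨PT, hPT⟩ := hSb _ _ (hS.powf hT c)
  have hTC : Fn (Pd S) (fun γ : Bs W n => T γ.w γ.v ^ c) := fn_of_S hS (hS.powf hT c) hPT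
  have dT' : Fn D (fun γ : Bs W n => T γ.w γ.v ^ c) := dT.pow hD c
  have lg : Fn D (fun r : Bs W n × ℕ => g r.1.w (Matrix.vecCons r.2 r.1.v)) :=
    dg.ren hD (φ := fun r : Bs W n × ℕ =>
      (⟨r.1.w, Matrix.vecCons r.2 r.1.v⟩ : Bs W (n + 1)))
      ⟨fun _ => rfl, fun i => ⟨i, fun _ => rfl⟩⟩
  have l2 : ∀ (f : W → (Fin (n + 2) → ℕ) → ℕ), Fn D (fun r : Bs W (n + 2) => f r.w r.v) →
      Fn D (fun r : (Bs W n × ℕ) × ℕ =>
        f r.1.1.w (Matrix.vecCons r.2 (Matrix.vecCons r.1.2 r.1.1.v))) := fun f hf =>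
    hf.ren hD (φ := fun r : (Bs W n × ℕ) × ℕ =>
      (⟨r.1.1.w, Matrix.vecCons r.2 (Matrix.vecCons r.1.2 r.1.1.v)⟩ : Bs W (n + 2)))
      ⟨fun _ => rfl, fun i => ⟨i, fun _ => rfl⟩⟩
  have lh : Fn D (fun r : (((((Bs W n × ℕ) × ℕ) × ℕ) × ℕ) × ℕ) =>
      h r.1.1.1.1.1.w (Matrix.vecCons r.2 (Matrix.vecCons r.1.2 (Matrix.vecCons r.1.1.2
        (Matrix.vecCons r.1.1.1.2 (Matrix.vecCons r.1.1.1.1.2 r.1.1.1.1.1.v)))))) :=
    dh.ren hD (φ := fun q : (((((Bs W n × ℕ) × ℕ) × ℕ) × ℕ) × ℕ) =>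
      (⟨q.1.1.1.1.1.w, Matrix.vecCons q.2 (Matrix.vecCons q.1.2 (Matrix.vecCons q.1.1.2
        (Matrix.vecCons q.1.1.1.2 (Matrix.vecCons q.1.1.1.1.2 q.1.1.1.1.1.v))))⟩ :
          Bs W (n + 5)))
      ⟨fun _ => rfl, fun i => ⟨i, fun _ => rfl⟩⟩
  have h5 := par_law (Γ := Bs W n) (F := fun δ : (Bs W n × ℕ) × ℕ =>
      F δ.1.1.w (Matrix.vecCons δ.2 (Matrix.vecCons δ.1.2 δ.1.1.v)))
    (β := fun γ => β γ.w γ.v)
    hC hD hA h3 hTC dT' dβ lg (l2 p dp) (l2 q dq) lh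
    (fun γ i t => e3 γ.w γ.v t i) (fun γ i t => e4 γ.w γ.v t i)
    (fun γ i => e5 γ.w γ.v i) (fun γ i t => e6 γ.w γ.v t i)
  have h6 := h5.ren hD (φ := fun r : Bs W (n + 1) =>
    (((⟨r.w, Fin.tail r.v⟩ : Bs W n), r.v 0) : Bs W n × ℕ))
    ⟨fun _ => rfl, by
      intro i
      change Fin (n + 1) at i
      refine Fin.cases ?_ (fun i => ?_) i
      · exact ⟨(0 : Fin (n + 1)), fun _ => rfl⟩
      · exact ⟨(i.succ : Fin (n + 1)), fun _ => rfl⟩⟩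
  refine h6.congr fun r => ?_
  show F r.w (Matrix.vecCons (T r.w (Fin.tail r.v) ^ c) r.v) =
    F r.w (Matrix.vecCons (T r.w (Fin.tail r.v) ^ c) (Matrix.vecCons (r.v 0) (Fin.tail r.v)))
  congr 2
  ext i
  refine Fin.cases ?_ (fun i => ?_) i
  · rfl
  · rfl

/-- If few-valued functions of NC can be avoided by functions with level sets in a class, then all
functions of NC are definable in it. -/
theorem fnN_closed (hD : Clo D) (hI : Fn D (fun p : Bs W 1 => Wi.inp p.w (p.v 0)))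
    (hA : Av (Pd NF) D (Bs W 1) k) {f : W → (Fin n → ℕ) → ℕ} (hf : NF n f) :
    NF n f ∧ Fn D (fun p : Bs W n => f p.w p.v) := by
  have hS := fcl_NF (W := W)
  have hC : Clo (Pd (NF (W := W))) := clo_Pd hS
  have hA' := av_all hC hD hA
  have hcl : FCl (fun (n : ℕ) (f : W → (Fin n → ℕ) → ℕ) =>
      NF n f ∧ Fn D (fun p : Bs W n => f p.w p.v)) := {
    zero := fun n => ⟨hS.zero n, Fn.nat hD 0⟩
    suc := ⟨hS.suc, ((Vr.fin 0).fn hD).add hD (Fn.nat hD 1)⟩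
    proj := fun n i => ⟨hS.proj n i, (Vr.fin i).fn hD⟩
    mul := ⟨hS.mul, (((Vr.fin 0).fn hD).add hD (Fn.nat hD 1)).mul hD
      (((Vr.fin 1).fn hD).add hD (Fn.nat hD 1))⟩
    len := ⟨hS.len, Fn.len hD⟩
    inp := ⟨hS.inp, hI⟩
    comp := by
      rintro n m g hs ⟨hg, hg'⟩ hh
      exact ⟨hS.comp n m g hs hg fun i => (hh i).1, hg'.map hD
        (φ := fun (p : Bs W n) => (⟨p.w, fun i => hs i p.w p.v⟩ : Bs W m))
        ⟨fun _ => rfl, fun i => (hh i).2⟩⟩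
    lrec := by
      rintro n g h b F ⟨hg, hg'⟩ ⟨hh, hh'⟩ ⟨hb, _⟩ h1 h2 h3
      have hF : NF (n + 1) F := hS.lrec n g h b F hg hh hb h1 h2 h3
      obtain ⟨B, hB⟩ := hF.bound
      exact ⟨hF, lrec_law hC hD hA' hg' hh' (fn_of_S hS hF hB) h2 h3⟩ }
  refine hf _ hcl ?_
  rintro n c g p q h b β T B F ⟨hg, dg⟩ ⟨hp, dp⟩ ⟨hq, dq⟩ ⟨hh, dh⟩ ⟨hb, _⟩ ⟨hβ, dβ⟩ ⟨hT, dT⟩
    ⟨hB, _⟩ e1 e2 e3 e4 e5 e6
  exact ⟨nc_NF n c g p q h b β T B F hg hp hq hh hb hβ hT hB e1 e2 e3 e4 e5 e6,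
    ncrec_law hS nc_NF (fun _ _ h => NF.bound h) hD hA' hg hp hq hh hb hβ hT hB dg dp dq dh dβ dT
      e1 e2 e3 e4 e5 e6⟩

/-- The law for NC. -/
theorem law_NF (hD : Clo D) (hI : Fn D (fun p : Bs W 1 => Wi.inp p.w (p.v 0))) :
    (∀ (n : ℕ) (R : W → (Fin n → ℕ) → Prop), R ∈ Pd NF n → R ∈ D n) ↔
      ∃ k : ℕ, Avoid NF D k := by
  constructor
  · intro h
    have hS := fcl_NF (W := W)
    refine ⟨1, fun f hf hk => ⟨fun w v => 1 - f w v, fun w v => ?_, fun c => ?_⟩⟩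
    · have := hk w v
      constructor <;> (beta_reduce; omega)
    · have h1 : NF 1 (fun w v => 1 - f w v) := hS.subf (hS.constf 1) hf
      exact h _ _ (Pd.of_zero hS (hS.addf (hS.subf h1 (hS.constf c))
        (hS.subf (hS.constf c) h1)) fun w v => by
          show 1 - f w v = c ↔ 1 - f w v - c + (c - (1 - f w v)) = 0
          omega)
  · rintro ⟨k, h⟩ n R hR
    obtain ⟨f, hf, _, h'⟩ := Pd.zero hR
    refine mem_of_df ((Df.eqf hD (fnN_closed hD hI (av_of_avoid fcl_NF hD h) hf).2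
      (Fn.nat hD 0)).congr fun p => h' p.w p.v)

end Pool.Agent.TH762.WD
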