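import Pool.Agent.TH762.WD.Nc

set_option autoImplicit false

/-!
The class NC and its law.
-/

namespace Pool.Agent.TH762.WD

open MvPolynomial

variable {W : Type} [Wi W]

/-- Closure under parallel recursion: the value `F w (t + 1, i, v)` at the place `i` depends on the
values at two places `p w (t, i, v)` and `q w (t, i, v)` (up to `β w v`) and at `i` one step before,
and the number of steps is `T w v ^ c` where `2 ^ T w v` is bounded by a function of the class. -/
def NcCl (S : (n : ℕ) → (W → (Fin n → ℕ) → ℕ) → Prop) : Prop :=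
  ∀ (n c : ℕ) (g : W → (Fin (n + 1) → ℕ) → ℕ) (p q : W → (Fin (n + 2) → ℕ) → ℕ)
    (h : W → (Fin (n + 5) → ℕ) → ℕ) (b : W → (Fin (n + 2) → ℕ) → ℕ)
    (β T B : W → (Fin n → ℕ) → ℕ) (F : W → (Fin (n + 2) → ℕ) → ℕ),
    S (n + 1) g → S (n + 2) p → S (n + 2) q → S (n + 5) h → S (n + 2) b → S n β → S n T →
    S n B →
    (∀ w v, 2 ^ T w v ≤ B w v) →
    (∀ w u, F w u ≤ b w u) →
    (∀ w (v : Fin n → ℕ) (t i : ℕ), p w (Matrix.vecCons t (Matrix.vecCons i v)) ≤ β w v) →
    (∀ w (v : Fin n → ℕ) (t i : ℕ), q w (Matrix.vecCons t (Matrix.vecCons i v)) ≤ β w v) →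
    (∀ w (v : Fin n → ℕ) (i : ℕ),
      F w (Matrix.vecCons 0 (Matrix.vecCons i v)) = g w (Matrix.vecCons i v)) →
    (∀ w (v : Fin n → ℕ) (t i : ℕ),
      F w (Matrix.vecCons (t + 1) (Matrix.vecCons i v)) =
        h w (Matrix.vecCons
            (F w (Matrix.vecCons t
              (Matrix.vecCons (p w (Matrix.vecCons t (Matrix.vecCons i v))) v)))
          (Matrix.vecCons
            (F w (Matrix.vecCons t
              (Matrix.vecCons (q w (Matrix.vecCons t (Matrix.vecCons i v))) v)))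
            (Matrix.vecCons (F w (Matrix.vecCons t (Matrix.vecCons i v)))
              (Matrix.vecCons t (Matrix.vecCons i v)))))) →
    S (n + 1) (fun w u => F w (Matrix.vecCons (T w (Fin.tail u) ^ c) u))

/-- The smallest class of functions closed under composition, limited recursion and parallel
recursion. -/
def NF (n : ℕ) (f : W → (Fin n → ℕ) → ℕ) : Prop :=
  ∀ S : (n : ℕ) → (W → (Fin n → ℕ) → ℕ) → Prop, FCl S → NcCl S → S n f

theorem fcl_NF : FCl (NF (W := W)) where
  zero n := fun _ hS _ => hS.zero n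
  suc := fun _ hS _ => hS.suc
  proj n i := fun _ hS _ => hS.proj n i
  mul := fun _ hS _ => hS.mul
  len := fun _ hS _ => hS.len
  inp := fun _ hS _ => hS.inp
  comp n m g hs hg hh := fun S hS hT => hS.comp n m g hs (hg S hS hT) fun i => hh i S hS hT
  lrec n g h b F hg hh hb e1 e2 e3 := fun S hS hT =>
    hS.lrec n g h b F (hg S hS hT) (hh S hS hT) (hb S hS hT) e1 e2 e3

theorem nc_NF : NcCl (NF (W := W)) := by
  intro n c g p q h b β T B F hg hp hq hh hb hβ hT hB e1 e2 e3 e4 e5 e6 S hS hN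
  exact hN n c g p q h b β T B F (hg S hS hN) (hp S hS hN) (hq S hS hN) (hh S hS hN)
    (hb S hS hN) (hβ S hS hN) (hT S hS hN) (hB S hS hN) e1 e2 e3 e4 e5 e6

variable {S : (n : ℕ) → (W → (Fin n → ℕ) → ℕ) → Prop} {n m : ℕ}

theorem FCl.ren (hS : FCl S) {f : W → (Fin m → ℕ) → ℕ} (hf : S m f) (ρ : Fin m → Fin n) :
    S n (fun w v => f w (fun i => v (ρ i))) :=
  hS.comp n m f (fun i _ v => v (ρ i)) hf fun i => hS.proj n (ρ i)

theorem FCl.sub1 (hS : FCl S) {f : W → (Fin (m + 1) → ℕ) → ℕ} (hf : S (m + 1) f)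
    {a : W → (Fin n → ℕ) → ℕ} (ha : S n a) (ρ : Fin m → Fin n) :
    S n (fun w v => f w (Matrix.vecCons (a w v) (fun i => v (ρ i)))) := by
  have h1 := hS.comp n (m + 1) f (fun i => Fin.cases a (fun i _ v => v (ρ i)) i) hf (by
    intro i
    refine Fin.cases ?_ (fun i => ?_) i
    · exact ha
    · exact hS.proj n (ρ i))
  refine hS.congr h1 fun w v => ?_
  congr 1
  ext i
  refine Fin.cases ?_ (fun i => ?_) i
  · rfl
  · rfl

theorem FCl.powf (hS : FCl S) {f : W → (Fin n → ℕ) → ℕ} (hf : S n f) (c : ℕ) :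
    S n (fun w v => f w v ^ c) := by
  induction c with
  | zero => exact hS.congr (hS.constf 1) fun w v => pow_zero _
  | succ c ih => exact hS.congr (hS.mulf ih hf) fun w v => pow_succ _ _

theorem FCl.ltf (hS : FCl S) {a b f g : W → (Fin n → ℕ) → ℕ} (ha : S n a) (hb : S n b)
    (hf : S n f) (hg : S n g) : S n (fun w v => if a w v < b w v then f w v else g w v) := by
  have h1 := hS.subf (hS.constf 1) (hS.subf hb ha)
  refine hS.congr (hS.addf (hS.mulf (hS.subf (hS.constf 1) h1) hf) (hS.mulf h1 hg))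
    fun w v => ?_
  show (if a w v < b w v then f w v else g w v) =
    (1 - (1 - (b w v - a w v))) * f w v + (1 - (b w v - a w v)) * g w v
  by_cases h2 : a w v < b w v
  · have h3 : 1 - (b w v - a w v) = 0 := by omega
    rw [if_pos h2, h3]
    simp
  · have h3 : b w v - a w v = 0 := by omega
    rw [if_neg h2, h3]
    simp

theorem FCl.minf (hS : FCl S) {f g : W → (Fin n → ℕ) → ℕ} (hf : S n f) (hg : S n g) :
    S n (fun w v => min (f w v) (g w v)) :=
  hS.congr (hS.subf hf (hS.subf hf hg)) fun w v => by omega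

theorem nc_Pb : NcCl (Pb (W := W)) := by
  intro n c g p q h b β T B F _ _ _ _ hb _ hT _ _ e2 _ _ _ _
  have hS := fcl_Pb (W := W)
  have h1 := hS.sub1 hb (hS.powf (hS.ren hT (fun i => i.succ)) c) (n := n + 1) (fun i => i)
  obtain ⟨P, hP⟩ := h1
  exact ⟨P, fun w v => (e2 w _).trans (hP w v)⟩

theorem NF.bound {f : W → (Fin n → ℕ) → ℕ} (hf : NF n f) : Pb n f := hf _ fcl_Pb nc_Pb

/-- The first steps of a parallel recursion. -/
theorem nc_trunc (hS : FCl S) (hN : NcCl S) {n c : ℕ} {g : W → (Fin (n + 1) → ℕ) → ℕ}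
    {p q : W → (Fin (n + 2) → ℕ) → ℕ}
    {h : W → (Fin (n + 5) → ℕ) → ℕ} {b : W → (Fin (n + 2) → ℕ) → ℕ}
    {β T B : W → (Fin n → ℕ) → ℕ} {F : W → (Fin (n + 2) → ℕ) → ℕ}
    (hg : S (n + 1) g) (hp : S (n + 2) p) (hq : S (n + 2) q) (hh : S (n + 5) h)
    (hb : S (n + 2) b) (hβ : S n β) (hT : S n T) (hB : S n B)
    (e1 : ∀ w v, 2 ^ T w v ≤ B w v)
    (e2 : ∀ w u, F w u ≤ b w u)
    (e3 : ∀ w (v : Fin n → ℕ) (t i : ℕ), p w (Matrix.vecCons t (Matrix.vecCons i v)) ≤ β w v)
    (e4 : ∀ w (v : Fin n → ℕ) (t i : ℕ), q w (Matrix.vecCons t (Matrix.vecCons i v)) ≤ β w v)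
    (e5 : ∀ w (v : Fin n → ℕ) (i : ℕ),
      F w (Matrix.vecCons 0 (Matrix.vecCons i v)) = g w (Matrix.vecCons i v))
    (e6 : ∀ w (v : Fin n → ℕ) (t i : ℕ),
      F w (Matrix.vecCons (t + 1) (Matrix.vecCons i v)) =
        h w (Matrix.vecCons
            (F w (Matrix.vecCons t
              (Matrix.vecCons (p w (Matrix.vecCons t (Matrix.vecCons i v))) v)))
          (Matrix.vecCons
            (F w (Matrix.vecCons t
              (Matrix.vecCons (q w (Matrix.vecCons t (Matrix.vecCons i v))) v)))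
            (Matrix.vecCons (F w (Matrix.vecCons t (Matrix.vecCons i v)))
              (Matrix.vecCons t (Matrix.vecCons i v)))))) :
    S (n + 2) (fun w u => F w (Matrix.vecCons (min (T w (fun i => u i.succ.succ) ^ c) (u 1))
      (Matrix.vecCons (u 0) (fun i => u i.succ.succ)))) := by
  -- skip the third variable
  let s3 : Fin (n + 2) → Fin (n + 3) :=
    fun i => Fin.cases 0 (fun i => Fin.cases 1 (fun i => i.succ.succ.succ) i) i
  let s2 : Fin (n + 1) → Fin (n + 2) := fun i => Fin.cases 0 (fun i => i.succ.succ) i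
  let s6 : Fin (n + 5) → Fin (n + 6) := fun i => Fin.cases 0 (fun i => Fin.cases 1
    (fun i => Fin.cases 2 (fun i => Fin.cases 3 (fun i => Fin.cases 4
      (fun i => i.succ.succ.succ.succ.succ.succ) i) i) i) i) i
  let F' : W → (Fin (n + 3) → ℕ) → ℕ := fun w u =>
    F w (Matrix.vecCons (min (u 0) (u 2)) (Matrix.vecCons (u 1) (fun i => u i.succ.succ.succ)))
  have k2 : ∀ (t' i : ℕ) (v : Fin n → ℕ), (fun j => (Matrix.vecCons i
      (Matrix.vecCons t' v) : Fin (n + 2) → ℕ) (s2 j)) = Matrix.vecCons i v := by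
    intro t' i v
    ext j
    refine Fin.cases ?_ (fun j => ?_) j
    · rfl
    · rfl
  have k3 : ∀ (t t' i : ℕ) (v : Fin n → ℕ), (fun j => (Matrix.vecCons t (Matrix.vecCons i
      (Matrix.vecCons t' v)) : Fin (n + 3) → ℕ) (s3 j)) =
      Matrix.vecCons t (Matrix.vecCons i v) := by
    intro t t' i v
    ext j
    refine Fin.cases ?_ (fun j => ?_) j
    · rfl
    · refine Fin.cases ?_ (fun j => ?_) j
      · rfl
      · rfl
  have k6 : ∀ (x y z t t' i : ℕ) (v : Fin n → ℕ), (fun j => (Matrix.vecCons x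
      (Matrix.vecCons y (Matrix.vecCons z (Matrix.vecCons t (Matrix.vecCons i
      (Matrix.vecCons t' v))))) : Fin (n + 6) → ℕ) (s6 j)) =
      Matrix.vecCons x (Matrix.vecCons y (Matrix.vecCons z
        (Matrix.vecCons t (Matrix.vecCons i v)))) := by
    intro x y z t t' i v
    ext j
    refine Fin.cases ?_ (fun j => ?_) j
    · rfl
    · refine Fin.cases ?_ (fun j => ?_) j
      · rfl
      · refine Fin.cases ?_ (fun j => ?_) j
        · rfl
        · refine Fin.cases ?_ (fun j => ?_) j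
          · rfl
          · refine Fin.cases ?_ (fun j => ?_) j
            · rfl
            · rfl
  have hb' : S (n + 3) (fun w u => b w (Matrix.vecCons (min (u 0) (u 2))
      (Matrix.vecCons (u 1) (fun i => u i.succ.succ.succ)))) := by
    have h1 := hS.sub1 hb (hS.minf (hS.proj (n + 3) 0) (hS.proj (n + 3) 2))
      (fun i : Fin (n + 1) => (Fin.cases 1 (fun i => i.succ.succ.succ) i : Fin (n + 3)))
    refine hS.congr h1 fun w u => ?_
    congr 1
    ext j
    refine Fin.cases ?_ (fun j => ?_) j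
    · rfl
    · refine Fin.cases ?_ (fun j => ?_) j
      · rfl
      · rfl
  have key := hN (n + 1) c (fun w u => g w (fun i => u (s2 i))) (fun w u => p w (fun i => u (s3 i)))
    (fun w u => q w (fun i => u (s3 i)))
    (fun w u => if u 3 < u 5 then h w (fun i => u (s6 i)) else u 2) _
    (fun w v => β w (fun i => v i.succ)) (fun w v => T w (fun i => v i.succ))
    (fun w v => B w (fun i => v i.succ)) F' (hS.ren hg s2) (hS.ren hp s3) (hS.ren hq s3)
    (hS.ltf (hS.proj (n + 6) 3) (hS.proj (n + 6) 5) (hS.ren hh s6) (hS.proj (n + 6) 2)) hb'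
    (hS.ren hβ _) (hS.ren hT _) (hS.ren hB _) (fun w v => e1 w _) (fun w u => e2 w _) ?_ ?_ ?_ ?_
  · refine hS.congr key fun w u => ?_
    rfl
  · intro w v t i
    show p w (fun j => (Matrix.vecCons t (Matrix.vecCons i v) : Fin (n + 3) → ℕ) (s3 j)) ≤ _
    have : v = Matrix.vecCons (v 0) (fun i => v i.succ) := by
      ext j
      refine Fin.cases ?_ (fun j => ?_) j
      · rfl
      · rfl
    rw [this, k3]
    exact e3 w _ t i
  · intro w v t i
    show q w (fun j => (Matrix.vecCons t (Matrix.vecCons i v) : Fin (n + 3) → ℕ) (s3 j)) ≤ _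
    have : v = Matrix.vecCons (v 0) (fun i => v i.succ) := by
      ext j
      refine Fin.cases ?_ (fun j => ?_) j
      · rfl
      · rfl
    rw [this, k3]
    exact e4 w _ t i
  · intro w v i
    have hv : v = Matrix.vecCons (v 0) (fun i => v i.succ) := by
      ext j
      refine Fin.cases ?_ (fun j => ?_) j
      · rfl
      · rfl
    show F w (Matrix.vecCons (min 0 (v 0)) (Matrix.vecCons i (fun i => v i.succ))) =
      g w (fun j => (Matrix.vecCons i v : Fin (n + 2) → ℕ) (s2 j))
    rw [Nat.zero_min, e5]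
    congr 1
    rw [← k2 (v 0) i (fun i => v i.succ), ← hv]
  · intro w v t i
    have hv : v = Matrix.vecCons (v 0) (fun i => v i.succ) := by
      ext j
      refine Fin.cases ?_ (fun j => ?_) j
      · rfl
      · rfl
    show F w (Matrix.vecCons (min (t + 1) (v 0)) (Matrix.vecCons i (fun i => v i.succ))) =
      if t < v 0 then h w (fun j => (Matrix.vecCons
        (F w (Matrix.vecCons (min t (v 0)) (Matrix.vecCons
          (p w (fun j => (Matrix.vecCons t (Matrix.vecCons i v) : Fin (n + 3) → ℕ) (s3 j)))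
          (fun i => v i.succ))))
        (Matrix.vecCons (F w (Matrix.vecCons (min t (v 0)) (Matrix.vecCons
          (q w (fun j => (Matrix.vecCons t (Matrix.vecCons i v) : Fin (n + 3) → ℕ) (s3 j)))
          (fun i => v i.succ))))
        (Matrix.vecCons (F w (Matrix.vecCons (min t (v 0)) (Matrix.vecCons i
          (fun i => v i.succ)))) (Matrix.vecCons t (Matrix.vecCons i v)))) :
            Fin (n + 6) → ℕ) (s6 j))
      else F w (Matrix.vecCons (min t (v 0)) (Matrix.vecCons i (fun i => v i.succ)))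
    by_cases ht : t < v 0
    · rw [if_pos ht, min_eq_left (show t + 1 ≤ v 0 from ht), min_eq_left ht.le, e6]
      have hp3 : (fun j => (Matrix.vecCons t (Matrix.vecCons i v) : Fin (n + 3) → ℕ) (s3 j)) =
          Matrix.vecCons t (Matrix.vecCons i (fun i => v i.succ)) := by
        rw [← k3 t (v 0) i (fun i => v i.succ), ← hv]
      rw [hp3]
      congr 1
      rw [← k6 _ _ _ t (v 0) i (fun i => v i.succ), ← hv]
    · rw [if_neg ht, min_eq_right (by omega), min_eq_right (by omega)]

end Pool.Agent.TH762.WD
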