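import Pool.Agent.TH762.WD.Law

set_option autoImplicit false

/-!
The law for reachability classes (nondeterministic logarithmic space).
-/

namespace Pool.Agent.TH762.WD

open MvPolynomial Relation
open Pool.Agent.TH762.E2 (dc1 dc2 dc_code Lc bs ls Rch rch_le rch_sound rch_mono rch_sat)
open Pool.Agent.TH762.MC (Tn ExL Few world)

variable {W : Type} [Wd W] {C D : (n : ℕ) → Set (W → (Fin n → ℕ) → Prop)} {Γ Δ : Type}
  [Cx W Γ] [Cx W Δ] {k n : ℕ}

/-- The check. -/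
def CkR (E : (Γ × ℕ) × ℕ → Prop) (b s N : Γ → ℕ) (γ : Γ) (Q : ℕ → ℕ → Prop) : Prop :=
  (∀ g ≤ N γ, ∀ w ≤ N γ, Q g w → w ≤ 1) ∧ (∀ g ≤ N γ, (Q g 0 ↔ ¬ Q g 1)) ∧
  (∀ c ≤ b γ, (Q c 1 ↔ c = s γ)) ∧
  ∀ t ≤ b γ + 1, ∀ c ≤ b γ, (Q (c + (b γ + 1) * (t + 1)) 1 ↔ (Q (c + (b γ + 1) * t) 1 ∨
    ∃ a ≤ b γ, Q (a + (b γ + 1) * t) 1 ∧ E ((γ, a), c)))

theorem ckR_df (hD : Clo D) {E : (Γ × ℕ) × ℕ → Prop} (hE : Df D E) {b s N : Γ → ℕ}
    (hb : Fn D b) (hs : Fn D s) (hN : Fn D N) (φ : Δ → Γ) (hφ : Rn φ) (Q : (Δ × ℕ) × ℕ → Prop)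
    (hQ : Df D Q) : Df D (fun δ => CkR E b s N (φ δ) (fun g w => Q ((δ, g), w))) := by
  have hb' : Fn D (fun δ => b (φ δ)) := hb.ren hD hφ
  have hs' : Fn D (fun δ => s (φ δ)) := hs.ren hD hφ
  have hN' : Fn D (fun δ => N (φ δ)) := hN.ren hD hφ
  refine Df.and hD ?_ (Df.and hD ?_ (Df.and hD ?_ ?_))
  · refine Df.all hD (P := fun p : Δ × ℕ => ∀ w ≤ N (φ p.1), Q ((p.1, p.2), w) → w ≤ 1) ?_ hN'
    refine Df.all hD (P := fun q : (Δ × ℕ) × ℕ => Q ((q.1.1, q.1.2), q.2) → q.2 ≤ 1) ?_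
      (hN'.fst hD)
    exact Df.imp hD hQ (Df.lef hD (Vr.snd.fn hD) (Fn.nat hD 1))
  · refine Df.all hD (P := fun p : Δ × ℕ => (Q ((p.1, p.2), 0) ↔ ¬ Q ((p.1, p.2), 1))) ?_ hN'
    exact Df.iff hD (hQ.sub hD (Fn.nat hD 0)) ((hQ.sub hD (Fn.nat hD 1)).not hD)
  · refine Df.all hD (P := fun p : Δ × ℕ => (Q ((p.1, p.2), 1) ↔ p.2 = s (φ p.1))) ?_ hb'
    exact Df.iff hD (hQ.sub hD (Fn.nat hD 1)) (Df.eqf hD (Vr.snd.fn hD) (hs'.fst hD))
  · refine Df.all hD (P := fun p : Δ × ℕ => ∀ c ≤ b (φ p.1),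
      (Q ((p.1, c + (b (φ p.1) + 1) * (p.2 + 1)), 1) ↔
        (Q ((p.1, c + (b (φ p.1) + 1) * p.2), 1) ∨
      ∃ a ≤ b (φ p.1), Q ((p.1, a + (b (φ p.1) + 1) * p.2), 1) ∧ E ((φ p.1, a), c)))) ?_
      (hb'.add hD (Fn.nat hD 1))
    refine Df.all hD (P := fun q : (Δ × ℕ) × ℕ =>
      (Q ((q.1.1, q.2 + (b (φ q.1.1) + 1) * (q.1.2 + 1)), 1) ↔
        (Q ((q.1.1, q.2 + (b (φ q.1.1) + 1) * q.1.2), 1) ∨
      ∃ a ≤ b (φ q.1.1), Q ((q.1.1, a + (b (φ q.1.1) + 1) * q.1.2), 1) ∧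
        E ((φ q.1.1, a), q.2)))) ?_ (hb'.fst hD)
    have h11 : Rn (fun q : (Δ × ℕ) × ℕ => q.1.1) := Rn.fst.comp Rn.fst
    have ht : Fn D (fun q : (Δ × ℕ) × ℕ => q.1.2) := (Vr.snd.ren Rn.fst).fn hD
    have hc : Fn D (fun q : (Δ × ℕ) × ℕ => q.2) := Vr.snd.fn hD
    have hb1 : Fn D (fun q : (Δ × ℕ) × ℕ => b (φ q.1.1) + 1) :=
      (hb'.ren hD h11).add hD (Fn.nat hD 1)
    have hQ1 : ∀ f : (Δ × ℕ) × ℕ → ℕ, Fn D f →
        Df D (fun q : (Δ × ℕ) × ℕ => Q ((q.1.1, f q), 1)) := fun f hf =>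
      hQ.map hD (φ := fun q : (Δ × ℕ) × ℕ => ((q.1.1, f q), 1))
        (((h11.mp hD).pair hf).pair (Fn.nat hD 1))
    refine Df.iff hD (hQ1 _ (hc.add hD (hb1.mul hD (ht.add hD (Fn.nat hD 1)))))
      (Df.or hD (hQ1 _ (hc.add hD (hb1.mul hD ht))) ?_)
    refine Df.ex hD (P := fun r : ((Δ × ℕ) × ℕ) × ℕ =>
      Q ((r.1.1.1, r.2 + (b (φ r.1.1.1) + 1) * r.1.1.2), 1) ∧
        E ((φ r.1.1.1, r.2), r.1.2)) ?_ (hb'.ren hD h11)
    have h111 : Rn (fun r : ((Δ × ℕ) × ℕ) × ℕ => r.1.1.1) := Rn.fst.comp h11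
    refine Df.and hD ?_ ?_
    · exact hQ.map hD (φ := fun r : ((Δ × ℕ) × ℕ) × ℕ =>
        ((r.1.1.1, r.2 + (b (φ r.1.1.1) + 1) * r.1.1.2), 1))
        (((h111.mp hD).pair ((Vr.snd.fn hD).add hD ((hb1.fst hD).mul hD (ht.fst hD)))).pair
          (Fn.nat hD 1))
    · exact hE.ren hD (φ := fun r : ((Δ × ℕ) × ℕ) × ℕ => ((φ r.1.1.1, r.2), r.1.2))
        (((h111.comp hφ).pair Vr.snd).pair (Vr.snd.ren Rn.fst))

theorem nr_sub (hC : Clo C) (hD : Clo D)
    (hsub : ∀ n (R : W → (Fin n → ℕ) → Prop), R ∈ C n → R ∈ D n)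
    (hA : Av (NR C) D (Bs W 1) k) {R : W → (Fin n → ℕ) → Prop} (hR : R ∈ NR C n) :
    R ∈ D n := by
  classical
  have hC' : Clo (NR C) := clo_NR hC
  have hsub' : ∀ n (R : W → (Fin n → ℕ) → Prop), R ∈ C n → R ∈ NR C n :=
    fun _ _ h => sub_NR hC h
  have hA' := av_all hC' hD hA
  obtain ⟨E, b, s, e, hE, hb, hs, he, h1, h2⟩ := np_of_nr hC hR
  let N : Bs W n → ℕ := fun γ => b γ + (b γ + 1) * (b γ + 2)
  have hN : Fn C N := hb.add hC ((hb.add hC (Fn.nat hC 1)).mul hC (hb.add hC (Fn.nat hC 2)))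
  let Rr : Bs W n → ℕ → Prop := fun γ g =>
    Rch (fun a a' => E ((γ, a), a')) (s γ) (g / (b γ + 1)) (g % (b γ + 1))
  let τ : Bs W n → ℕ → ℕ := fun γ g => if Rr γ g then 1 else 0
  have hN1 : ∀ γ, 1 ≤ N γ := fun γ => by
    show 1 ≤ b γ + (b γ + 1) * (b γ + 2)
    nlinarith
  have hτ1 : ∀ γ g, τ γ g ≤ 1 := by
    intro γ g
    show (if Rr γ g then 1 else 0) ≤ 1
    split_ifs <;> omega
  have hle' : ∀ γ g, τ γ g ≤ N γ := fun γ g => (hτ1 γ g).trans (hN1 γ)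
  have hle : ∀ γ, ∀ g ≤ N γ, τ γ g ≤ N γ := fun γ g _ => hle' γ g
  have hRr : Np C (fun p : Bs W n × ℕ => Rr p.1 p.2) := by
    have h3 := np_rch hC hE hb hs h1
    have hx : Fn C (fun p : Bs W n × ℕ => p.2) := Vr.snd.fn hC
    have hbq : Fn C (fun p : Bs W n × ℕ => b p.1) := hb.fst hC
    exact h3.map hC (φ := fun p : Bs W n × ℕ =>
      ((p.1, p.2 / (b p.1 + 1)), p.2 % (b p.1 + 1)))
      (((Rn.fst.mp hC).pair (hx.div hC hbq)).pair (hx.mod hC hbq))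
  have hRd : Df (NR C) (fun p : Bs W n × ℕ => Rr p.1 p.2) := by
    have h4 : (fun (w : W) (u : Fin (n + 1) → ℕ) => Rr ⟨w, Fin.tail u⟩ (u 0)) ∈ NR C (n + 1) := by
      refine nr_of_np hC ?_
      exact hRr.map hC (φ := fun q : Bs W (n + 1) =>
        (((⟨q.w, Fin.tail q.v⟩ : Bs W n), q.v 0) : Bs W n × ℕ))
        (Rn.mp hC ⟨fun _ => rfl, by
          intro i
          change Fin (n + 1) at i
          refine Fin.cases ?_ (fun i => ?_) i
          · exact ⟨(0 : Fin (n + 1)), fun _ => rfl⟩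
          · exact ⟨(i.succ : Fin (n + 1)), fun _ => rfl⟩⟩)
    exact ⟨_, h4, fun _ => Iff.rfl⟩
  have hτ : Fn (NR C) (fun p : Bs W n × ℕ => τ p.1 p.2) :=
    Fn.ite hC' hRd (Fn.nat hC' 1) (Fn.nat hC' 0)
  obtain ⟨L, hL, hL2⟩ := lists_exist (k := k) hC' hD hA' (hN.of_sub hsub') (hN.of_sub hsub) hτ
    hle'
  have hEb : ∀ γ a a', E ((γ, a), a') → a ≤ b γ ∧ a' ≤ b γ := h1
  have eng := engine (k := k) hD (hN.of_sub hsub) (τ := τ) hle hL hL2 (CkR E b s N)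
    (by
      intro γ Q hQ x hx w hw
      obtain ⟨q1, q2, q3, q4⟩ := hQ
      have hNe : N γ = b γ + (b γ + 1) * (b γ + 2) := rfl
      have key : ∀ t, t ≤ b γ + 2 → ∀ c ≤ b γ, (Q (c + (b γ + 1) * t) 1 ↔
          Rch (fun a a' => E ((γ, a), a')) (s γ) t c) := by
        intro t
        induction t with
        | zero =>
          intro _ c hc
          rw [Nat.mul_zero, Nat.add_zero]
          exact q3 c hc
        | succ t ih =>
          intro ht c hc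
          rw [q4 t (by omega) c hc, ih (by omega) c hc]
          refine or_congr Iff.rfl ?_
          constructor
          · rintro ⟨a, ha, g1, g2⟩
            exact ⟨a, (ih (by omega) a ha).1 g1, g2⟩
          · rintro ⟨a, g1, g2⟩
            have ha := (hEb _ _ _ g2).1
            exact ⟨a, ha, (ih (by omega) a ha).2 g1, g2⟩
      have hlt : x < (b γ + 1) * (b γ + 3) := by nlinarith
      have ht : x / (b γ + 1) ≤ b γ + 2 := by
        have := Nat.div_lt_of_lt_mul hlt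
        omega
      have hc : x % (b γ + 1) ≤ b γ := by
        have := Nat.mod_lt x (show 0 < b γ + 1 by omega)
        omega
      have hx2 : x % (b γ + 1) + (b γ + 1) * (x / (b γ + 1)) = x := Nat.mod_add_div _ _
      have h3 := key _ ht _ hc
      rw [hx2] at h3
      have h4 : Q x 1 ↔ Rr γ x := h3
      show Q x w ↔ w = if Rr γ x then 1 else 0
      by_cases hr : Rr γ x
      · rw [if_pos hr]
        constructor
        · intro hQ
          have h5 := q1 x hx w hw hQ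
          rcases Nat.lt_or_ge w 1 with h6 | h6
          · have h7 : w = 0 := by omega
            rw [h7] at hQ
            exact absurd (h4.2 hr) ((q2 x hx).1 hQ)
          · omega
        · intro h5
          rw [h5]
          exact h4.2 hr
      · rw [if_neg hr]
        constructor
        · intro hQ
          have h5 := q1 x hx w hw hQ
          rcases Nat.lt_or_ge w 1 with h6 | h6
          · omega
          · have h7 : w = 1 := by omega
            rw [h7] at hQ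
            exact absurd (h4.1 hQ) hr
        · intro h5
          rw [h5]
          exact (q2 x hx).2 fun h6 => hr (h4.1 h6))
    (by
      intro γ Q hQ
      have hNe : N γ = b γ + (b γ + 1) * (b γ + 2) := rfl
      have hN1' := hN1 γ
      have hpos : ∀ t ≤ b γ + 2, ∀ c ≤ b γ, c + (b γ + 1) * t ≤ N γ := by
        intro t ht c hc
        rw [hNe]
        exact Nat.add_le_add hc (Nat.mul_le_mul_left _ ht)
      have hval : ∀ t ≤ b γ + 2, ∀ c ≤ b γ, (Q (c + (b γ + 1) * t) 1 ↔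
          Rch (fun a a' => E ((γ, a), a')) (s γ) t c) := by
        intro t ht c hc
        rw [hQ _ (hpos t ht c hc) 1 hN1']
        show 1 = (if Rch _ _ _ _ then 1 else 0) ↔ _
        rw [Nat.add_mul_div_left _ _ (by omega), Nat.div_eq_of_lt (by omega),
          Nat.add_mul_mod_self_left, Nat.mod_eq_of_lt (by omega), Nat.zero_add]
        by_cases hr : Rch (fun a a' => E ((γ, a), a')) (s γ) t c
        · simp [hr]
        · simp [hr]
      refine ⟨?_, ?_, ?_, ?_⟩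
      · intro x hx w hw hQ'
        have h3 : w = if Rr γ x then 1 else 0 := (hQ x hx w hw).1 hQ'
        rw [h3]
        split_ifs <;> omega
      · intro x hx
        rw [hQ x hx 0 (Nat.zero_le _), hQ x hx 1 hN1']
        show 0 = (if Rr γ x then 1 else 0) ↔ ¬ 1 = (if Rr γ x then 1 else 0)
        by_cases hr : Rr γ x
        · simp [hr]
        · simp [hr]
      · intro c hc
        have h3 := hval 0 (Nat.zero_le _) c hc
        rw [Nat.mul_zero, Nat.add_zero] at h3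
        exact h3
      · intro t ht c hc
        rw [hval (t + 1) (by omega) c hc, hval t (by omega) c hc]
        refine or_congr Iff.rfl ?_
        constructor
        · rintro ⟨a, g1, g2⟩
          have ha := (hEb _ _ _ g2).1
          exact ⟨a, ha, (hval t (by omega) a ha).2 g1, g2⟩
        · rintro ⟨a, ha, g1, g2⟩
          exact ⟨a, (hval t (by omega) a ha).1 g1, g2⟩)
    (fun φ hφ Q hQ => ckR_df hD (hE.of_sub hsub) (hb.of_sub hsub) (hs.of_sub hsub)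
      (hN.of_sub hsub) φ hφ Q hQ)
  -- the end
  have hb' := hb.of_sub hsub
  have he' := he.of_sub hsub
  have hs' := hs.of_sub hsub
  have fin : Df D (fun γ : Bs W n => (b γ < e γ ∧ e γ = s γ) ∨ (e γ ≤ b γ ∧
      ((e γ + (b γ + 1) * (b γ + 2) ≤ N γ ∧ 1 ≤ N γ) ∧
        1 = τ γ (e γ + (b γ + 1) * (b γ + 2))))) := by
    refine Df.or hD ((Df.ltf hD hb' he').and hD (Df.eqf hD he' hs'))
      (Df.and hD (Df.lef hD he' hb') ?_)
    exact eng.map hD (φ := fun γ : Bs W n => ((γ, e γ + (b γ + 1) * (b γ + 2)), 1))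
      (((Mp.id hD).pair (he'.add hD ((hb'.add hD (Fn.nat hD 1)).mul hD
        (hb'.add hD (Fn.nat hD 2))))).pair (Fn.nat hD 1))
  refine mem_of_df (fin.congr fun γ => ?_)
  refine (h2 γ).trans ?_
  have hEγ : ∀ a a', E ((γ, a), a') → a ≤ b γ ∧ a' ≤ b γ := h1 γ
  constructor
  · intro hr
    rcases Nat.lt_or_ge (b γ) (e γ) with h3 | h3
    · left
      refine ⟨h3, ?_⟩
      have h4 := (rch_sat hEγ (e γ)).1 hr
      rcases rch_le hEγ _ _ h4 with h5 | h5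
      · exact h5
      · omega
    · right
      refine ⟨h3, ⟨Nat.add_le_add_right h3 _, hN1 γ⟩, ?_⟩
      have h4 := (rch_sat hEγ (e γ)).1 hr
      show 1 = (if Rch _ _ _ _ then 1 else 0)
      rw [Nat.add_mul_div_left _ _ (by omega), Nat.div_eq_of_lt (by omega),
        Nat.add_mul_mod_self_left, Nat.mod_eq_of_lt (by omega), Nat.zero_add, if_pos h4]
  · rintro (⟨h3, h4⟩ | ⟨h3, _, h4⟩)
    · rw [h4]
    · have h5 : 1 = (if Rch (fun a a' => E ((γ, a), a')) (s γ)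
        ((e γ + (b γ + 1) * (b γ + 2)) / (b γ + 1))
        ((e γ + (b γ + 1) * (b γ + 2)) % (b γ + 1)) then 1 else 0) := h4
      rw [Nat.add_mul_div_left _ _ (by omega), Nat.div_eq_of_lt (by omega),
        Nat.add_mul_mod_self_left, Nat.mod_eq_of_lt (by omega), Nat.zero_add] at h5
      refine (rch_sat hEγ (e γ)).2 ?_
      by_contra hr
      rw [if_neg hr] at h5
      omega

end Pool.Agent.TH762.WD

namespace Pool.Agent.TH762.WD

variable {W : Type} [Wi W] {C D : (n : ℕ) → Set (W → (Fin n → ℕ) → Prop)} {k n : ℕ}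

/-- The law for reachability classes. -/
theorem law_NR (hC : Clo C) (hD : Clo D)
    (hsub : ∀ n (R : W → (Fin n → ℕ) → Prop), R ∈ C n → R ∈ D n) :
    (∀ (n : ℕ) (R : W → (Fin n → ℕ) → Prop), R ∈ NR C n → R ∈ D n) ↔
      ∃ k : ℕ, ∀ f : W → (Fin 1 → ℕ) → ℕ,
        (∀ c : ℕ, (fun (w : W) (v : Fin 1 → ℕ) => f w v = c) ∈ NR C 1) → (∀ w v, f w v ≤ k) →
        ∃ g : W → (Fin 1 → ℕ) → ℕ, (∀ w v, g w v ≤ k ∧ g w v ≠ f w v) ∧
          ∀ c : ℕ, (fun (w : W) (v : Fin 1 → ℕ) => g w v = c) ∈ D 1 := by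
  have hC' : Clo (NR C) := clo_NR hC
  constructor
  · intro h
    refine ⟨1, fun f hf hk => ⟨fun w v => 1 - f w v, fun w v => ?_, fun c => ?_⟩⟩
    · have := hk w v
      constructor <;> (beta_reduce; omega)
    · refine h 1 _ (levels_of_fn hC' (g := fun w v => 1 - f w v) ?_ c)
      exact (Fn.nat hC' 1).tsub hC' (fn_of_levels hC' hk hf)
  · rintro ⟨k, h⟩ n R hR
    refine nr_sub (k := k) hC hD hsub ?_ hR
    intro F hF hk
    obtain ⟨g, hg, hg2⟩ := h (fun w v => F ⟨w, v⟩)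
      (fun c => levels_of_fn hC' (g := fun w v => F ⟨w, v⟩) hF c) (fun w v => hk _)
    exact ⟨fun p => g p.w p.v, fn_of_levels hD (fun w v => (hg w v).1) hg2,
      fun p => hg p.w p.v⟩

end Pool.Agent.TH762.WD
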