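import Pool.Agent.TH762.WD.Avd

set_option autoImplicit false

/-!
Reachability predicates (nondeterministic space).
-/

namespace Pool.Agent.TH762.WD

open MvPolynomial Relation
open Pool.Agent.TH762.E2 (dc1 dc2 dc_code rtg_lift Rch rch_le rch_sound rch_mono rch_sat pr pr_mono pr_inj)
open Pool.Agent.TH762.MC (Tn ExL Few world)

variable {W : Type} [Wd W] {C D : (n : ℕ) → Set (W → (Fin n → ℕ) → Prop)} {Γ Δ : Type}
  [Cx W Γ] [Cx W Δ] {k : ℕ}

/-- Predicates that say that there is a path in a bounded definable graph. -/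
def Np (C : (n : ℕ) → Set (W → (Fin n → ℕ) → Prop)) {Γ : Type} [Cx W Γ] (P : Γ → Prop) : Prop :=
  ∃ (E : (Γ × ℕ) × ℕ → Prop) (b s e : Γ → ℕ), Df C E ∧ Fn C b ∧ Fn C s ∧ Fn C e ∧
    (∀ γ a a', E ((γ, a), a') → a ≤ b γ ∧ a' ≤ b γ) ∧
    ∀ γ, P γ ↔ ReflTransGen (fun a a' => E ((γ, a), a')) (s γ) (e γ)

theorem Np.congr {P Q : Γ → Prop} (h : Np C P) (hPQ : ∀ γ, Q γ ↔ P γ) : Np C Q := by
  have : Q = P := _root_.funext fun γ => propext (hPQ γ)
  rw [this]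
  exact h

theorem Np.map (hC : Clo C) {P : Δ → Prop} (h : Np C P) {φ : Γ → Δ} (hφ : Mp C φ) :
    Np C (fun γ => P (φ γ)) := by
  obtain ⟨E, b, s, e, hE, hb, hs, he, h1, h2⟩ := h
  refine ⟨fun q => E ((φ q.1.1, q.1.2), q.2), fun γ => b (φ γ), fun γ => s (φ γ),
    fun γ => e (φ γ), ?_, hb.map hC hφ, hs.map hC hφ, he.map hC hφ, fun γ => h1 (φ γ),
    fun γ => h2 (φ γ)⟩
  exact hE.map hC (φ := fun q : (Γ × ℕ) × ℕ => ((φ q.1.1, q.1.2), q.2))
    (((Mp.comp hC ((Rn.fst.comp Rn.fst).mp hC) hφ).pair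
      ((Vr.snd.ren (φ := fun q : (Γ × ℕ) × ℕ => q.1) Rn.fst).fn hC)).pair (Vr.snd.fn hC))

theorem Np.of_df (hC : Clo C) {P : Γ → Prop} (h : Df C P) : Np C P := by
  refine ⟨fun q => q.1.2 = 0 ∧ q.2 = 1 ∧ P q.1.1, fun _ => 1, fun _ => 0, fun _ => 1, ?_,
    Fn.nat hC 1, Fn.nat hC 0, Fn.nat hC 1, ?_, ?_⟩
  · exact (Df.eqf hC ((Vr.snd.ren (φ := fun q : (Γ × ℕ) × ℕ => q.1) Rn.fst).fn hC)
      (Fn.nat hC 0)).and hC ((Df.eqf hC (Vr.snd.fn hC) (Fn.nat hC 1)).and hC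
        (h.ren hC (Rn.fst.comp Rn.fst)))
  · rintro γ a a' ⟨h1, h2, _⟩
    have h1' : a = 0 := h1
    have h2' : a' = 1 := h2
    show a ≤ 1 ∧ a' ≤ 1
    omega
  · intro γ
    constructor
    · intro hP
      exact ReflTransGen.single ⟨rfl, rfl, hP⟩
    · intro hr
      rcases hr.cases_head with h0 | ⟨c, hc, _⟩
      · exact absurd (show (0 : ℕ) = 1 from h0) (by norm_num)
      · exact hc.2.2

theorem Np.and (hC : Clo C) {P P' : Γ → Prop} (h : Np C P) (h' : Np C P') :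
    Np C (fun γ => P γ ∧ P' γ) := by
  obtain ⟨E, b, s, e, hE, hb, hs, he, h1, h2⟩ := h
  obtain ⟨E', b', s', e', hE', hb', hs', he', h1', h2'⟩ := h'
  have hx : Fn C (fun q : (Γ × ℕ) × ℕ => q.1.2) :=
    (Vr.snd.ren (φ := fun q : (Γ × ℕ) × ℕ => q.1) Rn.fst).fn hC
  have hy : Fn C (fun q : (Γ × ℕ) × ℕ => q.2) := Vr.snd.fn hC
  have h11 : Rn (fun q : (Γ × ℕ) × ℕ => q.1.1) := Rn.fst.comp Rn.fst
  let G : Γ → ℕ → ℕ → Prop := fun γ x x' =>
    (∃ a ≤ x, ∃ a' ≤ x', x = 2 * a ∧ x' = 2 * a' ∧ E ((γ, a), a')) ∨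
    (x = 2 * e γ ∧ x' = 2 * s' γ + 1) ∨
    (∃ a ≤ x, ∃ a' ≤ x', x = 2 * a + 1 ∧ x' = 2 * a' + 1 ∧ E' ((γ, a), a'))
  refine ⟨fun q => G q.1.1 q.1.2 q.2,
    fun γ => 2 * (b γ + b' γ + e γ + s' γ) + 1, fun γ => 2 * s γ, fun γ => 2 * e' γ + 1,
    ?_, ?_, (Fn.nat hC 2).mul hC hs, ((Fn.nat hC 2).mul hC he').add hC (Fn.nat hC 1), ?_, ?_⟩
  · have key : ∀ (K : (Γ × ℕ) × ℕ → Prop) (j : ℕ), Df C K →
        Df C (fun q : (Γ × ℕ) × ℕ => ∃ a ≤ q.1.2, ∃ a' ≤ q.2,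
          q.1.2 = 2 * a + j ∧ q.2 = 2 * a' + j ∧ K ((q.1.1, a), a')) := by
      intro K j hK
      refine Df.ex hC (P := fun r : ((Γ × ℕ) × ℕ) × ℕ => ∃ a' ≤ r.1.2,
          r.1.1.2 = 2 * r.2 + j ∧ r.1.2 = 2 * a' + j ∧ K ((r.1.1.1, r.2), a')) ?_ hx
      refine Df.ex hC (P := fun r : (((Γ × ℕ) × ℕ) × ℕ) × ℕ =>
          r.1.1.1.2 = 2 * r.1.2 + j ∧ r.1.1.2 = 2 * r.2 + j ∧ K ((r.1.1.1.1, r.1.2), r.2)) ?_
        ((Vr.snd.ren Rn.fst).fn hC)
      have v0 : Vr (fun r : (((Γ × ℕ) × ℕ) × ℕ) × ℕ => r.2) := Vr.snd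
      have v1 : Vr (fun r : (((Γ × ℕ) × ℕ) × ℕ) × ℕ => r.1.2) := Vr.snd.ren Rn.fst
      have v2 : Vr (fun r : (((Γ × ℕ) × ℕ) × ℕ) × ℕ => r.1.1.2) :=
        Vr.snd.ren (Rn.fst.comp Rn.fst)
      have v3 : Vr (fun r : (((Γ × ℕ) × ℕ) × ℕ) × ℕ => r.1.1.1.2) :=
        Vr.snd.ren ((Rn.fst.comp Rn.fst).comp Rn.fst)
      have v4 : Rn (fun r : (((Γ × ℕ) × ℕ) × ℕ) × ℕ => r.1.1.1.1) :=
        ((Rn.fst.comp Rn.fst).comp Rn.fst).comp Rn.fst
      refine Df.and hC (Df.eqf hC (v3.fn hC) (((Fn.nat hC 2).mul hC (v1.fn hC)).add hC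
        (Fn.nat hC j))) (Df.and hC (Df.eqf hC (v2.fn hC) (((Fn.nat hC 2).mul hC
          (v0.fn hC)).add hC (Fn.nat hC j))) ?_)
      exact hK.ren hC ((v4.pair v1).pair v0)
    refine Df.or hC (key E 0 hE) (Df.or hC (Df.and hC ?_ ?_) (key E' 1 hE'))
    · exact Df.eqf hC hx ((Fn.nat hC 2).mul hC (he.ren hC h11))
    · exact Df.eqf hC hy (((Fn.nat hC 2).mul hC (hs'.ren hC h11)).add hC (Fn.nat hC 1))
  · exact ((Fn.nat hC 2).mul hC (((hb.add hC hb').add hC he).add hC hs')).add hC (Fn.nat hC 1)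
  · intro γ x x' h
    show x ≤ 2 * (b γ + b' γ + e γ + s' γ) + 1 ∧ x' ≤ 2 * (b γ + b' γ + e γ + s' γ) + 1
    have h' : G γ x x' := h
    rcases h' with ⟨a, _, a', _, e1, e2, e3⟩ | ⟨e1, e2⟩ | ⟨a, _, a', _, e1, e2, e3⟩
    · have := h1 γ a a' e3
      omega
    · omega
    · have := h1' γ a a' e3
      omega
  · intro γ
    show (P γ ∧ P' γ) ↔ ReflTransGen (G γ) (2 * s γ) (2 * e' γ + 1)
    rw [h2, h2']
    constructor
    · rintro ⟨r1, r2⟩
      have q1 : ReflTransGen (G γ) (2 * s γ) (2 * e γ) :=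
        rtg_lift (p := G γ) (fun a => 2 * a) (fun a a' h =>
          Or.inl ⟨a, by omega, a', by omega, rfl, rfl, h⟩) r1
      have q2 : ReflTransGen (G γ) (2 * s' γ + 1) (2 * e' γ + 1) :=
        rtg_lift (p := G γ) (fun a => 2 * a + 1) (fun a a' h =>
          Or.inr (Or.inr ⟨a, by omega, a', by omega, rfl, rfl, h⟩)) r2
      exact (q1.tail (Or.inr (Or.inl ⟨rfl, rfl⟩))).trans q2
    · intro hr
      have inv : ∀ x, ReflTransGen (G γ) (2 * s γ) x →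
          (∃ a, x = 2 * a ∧ ReflTransGen (fun a a' => E ((γ, a), a')) (s γ) a) ∨
          (∃ a, x = 2 * a + 1 ∧ ReflTransGen (fun a a' => E ((γ, a), a')) (s γ) (e γ) ∧
            ReflTransGen (fun a a' => E' ((γ, a), a')) (s' γ) a) := by
        intro x hx
        induction hx with
        | refl => exact Or.inl ⟨s γ, rfl, ReflTransGen.refl⟩
        | tail _ hstep ih =>
          rcases hstep with ⟨a, _, a', _, e1, e2, e3⟩ | ⟨e1, e2⟩ | ⟨a, _, a', _, e1, e2, e3⟩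
          · rcases ih with ⟨c, hc, hr⟩ | ⟨c, hc, _⟩
            · have : c = a := by omega
              subst this
              exact Or.inl ⟨a', e2, hr.tail e3⟩
            · omega
          · rcases ih with ⟨c, hc, hr⟩ | ⟨c, hc, _⟩
            · have : c = e γ := by omega
              rw [this] at hr
              exact Or.inr ⟨s' γ, e2, hr, ReflTransGen.refl⟩
            · omega
          · rcases ih with ⟨c, hc, hr⟩ | ⟨c, hc, hr, hr'⟩
            · omega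
            · have : c = a := by omega
              subst this
              exact Or.inr ⟨a', e2, hr, hr'.tail e3⟩
      rcases inv _ hr with ⟨a, ha, _⟩ | ⟨a, ha, r1, r2⟩
      · omega
      · have : a = e' γ := by omega
        rw [this] at r2
        exact ⟨r1, r2⟩

theorem Np.or (hC : Clo C) {P P' : Γ → Prop} (h : Np C P) (h' : Np C P') :
    Np C (fun γ => P γ ∨ P' γ) := by
  obtain ⟨E, b, s, e, hE, hb, hs, he, h1, h2⟩ := h
  obtain ⟨E', b', s', e', hE', hb', hs', he', h1', h2'⟩ := h'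
  have hx : Fn C (fun q : (Γ × ℕ) × ℕ => q.1.2) :=
    (Vr.snd.ren (φ := fun q : (Γ × ℕ) × ℕ => q.1) Rn.fst).fn hC
  have hy : Fn C (fun q : (Γ × ℕ) × ℕ => q.2) := Vr.snd.fn hC
  have h11 : Rn (fun q : (Γ × ℕ) × ℕ => q.1.1) := Rn.fst.comp Rn.fst
  let G : Γ → ℕ → ℕ → Prop := fun γ x x' =>
    (∃ a ≤ x, ∃ a' ≤ x', x = 2 * a + 2 ∧ x' = 2 * a' + 2 ∧ E ((γ, a), a')) ∨
    ((x = 0 ∧ x' = 2 * s γ + 2) ∨ (x = 0 ∧ x' = 2 * s' γ + 3) ∨
      (x = 2 * e γ + 2 ∧ x' = 1) ∨ (x = 2 * e' γ + 3 ∧ x' = 1)) ∨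
    (∃ a ≤ x, ∃ a' ≤ x', x = 2 * a + 3 ∧ x' = 2 * a' + 3 ∧ E' ((γ, a), a'))
  refine ⟨fun q => G q.1.1 q.1.2 q.2,
    fun γ => 2 * (b γ + b' γ + e γ + s' γ + s γ + e' γ) + 3, fun γ => 0, fun γ => 1,
    ?_, ?_, Fn.nat hC 0, Fn.nat hC 1, ?_, ?_⟩
  · have key : ∀ (K : (Γ × ℕ) × ℕ → Prop) (j : ℕ), Df C K →
        Df C (fun q : (Γ × ℕ) × ℕ => ∃ a ≤ q.1.2, ∃ a' ≤ q.2,
          q.1.2 = 2 * a + j ∧ q.2 = 2 * a' + j ∧ K ((q.1.1, a), a')) := by
      intro K j hK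
      refine Df.ex hC (P := fun r : ((Γ × ℕ) × ℕ) × ℕ => ∃ a' ≤ r.1.2,
          r.1.1.2 = 2 * r.2 + j ∧ r.1.2 = 2 * a' + j ∧ K ((r.1.1.1, r.2), a')) ?_ hx
      refine Df.ex hC (P := fun r : (((Γ × ℕ) × ℕ) × ℕ) × ℕ =>
          r.1.1.1.2 = 2 * r.1.2 + j ∧ r.1.1.2 = 2 * r.2 + j ∧ K ((r.1.1.1.1, r.1.2), r.2)) ?_
        ((Vr.snd.ren Rn.fst).fn hC)
      have v0 : Vr (fun r : (((Γ × ℕ) × ℕ) × ℕ) × ℕ => r.2) := Vr.snd
      have v1 : Vr (fun r : (((Γ × ℕ) × ℕ) × ℕ) × ℕ => r.1.2) := Vr.snd.ren Rn.fst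
      have v2 : Vr (fun r : (((Γ × ℕ) × ℕ) × ℕ) × ℕ => r.1.1.2) :=
        Vr.snd.ren (Rn.fst.comp Rn.fst)
      have v3 : Vr (fun r : (((Γ × ℕ) × ℕ) × ℕ) × ℕ => r.1.1.1.2) :=
        Vr.snd.ren ((Rn.fst.comp Rn.fst).comp Rn.fst)
      have v4 : Rn (fun r : (((Γ × ℕ) × ℕ) × ℕ) × ℕ => r.1.1.1.1) :=
        ((Rn.fst.comp Rn.fst).comp Rn.fst).comp Rn.fst
      refine Df.and hC (Df.eqf hC (v3.fn hC) (((Fn.nat hC 2).mul hC (v1.fn hC)).add hC
        (Fn.nat hC j))) (Df.and hC (Df.eqf hC (v2.fn hC) (((Fn.nat hC 2).mul hC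
          (v0.fn hC)).add hC (Fn.nat hC j))) ?_)
      exact hK.ren hC ((v4.pair v1).pair v0)
    have l : ∀ (f : Γ → ℕ) (j : ℕ), Fn C f → Fn C (fun q : (Γ × ℕ) × ℕ => 2 * f q.1.1 + j) :=
      fun f j hf => ((Fn.nat hC 2).mul hC (hf.ren hC h11)).add hC (Fn.nat hC j)
    refine Df.or hC (key E 2 hE) (Df.or hC (Df.or hC (Df.and hC ?_ ?_) (Df.or hC
      (Df.and hC ?_ ?_) (Df.or hC (Df.and hC ?_ ?_) (Df.and hC ?_ ?_)))) (key E' 3 hE'))
    · exact Df.eqf hC hx (Fn.nat hC 0)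
    · exact Df.eqf hC hy (l s 2 hs)
    · exact Df.eqf hC hx (Fn.nat hC 0)
    · exact Df.eqf hC hy (l s' 3 hs')
    · exact Df.eqf hC hx (l e 2 he)
    · exact Df.eqf hC hy (Fn.nat hC 1)
    · exact Df.eqf hC hx (l e' 3 he')
    · exact Df.eqf hC hy (Fn.nat hC 1)
  · exact ((Fn.nat hC 2).mul hC (((((hb.add hC hb').add hC he).add hC hs').add hC hs).add hC
      he')).add hC (Fn.nat hC 3)
  · intro γ x x' h
    show x ≤ 2 * (b γ + b' γ + e γ + s' γ + s γ + e' γ) + 3 ∧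
      x' ≤ 2 * (b γ + b' γ + e γ + s' γ + s γ + e' γ) + 3
    have h' : G γ x x' := h
    rcases h' with ⟨a, _, a', _, e1, e2, e3⟩ | (⟨e1, e2⟩ | ⟨e1, e2⟩ | ⟨e1, e2⟩ | ⟨e1, e2⟩) |
      ⟨a, _, a', _, e1, e2, e3⟩
    · have := h1 γ a a' e3
      omega
    · omega
    · omega
    · omega
    · omega
    · have := h1' γ a a' e3
      omega
  · intro γ
    show (P γ ∨ P' γ) ↔ ReflTransGen (G γ) 0 1
    rw [h2, h2']
    constructor
    · rintro (r1 | r2)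
      · have q1 : ReflTransGen (G γ) (2 * s γ + 2) (2 * e γ + 2) :=
          rtg_lift (p := G γ) (fun a => 2 * a + 2) (fun a a' h =>
            Or.inl ⟨a, by omega, a', by omega, rfl, rfl, h⟩) r1
        have g1 : G γ 0 (2 * s γ + 2) := Or.inr (Or.inl (Or.inl ⟨rfl, rfl⟩))
        have g2 : G γ (2 * e γ + 2) 1 := Or.inr (Or.inl (Or.inr (Or.inr (Or.inl ⟨rfl, rfl⟩))))
        exact (ReflTransGen.head g1 q1).tail g2
      · have q2 : ReflTransGen (G γ) (2 * s' γ + 3) (2 * e' γ + 3) :=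
          rtg_lift (p := G γ) (fun a => 2 * a + 3) (fun a a' h =>
            Or.inr (Or.inr ⟨a, by omega, a', by omega, rfl, rfl, h⟩)) r2
        have g1 : G γ 0 (2 * s' γ + 3) := Or.inr (Or.inl (Or.inr (Or.inl ⟨rfl, rfl⟩)))
        have g2 : G γ (2 * e' γ + 3) 1 := Or.inr (Or.inl (Or.inr (Or.inr (Or.inr ⟨rfl, rfl⟩))))
        exact (ReflTransGen.head g1 q2).tail g2
    · intro hr
      have inv : ∀ x, ReflTransGen (G γ) 0 x → x = 0 ∨
          (∃ a, x = 2 * a + 2 ∧ ReflTransGen (fun a a' => E ((γ, a), a')) (s γ) a) ∨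
          (∃ a, x = 2 * a + 3 ∧ ReflTransGen (fun a a' => E' ((γ, a), a')) (s' γ) a) ∨
          (x = 1 ∧ (ReflTransGen (fun a a' => E ((γ, a), a')) (s γ) (e γ) ∨
            ReflTransGen (fun a a' => E' ((γ, a), a')) (s' γ) (e' γ))) := by
        intro x hx
        induction hx with
        | refl => exact Or.inl rfl
        | tail _ hstep ih =>
          rcases hstep with ⟨a, _, a', _, e1, e2, e3⟩ | (⟨e1, e2⟩ | ⟨e1, e2⟩ | ⟨e1, e2⟩ |
            ⟨e1, e2⟩) | ⟨a, _, a', _, e1, e2, e3⟩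
          · rcases ih with h0 | ⟨c, hc, hr⟩ | ⟨c, hc, hr⟩ | ⟨hc, _⟩
            · omega
            · have : c = a := by omega
              subst this
              exact Or.inr (Or.inl ⟨a', e2, hr.tail e3⟩)
            · omega
            · omega
          · exact Or.inr (Or.inl ⟨s γ, e2, ReflTransGen.refl⟩)
          · exact Or.inr (Or.inr (Or.inl ⟨s' γ, e2, ReflTransGen.refl⟩))
          · rcases ih with h0 | ⟨c, hc, hr⟩ | ⟨c, hc, hr⟩ | ⟨hc, _⟩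
            · omega
            · have : c = e γ := by omega
              rw [this] at hr
              exact Or.inr (Or.inr (Or.inr ⟨e2, Or.inl hr⟩))
            · omega
            · omega
          · rcases ih with h0 | ⟨c, hc, hr⟩ | ⟨c, hc, hr⟩ | ⟨hc, _⟩
            · omega
            · omega
            · have : c = e' γ := by omega
              rw [this] at hr
              exact Or.inr (Or.inr (Or.inr ⟨e2, Or.inr hr⟩))
            · omega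
          · rcases ih with h0 | ⟨c, hc, hr⟩ | ⟨c, hc, hr⟩ | ⟨hc, _⟩
            · omega
            · omega
            · have : c = a := by omega
              subst this
              exact Or.inr (Or.inr (Or.inl ⟨a', e2, hr.tail e3⟩))
            · omega
      rcases inv _ hr with h0 | ⟨c, hc, _⟩ | ⟨c, hc, _⟩ | ⟨_, hr⟩
      · omega
      · omega
      · omega
      · exact hr

theorem Np.allfin (hC : Clo C) {m : ℕ} {P : Fin m → Γ → Prop} (h : ∀ i, Np C (P i)) :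
    Np C (fun γ => ∀ i, P i γ) := by
  induction m with
  | zero => exact (Np.of_df hC (Df.true hC)).congr fun γ => by simp
  | succ m ih => exact ((h 0).and hC (ih fun i => h i.succ)).congr fun γ => Fin.forall_fin_succ

theorem Np.exfin (hC : Clo C) {m : ℕ} {P : Fin m → Γ → Prop} (h : ∀ i, Np C (P i)) :
    Np C (fun γ => ∃ i, P i γ) := by
  induction m with
  | zero => exact (Np.of_df hC (Df.const hC False)).congr fun γ => by simp
  | succ m ih => exact ((h 0).or hC (ih fun i => h i.succ)).congr fun γ => Fin.exists_fin_succ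

theorem Np.exF (hC : Clo C) {ι : Type} [Fintype ι] {P : ι → Γ → Prop} (h : ∀ i, Np C (P i)) :
    Np C (fun γ => ∃ i, P i γ) := by
  refine (Np.exfin hC fun j => h ((Fintype.equivFin ι).symm j)).congr fun γ => ?_
  constructor
  · rintro ⟨i, hi⟩
    exact ⟨Fintype.equivFin ι i, by simpa using hi⟩
  · rintro ⟨j, hj⟩
    exact ⟨_, hj⟩

theorem Fn.pr (hD : Clo D) {f g : Γ → ℕ} (hf : Fn D f) (hg : Fn D g) :
    Fn D (fun γ => pr (f γ) (g γ)) :=
  ((hf.add hD hg).mul hD (hf.add hD hg)).add hD hf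

/-- Reachability in at most `t` steps is a reachability predicate. -/
theorem np_rch (hC : Clo C) {E : (Γ × ℕ) × ℕ → Prop} (hE : Df C E) {b s : Γ → ℕ} (hb : Fn C b)
    (hs : Fn C s) (h1 : ∀ γ a a', E ((γ, a), a') → a ≤ b γ ∧ a' ≤ b γ) :
    Np C (fun q : (Γ × ℕ) × ℕ =>
      Rch (fun a a' => E ((q.1.1, a), a')) (s q.1.1) q.1.2 q.2) := by
  have h11 : Rn (fun q : (Γ × ℕ) × ℕ => q.1.1) := Rn.fst.comp Rn.fst
  have h12 : Vr (fun q : (Γ × ℕ) × ℕ => q.1.2) := Vr.snd.ren Rn.fst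
  let B : (Γ × ℕ) × ℕ → ℕ := fun q => pr (b q.1.1 + s q.1.1) q.1.2
  have hB : Fn C B := ((hb.ren hC h11).add hC (hs.ren hC h11)).pr hC (h12.fn hC)
  let G : (Γ × ℕ) × ℕ → ℕ → ℕ → Prop := fun q x x' =>
    x ≤ B q ∧ x' ≤ B q ∧ pr (dc1 x) (dc2 x) = x ∧ pr (dc1 x') (dc2 x') = x' ∧
      dc2 x' = dc2 x + 1 ∧ (dc1 x' = dc1 x ∨ E ((q.1.1, dc1 x), dc1 x'))
  refine ⟨fun r => G r.1.1 r.1.2 r.2, B, fun q => pr (s q.1.1) 0, fun q => pr q.2 q.1.2, ?_, hB,
    (hs.ren hC h11).pr hC (Fn.nat hC 0), (Vr.snd.fn hC).pr hC (h12.fn hC), ?_, ?_⟩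
  · have hx : Fn C (fun r : (((Γ × ℕ) × ℕ) × ℕ) × ℕ => r.1.2) := (Vr.snd.ren Rn.fst).fn hC
    have hy : Fn C (fun r : (((Γ × ℕ) × ℕ) × ℕ) × ℕ => r.2) := Vr.snd.fn hC
    have hq : Rn (fun r : (((Γ × ℕ) × ℕ) × ℕ) × ℕ => r.1.1) := Rn.fst.comp Rn.fst
    have hBq := hB.ren hC hq
    have hx1 := hx.dc1 hC
    have hx2 := hx.dc2 hC
    have hy1 := hy.dc1 hC
    have hy2 := hy.dc2 hC
    refine Df.and hC (Df.lef hC hx hBq) (Df.and hC (Df.lef hC hy hBq) (Df.and hC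
      (Df.eqf hC (hx1.pr hC hx2) hx) (Df.and hC (Df.eqf hC (hy1.pr hC hy2) hy) (Df.and hC
        (Df.eqf hC hy2 (hx2.add hC (Fn.nat hC 1))) (Df.or hC (Df.eqf hC hy1 hx1) ?_)))))
    exact hE.map hC (φ := fun r : (((Γ × ℕ) × ℕ) × ℕ) × ℕ =>
      ((r.1.1.1.1, dc1 r.1.2), dc1 r.2)) ((((hq.comp h11).mp hC).pair hx1).pair hy1)
  · rintro q a a' h
    exact ⟨h.1, h.2.1⟩
  · intro q
    have hbd : ∀ i a, i ≤ q.1.2 → Rch (fun a a' => E ((q.1.1, a), a')) (s q.1.1) i a →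
        pr a i ≤ B q := by
      intro i a hi ha
      refine pr_mono ?_ hi
      rcases rch_le (h1 q.1.1) i a ha with h | h <;> omega
    constructor
    · intro hr
      have key : ∀ i, i ≤ q.1.2 → ∀ a, Rch (fun a a' => E ((q.1.1, a), a')) (s q.1.1) i a →
          ReflTransGen (G q) (pr (s q.1.1) 0) (pr a i) := by
        intro i
        induction i with
        | zero =>
          intro _ a ha
          have ha' : a = s q.1.1 := ha
          rw [ha']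
        | succ i ih =>
          intro hi a ha
          have hd : ∀ a i, pr (dc1 (pr a i)) (dc2 (pr a i)) = pr a i := by
            intro a i
            have := dc_code a i
            unfold pr
            rw [this.1, this.2]
          rcases ha with ha | ⟨a', ha', he⟩
          · refine (ih (by omega) a ha).tail ⟨hbd i a (by omega) ha,
              hbd (i + 1) a hi (Or.inl ha), hd _ _, hd _ _, ?_, Or.inl ?_⟩
            · exact (dc_code a (i + 1)).2.trans (congrArg (· + 1) (dc_code a i).2.symm)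
            · exact (dc_code a (i + 1)).1.trans (dc_code a i).1.symm
          · refine (ih (by omega) a' ha').tail ⟨hbd i a' (by omega) ha',
              hbd (i + 1) a hi (Or.inr ⟨a', ha', he⟩), hd _ _, hd _ _, ?_, Or.inr ?_⟩
            · exact (dc_code a (i + 1)).2.trans (congrArg (· + 1) (dc_code a' i).2.symm)
            · have e1 : dc1 (pr a' i) = a' := (dc_code a' i).1
              have e2 : dc1 (pr a (i + 1)) = a := (dc_code a (i + 1)).1
              rw [e1, e2]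
              exact he
      exact key _ le_rfl _ hr
    · intro hr
      have inv : ∀ x, ReflTransGen (G q) (pr (s q.1.1) 0) x → ∃ a i, x = pr a i ∧
          Rch (fun a a' => E ((q.1.1, a), a')) (s q.1.1) i a := by
        intro x hx
        induction hx with
        | refl => exact ⟨_, 0, rfl, rfl⟩
        | tail _ hstep ih =>
          obtain ⟨a, i, ha, hr⟩ := ih
          obtain ⟨_, _, _, g1, g2, g3⟩ := hstep
          have e1 : dc1 (pr a i) = a := (dc_code a i).1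
          have e2 : dc2 (pr a i) = i := (dc_code a i).2
          rw [ha, e2] at g2
          rw [ha, e1] at g3
          refine ⟨_, i + 1, by rw [← g2]; exact g1.symm, ?_⟩
          rcases g3 with g3 | g3
          · exact Or.inl (by rw [g3]; exact hr)
          · exact Or.inr ⟨a, hr, g3⟩
      obtain ⟨a, i, ha, hr'⟩ := inv _ hr
      obtain ⟨e1, e2⟩ := pr_inj ha
      show Rch (fun a a' => E ((q.1.1, a), a')) (s q.1.1) q.1.2 q.2
      rw [e1, e2]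
      exact hr'

end Pool.Agent.TH762.WD
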