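import Pool.Agent.TH762.WD.Word

set_option autoImplicit false

/-!
Functions of parity logarithmic space.
-/

namespace Pool.Agent.TH762.WD

variable {W : Type} [Wi W]

/-- Closure under counting paths modulo `2`: `F w (t, i, v)` is the parity of the number of paths
with `t` steps which begin at a place `j` with `a w (j, v)` odd and end at `i`, where
`e w (t, j, i, v)` is the number of edges from `j` to `i` in step `t`, for `j` up to `β w v`. -/
def ParCl (S : (n : ℕ) → (W → (Fin n → ℕ) → ℕ) → Prop) : Prop :=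
  ∀ (n : ℕ) (a : W → (Fin (n + 1) → ℕ) → ℕ) (e : W → (Fin (n + 3) → ℕ) → ℕ)
    (β : W → (Fin n → ℕ) → ℕ) (F : W → (Fin (n + 2) → ℕ) → ℕ),
    S (n + 1) a → S (n + 3) e → S n β →
    (∀ w (v : Fin n → ℕ) (i : ℕ),
      F w (Matrix.vecCons 0 (Matrix.vecCons i v)) = a w (Matrix.vecCons i v) % 2) →
    (∀ w (v : Fin n → ℕ) (t i : ℕ),
      F w (Matrix.vecCons (t + 1) (Matrix.vecCons i v)) =
        (∑ j ∈ Finset.range (β w v + 1),
          e w (Matrix.vecCons t (Matrix.vecCons j (Matrix.vecCons i v))) *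
            F w (Matrix.vecCons t (Matrix.vecCons j v))) % 2) →
    S (n + 2) F

/-- The smallest class of functions closed under composition, limited recursion and counting of
paths modulo `2`. -/
def OF (n : ℕ) (f : W → (Fin n → ℕ) → ℕ) : Prop :=
  ∀ S : (n : ℕ) → (W → (Fin n → ℕ) → ℕ) → Prop, FCl S → ParCl S → S n f

theorem fcl_OF : FCl (OF (W := W)) where
  zero n := fun _ hS _ => hS.zero n
  suc := fun _ hS _ => hS.suc
  proj n i := fun _ hS _ => hS.proj n i
  mul := fun _ hS _ => hS.mul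
  len := fun _ hS _ => hS.len
  inp := fun _ hS _ => hS.inp
  comp n m g hs hg hh := fun S hS hT => hS.comp n m g hs (hg S hS hT) fun i => hh i S hS hT
  lrec n g h b F hg hh hb e1 e2 e3 := fun S hS hT =>
    hS.lrec n g h b F (hg S hS hT) (hh S hS hT) (hb S hS hT) e1 e2 e3

theorem par_OF : ParCl (OF (W := W)) := by
  intro n a e β F ha he hβ h1 h2 S hS hT
  exact hT n a e β F (ha S hS hT) (he S hS hT) (hβ S hS hT) h1 h2

theorem Pd_LF_OF {n : ℕ} {R : W → (Fin n → ℕ) → Prop} (h : R ∈ Pd LF n) : R ∈ Pd OF n := by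
  obtain ⟨f, hf, h⟩ := h
  exact ⟨f, fun S hS _ => hf S hS, h⟩

end Pool.Agent.TH762.WD
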