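import Pool.Agent.TH762.WD.NcLaw

set_option autoImplicit false

/-!
Recursions by pointers with logarithmically many steps (the class LOGDCFL), and their law.
-/

namespace Pool.Agent.TH762.WD

open MvPolynomial
open Pool.Agent.TH762.E2 (dc1 dc2 dc_code Lc bs ls)
open Pool.Agent.TH762.MC (Tn ExL Few world)

section Law

variable {W : Type} [Wd W] {C D : (n : ℕ) → Set (W → (Fin n → ℕ) → Prop)} {Γ Δ : Type}
  [Cx W Γ] [Cx W Δ] {k n : ℕ}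

/-- The check. -/
def CkP (N M : (Γ × ℕ) × ℕ → ℕ) (T : Γ → ℕ) (g : Γ × ℕ → ℕ) (p : ((Γ × ℕ) × ℕ) × ℕ → ℕ)
    (h : (((Γ × ℕ) × ℕ) × ℕ) × ℕ → ℕ) (δ : (Γ × ℕ) × ℕ) (Q : ℕ → ℕ → Prop) : Prop :=
  (∀ i ≤ M δ, ∀ w ≤ N δ, (Q i w ↔ w = g (δ.1.1, i))) ∧
  (∀ t ≤ T δ.1.1, t + 1 ≤ T δ.1.1 → ∀ i ≤ M δ, ∀ w ≤ N δ,
    (Q (i + (M δ + 1) * (t + 1)) w ↔ ∃ x ≤ N δ, Q (i + (M δ + 1) * t) x ∧
      ∃ y ≤ N δ, Q (p (((δ.1.1, i), t), x) + (M δ + 1) * t) y ∧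
        w = h ((((δ.1.1, i), t), x), y))) ∧
  ∀ x ≤ N δ, T δ.1.1 < x / (M δ + 1) → ∀ w ≤ N δ, (Q x w ↔ w = 0)

theorem ckP_df (hD : Clo D) {N M : (Γ × ℕ) × ℕ → ℕ} {T : Γ → ℕ} {g : Γ × ℕ → ℕ}
    {p : ((Γ × ℕ) × ℕ) × ℕ → ℕ} {h : (((Γ × ℕ) × ℕ) × ℕ) × ℕ → ℕ} (hN : Fn D N) (hM : Fn D M)
    (hT : Fn D T) (hg : Fn D g) (hp : Fn D p) (hh : Fn D h)
    (φ : Δ → (Γ × ℕ) × ℕ) (hφ : Rn φ) (Q : (Δ × ℕ) × ℕ → Prop) (hQ : Df D Q) :
    Df D (fun δ => CkP N M T g p h (φ δ) (fun x w => Q ((δ, x), w))) := by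
  have hM' : Fn D (fun δ => M (φ δ)) := hM.ren hD hφ
  have hN' : Fn D (fun δ => N (φ δ)) := hN.ren hD hφ
  have hγ : Rn (fun δ => (φ δ).1.1) := hφ.comp (Rn.fst.comp Rn.fst)
  have hT' : Fn D (fun δ => T (φ δ).1.1) := hT.ren hD hγ
  refine Df.and hD ?_ (Df.and hD ?_ ?_)
  · refine Df.all hD (P := fun p : Δ × ℕ => ∀ w ≤ N (φ p.1), (Q ((p.1, p.2), w) ↔
      w = g ((φ p.1).1.1, p.2))) ?_ hM'
    refine Df.all hD (P := fun q : (Δ × ℕ) × ℕ => (Q ((q.1.1, q.1.2), q.2) ↔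
      q.2 = g ((φ q.1.1).1.1, q.1.2))) ?_ (hN'.fst hD)
    refine Df.iff hD hQ (Df.eqf hD (Vr.snd.fn hD) ?_)
    exact hg.ren hD (φ := fun q : (Δ × ℕ) × ℕ => ((φ q.1.1).1.1, q.1.2))
      (((Rn.fst.comp Rn.fst).comp hγ).pair (Vr.snd.ren Rn.fst))
  · refine Df.all hD (P := fun u : Δ × ℕ => u.2 + 1 ≤ T (φ u.1).1.1 → ∀ i ≤ M (φ u.1),
      ∀ w ≤ N (φ u.1),
      (Q ((u.1, i + (M (φ u.1) + 1) * (u.2 + 1)), w) ↔
        ∃ x ≤ N (φ u.1), Q ((u.1, i + (M (φ u.1) + 1) * u.2), x) ∧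
        ∃ y ≤ N (φ u.1),
          Q ((u.1, p ((((φ u.1).1.1, i), u.2), x) + (M (φ u.1) + 1) * u.2), y) ∧
          w = h (((((φ u.1).1.1, i), u.2), x), y))) ?_ hT'
    refine Df.imp hD (Df.lef hD ((Vr.snd.fn hD).add hD (Fn.nat hD 1)) (hT'.fst hD)) ?_
    refine Df.all hD (P := fun r : (Δ × ℕ) × ℕ =>
      ∀ w ≤ N (φ r.1.1),
      (Q ((r.1.1, r.2 + (M (φ r.1.1) + 1) * (r.1.2 + 1)), w) ↔
        ∃ x ≤ N (φ r.1.1), Q ((r.1.1, r.2 + (M (φ r.1.1) + 1) * r.1.2), x) ∧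
        ∃ y ≤ N (φ r.1.1),
          Q ((r.1.1, p ((((φ r.1.1).1.1, r.2), r.1.2), x) + (M (φ r.1.1) + 1) * r.1.2), y) ∧
          w = h (((((φ r.1.1).1.1, r.2), r.1.2), x), y))) ?_ (hM'.fst hD)
    refine Df.all hD (P := fun r : ((Δ × ℕ) × ℕ) × ℕ =>
      (Q ((r.1.1.1, r.1.2 + (M (φ r.1.1.1) + 1) * (r.1.1.2 + 1)), r.2) ↔
        ∃ x ≤ N (φ r.1.1.1), Q ((r.1.1.1, r.1.2 + (M (φ r.1.1.1) + 1) * r.1.1.2), x) ∧
        ∃ y ≤ N (φ r.1.1.1),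
          Q ((r.1.1.1, p ((((φ r.1.1.1).1.1, r.1.2), r.1.1.2), x) +
            (M (φ r.1.1.1) + 1) * r.1.1.2), y) ∧
          r.2 = h (((((φ r.1.1.1).1.1, r.1.2), r.1.1.2), x), y))) ?_
      ((hN'.fst hD).fst hD)
    have r111 : Rn (fun r : ((Δ × ℕ) × ℕ) × ℕ => r.1.1.1) := (Rn.fst.comp Rn.fst).comp Rn.fst
    have hM3 : Fn D (fun r : ((Δ × ℕ) × ℕ) × ℕ => M (φ r.1.1.1) + 1) :=
      (((hM'.fst hD).fst hD).fst hD).add hD (Fn.nat hD 1)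
    have hN3 : Fn D (fun r : ((Δ × ℕ) × ℕ) × ℕ => N (φ r.1.1.1)) :=
      ((hN'.fst hD).fst hD).fst hD
    have hi3 : Vr (fun r : ((Δ × ℕ) × ℕ) × ℕ => r.1.2) := Vr.snd.ren Rn.fst
    have ht3 : Vr (fun r : ((Δ × ℕ) × ℕ) × ℕ => r.1.1.2) := Vr.snd.ren (Rn.fst.comp Rn.fst)
    refine Df.iff hD ?_ ?_
    · exact hQ.map hD (φ := fun r : ((Δ × ℕ) × ℕ) × ℕ =>
        ((r.1.1.1, r.1.2 + (M (φ r.1.1.1) + 1) * (r.1.1.2 + 1)), r.2))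
        (((r111.mp hD).pair ((hi3.fn hD).add hD (hM3.mul hD ((ht3.fn hD).add hD
          (Fn.nat hD 1))))).pair (Vr.snd.fn hD))
    · refine Df.ex hD (P := fun s : (((Δ × ℕ) × ℕ) × ℕ) × ℕ =>
        Q ((s.1.1.1.1, s.1.1.2 + (M (φ s.1.1.1.1) + 1) * s.1.1.1.2), s.2) ∧
        ∃ y ≤ N (φ s.1.1.1.1),
          Q ((s.1.1.1.1, p ((((φ s.1.1.1.1).1.1, s.1.1.2), s.1.1.1.2), s.2) +
            (M (φ s.1.1.1.1) + 1) * s.1.1.1.2), y) ∧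
          s.1.2 = h (((((φ s.1.1.1.1).1.1, s.1.1.2), s.1.1.1.2), s.2), y)) ?_ hN3
      have s111 : Rn (fun s : (((Δ × ℕ) × ℕ) × ℕ) × ℕ => s.1.1.1.1) := Rn.fst.comp r111
      refine Df.and hD ?_ ?_
      · exact hQ.map hD (φ := fun s : (((Δ × ℕ) × ℕ) × ℕ) × ℕ =>
          ((s.1.1.1.1, s.1.1.2 + (M (φ s.1.1.1.1) + 1) * s.1.1.1.2), s.2))
          (((s111.mp hD).pair (((hi3.ren Rn.fst).fn hD).add hD
            ((hM3.fst hD).mul hD ((ht3.ren Rn.fst).fn hD)))).pair (Vr.snd.fn hD))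
      · refine Df.ex hD (P := fun u : ((((Δ × ℕ) × ℕ) × ℕ) × ℕ) × ℕ =>
          Q ((u.1.1.1.1.1, p ((((φ u.1.1.1.1.1).1.1, u.1.1.1.2), u.1.1.1.1.2), u.1.2) +
            (M (φ u.1.1.1.1.1) + 1) * u.1.1.1.1.2), u.2) ∧
          u.1.1.2 = h (((((φ u.1.1.1.1.1).1.1, u.1.1.1.2), u.1.1.1.1.2), u.1.2), u.2)) ?_
          (hN3.fst hD)
        have u111 : Rn (fun u : ((((Δ × ℕ) × ℕ) × ℕ) × ℕ) × ℕ => u.1.1.1.1.1) :=
          Rn.fst.comp s111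
        have u11 : Rn (fun u : ((((Δ × ℕ) × ℕ) × ℕ) × ℕ) × ℕ => u.1.1) := Rn.fst.comp Rn.fst
        have ux : Vr (fun u : ((((Δ × ℕ) × ℕ) × ℕ) × ℕ) × ℕ => u.1.2) := Vr.snd.ren Rn.fst
        have up : Rn (fun u : ((((Δ × ℕ) × ℕ) × ℕ) × ℕ) × ℕ =>
            ((((φ u.1.1.1.1.1).1.1, u.1.1.1.2), u.1.1.1.1.2), u.1.2)) :=
          (((u111.comp hγ).pair (hi3.ren u11)).pair (ht3.ren u11)).pair ux
        refine Df.and hD ?_ (Df.eqf hD ((Vr.snd.ren u11).fn hD) ?_)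
        · exact hQ.map hD (φ := fun u : ((((Δ × ℕ) × ℕ) × ℕ) × ℕ) × ℕ =>
            ((u.1.1.1.1.1, p ((((φ u.1.1.1.1.1).1.1, u.1.1.1.2), u.1.1.1.1.2), u.1.2) +
              (M (φ u.1.1.1.1.1) + 1) * u.1.1.1.1.2), u.2))
            (((u111.mp hD).pair ((hp.ren hD up).add hD
              (((hM3.fst hD).fst hD).mul hD ((ht3.ren u11).fn hD)))).pair (Vr.snd.fn hD))
        · exact hh.ren hD (φ := fun u : ((((Δ × ℕ) × ℕ) × ℕ) × ℕ) × ℕ =>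
            (((((φ u.1.1.1.1.1).1.1, u.1.1.1.2), u.1.1.1.1.2), u.1.2), u.2))
            (up.pair Vr.snd)
  · refine Df.all hD (P := fun p : Δ × ℕ =>
      T (φ p.1).1.1 < p.2 / (M (φ p.1) + 1) → ∀ w ≤ N (φ p.1),
        (Q ((p.1, p.2), w) ↔ w = 0)) ?_ hN'
    refine Df.imp hD (Df.ltf hD (hT'.fst hD) ((Vr.snd.fn hD).div hD (hM'.fst hD))) ?_
    refine Df.all hD (P := fun q : (Δ × ℕ) × ℕ => (Q ((q.1.1, q.1.2), q.2) ↔ q.2 = 0)) ?_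
      (hN'.fst hD)
    exact Df.iff hD hQ (Df.eqf hD (Vr.snd.fn hD) (Fn.nat hD 0))

/-- Functions defined by recursions by pointers are definable in `D` if few-valued functions of `C`
can be avoided by functions of `D`. -/
theorem ptr_law (hC : Clo C) (hD : Clo D) (hA : ∀ n, Av C D (Bs W n) k)
    {F : (Γ × ℕ) × ℕ → ℕ} {T β : Γ → ℕ} {g : Γ × ℕ → ℕ} {p : ((Γ × ℕ) × ℕ) × ℕ → ℕ}
    {h : (((Γ × ℕ) × ℕ) × ℕ) × ℕ → ℕ}
    (hF : Fn C (fun δ : (Γ × ℕ) × ℕ => F ((δ.1.1, δ.1.2), min δ.2 (T δ.1.1))))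
    (hTC : Fn C T) (hT : Fn D T) (hβ : Fn D β) (hg : Fn D g) (hp : Fn D p) (hh : Fn D h)
    (hpb : ∀ δ, p δ ≤ β δ.1.1.1)
    (h0 : ∀ γ i, F ((γ, i), 0) = g (γ, i))
    (h1 : ∀ γ i t, F ((γ, i), t + 1) = h ((((γ, i), t), F ((γ, i), t)),
      F ((γ, p (((γ, i), t), F ((γ, i), t))), t))) :
    Fn D (fun δ : (Γ × ℕ) × ℕ => F ((δ.1.1, δ.1.2), min δ.2 (T δ.1.1))) := by
  classical
  obtain ⟨B, hB⟩ := hF.2
  obtain ⟨P, hP⟩ := hβ.2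
  have h11 : Rn (fun δ : (Γ × ℕ) × ℕ => δ.1.1) := Rn.fst.comp Rn.fst
  have h12 : Vr (fun δ : (Γ × ℕ) × ℕ => δ.1.2) := Vr.snd.ren Rn.fst
  let M : (Γ × ℕ) × ℕ → ℕ := fun δ => δ.1.2 + eval (yv (Cx.o δ.1.1) (Cx.x δ.1.1)) P
  have hM : ∀ {E : (n : ℕ) → Set (W → (Fin n → ℕ) → Prop)}, Clo E → Fn E M := fun hE =>
    (h12.fn hE).add hE ((Fn.poly (Γ := Γ) hE P).map hE
      (φ := fun δ : (Γ × ℕ) × ℕ => δ.1.1) (h11.mp hE))
  let Bv : (Γ × ℕ) × ℕ → ℕ := fun δ =>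
    eval (yv (Cx.o δ.1.1) (Cx.x (((δ.1.1, M δ), T δ.1.1) : (Γ × ℕ) × ℕ))) B
  have hBv : ∀ {E : (n : ℕ) → Set (W → (Fin n → ℕ) → Prop)}, Clo E → Fn E T → Fn E Bv :=
    fun hE hTE => (Fn.poly (Γ := (Γ × ℕ) × ℕ) hE B).map hE
      (φ := fun δ : (Γ × ℕ) × ℕ => ((δ.1.1, M δ), T δ.1.1))
      (((h11.mp hE).pair (hM hE)).pair (hTE.ren hE h11))
  let N : (Γ × ℕ) × ℕ → ℕ := fun δ => M δ + (M δ + 1) * T δ.1.1 + Bv δ
  have hN : ∀ {E : (n : ℕ) → Set (W → (Fin n → ℕ) → Prop)}, Clo E → Fn E T → Fn E N :=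
    fun hE hTE => ((hM hE).add hE (((hM hE).add hE (Fn.nat hE 1)).mul hE
      (hTE.ren hE h11))).add hE (hBv hE hTE)
  let τ : (Γ × ℕ) × ℕ → ℕ → ℕ := fun δ x =>
    if x / (M δ + 1) ≤ T δ.1.1 then
      F ((δ.1.1, x % (M δ + 1)), min (x / (M δ + 1)) (T δ.1.1)) else 0
  have hτ : Fn C (fun p : ((Γ × ℕ) × ℕ) × ℕ => τ p.1 p.2) := by
    have hT' := (hM hC).fst hC
    have hx : Fn C (fun p : ((Γ × ℕ) × ℕ) × ℕ => p.2) := Vr.snd.fn hC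
    refine Fn.ite hC (Df.lef hC (hx.div hC hT') (hTC.ren hC (Rn.fst.comp h11))) ?_
      (Fn.nat hC 0)
    exact hF.map hC (φ := fun p : ((Γ × ℕ) × ℕ) × ℕ =>
      ((p.1.1.1, p.2 % (M p.1 + 1)), p.2 / (M p.1 + 1)))
      ((((Rn.fst.comp h11).mp hC).pair (hx.mod hC hT')).pair (hx.div hC hT'))
  have hpM : ∀ (δ : (Γ × ℕ) × ℕ) (i t x : ℕ), p (((δ.1.1, i), t), x) ≤ M δ := by
    intro δ i t x
    have h3 := hP δ.1.1
    have h4 : p (((δ.1.1, i), t), x) ≤ β δ.1.1 := hpb _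
    show p (((δ.1.1, i), t), x) ≤ δ.1.2 + eval (yv (Cx.o δ.1.1) (Cx.x δ.1.1)) P
    omega
  have hi0 : ∀ δ : (Γ × ℕ) × ℕ, δ.1.2 ≤ M δ := fun δ => Nat.le_add_right _ _
  have hFb : ∀ (δ : (Γ × ℕ) × ℕ) (i t : ℕ), i ≤ M δ → t ≤ T δ.1.1 →
      F ((δ.1.1, i), t) ≤ Bv δ := by
    intro δ i t hi ht
    have h4 : F ((δ.1.1, i), min t (T δ.1.1)) ≤
      eval (yv (Cx.o (((δ.1.1, i), t) : (Γ × ℕ) × ℕ))
        (Cx.x (((δ.1.1, i), t) : (Γ × ℕ) × ℕ))) B := hB ((δ.1.1, i), t)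
    rw [min_eq_left ht] at h4
    refine h4.trans (eval_mono B fun j => ?_)
    change Fin (Cx.n Γ + 1 + 1 + 1) at j
    refine Fin.cases ?_ (fun j => ?_) j
    · exact le_rfl
    · refine Fin.cases ?_ (fun j => ?_) j
      · exact ht
      · refine Fin.cases ?_ (fun j => ?_) j
        · exact hi
        · exact le_rfl
  have hmod : ∀ (δ : (Γ × ℕ) × ℕ) (x : ℕ), x % (M δ + 1) ≤ M δ := by
    intro δ x
    have := Nat.mod_lt x (show 0 < M δ + 1 by omega)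
    omega
  have hτ2 : ∀ δ x, x / (M δ + 1) ≤ T δ.1.1 →
      τ δ x = F ((δ.1.1, x % (M δ + 1)), x / (M δ + 1)) := by
    intro δ x hx
    show (if _ then _ else 0) = _
    rw [if_pos hx, min_eq_left hx]
  have hle : ∀ δ x, τ δ x ≤ N δ := by
    intro δ x
    by_cases hx : x / (M δ + 1) ≤ T δ.1.1
    · rw [hτ2 δ x hx]
      exact (hFb δ _ _ (hmod δ x) hx).trans (Nat.le_add_left _ _)
    · show (if _ then _ else 0) ≤ _
      rw [if_neg hx]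
      exact Nat.zero_le _
  obtain ⟨L, hL, hL2⟩ := lists_exist (k := k) hC hD hA (hN hC hTC) (hN hD hT) hτ hle
  have hcode : ∀ (δ : (Γ × ℕ) × ℕ) (i t : ℕ), i ≤ M δ → t ≤ T δ.1.1 →
      i + (M δ + 1) * t ≤ N δ ∧ τ δ (i + (M δ + 1) * t) = F ((δ.1.1, i), t) := by
    intro δ i t hi ht
    have e1 : (i + (M δ + 1) * t) / (M δ + 1) = t := by
      rw [Nat.add_mul_div_left _ _ (by omega), Nat.div_eq_of_lt (show i < M δ + 1 by omega),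
        Nat.zero_add]
    have e2 : (i + (M δ + 1) * t) % (M δ + 1) = i := by
      rw [Nat.add_mul_mod_self_left, Nat.mod_eq_of_lt (show i < M δ + 1 by omega)]
    constructor
    · have := Nat.mul_le_mul_left (M δ + 1) ht
      show _ ≤ M δ + (M δ + 1) * T δ.1.1 + Bv δ
      omega
    · rw [hτ2 δ _ (by rw [e1]; exact ht), e1, e2]
  have hFN : ∀ (δ : (Γ × ℕ) × ℕ) (i t : ℕ), i ≤ M δ → t ≤ T δ.1.1 →
      F ((δ.1.1, i), t) ≤ N δ := by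
    intro δ i t hi ht
    rw [← (hcode δ i t hi ht).2]
    exact hle _ _
  have eng := engine (k := k) hD (hN hD hT) (τ := τ) (fun δ x _ => hle δ x) hL hL2
    (CkP N M T g p h)
    (by
      rintro δ Q ⟨q1, q2, q3⟩ x hx w hw
      have key : ∀ t, t ≤ T δ.1.1 → ∀ i, i ≤ M δ → ∀ w ≤ N δ,
          (Q (i + (M δ + 1) * t) w ↔ w = F ((δ.1.1, i), t)) := by
        intro t
        induction t with
        | zero =>
          intro _ i hi w hw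
          rw [Nat.mul_zero, Nat.add_zero, h0]
          exact q1 i hi w hw
        | succ t ih =>
          intro ht i hi w hw
          have ht' : t ≤ T δ.1.1 := by omega
          rw [q2 t ht' ht i hi w hw, h1]
          constructor
          · rintro ⟨x, hx, gx, y, hy, gy, hw'⟩
            rw [ih ht' i hi x hx] at gx
            rw [ih ht' _ (hpM δ i t x) y hy] at gy
            rw [hw', gy, gx]
          · intro hw'
            exact ⟨_, hFN δ i t hi ht', (ih ht' i hi _ (hFN δ i t hi ht')).2 rfl, _,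
              hFN δ _ t (hpM δ i t _) ht', (ih ht' _ (hpM δ i t _) _
                (hFN δ _ t (hpM δ i t _) ht')).2 rfl, hw'⟩
      have hx2 : x % (M δ + 1) + (M δ + 1) * (x / (M δ + 1)) = x := Nat.mod_add_div _ _
      by_cases hc : x / (M δ + 1) ≤ T δ.1.1
      · have h3 := key _ hc _ (hmod δ x) w hw
        rw [hx2] at h3
        rw [h3, hτ2 δ x hc]
      · rw [q3 x hx (by omega) w hw]
        show _ ↔ w = if _ then _ else 0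
        rw [if_neg hc])
    (by
      intro δ Q hQ
      have hval : ∀ t i, i ≤ M δ → t ≤ T δ.1.1 → ∀ w ≤ N δ,
          (Q (i + (M δ + 1) * t) w ↔ w = F ((δ.1.1, i), t)) := by
        intro t i hi ht w hw
        have h3 := hcode δ i t hi ht
        rw [hQ _ h3.1 w hw, h3.2]
      refine ⟨?_, ?_, ?_⟩
      · intro i hi w hw
        have h3 := hval 0 i hi (Nat.zero_le _) w hw
        rw [Nat.mul_zero, Nat.add_zero, h0] at h3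
        exact h3
      · intro t ht ht1 i hi w hw
        rw [hval (t + 1) i hi ht1 w hw, h1]
        constructor
        · intro hw'
          exact ⟨_, hFN δ i t hi ht, (hval t i hi ht _ (hFN δ i t hi ht)).2 rfl, _,
            hFN δ _ t (hpM δ i t _) ht, (hval t _ (hpM δ i t _) ht _
              (hFN δ _ t (hpM δ i t _) ht)).2 rfl, hw'⟩
        · rintro ⟨x, hx, gx, y, hy, gy, hw'⟩
          rw [hval t i hi ht x hx] at gx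
          rw [hval t _ (hpM δ i t x) ht y hy] at gy
          rw [hw', gy, gx]
      · intro x hx hxT w hw
        rw [hQ x hx w hw]
        show w = (if _ then _ else 0) ↔ _
        rw [if_neg (by omega)])
    (fun φ hφ Q hQ => ckP_df hD (hN hD hT) (hM hD) hT hg hp hh φ hφ Q hQ)
  have hmt : Fn D (fun δ : (Γ × ℕ) × ℕ => min δ.2 (T δ.1.1)) :=
    (Vr.snd.fn hD).min hD (hT.ren hD h11)
  have fin : Df D (fun q : ((Γ × ℕ) × ℕ) × ℕ =>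
      ((q.1.1.2 + (M q.1 + 1) * min q.1.2 (T q.1.1.1) ≤ N q.1 ∧ q.2 ≤ N q.1) ∧
        q.2 = τ q.1 (q.1.1.2 + (M q.1 + 1) * min q.1.2 (T q.1.1.1)))) := by
    have hi : Fn D (fun q : ((Γ × ℕ) × ℕ) × ℕ => q.1.1.2) := h12.fn hD |>.fst hD
    exact eng.map hD (φ := fun q : ((Γ × ℕ) × ℕ) × ℕ =>
      ((q.1, q.1.1.2 + (M q.1 + 1) * min q.1.2 (T q.1.1.1)), q.2))
      (((Rn.fst.mp hD).pair (hi.add hD ((((hM hD).fst hD).add hD (Fn.nat hD 1)).mul hD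
        (hmt.fst hD)))).pair (Vr.snd.fn hD))
  refine Fn.of_le (g := N) (fin.congr fun q => ?_) (hN hD hT)
    (fun δ => hFN δ δ.1.2 _ (hi0 δ) (min_le_right _ _))
  have h3 := hcode q.1 q.1.1.2 (min q.1.2 (T q.1.1.1)) (hi0 q.1) (min_le_right _ _)
  rw [h3.2]
  constructor
  · intro hq
    have hq' : q.2 = F ((q.1.1.1, q.1.1.2), min q.1.2 (T q.1.1.1)) := hq
    refine ⟨⟨h3.1, ?_⟩, hq'⟩
    rw [hq']
    exact hFN q.1 q.1.1.2 _ (hi0 q.1) (min_le_right _ _)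
  · rintro ⟨_, hq⟩
    exact hq

end Law

end Pool.Agent.TH762.WD
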