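import Pool.Agent.TH762.WD.CfLaw

set_option autoImplicit false

/-!
The languages that are reducible to context-free languages in logarithmic space.
-/

namespace Pool.Agent.TH762.WD

/-- The language is reducible to a context-free language by a map of words that is computed in
logarithmic space (its length and its symbols are functions in `LF`). -/
def RCF {m : ℕ} (L : List (Fin m) → Prop) : Prop :=
  ∃ (m' : ℕ) (L' : List (Fin m') → Prop) (I : List (Fin m) → List (Fin m')),
    IsCF L' ∧ Gm 0 (fun w _ => I w) ∧ ∀ w, L w ↔ L' (I w)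

theorem IsCF.rcf {m : ℕ} {L : List (Fin m) → Prop} (h : IsCF L) : RCF L := by
  refine ⟨m, L, fun w => w, h, ⟨fcl_LF.lenf, ?_⟩, fun w => Iff.rfl⟩
  exact fcl_LF.inpf (fcl_LF.proj 1 0)

/-- The law for the languages that are reducible to context-free languages. -/
theorem law_rcf {D : (m n : ℕ) → Set (List (Fin m) → (Fin n → ℕ) → Prop)} (hF : Fam D) :
    (∀ (m : ℕ) (L : List (Fin m) → Prop), RCF L →
      (fun (w : List (Fin m)) (_ : Fin 0 → ℕ) => L w) ∈ D m 0) ↔ ∃ k, Wrong D k := by
  constructor
  · intro h
    exact (law_cfl hF).1 fun m L hL => h m L hL.rcf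
  · intro h m L hL
    obtain ⟨m', L', I, h1, h2, h3⟩ := hL
    have h4 := hF.sub m m' 0 (fun w _ => I w) h2 _ ((law_cfl hF).2 h m' L' h1)
    have e : (fun (w : List (Fin m)) (_ : Fin 0 → ℕ) => L w) =
        fun (w : List (Fin m)) (_ : Fin 0 → ℕ) => L' (I w) := by
      ext w v
      exact h3 w
    rw [e]
    exact h4

end Pool.Agent.TH762.WD
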