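import Pool.Agent.TH762.WD.NcLaw

set_option autoImplicit false

/-!
Semiunbounded recursions with logarithmically many steps (the class LOGCFL), and their law.
-/

namespace Pool.Agent.TH762.WD

open MvPolynomial
open Pool.Agent.TH762.E2 (dc1 dc2 dc_code Lc bs ls)
open Pool.Agent.TH762.MC (Tn ExL Few world)

section Law

variable {W : Type} [Wd W] {C D : (n : ℕ) → Set (W → (Fin n → ℕ) → Prop)} {Γ Δ : Type}
  [Cx W Γ] [Cx W Δ] {k n : ℕ}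

/-- The check. -/
def CkS (N M : (Γ × ℕ) × ℕ → ℕ) (T β : Γ → ℕ) (a : Γ × ℕ → ℕ) (p q : ((Γ × ℕ) × ℕ) × ℕ → ℕ)
    (δ : (Γ × ℕ) × ℕ) (Q : ℕ → ℕ → Prop) : Prop :=
  (∀ g ≤ N δ, ∀ w ≤ N δ, Q g w → w ≤ 1) ∧ (∀ g ≤ N δ, (Q g 0 ↔ ¬ Q g 1)) ∧
  (∀ i ≤ M δ, (Q i 1 ↔ 1 ≤ a (δ.1.1, i))) ∧
  (∀ t ≤ T δ.1.1, t + 1 ≤ T δ.1.1 → ∀ i ≤ M δ, (Q (i + (M δ + 1) * (t + 1)) 1 ↔
    ∃ j ≤ β δ.1.1, Q (p (((δ.1.1, i), j), t) + (M δ + 1) * t) 1 ∧
      Q (q (((δ.1.1, i), j), t) + (M δ + 1) * t) 1)) ∧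
  ∀ x ≤ N δ, T δ.1.1 < x / (M δ + 1) → ¬ Q x 1

theorem ckS_df (hD : Clo D) {N M : (Γ × ℕ) × ℕ → ℕ} {T β : Γ → ℕ} {a : Γ × ℕ → ℕ}
    {p q : ((Γ × ℕ) × ℕ) × ℕ → ℕ} (hN : Fn D N) (hM : Fn D M) (hT : Fn D T) (hβ : Fn D β)
    (ha : Fn D a) (hp : Fn D p) (hq : Fn D q)
    (φ : Δ → (Γ × ℕ) × ℕ) (hφ : Rn φ) (Q : (Δ × ℕ) × ℕ → Prop) (hQ : Df D Q) :
    Df D (fun δ => CkS N M T β a p q (φ δ) (fun x w => Q ((δ, x), w))) := by
  have hM' : Fn D (fun δ => M (φ δ)) := hM.ren hD hφ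
  have hN' : Fn D (fun δ => N (φ δ)) := hN.ren hD hφ
  have hγ : Rn (fun δ => (φ δ).1.1) := hφ.comp (Rn.fst.comp Rn.fst)
  have hT' : Fn D (fun δ => T (φ δ).1.1) := hT.ren hD hγ
  have hβ' : Fn D (fun δ => β (φ δ).1.1) := hβ.ren hD hγ
  refine Df.and hD ?_ (Df.and hD ?_ (Df.and hD ?_ (Df.and hD ?_ ?_)))
  · refine Df.all hD (P := fun u : Δ × ℕ => ∀ w ≤ N (φ u.1), Q ((u.1, u.2), w) → w ≤ 1) ?_ hN'
    refine Df.all hD (P := fun r : (Δ × ℕ) × ℕ => Q ((r.1.1, r.1.2), r.2) → r.2 ≤ 1) ?_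
      (hN'.fst hD)
    exact Df.imp hD hQ (Df.lef hD (Vr.snd.fn hD) (Fn.nat hD 1))
  · refine Df.all hD (P := fun u : Δ × ℕ => (Q ((u.1, u.2), 0) ↔ ¬ Q ((u.1, u.2), 1))) ?_ hN'
    exact Df.iff hD (hQ.sub hD (Fn.nat hD 0)) ((hQ.sub hD (Fn.nat hD 1)).not hD)
  · refine Df.all hD (P := fun u : Δ × ℕ => (Q ((u.1, u.2), 1) ↔ 1 ≤ a ((φ u.1).1.1, u.2))) ?_
      hM'
    refine Df.iff hD (hQ.sub hD (Fn.nat hD 1)) (Df.lef hD (Fn.nat hD 1) ?_)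
    exact ha.ren hD (φ := fun u : Δ × ℕ => ((φ u.1).1.1, u.2))
      ((Rn.fst.comp hγ).pair Vr.snd)
  · refine Df.all hD (P := fun u : Δ × ℕ => u.2 + 1 ≤ T (φ u.1).1.1 → ∀ i ≤ M (φ u.1),
      (Q ((u.1, i + (M (φ u.1) + 1) * (u.2 + 1)), 1) ↔
        ∃ j ≤ β (φ u.1).1.1,
          Q ((u.1, p ((((φ u.1).1.1, i), j), u.2) + (M (φ u.1) + 1) * u.2), 1) ∧
          Q ((u.1, q ((((φ u.1).1.1, i), j), u.2) + (M (φ u.1) + 1) * u.2), 1))) ?_ hT'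
    refine Df.imp hD (Df.lef hD ((Vr.snd.fn hD).add hD (Fn.nat hD 1)) (hT'.fst hD)) ?_
    refine Df.all hD (P := fun r : (Δ × ℕ) × ℕ =>
      (Q ((r.1.1, r.2 + (M (φ r.1.1) + 1) * (r.1.2 + 1)), 1) ↔
        ∃ j ≤ β (φ r.1.1).1.1,
          Q ((r.1.1, p ((((φ r.1.1).1.1, r.2), j), r.1.2) + (M (φ r.1.1) + 1) * r.1.2), 1) ∧
          Q ((r.1.1, q ((((φ r.1.1).1.1, r.2), j), r.1.2) + (M (φ r.1.1) + 1) * r.1.2), 1))) ?_
      (hM'.fst hD)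
    have h11 : Rn (fun q : (Δ × ℕ) × ℕ => q.1.1) := Rn.fst.comp Rn.fst
    have ht : Fn D (fun q : (Δ × ℕ) × ℕ => q.1.2) := (Vr.snd.ren Rn.fst).fn hD
    have hM2 : Fn D (fun q : (Δ × ℕ) × ℕ => M (φ q.1.1) + 1) :=
      (hM'.ren hD h11).add hD (Fn.nat hD 1)
    refine Df.iff hD ?_ ?_
    · exact hQ.map hD (φ := fun r : (Δ × ℕ) × ℕ =>
        ((r.1.1, r.2 + (M (φ r.1.1) + 1) * (r.1.2 + 1)), 1))
        (((h11.mp hD).pair ((Vr.snd.fn hD).add hD (hM2.mul hD (ht.add hD (Fn.nat hD 1))))).pair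
          (Fn.nat hD 1))
    · refine Df.ex hD (P := fun s : ((Δ × ℕ) × ℕ) × ℕ =>
        Q ((s.1.1.1, p ((((φ s.1.1.1).1.1, s.1.2), s.2), s.1.1.2) +
          (M (φ s.1.1.1) + 1) * s.1.1.2), 1) ∧
        Q ((s.1.1.1, q ((((φ s.1.1.1).1.1, s.1.2), s.2), s.1.1.2) +
          (M (φ s.1.1.1) + 1) * s.1.1.2), 1)) ?_ (hβ'.ren hD h11)
      have s111 : Rn (fun r : ((Δ × ℕ) × ℕ) × ℕ => r.1.1.1) := Rn.fst.comp h11
      have key : ∀ f : ((Γ × ℕ) × ℕ) × ℕ → ℕ, Fn D f →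
          Df D (fun s : ((Δ × ℕ) × ℕ) × ℕ =>
            Q ((s.1.1.1, f ((((φ s.1.1.1).1.1, s.1.2), s.2), s.1.1.2) +
              (M (φ s.1.1.1) + 1) * s.1.1.2), 1)) := by
        intro f hf
        have hf' := hf.ren hD (φ := fun s : ((Δ × ℕ) × ℕ) × ℕ =>
          ((((φ s.1.1.1).1.1, s.1.2), s.2), s.1.1.2))
          ((((s111.comp hγ).pair (Vr.snd.ren Rn.fst)).pair Vr.snd).pair
            (Vr.snd.ren (Rn.fst.comp Rn.fst)))
        exact hQ.map hD (φ := fun s : ((Δ × ℕ) × ℕ) × ℕ =>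
          ((s.1.1.1, f ((((φ s.1.1.1).1.1, s.1.2), s.2), s.1.1.2) +
            (M (φ s.1.1.1) + 1) * s.1.1.2), 1))
          (((s111.mp hD).pair (hf'.add hD ((hM2.fst hD).mul hD (ht.fst hD)))).pair
            (Fn.nat hD 1))
      exact Df.and hD (key p hp) (key q hq)
  · refine Df.all hD (P := fun u : Δ × ℕ =>
      T (φ u.1).1.1 < u.2 / (M (φ u.1) + 1) → ¬ Q ((u.1, u.2), 1)) ?_ hN'
    exact Df.imp hD (Df.ltf hD (hT'.fst hD) ((Vr.snd.fn hD).div hD (hM'.fst hD)))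
      ((hQ.sub hD (Fn.nat hD 1)).not hD)

/-- Functions defined by semiunbounded recursions are definable in `D` if few-valued functions of
`C` can be avoided by functions of `D`. -/
theorem sac_law (hC : Clo C) (hD : Clo D) (hA : ∀ n, Av C D (Bs W n) k)
    {F : (Γ × ℕ) × ℕ → ℕ} {T β : Γ → ℕ} {a : Γ × ℕ → ℕ} {p q : ((Γ × ℕ) × ℕ) × ℕ → ℕ}
    (hF : Fn C (fun δ : (Γ × ℕ) × ℕ => F ((δ.1.1, δ.1.2), min δ.2 (T δ.1.1))))
    (hTC : Fn C T) (hT : Fn D T) (hβ : Fn D β) (ha : Fn D a) (hp : Fn D p) (hq : Fn D q)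
    (hpb : ∀ δ, p δ ≤ β δ.1.1.1) (hqb : ∀ δ, q δ ≤ β δ.1.1.1)
    (hF1 : ∀ δ, F δ ≤ 1)
    (h0 : ∀ γ i, F ((γ, i), 0) = min (a (γ, i)) 1)
    (h1 : ∀ γ i t, F ((γ, i), t + 1) = 1 ↔ ∃ j ≤ β γ,
      F ((γ, p (((γ, i), j), t)), t) = 1 ∧ F ((γ, q (((γ, i), j), t)), t) = 1) :
    Fn D (fun δ : (Γ × ℕ) × ℕ => F ((δ.1.1, δ.1.2), min δ.2 (T δ.1.1))) := by
  classical
  obtain ⟨P, hP⟩ := hβ.2
  have h11 : Rn (fun δ : (Γ × ℕ) × ℕ => δ.1.1) := Rn.fst.comp Rn.fst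
  have h12 : Vr (fun δ : (Γ × ℕ) × ℕ => δ.1.2) := Vr.snd.ren Rn.fst
  let M : (Γ × ℕ) × ℕ → ℕ := fun δ => δ.1.2 + eval (yv (Cx.o δ.1.1) (Cx.x δ.1.1)) P
  have hM : ∀ {E : (n : ℕ) → Set (W → (Fin n → ℕ) → Prop)}, Clo E → Fn E M := fun hE =>
    (h12.fn hE).add hE ((Fn.poly (Γ := Γ) hE P).map hE
      (φ := fun δ : (Γ × ℕ) × ℕ => δ.1.1) (h11.mp hE))
  let N : (Γ × ℕ) × ℕ → ℕ := fun δ => M δ + (M δ + 1) * T δ.1.1 + 1
  have hN : ∀ {E : (n : ℕ) → Set (W → (Fin n → ℕ) → Prop)}, Clo E → Fn E T → Fn E N :=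
    fun hE hTE => ((hM hE).add hE (((hM hE).add hE (Fn.nat hE 1)).mul hE
      (hTE.ren hE h11))).add hE (Fn.nat hE 1)
  let τ : (Γ × ℕ) × ℕ → ℕ → ℕ := fun δ x =>
    if x / (M δ + 1) ≤ T δ.1.1 then
      F ((δ.1.1, x % (M δ + 1)), min (x / (M δ + 1)) (T δ.1.1)) else 0
  have hτ : Fn C (fun p : ((Γ × ℕ) × ℕ) × ℕ => τ p.1 p.2) := by
    have hT' := (hM hC).fst hC
    have hx : Fn C (fun p : ((Γ × ℕ) × ℕ) × ℕ => p.2) := Vr.snd.fn hC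
    refine Fn.ite hC (Df.lef hC (hx.div hC hT') (hTC.ren hC (Rn.fst.comp h11))) ?_
      (Fn.nat hC 0)
    exact hF.map hC (φ := fun p : ((Γ × ℕ) × ℕ) × ℕ =>
      ((p.1.1.1, p.2 % (M p.1 + 1)), p.2 / (M p.1 + 1)))
      ((((Rn.fst.comp h11).mp hC).pair (hx.mod hC hT')).pair (hx.div hC hT'))
  have hpq : ∀ (δ : (Γ × ℕ) × ℕ) (i j t : ℕ),
      p (((δ.1.1, i), j), t) ≤ M δ ∧ q (((δ.1.1, i), j), t) ≤ M δ := by
    intro δ i j t
    have h3 := hP δ.1.1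
    have h4 : p (((δ.1.1, i), j), t) ≤ β δ.1.1 := hpb _
    have h5 : q (((δ.1.1, i), j), t) ≤ β δ.1.1 := hqb _
    show p (((δ.1.1, i), j), t) ≤ δ.1.2 + eval (yv (Cx.o δ.1.1) (Cx.x δ.1.1)) P ∧
      q (((δ.1.1, i), j), t) ≤ δ.1.2 + eval (yv (Cx.o δ.1.1) (Cx.x δ.1.1)) P
    omega
  have hi0 : ∀ δ : (Γ × ℕ) × ℕ, δ.1.2 ≤ M δ := fun δ => Nat.le_add_right _ _
  have hmod : ∀ (δ : (Γ × ℕ) × ℕ) (x : ℕ), x % (M δ + 1) ≤ M δ := by
    intro δ x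
    have := Nat.mod_lt x (show 0 < M δ + 1 by omega)
    omega
  have hτ2 : ∀ δ x, x / (M δ + 1) ≤ T δ.1.1 →
      τ δ x = F ((δ.1.1, x % (M δ + 1)), x / (M δ + 1)) := by
    intro δ x hx
    show (if _ then _ else 0) = _
    rw [if_pos hx, min_eq_left hx]
  have hτ3 : ∀ δ x, ¬ x / (M δ + 1) ≤ T δ.1.1 → τ δ x = 0 := by
    intro δ x hx
    show (if _ then _ else 0) = _
    rw [if_neg hx]
  have hτ1 : ∀ δ x, τ δ x ≤ 1 := by
    intro δ x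
    by_cases hx : x / (M δ + 1) ≤ T δ.1.1
    · rw [hτ2 δ x hx]
      exact hF1 _
    · rw [hτ3 δ x hx]
      exact Nat.zero_le _
  have hN1 : ∀ δ, 1 ≤ N δ := fun δ => Nat.le_add_left _ _
  have hle : ∀ δ x, τ δ x ≤ N δ := fun δ x => (hτ1 δ x).trans (hN1 δ)
  obtain ⟨L, hL, hL2⟩ := lists_exist (k := k) hC hD hA (hN hC hTC) (hN hD hT) hτ hle
  have hcode : ∀ (δ : (Γ × ℕ) × ℕ) (i t : ℕ), i ≤ M δ → t ≤ T δ.1.1 →
      i + (M δ + 1) * t ≤ N δ ∧ τ δ (i + (M δ + 1) * t) = F ((δ.1.1, i), t) := by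
    intro δ i t hi ht
    have e1 : (i + (M δ + 1) * t) / (M δ + 1) = t := by
      rw [Nat.add_mul_div_left _ _ (by omega), Nat.div_eq_of_lt (show i < M δ + 1 by omega),
        Nat.zero_add]
    have e2 : (i + (M δ + 1) * t) % (M δ + 1) = i := by
      rw [Nat.add_mul_mod_self_left, Nat.mod_eq_of_lt (show i < M δ + 1 by omega)]
    constructor
    · have := Nat.mul_le_mul_left (M δ + 1) ht
      show _ ≤ M δ + (M δ + 1) * T δ.1.1 + 1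
      omega
    · rw [hτ2 δ _ (by rw [e1]; exact ht), e1, e2]
  have eng := engine (k := k) hD (hN hD hT) (τ := τ) (fun δ x _ => hle δ x) hL hL2
    (CkS N M T β a p q)
    (by
      rintro δ Q ⟨q1, q2, q3, q4, q5⟩ x hx w hw
      have key : ∀ t, t ≤ T δ.1.1 → ∀ i, i ≤ M δ →
          (Q (i + (M δ + 1) * t) 1 ↔ F ((δ.1.1, i), t) = 1) := by
        intro t
        induction t with
        | zero =>
          intro _ i hi
          rw [Nat.mul_zero, Nat.add_zero, h0, q3 i hi]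
          omega
        | succ t ih =>
          intro ht i hi
          have ht' : t ≤ T δ.1.1 := by omega
          rw [q4 t ht' ht i hi, h1]
          refine exists_congr fun j => and_congr_right fun _ => ?_
          have hpq' := hpq δ i j t
          rw [ih ht' _ hpq'.1, ih ht' _ hpq'.2]
      have hx2 : x % (M δ + 1) + (M δ + 1) * (x / (M δ + 1)) = x := Nat.mod_add_div _ _
      have h4 : Q x 1 ↔ τ δ x = 1 := by
        by_cases hc : x / (M δ + 1) ≤ T δ.1.1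
        · have h3 := key _ hc _ (hmod δ x)
          rw [hx2] at h3
          rw [h3, hτ2 δ x hc]
        · rw [hτ3 δ x hc]
          exact ⟨fun h5 => absurd h5 (q5 x hx (by omega)), fun h5 => by omega⟩
      have h6 := hτ1 δ x
      constructor
      · intro hQ
        have h5 := q1 x hx w hw hQ
        rcases Nat.lt_or_ge w 1 with h7 | h7
        · have h8 : w = 0 := by omega
          rw [h8] at hQ
          have h9 : ¬ τ δ x = 1 := fun h9 => (q2 x hx).1 hQ (h4.2 h9)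
          omega
        · have h8 : w = 1 := by omega
          rw [h8] at hQ
          rw [h8]
          exact (h4.1 hQ).symm
      · intro h5
        rw [h5]
        by_cases h7 : τ δ x = 1
        · rw [h7]
          exact h4.2 h7
        · have h8 : τ δ x = 0 := by omega
          rw [h8]
          exact (q2 x hx).2 fun h9 => h7 (h4.1 h9))
    (by
      intro δ Q hQ
      have hval : ∀ t i, i ≤ M δ → t ≤ T δ.1.1 →
          (Q (i + (M δ + 1) * t) 1 ↔ F ((δ.1.1, i), t) = 1) := by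
        intro t i hi ht
        have h3 := hcode δ i t hi ht
        rw [hQ _ h3.1 1 (hN1 δ), h3.2, eq_comm]
      refine ⟨?_, ?_, ?_, ?_, ?_⟩
      · intro x hx w hw hQ'
        rw [(hQ x hx w hw).1 hQ']
        exact hτ1 δ x
      · intro x hx
        have h3 := hτ1 δ x
        rw [hQ x hx 0 (Nat.zero_le _), hQ x hx 1 (hN1 δ)]
        omega
      · intro i hi
        have h3 := hval 0 i hi (Nat.zero_le _)
        rw [Nat.mul_zero, Nat.add_zero, h0] at h3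
        rw [h3]
        omega
      · intro t ht ht1 i hi
        rw [hval (t + 1) i hi ht1, h1]
        refine exists_congr fun j => and_congr_right fun _ => ?_
        have hpq' := hpq δ i j t
        rw [hval t _ hpq'.1 ht, hval t _ hpq'.2 ht]
      · intro x hx hxT
        rw [hQ x hx 1 (hN1 δ), hτ3 δ x (by omega)]
        omega)
    (fun φ hφ Q hQ => ckS_df hD (hN hD hT) (hM hD) hT hβ ha hp hq φ hφ Q hQ)
  have hmt : Fn D (fun δ : (Γ × ℕ) × ℕ => min δ.2 (T δ.1.1)) :=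
    (Vr.snd.fn hD).min hD (hT.ren hD h11)
  have fin : Df D (fun q : ((Γ × ℕ) × ℕ) × ℕ =>
      ((q.1.1.2 + (M q.1 + 1) * min q.1.2 (T q.1.1.1) ≤ N q.1 ∧ q.2 ≤ N q.1) ∧
        q.2 = τ q.1 (q.1.1.2 + (M q.1 + 1) * min q.1.2 (T q.1.1.1)))) := by
    have hi : Fn D (fun q : ((Γ × ℕ) × ℕ) × ℕ => q.1.1.2) := h12.fn hD |>.fst hD
    exact eng.map hD (φ := fun q : ((Γ × ℕ) × ℕ) × ℕ =>
      ((q.1, q.1.1.2 + (M q.1 + 1) * min q.1.2 (T q.1.1.1)), q.2))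
      (((Rn.fst.mp hD).pair (hi.add hD ((((hM hD).fst hD).add hD (Fn.nat hD 1)).mul hD
        (hmt.fst hD)))).pair (Vr.snd.fn hD))
  refine Fn.of_le (g := fun _ => 1) (fin.congr fun q => ?_) (Fn.nat hD 1) (fun δ => hF1 _)
  have h3 := hcode q.1 q.1.1.2 (min q.1.2 (T q.1.1.1)) (hi0 q.1) (min_le_right _ _)
  rw [h3.2]
  constructor
  · intro hq
    have hq' : q.2 = F ((q.1.1.1, q.1.1.2), min q.1.2 (T q.1.1.1)) := hq
    refine ⟨⟨h3.1, ?_⟩, hq'⟩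
    rw [hq']
    exact (hF1 _).trans (hN1 _)
  · rintro ⟨_, hq⟩
    exact hq

end Law

end Pool.Agent.TH762.WD
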