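import Pool.Agent.TH762.WD.Sac

set_option autoImplicit false

/-!
The class LOGCFL and its law.
-/

namespace Pool.Agent.TH762.WD

open MvPolynomial

variable {W : Type} [Wi W]

/-- Closure under semiunbounded recursion with logarithmically many steps: the bit `F w (t, i, v)`
says that `i` can be derived in `t` steps; in a derivation step `i` is derived from the two places
`p w (t, j, i, v)` and `q w (t, j, i, v)` (up to `β w v`) for some `j` up to `β w v`; at the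
beginning the places `i` with `a w (i, v) > 0` are derived, and the number of steps is at most
`T w v`, where `2 ^ T w v` is bounded by a function of the class. -/
def SacCl (S : (n : ℕ) → (W → (Fin n → ℕ) → ℕ) → Prop) : Prop :=
  ∀ (n : ℕ) (a : W → (Fin (n + 1) → ℕ) → ℕ) (p q : W → (Fin (n + 3) → ℕ) → ℕ)
    (β T B : W → (Fin n → ℕ) → ℕ) (F : W → (Fin (n + 2) → ℕ) → ℕ),
    S (n + 1) a → S (n + 3) p → S (n + 3) q → S n β → S n T → S n B →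
    (∀ w v, 2 ^ T w v ≤ B w v) →
    (∀ w u, F w u ≤ 1) →
    (∀ w (v : Fin n → ℕ) (t j i : ℕ),
      p w (Matrix.vecCons t (Matrix.vecCons j (Matrix.vecCons i v))) ≤ β w v) →
    (∀ w (v : Fin n → ℕ) (t j i : ℕ),
      q w (Matrix.vecCons t (Matrix.vecCons j (Matrix.vecCons i v))) ≤ β w v) →
    (∀ w (v : Fin n → ℕ) (i : ℕ),
      F w (Matrix.vecCons 0 (Matrix.vecCons i v)) = min (a w (Matrix.vecCons i v)) 1) →
    (∀ w (v : Fin n → ℕ) (t i : ℕ),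
      F w (Matrix.vecCons (t + 1) (Matrix.vecCons i v)) = 1 ↔ ∃ j ≤ β w v,
        F w (Matrix.vecCons t (Matrix.vecCons
          (p w (Matrix.vecCons t (Matrix.vecCons j (Matrix.vecCons i v)))) v)) = 1 ∧
        F w (Matrix.vecCons t (Matrix.vecCons
          (q w (Matrix.vecCons t (Matrix.vecCons j (Matrix.vecCons i v)))) v)) = 1) →
    S (n + 2) (fun w u => F w (Matrix.vecCons
      (min (u 0) (T w (Fin.tail (Fin.tail u)))) (Fin.tail u)))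

/-- The smallest class of functions closed under composition, limited recursion and semiunbounded
recursion with logarithmically many steps. -/
def SF (n : ℕ) (f : W → (Fin n → ℕ) → ℕ) : Prop :=
  ∀ S : (n : ℕ) → (W → (Fin n → ℕ) → ℕ) → Prop, FCl S → SacCl S → S n f

theorem fcl_SF : FCl (SF (W := W)) where
  zero n := fun _ hS _ => hS.zero n
  suc := fun _ hS _ => hS.suc
  proj n i := fun _ hS _ => hS.proj n i
  mul := fun _ hS _ => hS.mul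
  len := fun _ hS _ => hS.len
  inp := fun _ hS _ => hS.inp
  comp n m g hs hg hh := fun S hS hT => hS.comp n m g hs (hg S hS hT) fun i => hh i S hS hT
  lrec n g h b F hg hh hb e1 e2 e3 := fun S hS hT =>
    hS.lrec n g h b F (hg S hS hT) (hh S hS hT) (hb S hS hT) e1 e2 e3

theorem sac_SF : SacCl (SF (W := W)) := by
  intro n a p q β T B F ha hp hq hβ hT hB e1 e2 e3 e4 e5 e6 S hS hN
  exact hN n a p q β T B F (ha S hS hN) (hp S hS hN) (hq S hS hN) (hβ S hS hN) (hT S hS hN)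
    (hB S hS hN) e1 e2 e3 e4 e5 e6

theorem sac_Pb : SacCl (Pb (W := W)) := by
  intro n a p q β T B F _ _ _ _ _ _ _ e2 _ _ _ _
  refine ⟨1, fun w u => ?_⟩
  rw [map_one]
  exact e2 w _

variable {C D : (n : ℕ) → Set (W → (Fin n → ℕ) → Prop)} {k n : ℕ}

theorem SF.bound {f : W → (Fin n → ℕ) → ℕ} (hf : SF n f) : Pb n f := hf _ fcl_Pb sac_Pb

theorem sacrec_law {S : (n : ℕ) → (W → (Fin n → ℕ) → ℕ) → Prop} (hS : FCl S) (hN : SacCl S)
    (hSb : ∀ (n : ℕ) (f : W → (Fin n → ℕ) → ℕ), S n f → Pb n f)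
    (hD : Clo D) (hA : ∀ n, Av (Pd S) D (Bs W n) k) {n : ℕ}
    {a : W → (Fin (n + 1) → ℕ) → ℕ} {p q : W → (Fin (n + 3) → ℕ) → ℕ}
    {β T B : W → (Fin n → ℕ) → ℕ} {F : W → (Fin (n + 2) → ℕ) → ℕ}
    (ha : S (n + 1) a) (hp : S (n + 3) p) (hq : S (n + 3) q) (hβ : S n β) (hT : S n T)
    (hB : S n B)
    (da : Fn D (fun r : Bs W (n + 1) => a r.w r.v)) (dp : Fn D (fun r : Bs W (n + 3) => p r.w r.v))
    (dq : Fn D (fun r : Bs W (n + 3) => q r.w r.v))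
    (dβ : Fn D (fun r : Bs W n => β r.w r.v)) (dT : Fn D (fun r : Bs W n => T r.w r.v))
    (e1 : ∀ w v, 2 ^ T w v ≤ B w v)
    (e2 : ∀ w u, F w u ≤ 1)
    (e3 : ∀ w (v : Fin n → ℕ) (t j i : ℕ),
      p w (Matrix.vecCons t (Matrix.vecCons j (Matrix.vecCons i v))) ≤ β w v)
    (e4 : ∀ w (v : Fin n → ℕ) (t j i : ℕ),
      q w (Matrix.vecCons t (Matrix.vecCons j (Matrix.vecCons i v))) ≤ β w v)
    (e5 : ∀ w (v : Fin n → ℕ) (i : ℕ),
      F w (Matrix.vecCons 0 (Matrix.vecCons i v)) = min (a w (Matrix.vecCons i v)) 1)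
    (e6 : ∀ w (v : Fin n → ℕ) (t i : ℕ),
      F w (Matrix.vecCons (t + 1) (Matrix.vecCons i v)) = 1 ↔ ∃ j ≤ β w v,
        F w (Matrix.vecCons t (Matrix.vecCons
          (p w (Matrix.vecCons t (Matrix.vecCons j (Matrix.vecCons i v)))) v)) = 1 ∧
        F w (Matrix.vecCons t (Matrix.vecCons
          (q w (Matrix.vecCons t (Matrix.vecCons j (Matrix.vecCons i v)))) v)) = 1) :
    Fn D (fun r : Bs W (n + 2) => F r.w (Matrix.vecCons
      (min (r.v 0) (T r.w (Fin.tail (Fin.tail r.v)))) (Fin.tail r.v))) := by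
  have hC : Clo (Pd S) := clo_Pd hS
  have h1 := hN n a p q β T B F ha hp hq hβ hT hB e1 e2 e3 e4 e5 e6
  obtain ⟨P, hP⟩ := hSb _ _ h1
  have h2 := fn_of_S hS h1 hP
  have h3 : Fn (Pd S) (fun δ : (Bs W n × ℕ) × ℕ => F δ.1.1.w
      (Matrix.vecCons (min δ.2 (T δ.1.1.w δ.1.1.v)) (Matrix.vecCons δ.1.2 δ.1.1.v))) :=
    h2.ren hC (φ := fun δ : (Bs W n × ℕ) × ℕ =>
      (⟨δ.1.1.w, Matrix.vecCons δ.2 (Matrix.vecCons δ.1.2 δ.1.1.v)⟩ : Bs W (n + 2)))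
      ⟨fun _ => rfl, fun i => ⟨i, fun _ => rfl⟩⟩
  obtain ⟨PT, hPT⟩ := hSb _ _ hT
  have hTC : Fn (Pd S) (fun γ : Bs W n => T γ.w γ.v) := fn_of_S hS hT hPT
  have la : Fn D (fun r : Bs W n × ℕ => a r.1.w (Matrix.vecCons r.2 r.1.v)) :=
    da.ren hD (φ := fun r : Bs W n × ℕ =>
      (⟨r.1.w, Matrix.vecCons r.2 r.1.v⟩ : Bs W (n + 1)))
      ⟨fun _ => rfl, fun i => ⟨i, fun _ => rfl⟩⟩
  have l3 : ∀ (f : W → (Fin (n + 3) → ℕ) → ℕ), Fn D (fun r : Bs W (n + 3) => f r.w r.v) →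
      Fn D (fun r : ((Bs W n × ℕ) × ℕ) × ℕ => f r.1.1.1.w
        (Matrix.vecCons r.2 (Matrix.vecCons r.1.2 (Matrix.vecCons r.1.1.2 r.1.1.1.v)))) :=
    fun f hf => hf.ren hD (φ := fun r : ((Bs W n × ℕ) × ℕ) × ℕ =>
      (⟨r.1.1.1.w, Matrix.vecCons r.2 (Matrix.vecCons r.1.2 (Matrix.vecCons r.1.1.2 r.1.1.1.v))⟩ :
        Bs W (n + 3)))
      ⟨fun _ => rfl, fun i => ⟨i, fun _ => rfl⟩⟩
  have h5 := sac_law (Γ := Bs W n) (F := fun δ : (Bs W n × ℕ) × ℕ =>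
      F δ.1.1.w (Matrix.vecCons δ.2 (Matrix.vecCons δ.1.2 δ.1.1.v)))
    (β := fun γ => β γ.w γ.v) (T := fun γ => T γ.w γ.v)
    hC hD hA h3 hTC dT dβ la (l3 p dp) (l3 q dq)
    (fun δ => e3 δ.1.1.1.w δ.1.1.1.v δ.2 δ.1.2 δ.1.1.2)
    (fun δ => e4 δ.1.1.1.w δ.1.1.1.v δ.2 δ.1.2 δ.1.1.2)
    (fun δ => e2 _ _) (fun γ i => e5 γ.w γ.v i) (fun γ i t => e6 γ.w γ.v t i)
  have h6 := h5.ren hD (φ := fun r : Bs W (n + 2) =>
    ((((⟨r.w, Fin.tail (Fin.tail r.v)⟩ : Bs W n), r.v 1), r.v 0) : (Bs W n × ℕ) × ℕ))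
    ⟨fun _ => rfl, by
      intro i
      change Fin (n + 2) at i
      refine Fin.cases ?_ (fun i => ?_) i
      · exact ⟨(0 : Fin (n + 2)), fun _ => rfl⟩
      · refine Fin.cases ?_ (fun i => ?_) i
        · exact ⟨(1 : Fin (n + 2)), fun _ => rfl⟩
        · exact ⟨(i.succ.succ : Fin (n + 2)), fun _ => rfl⟩⟩
  refine h6.congr fun r => ?_
  show F r.w (Matrix.vecCons (min (r.v 0) (T r.w (Fin.tail (Fin.tail r.v)))) (Fin.tail r.v)) =
    F r.w (Matrix.vecCons (min (r.v 0) (T r.w (Fin.tail (Fin.tail r.v))))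
      (Matrix.vecCons (r.v 1) (Fin.tail (Fin.tail r.v))))
  congr 2
  ext i
  refine Fin.cases ?_ (fun i => ?_) i
  · rfl
  · rfl

theorem fnS_closed (hD : Clo D) (hI : Fn D (fun p : Bs W 1 => Wi.inp p.w (p.v 0)))
    (hA : Av (Pd SF) D (Bs W 1) k) {f : W → (Fin n → ℕ) → ℕ} (hf : SF n f) :
    SF n f ∧ Fn D (fun p : Bs W n => f p.w p.v) := by
  have hS := fcl_SF (W := W)
  have hC : Clo (Pd (SF (W := W))) := clo_Pd hS
  have hA' := av_all hC hD hA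
  have hcl : FCl (fun (n : ℕ) (f : W → (Fin n → ℕ) → ℕ) =>
      SF n f ∧ Fn D (fun p : Bs W n => f p.w p.v)) := {
    zero := fun n => ⟨hS.zero n, Fn.nat hD 0⟩
    suc := ⟨hS.suc, ((Vr.fin 0).fn hD).add hD (Fn.nat hD 1)⟩
    proj := fun n i => ⟨hS.proj n i, (Vr.fin i).fn hD⟩
    mul := ⟨hS.mul, (((Vr.fin 0).fn hD).add hD (Fn.nat hD 1)).mul hD
      (((Vr.fin 1).fn hD).add hD (Fn.nat hD 1))⟩
    len := ⟨hS.len, Fn.len hD⟩
    inp := ⟨hS.inp, hI⟩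
    comp := by
      rintro n m g hs ⟨hg, hg'⟩ hh
      exact ⟨hS.comp n m g hs hg fun i => (hh i).1, hg'.map hD
        (φ := fun (p : Bs W n) => (⟨p.w, fun i => hs i p.w p.v⟩ : Bs W m))
        ⟨fun _ => rfl, fun i => (hh i).2⟩⟩
    lrec := by
      rintro n g h b F ⟨hg, hg'⟩ ⟨hh, hh'⟩ ⟨hb, _⟩ h1 h2 h3
      have hF : SF (n + 1) F := hS.lrec n g h b F hg hh hb h1 h2 h3
      obtain ⟨B, hB⟩ := hF.bound
      exact ⟨hF, lrec_law hC hD hA' hg' hh' (fn_of_S hS hF hB) h2 h3⟩ }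
  refine hf _ hcl ?_
  rintro n a p q β T B F ⟨ha, da⟩ ⟨hp, dp⟩ ⟨hq, dq⟩ ⟨hβ, dβ⟩ ⟨hT, dT⟩ ⟨hB, _⟩ e1 e2 e3 e4 e5 e6
  exact ⟨sac_SF n a p q β T B F ha hp hq hβ hT hB e1 e2 e3 e4 e5 e6,
    sacrec_law hS sac_SF (fun _ _ h => SF.bound h) hD hA' ha hp hq hβ hT hB da dp dq dβ dT
      e1 e2 e3 e4 e5 e6⟩

/-- The law for LOGCFL. -/
theorem law_SF (hD : Clo D) (hI : Fn D (fun p : Bs W 1 => Wi.inp p.w (p.v 0))) :
    (∀ (n : ℕ) (R : W → (Fin n → ℕ) → Prop), R ∈ Pd SF n → R ∈ D n) ↔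
      ∃ k : ℕ, Avoid SF D k := by
  constructor
  · intro h
    have hS := fcl_SF (W := W)
    refine ⟨1, fun f hf hk => ⟨fun w v => 1 - f w v, fun w v => ?_, fun c => ?_⟩⟩
    · have := hk w v
      constructor <;> (beta_reduce; omega)
    · have h1 : SF 1 (fun w v => 1 - f w v) := hS.subf (hS.constf 1) hf
      exact h _ _ (Pd.of_zero hS (hS.addf (hS.subf h1 (hS.constf c))
        (hS.subf (hS.constf c) h1)) fun w v => by
          show 1 - f w v = c ↔ 1 - f w v - c + (c - (1 - f w v)) = 0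
          omega)
  · rintro ⟨k, h⟩ n R hR
    obtain ⟨f, hf, _, h'⟩ := Pd.zero hR
    refine mem_of_df ((Df.eqf hD (fnS_closed hD hI (av_of_avoid fcl_SF hD h) hf).2
      (Fn.nat hD 0)).congr fun p => h' p.w p.v)

end Pool.Agent.TH762.WD
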