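import Pool.Agent.TH762.WD.Subst
import Pool.Agent.TH762.WD.Gram
import Pool.Agent.TH762.WD.Word

set_option autoImplicit false

/-!
Subwords, and the words which code lists of subwords.
-/

namespace Pool.Agent.TH762.WD

open MvPolynomial

variable {m : ℕ}

/-- The subword from `i` to `j`. -/
def sb (w : List (Fin m)) (i j : ℕ) : List (Fin m) := (w.drop i).take (j - i)

theorem sb_length (w : List (Fin m)) (i j : ℕ) :
    (sb w i j).length = min (j - i) (w.length - i) := by
  unfold sb
  rw [List.length_take, List.length_drop]

theorem inp_def (w : List (Fin m)) (x : ℕ) :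
    Wi.inp w x = (w.map fun a => a.val + 1).getD x 0 := rfl

theorem inp_some (w : List (Fin m)) (x : ℕ) (a : Fin m) :
    Wi.inp w x = a.val + 1 ↔ w[x]? = some a := by
  rw [inp_def, List.getD_eq_getElem?_getD, List.getElem?_map]
  cases w[x]? with
  | none => simp
  | some b =>
    show b.val + 1 = a.val + 1 ↔ some b = some a
    rw [Option.some_inj, Fin.ext_iff]
    omega

theorem inp_eq {m' : ℕ} (w : List (Fin m)) (w' : List (Fin m')) (x x' : ℕ)
    (h : (w[x]?).map Fin.val = (w'[x']?).map Fin.val) : Wi.inp w x = Wi.inp w' x' := by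
  rw [inp_def, inp_def, List.getD_eq_getElem?_getD, List.getD_eq_getElem?_getD,
    List.getElem?_map, List.getElem?_map]
  cases h1 : w[x]? with
  | none =>
    cases h2 : w'[x']? with
    | none => rfl
    | some b => rw [h1, h2] at h; cases h
  | some a =>
    cases h2 : w'[x']? with
    | none => rw [h1, h2] at h; cases h
    | some b =>
      rw [h1, h2] at h
      have h3 : a.val = b.val := Option.some_inj.1 h
      show a.val + 1 = b.val + 1
      rw [h3]

/-- The symbols of the code of a list of words. -/
theorem inp_enc (u : List (Fin m)) (us : List (List (Fin m))) (y : ℕ) :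
    Wi.inp (enc (u :: us)) y = if y < 1 then m + 1 else
      if y - 1 < u.length then Wi.inp u (y - 1) else Wi.inp (enc us) (y - 1 - u.length) := by
  have h0 : enc (u :: us) = sp :: (up u ++ enc us) := rfl
  have hl : (up u).length = u.length := by simp [up]
  by_cases h1 : y < 1
  · rw [if_pos h1]
    have h2 : y = 0 := by omega
    subst h2
    exact (inp_some _ _ (Fin.last m)).2 rfl
  · rw [if_neg h1]
    obtain ⟨z, rfl⟩ : ∃ z, y = z + 1 := ⟨y - 1, by omega⟩
    rw [Nat.add_sub_cancel]
    by_cases h2 : z < u.length
    · rw [if_pos h2]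
      refine inp_eq _ _ _ _ ?_
      rw [h0, List.getElem?_cons_succ, List.getElem?_append_left (by rw [hl]; exact h2)]
      unfold up
      rw [List.getElem?_map]
      cases u[z]? with
      | none => rfl
      | some a => rfl
    · rw [if_neg h2]
      refine inp_eq _ _ _ _ ?_
      rw [h0, List.getElem?_cons_succ, List.getElem?_append_right (by rw [hl]; omega), hl]

theorem len_enc (u : List (Fin m)) (us : List (List (Fin m))) :
    (enc (u :: us)).length = 1 + u.length + (enc us).length := by
  have h0 : enc (u :: us) = sp :: (up u ++ enc us) := rfl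
  rw [h0, List.length_cons, List.length_append]
  simp [up]
  omega

theorem gm_enc {N : ℕ} : ∀ (k : ℕ) (a b : Fin k → List (Fin m) → (Fin N → ℕ) → ℕ),
    (∀ s, LF N (a s)) → (∀ s, LF N (b s)) →
    Gm N (fun (w : List (Fin m)) (v : Fin N → ℕ) =>
      enc (List.ofFn fun s => sb w (a s w v) (b s w v))) := by
  intro k
  have hL := fcl_LF (W := List (Fin m))
  induction k with
  | zero =>
    intro a b _ _
    refine ⟨?_, ?_⟩
    · refine hL.congr (hL.constf 1) fun w v => ?_
      rfl
    · refine hL.congr (hL.ltf (hL.proj (N + 1) 0) (hL.constf 1) (hL.constf (m + 1))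
        (hL.constf 0)) fun w u => ?_
      show Wi.inp (enc (List.ofFn fun s : Fin 0 => _)) (u 0) = if u 0 < 1 then m + 1 else 0
      rw [List.ofFn_zero]
      by_cases h : u 0 < 1
      · rw [if_pos h, show u 0 = 0 by omega]
        exact (inp_some _ _ (Fin.last m)).2 rfl
      · rw [if_neg h, inp_def, List.getD_eq_getElem?_getD, List.getElem?_eq_none]
        · rfl
        · show 1 ≤ u 0
          omega
  | succ k ih =>
    intro a b ha hb
    obtain ⟨i1, i2⟩ := ih (fun s => a s.succ) (fun s => b s.succ) (fun s => ha s.succ)
      (fun s => hb s.succ)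
    have hln : LF N (fun (w : List (Fin m)) (v : Fin N → ℕ) =>
        min (b 0 w v - a 0 w v) (w.length - a 0 w v)) :=
      hL.minf (hL.subf (hb 0) (ha 0)) (hL.subf (hL.lenf) (ha 0))
    refine ⟨?_, ?_⟩
    · refine hL.congr (hL.addf (hL.addf (hL.constf 1) hln) i1) fun w v => ?_
      show (enc (List.ofFn fun s : Fin (k + 1) => sb w (a s w v) (b s w v))).length =
        1 + min (b 0 w v - a 0 w v) (w.length - a 0 w v) +
          (enc (List.ofFn fun s : Fin k => sb w (a s.succ w v) (b s.succ w v))).length
      rw [List.ofFn_succ, len_enc, sb_length]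
    · have hz := hL.proj (N + 1) 0
      have hy := hL.subf hz (hL.constf 1)
      have ha1 := hL.ren (ha 0) (fun i => i.succ : Fin N → Fin (N + 1))
      have hln1 := hL.ren hln (fun i => i.succ : Fin N → Fin (N + 1))
      have q1 : LF (N + 1) (fun (w : List (Fin m)) (u : Fin (N + 1) → ℕ) =>
          Wi.inp w (a 0 w (fun i => u i.succ) + (u 0 - 1))) := hL.inpf (hL.addf ha1 hy)
      have q2 := hL.sub1 i2 (hL.subf hy hln1) (fun i => i.succ : Fin N → Fin (N + 1))
      refine hL.congr (hL.ltf hz (hL.constf 1) (hL.constf (m + 1)) (hL.ltf hy hln1 q1 q2))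
        fun w u => ?_
      show Wi.inp (enc (List.ofFn fun s : Fin (k + 1) =>
          sb w (a s w (fun i => u i.succ)) (b s w (fun i => u i.succ)))) (u 0) =
        if u 0 < 1 then m + 1 else
          if u 0 - 1 < min (b 0 w (fun i => u i.succ) - a 0 w (fun i => u i.succ))
            (w.length - a 0 w (fun i => u i.succ)) then
            Wi.inp w (a 0 w (fun i => u i.succ) + (u 0 - 1))
          else Wi.inp (enc (List.ofFn fun s : Fin k =>
            sb w (a s.succ w (fun i => u i.succ)) (b s.succ w (fun i => u i.succ))))
            (u 0 - 1 - min (b 0 w (fun i => u i.succ) - a 0 w (fun i => u i.succ))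
              (w.length - a 0 w (fun i => u i.succ)))
      rw [List.ofFn_succ, inp_enc, sb_length]
      by_cases h1 : u 0 < 1
      · rw [if_pos h1, if_pos h1]
      · rw [if_neg h1, if_neg h1]
        by_cases h2 : u 0 - 1 < min (b 0 w (fun i => u i.succ) - a 0 w (fun i => u i.succ))
            (w.length - a 0 w (fun i => u i.succ))
        · rw [if_pos h2, if_pos h2]
          refine inp_eq _ _ _ _ ?_
          unfold sb
          rw [List.getElem?_take_of_lt (by omega), List.getElem?_drop]
        · rw [if_neg h2, if_neg h2]

/-- The derivations of a subword. -/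
theorem der_sb {n : ℕ} (G : Gr (Fin m) (Fin n)) (A : Fin n) (w : List (Fin m)) (i j : ℕ)
    (hij : i < j) (hj : j ≤ w.length) : Der G A (sb w i j) ↔
      (j = i + 1 ∧ ∃ a : Fin m, G.ter A a ∧ Wi.inp w i = a.val + 1) ∨
      ∃ h ≤ w.length, i < h ∧ h < j ∧ ∃ B C : Fin n, G.bin A B C ∧ Der G B (sb w i h) ∧
        Der G C (sb w h j) := by
  have hlen : ∀ i j, i ≤ j → j ≤ w.length → (sb w i j).length = j - i := by
    intro i j h1 h2
    rw [sb_length]
    omega
  have happ : ∀ h, i ≤ h → h ≤ j → sb w i j = sb w i h ++ sb w h j := by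
    intro h h1 h2
    unfold sb
    have e1 : j - i = (h - i) + (j - h) := by omega
    rw [e1, List.take_add, List.drop_drop]
    congr 3
    omega
  constructor
  · intro hd
    generalize hx : sb w i j = x at hd
    have hlx : x.length = j - i := by rw [← hx]; exact hlen i j hij.le hj
    cases hd with
    | ter _ a h =>
      have h1 : j - i = 1 := hlx.symm
      refine Or.inl ⟨by omega, a, h, ?_⟩
      rw [inp_some]
      have h2 : (sb w i j)[0]? = some a := by rw [hx]; rfl
      unfold sb at h2
      rw [List.getElem?_take_of_lt (by omega), List.getElem?_drop] at h2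
      exact h2
    | bin _ B C u v h h1 h2 =>
      have hu := h1.ne
      have hv := h2.ne
      have hu' : 0 < u.length := List.length_pos_iff.2 hu
      have hv' : 0 < v.length := List.length_pos_iff.2 hv
      rw [List.length_append] at hlx
      have e1 := happ (i + u.length) (by omega) (by omega)
      have e2 : (sb w i (i + u.length)).length = u.length := by
        rw [hlen i (i + u.length) (by omega) (by omega)]
        omega
      rw [hx] at e1
      have e3 := List.append_inj e1 e2.symm
      refine Or.inr ⟨i + u.length, by omega, by omega, by omega, B, C, h, ?_, ?_⟩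
      · rw [← e3.1]
        exact h1
      · rw [← e3.2]
        exact h2
  · rintro (⟨rfl, a, h, ha⟩ | ⟨h, _, h1, h2, B, C, h3, h4, h5⟩)
    · rw [inp_some] at ha
      have e1 : sb w i (i + 1) = [a] := by
        have hi : i < w.length := by omega
        unfold sb
        rw [List.getElem?_eq_getElem hi, Option.some_inj] at ha
        rw [List.drop_eq_getElem_cons hi, ha, show i + 1 - i = 1 by omega]
        rfl
      rw [e1]
      exact Der.ter A a h
    · rw [happ h h1.le h2.le]
      exact Der.bin A B C _ _ h3 h4 h5

end Pool.Agent.TH762.WD
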