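import Pool.Agent.TH762.WD.Ncl

set_option autoImplicit false

/-!
Substitution of words: the classes for L and NL are closed under maps of words that are given by
functions in L.
-/

namespace Pool.Agent.TH762.WD

open MvPolynomial Relation

variable {W W' : Type} [Wi W] [Wi W']

/-- Definable functions are in the class. -/
theorem S_of_fn' {S : (n : ℕ) → (W → (Fin n → ℕ) → ℕ) → Prop} (hS : FCl S) {n : ℕ}
    {f : W → (Fin n → ℕ) → ℕ} (hf : Fn (Pd S) (fun p : Bs W n => f p.w p.v)) : S n f := by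
  have hC := clo_Pd hS
  obtain ⟨b, hb⟩ := hf.2
  have h1 : Df (Pd S) (fun p : Bs W (n + 1) => p.v 0 + 1 ≤ f p.w (fun i => p.v i.succ)) := by
    refine Df.lef hC (((Vr.fin 0).fn hC).add hC (Fn.nat hC 1)) ?_
    exact hf.ren hC (φ := fun p : Bs W (n + 1) => (⟨p.w, fun i => p.v i.succ⟩ : Bs W n))
      ⟨fun _ => rfl, fun i => ⟨i.succ, fun _ => rfl⟩⟩
  obtain ⟨R, ⟨g, hg, hR⟩, h⟩ := h1
  have hF : S (n + 1) (fun w u => min (u 0) (f w (fun i => u i.succ))) := by
    refine hS.lrec n (fun _ _ => 0) (fun w u => u 0 + (1 - g w (fun i => u i.succ)))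
      (fun _ u => u 0) _ (hS.zero n) ?_ (hS.proj (n + 1) 0) ?_ ?_ ?_
    · exact hS.addf (hS.proj (n + 2) 0) (hS.subf (hS.constf 1) (hS.ren hg (fun i => i.succ)))
    · intro w v
      exact min_le_left _ _
    · intro w v
      exact Nat.zero_min _
    · intro w v y
      show min (y + 1) (f w v) = min y (f w v) + (1 - g w (Matrix.vecCons y v))
      have h2 := h ⟨w, Matrix.vecCons y v⟩
      have h2' : y + 1 ≤ f w v ↔ R w (Matrix.vecCons y v) := h2
      have h3 := hR w (Matrix.vecCons y v)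
      by_cases h4 : y + 1 ≤ f w v
      · have h5 := h3.1 (h2'.1 h4)
        omega
      · have h5 := h3.2 (fun h6 => h4 (h2'.2 h6))
        omega
  refine hS.congr (hS.sub1 hF (hS.polyf b) (fun i => i)) fun w v => ?_
  show f w v = min (eval (yv w v) b) (f w v)
  exact (min_eq_right (hb ⟨w, v⟩)).symm

/-- Maps of words given by functions in L. -/
structure Gm (N : ℕ) (I : W → (Fin N → ℕ) → W') : Prop where
  len : LF N (fun w v => Wd.len (I w v))
  inp : LF (N + 1) (fun w u => Wi.inp (I w (fun i => u i.succ)) (u 0))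

theorem Gm.ren {N N' : ℕ} {I : W → (Fin N → ℕ) → W'} (h : Gm N I) (ρ : Fin N → Fin N') :
    Gm N' (fun w v => I w (fun i => v (ρ i))) where
  len := fcl_LF.ren h.len ρ
  inp := fcl_LF.ren h.inp
    (fun i => Fin.cases (motive := fun _ => Fin (N' + 1)) 0 (fun i => (ρ i).succ) i)

theorem LF.subst {n' : ℕ} {f' : W' → (Fin n' → ℕ) → ℕ} (hf : LF n' f') :
    ∀ (N : ℕ) (I : W → (Fin N → ℕ) → W') (_ : Gm N I) (hs : Fin n' → W → (Fin N → ℕ) → ℕ)
      (_ : ∀ i, LF N (hs i)), LF N (fun w v => f' (I w v) (fun i => hs i w v)) := by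
  have hL := fcl_LF (W := W)
  refine hf (fun n' f' => ∀ (N : ℕ) (I : W → (Fin N → ℕ) → W') (_ : Gm N I)
    (hs : Fin n' → W → (Fin N → ℕ) → ℕ) (_ : ∀ i, LF N (hs i)),
      LF N (fun w v => f' (I w v) (fun i => hs i w v))) ?_
  refine ⟨?_, ?_, ?_, ?_, ?_, ?_, ?_, ?_⟩
  · intro n N I hI hs hh
    exact hL.zero N
  · intro N I hI hs hh
    exact hL.addf (hh 0) (hL.constf 1)
  · intro n i N I hI hs hh
    exact hh i
  · intro N I hI hs hh
    exact hL.mulf (hL.addf (hh 0) (hL.constf 1)) (hL.addf (hh 1) (hL.constf 1))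
  · intro N I hI hs hh
    exact hI.len
  · intro N I hI hs hh
    exact hL.sub1 hI.inp (hh 0) (fun i => i)
  · intro n m g hs' hg hh' N I hI hs hh
    exact hg N I hI (fun i w v => hs' i (I w v) (fun j => hs j w v)) fun i => hh' i N I hI hs hh
  · intro n g h b F hg hh' hb h1 h2 h3 N I hI hs hh
    have hI1 : Gm (N + 1) (fun w u => I w (fun i => u i.succ)) := hI.ren (fun i => i.succ)
    have hI2 : Gm (N + 2) (fun w u => I w (fun i => u i.succ.succ)) :=
      hI.ren (fun i => i.succ.succ)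
    have q1 : LF N (fun w v => g (I w v) (fun i => hs i.succ w v)) :=
      hg N I hI (fun i => hs i.succ) fun i => hh i.succ
    have q2 : LF (N + 2) (fun w u => h (I w (fun i => u i.succ.succ)) (Matrix.vecCons (u 0)
        (Matrix.vecCons (u 1) (fun i => hs i.succ w (fun j => u j.succ.succ))))) := by
      have q3 := hh' (N + 2) _ hI2 (fun i => Fin.cases (fun _ u => u 0)
        (fun i => Fin.cases (fun _ u => u 1)
          (fun i w u => hs i.succ w (fun j => u j.succ.succ)) i) i) (by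
        intro i
        refine Fin.cases ?_ (fun i => ?_) i
        · exact hL.proj (N + 2) 0
        · refine Fin.cases ?_ (fun i => ?_) i
          · exact hL.proj (N + 2) 1
          · exact hL.ren (hh i.succ) (fun j => j.succ.succ))
      refine hL.congr q3 fun w u => ?_
      congr 1
      ext i
      refine Fin.cases ?_ (fun i => ?_) i
      · rfl
      · refine Fin.cases ?_ (fun i => ?_) i
        · rfl
        · rfl
    have q4 : LF (N + 1) (fun w u => b (I w (fun i => u i.succ)) (Matrix.vecCons (u 0)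
        (fun i => hs i.succ w (fun j => u j.succ)))) := by
      have q3 := hb (N + 1) _ hI1 (fun i => Fin.cases (fun _ u => u 0)
          (fun i w u => hs i.succ w (fun j => u j.succ)) i) (by
        intro i
        refine Fin.cases ?_ (fun i => ?_) i
        · exact hL.proj (N + 1) 0
        · exact hL.ren (hh i.succ) (fun j => j.succ))
      refine hL.congr q3 fun w u => ?_
      congr 1
      ext i
      refine Fin.cases ?_ (fun i => ?_) i
      · rfl
      · rfl
    have hG : LF (N + 1) (fun w u => F (I w (fun i => u i.succ)) (Matrix.vecCons (u 0)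
        (fun i => hs i.succ w (fun j => u j.succ)))) :=
      hL.lrec N _ _ _ _ q1 q2 q4 (fun w u => h1 _ _) (fun w v => h2 _ _)
        (fun w v y => h3 _ _ y)
    refine hL.congr (hL.sub1 hG (hh 0) (fun i => i)) fun w v => ?_
    show F (I w v) (fun i => hs i w v) =
      F (I w v) (Matrix.vecCons (hs 0 w v) (fun i => hs i.succ w v))
    congr 1
    ext i
    refine Fin.cases ?_ (fun i => ?_) i
    · rfl
    · rfl

theorem Pd_subst {n' : ℕ} {R : W' → (Fin n' → ℕ) → Prop} (hR : R ∈ Pd LF n') {N : ℕ}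
    {I : W → (Fin N → ℕ) → W'} (hI : Gm N I) {hs : Fin n' → W → (Fin N → ℕ) → ℕ}
    (hh : ∀ i, LF N (hs i)) :
    (fun (w : W) (v : Fin N → ℕ) => R (I w v) (fun i => hs i w v)) ∈ Pd LF N := by
  obtain ⟨f, hf, h⟩ := hR
  exact ⟨_, hf.subst N I hI hs hh, fun w v => h _ _⟩

theorem NR_subst {R : W' → (Fin 0 → ℕ) → Prop} (hR : R ∈ NR (Pd LF) 0) {N : ℕ}
    {I : W → (Fin N → ℕ) → W'} (hI : Gm N I) :
    (fun (w : W) (v : Fin N → ℕ) => R (I w v) (fun i => i.elim0)) ∈ NR (Pd LF) N := by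
  have hL := fcl_LF (W := W)
  have hC : Clo (Pd (LF (W := W))) := clo_Pd hL
  obtain ⟨Q, hQ, p, h⟩ := hR
  have hP : LF N (fun w v => eval (yv (I w v) (fun i : Fin 0 => i.elim0)) p) := by
    refine hL.congr (LF.subst (fcl_LF.polyf (W := W') p) N I hI (fun i => i.elim0)
      (fun i => i.elim0)) fun w v => ?_
    exact congrArg (fun x : Fin 0 → ℕ => eval (yv (I w v) x) p) (Subsingleton.elim _ _)
  obtain ⟨B, hB⟩ := hP.bound
  have fP := fn_of_S hL hP hB
  have hQ' : (fun (w : W) (u : Fin (N + 2) → ℕ) => Q (I w (fun i => u i.succ.succ))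
      (fun i => (fun (i : Fin 2) (_ : W) (u : Fin (N + 2) → ℕ) =>
        u (Fin.castLE (by omega) i)) i w u)) ∈ Pd LF (N + 2) :=
    Pd_subst hQ (hI.ren (fun i => i.succ.succ)) fun i => hL.proj (N + 2) _
  refine nr_of_np hC ⟨fun q => q.1.2 ≤ eval (yv (I q.1.1.w q.1.1.v) (fun i : Fin 0 => i.elim0)) p ∧
    q.2 ≤ eval (yv (I q.1.1.w q.1.1.v) (fun i : Fin 0 => i.elim0)) p ∧
    Q (I q.1.1.w q.1.1.v) (Matrix.vecCons q.2 (Matrix.vecCons q.1.2 (fun i => i.elim0))),
    fun b => eval (yv (I b.w b.v) (fun i : Fin 0 => i.elim0)) p, fun _ => 0, fun _ => 1, ?_, fP,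
    Fn.nat hC 0, Fn.nat hC 1, fun γ a a' h => ⟨h.1, h.2.1⟩, fun b => h _ _⟩
  have hx : Fn (Pd LF) (fun q : (Bs W N × ℕ) × ℕ => q.1.2) := (Vr.snd.ren Rn.fst).fn hC
  have fP' := fP.ren hC (φ := fun q : (Bs W N × ℕ) × ℕ => q.1.1) (Rn.fst.comp Rn.fst)
  refine (Df.lef hC hx fP').and hC ((Df.lef hC (Vr.snd.fn hC) fP').and hC
    ⟨_, hQ', fun q => ?_⟩)
  show Q (I q.1.1.w q.1.1.v) _ ↔ Q (I q.1.1.w q.1.1.v) _
  have e : (Matrix.vecCons q.2 (Matrix.vecCons q.1.2 (fun i : Fin 0 => i.elim0)) : Fin 2 → ℕ) =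
      fun i => (Matrix.vecCons q.2 (Matrix.vecCons q.1.2 q.1.1.v) : Fin (N + 2) → ℕ)
        (Fin.castLE (by omega) i) := by
    ext i
    match i with
    | 0 => rfl
    | 1 => rfl
  rw [e]
  exact Iff.rfl

end Pool.Agent.TH762.WD
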