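import Pool.Agent.TH762.WD.Rec
import Pool.Agent.TH762.WD.FCl

set_option autoImplicit false

/-!
The recursion on tableaux (exponential time), and its law.
-/

namespace Pool.Agent.TH762.WD

open MvPolynomial
open Pool.Agent.TH762.E2 (dc1 dc2 dc_code Lc bs ls)
open Pool.Agent.TH762.MC (Tn ExL Few world)

variable {W : Type} [Wd W] {C D : (n : ℕ) → Set (W → (Fin n → ℕ) → Prop)} {Γ Δ : Type}
  [Cx W Γ] [Cx W Δ] {k n : ℕ}

/-- The number of cells. -/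
def tT (δ : (Γ × ℕ) × ℕ) : ℕ := δ.1.2 + δ.2

/-- The check. -/
def CkT (N : (Γ × ℕ) × ℕ → ℕ) (g : Γ × ℕ → ℕ) (h : (((((Γ × ℕ) × ℕ) × ℕ) × ℕ) × ℕ) → ℕ)
    (δ : (Γ × ℕ) × ℕ) (Q : ℕ → ℕ → Prop) : Prop :=
  (∀ i ≤ tT δ, ∀ w ≤ N δ, (Q i w ↔ w = g (δ.1.1, i))) ∧
  (∀ t ≤ tT δ, ∀ i ≤ tT δ, i + t + 1 ≤ tT δ → ∀ w ≤ N δ,
    (Q (i + (tT δ + 1) * (t + 1)) w ↔ ∃ a ≤ N δ, Q ((i - 1) + (tT δ + 1) * t) a ∧
      ∃ b ≤ N δ, Q (i + (tT δ + 1) * t) b ∧ ∃ c ≤ N δ, Q ((i + 1) + (tT δ + 1) * t) c ∧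
        w = h (((((δ.1.1, i), t), c), b), a))) ∧
  ∀ x ≤ N δ, tT δ < x % (tT δ + 1) + x / (tT δ + 1) → ∀ w ≤ N δ, (Q x w ↔ w = 0)

theorem fn_tT (hD : Clo D) : Fn D (tT (Γ := Γ)) :=
  ((Vr.snd.ren (φ := fun q : (Γ × ℕ) × ℕ => q.1) Rn.fst).fn hD).add hD (Vr.snd.fn hD)

theorem ckT_df (hD : Clo D) {N : (Γ × ℕ) × ℕ → ℕ} {g : Γ × ℕ → ℕ}
    {h : (((((Γ × ℕ) × ℕ) × ℕ) × ℕ) × ℕ) → ℕ} (hN : Fn D N) (hg : Fn D g) (hh : Fn D h)
    (φ : Δ → (Γ × ℕ) × ℕ) (hφ : Rn φ) (Q : (Δ × ℕ) × ℕ → Prop) (hQ : Df D Q) :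
    Df D (fun δ => CkT N g h (φ δ) (fun x w => Q ((δ, x), w))) := by
  have hT : Fn D (fun δ => tT (φ δ)) := (fn_tT hD).ren hD hφ
  have hN' : Fn D (fun δ => N (φ δ)) := hN.ren hD hφ
  have hγ : Rn (fun δ => (φ δ).1.1) := hφ.comp (Rn.fst.comp Rn.fst)
  refine Df.and hD ?_ (Df.and hD ?_ ?_)
  · refine Df.all hD (P := fun p : Δ × ℕ => ∀ w ≤ N (φ p.1), (Q ((p.1, p.2), w) ↔
      w = g ((φ p.1).1.1, p.2))) ?_ hT
    refine Df.all hD (P := fun q : (Δ × ℕ) × ℕ => (Q ((q.1.1, q.1.2), q.2) ↔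
      q.2 = g ((φ q.1.1).1.1, q.1.2))) ?_ (hN'.fst hD)
    refine Df.iff hD hQ (Df.eqf hD (Vr.snd.fn hD) ?_)
    exact hg.ren hD (φ := fun q : (Δ × ℕ) × ℕ => ((φ q.1.1).1.1, q.1.2))
      (((Rn.fst.comp Rn.fst).comp hγ).pair (Vr.snd.ren Rn.fst))
  · refine Df.all hD (P := fun p : Δ × ℕ => ∀ i ≤ tT (φ p.1), i + p.2 + 1 ≤ tT (φ p.1) →
      ∀ w ≤ N (φ p.1),
      (Q ((p.1, i + (tT (φ p.1) + 1) * (p.2 + 1)), w) ↔
        ∃ a ≤ N (φ p.1), Q ((p.1, (i - 1) + (tT (φ p.1) + 1) * p.2), a) ∧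
        ∃ b ≤ N (φ p.1), Q ((p.1, i + (tT (φ p.1) + 1) * p.2), b) ∧
        ∃ c ≤ N (φ p.1), Q ((p.1, (i + 1) + (tT (φ p.1) + 1) * p.2), c) ∧
          w = h ((((((φ p.1).1.1, i), p.2), c), b), a))) ?_ hT
    refine Df.all hD (P := fun q : (Δ × ℕ) × ℕ => q.2 + q.1.2 + 1 ≤ tT (φ q.1.1) →
      ∀ w ≤ N (φ q.1.1),
      (Q ((q.1.1, q.2 + (tT (φ q.1.1) + 1) * (q.1.2 + 1)), w) ↔
        ∃ a ≤ N (φ q.1.1), Q ((q.1.1, (q.2 - 1) + (tT (φ q.1.1) + 1) * q.1.2), a) ∧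
        ∃ b ≤ N (φ q.1.1), Q ((q.1.1, q.2 + (tT (φ q.1.1) + 1) * q.1.2), b) ∧
        ∃ c ≤ N (φ q.1.1), Q ((q.1.1, (q.2 + 1) + (tT (φ q.1.1) + 1) * q.1.2), c) ∧
          w = h ((((((φ q.1.1).1.1, q.2), q.1.2), c), b), a))) ?_ (hT.fst hD)
    have hT2 : Fn D (fun q : (Δ × ℕ) × ℕ => tT (φ q.1.1)) := (hT.fst hD).fst hD
    refine Df.imp hD (Df.lef hD (((Vr.snd.fn hD).add hD ((Vr.snd.ren Rn.fst).fn hD)).add hD
      (Fn.nat hD 1)) hT2) ?_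
    refine Df.all hD (P := fun r : ((Δ × ℕ) × ℕ) × ℕ =>
      (Q ((r.1.1.1, r.1.2 + (tT (φ r.1.1.1) + 1) * (r.1.1.2 + 1)), r.2) ↔
        ∃ a ≤ N (φ r.1.1.1), Q ((r.1.1.1, (r.1.2 - 1) + (tT (φ r.1.1.1) + 1) * r.1.1.2), a) ∧
        ∃ b ≤ N (φ r.1.1.1), Q ((r.1.1.1, r.1.2 + (tT (φ r.1.1.1) + 1) * r.1.1.2), b) ∧
        ∃ c ≤ N (φ r.1.1.1), Q ((r.1.1.1, (r.1.2 + 1) + (tT (φ r.1.1.1) + 1) * r.1.1.2), c) ∧
          r.2 = h ((((((φ r.1.1.1).1.1, r.1.2), r.1.1.2), c), b), a))) ?_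
      ((hN'.fst hD).fst hD)
    have r111 : Rn (fun r : ((Δ × ℕ) × ℕ) × ℕ => r.1.1.1) := (Rn.fst.comp Rn.fst).comp Rn.fst
    have hT3 : Fn D (fun r : ((Δ × ℕ) × ℕ) × ℕ => tT (φ r.1.1.1) + 1) :=
      (hT2.fst hD).add hD (Fn.nat hD 1)
    have hN3 : Fn D (fun r : ((Δ × ℕ) × ℕ) × ℕ => N (φ r.1.1.1)) :=
      ((hN'.fst hD).fst hD).fst hD
    have hi3 : Vr (fun r : ((Δ × ℕ) × ℕ) × ℕ => r.1.2) := Vr.snd.ren Rn.fst
    have ht3 : Vr (fun r : ((Δ × ℕ) × ℕ) × ℕ => r.1.1.2) := Vr.snd.ren (Rn.fst.comp Rn.fst)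
    refine Df.iff hD ?_ ?_
    · exact hQ.map hD (φ := fun r : ((Δ × ℕ) × ℕ) × ℕ =>
        ((r.1.1.1, r.1.2 + (tT (φ r.1.1.1) + 1) * (r.1.1.2 + 1)), r.2))
        (((r111.mp hD).pair ((hi3.fn hD).add hD (hT3.mul hD ((ht3.fn hD).add hD
          (Fn.nat hD 1))))).pair (Vr.snd.fn hD))
    · refine Df.ex hD (P := fun s : (((Δ × ℕ) × ℕ) × ℕ) × ℕ =>
        Q ((s.1.1.1.1, (s.1.1.2 - 1) + (tT (φ s.1.1.1.1) + 1) * s.1.1.1.2), s.2) ∧
        ∃ b ≤ N (φ s.1.1.1.1), Q ((s.1.1.1.1, s.1.1.2 + (tT (φ s.1.1.1.1) + 1) * s.1.1.1.2), b) ∧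
        ∃ c ≤ N (φ s.1.1.1.1),
          Q ((s.1.1.1.1, (s.1.1.2 + 1) + (tT (φ s.1.1.1.1) + 1) * s.1.1.1.2), c) ∧
          s.1.2 = h ((((((φ s.1.1.1.1).1.1, s.1.1.2), s.1.1.1.2), c), b), s.2)) ?_ hN3
      have s111 : Rn (fun s : (((Δ × ℕ) × ℕ) × ℕ) × ℕ => s.1.1.1.1) := Rn.fst.comp r111
      refine Df.and hD ?_ ?_
      · exact hQ.map hD (φ := fun s : (((Δ × ℕ) × ℕ) × ℕ) × ℕ =>
          ((s.1.1.1.1, (s.1.1.2 - 1) + (tT (φ s.1.1.1.1) + 1) * s.1.1.1.2), s.2))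
          (((s111.mp hD).pair ((((hi3.ren Rn.fst).fn hD).tsub hD (Fn.nat hD 1)).add hD
            ((hT3.fst hD).mul hD ((ht3.ren Rn.fst).fn hD)))).pair (Vr.snd.fn hD))
      · refine Df.ex hD (P := fun u : ((((Δ × ℕ) × ℕ) × ℕ) × ℕ) × ℕ =>
          Q ((u.1.1.1.1.1, u.1.1.1.2 + (tT (φ u.1.1.1.1.1) + 1) * u.1.1.1.1.2), u.2) ∧
          ∃ c ≤ N (φ u.1.1.1.1.1),
          Q ((u.1.1.1.1.1, (u.1.1.1.2 + 1) + (tT (φ u.1.1.1.1.1) + 1) * u.1.1.1.1.2), c) ∧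
          u.1.1.2 = h ((((((φ u.1.1.1.1.1).1.1, u.1.1.1.2), u.1.1.1.1.2), c), u.2), u.1.2)) ?_
          (hN3.fst hD)
        have u111 : Rn (fun u : ((((Δ × ℕ) × ℕ) × ℕ) × ℕ) × ℕ => u.1.1.1.1.1) :=
          Rn.fst.comp s111
        have u11 : Rn (fun u : ((((Δ × ℕ) × ℕ) × ℕ) × ℕ) × ℕ => u.1.1) := Rn.fst.comp Rn.fst
        refine Df.and hD ?_ ?_
        · exact hQ.map hD (φ := fun u : ((((Δ × ℕ) × ℕ) × ℕ) × ℕ) × ℕ =>
            ((u.1.1.1.1.1, u.1.1.1.2 + (tT (φ u.1.1.1.1.1) + 1) * u.1.1.1.1.2), u.2))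
            (((u111.mp hD).pair (((hi3.ren u11).fn hD).add hD
              (((hT3.fst hD).fst hD).mul hD ((ht3.ren u11).fn hD)))).pair (Vr.snd.fn hD))
        · refine Df.ex hD (P := fun z : (((((Δ × ℕ) × ℕ) × ℕ) × ℕ) × ℕ) × ℕ =>
            Q ((z.1.1.1.1.1.1, (z.1.1.1.1.2 + 1) + (tT (φ z.1.1.1.1.1.1) + 1) *
              z.1.1.1.1.1.2), z.2) ∧
            z.1.1.1.2 = h ((((((φ z.1.1.1.1.1.1).1.1, z.1.1.1.1.2), z.1.1.1.1.1.2), z.2),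
              z.1.2), z.1.1.2)) ?_ ((hN3.fst hD).fst hD)
          have z11 : Rn (fun z : (((((Δ × ℕ) × ℕ) × ℕ) × ℕ) × ℕ) × ℕ => z.1.1.1) :=
            Rn.fst.comp u11
          have z111 : Rn (fun z : (((((Δ × ℕ) × ℕ) × ℕ) × ℕ) × ℕ) × ℕ => z.1.1.1.1.1.1) :=
            Rn.fst.comp u111
          refine Df.and hD ?_ (Df.eqf hD ((Vr.snd.ren z11).fn hD) ?_)
          · exact hQ.map hD (φ := fun z : (((((Δ × ℕ) × ℕ) × ℕ) × ℕ) × ℕ) × ℕ =>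
              ((z.1.1.1.1.1.1, (z.1.1.1.1.2 + 1) + (tT (φ z.1.1.1.1.1.1) + 1) *
                z.1.1.1.1.1.2), z.2))
              (((z111.mp hD).pair ((((hi3.ren z11).fn hD).add hD (Fn.nat hD 1)).add hD
                ((((hT3.fst hD).fst hD).fst hD).mul hD ((ht3.ren z11).fn hD)))).pair
                  (Vr.snd.fn hD))
          · exact hh.ren hD (φ := fun z : (((((Δ × ℕ) × ℕ) × ℕ) × ℕ) × ℕ) × ℕ =>
              ((((((φ z.1.1.1.1.1.1).1.1, z.1.1.1.1.2), z.1.1.1.1.1.2), z.2), z.1.2),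
                z.1.1.2))
              ((((((z111.comp hγ).pair (hi3.ren z11)).pair (ht3.ren z11)).pair Vr.snd).pair
                (Vr.snd.ren Rn.fst)).pair (Vr.snd.ren (Rn.fst.comp Rn.fst)))
  · refine Df.all hD (P := fun p : Δ × ℕ =>
      tT (φ p.1) < p.2 % (tT (φ p.1) + 1) + p.2 / (tT (φ p.1) + 1) → ∀ w ≤ N (φ p.1),
        (Q ((p.1, p.2), w) ↔ w = 0)) ?_ hN'
    have hT1 := hT.fst hD
    refine Df.imp hD (Df.ltf hD hT1 (((Vr.snd.fn hD).mod hD hT1).add hD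
      ((Vr.snd.fn hD).div hD hT1))) ?_
    refine Df.all hD (P := fun q : (Δ × ℕ) × ℕ => (Q ((q.1.1, q.1.2), q.2) ↔ q.2 = 0)) ?_
      (hN'.fst hD)
    exact Df.iff hD hQ (Df.eqf hD (Vr.snd.fn hD) (Fn.nat hD 0))

/-- Functions defined by recursion on tableaux are definable in `D` if few-valued functions of `C`
can be avoided by functions of `D`. -/
theorem tab_law (hC : Clo C) (hD : Clo D) (hA : ∀ n, Av C D (Bs W n) k)
    {F : (Γ × ℕ) × ℕ → ℕ} {g : Γ × ℕ → ℕ} {h : (((((Γ × ℕ) × ℕ) × ℕ) × ℕ) × ℕ) → ℕ}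
    (hF : Fn C F) (hg : Fn D g) (hh : Fn D h) (h0 : ∀ γ i, F ((γ, i), 0) = g (γ, i))
    (h1 : ∀ γ i t, F ((γ, i), t + 1) =
      h (((((γ, i), t), F ((γ, i + 1), t)), F ((γ, i), t)), F ((γ, i - 1), t))) : Fn D F := by
  classical
  obtain ⟨B, hB⟩ := hF.2
  have h11 : Rn (fun δ : (Γ × ℕ) × ℕ => δ.1.1) := Rn.fst.comp Rn.fst
  let Bv : (Γ × ℕ) × ℕ → ℕ := fun δ =>
    eval (yv (Cx.o δ.1.1) (Cx.x (((δ.1.1, tT δ), tT δ) : (Γ × ℕ) × ℕ))) B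
  have hBv : ∀ {E : (n : ℕ) → Set (W → (Fin n → ℕ) → Prop)}, Clo E → Fn E Bv := fun hE =>
    (Fn.poly (Γ := (Γ × ℕ) × ℕ) hE B).map hE
      (φ := fun δ : (Γ × ℕ) × ℕ => ((δ.1.1, tT δ), tT δ))
      (((h11.mp hE).pair (fn_tT hE)).pair (fn_tT hE))
  let N : (Γ × ℕ) × ℕ → ℕ := fun δ => tT δ + (tT δ + 1) * tT δ + Bv δ
  have hN : ∀ {E : (n : ℕ) → Set (W → (Fin n → ℕ) → Prop)}, Clo E → Fn E N := fun hE =>
    ((fn_tT hE).add hE (((fn_tT hE).add hE (Fn.nat hE 1)).mul hE (fn_tT hE))).add hE (hBv hE)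
  let τ : (Γ × ℕ) × ℕ → ℕ → ℕ := fun δ x =>
    if x % (tT δ + 1) + x / (tT δ + 1) ≤ tT δ then
      F ((δ.1.1, x % (tT δ + 1)), x / (tT δ + 1)) else 0
  have hτ : Fn C (fun p : ((Γ × ℕ) × ℕ) × ℕ => τ p.1 p.2) := by
    have hT := (fn_tT (Γ := Γ) hC).fst hC
    have hx : Fn C (fun p : ((Γ × ℕ) × ℕ) × ℕ => p.2) := Vr.snd.fn hC
    refine Fn.ite hC (Df.lef hC ((hx.mod hC hT).add hC (hx.div hC hT)) hT) ?_ (Fn.nat hC 0)
    exact hF.map hC (φ := fun p : ((Γ × ℕ) × ℕ) × ℕ =>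
      ((p.1.1.1, p.2 % (tT p.1 + 1)), p.2 / (tT p.1 + 1)))
      ((((Rn.fst.comp h11).mp hC).pair (hx.mod hC hT)).pair (hx.div hC hT))
  have hFb : ∀ (δ : (Γ × ℕ) × ℕ) (i t : ℕ), i + t ≤ tT δ → F ((δ.1.1, i), t) ≤ Bv δ := by
    intro δ i t hit
    refine (hB _).trans (eval_mono B fun j => ?_)
    change Fin (Cx.n Γ + 1 + 1 + 1) at j
    refine Fin.cases ?_ (fun j => ?_) j
    · exact le_rfl
    · refine Fin.cases ?_ (fun j => ?_) j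
      · show t ≤ tT δ
        omega
      · refine Fin.cases ?_ (fun j => ?_) j
        · show i ≤ tT δ
          omega
        · exact le_rfl
  have hle : ∀ δ x, τ δ x ≤ N δ := by
    intro δ x
    show (if _ then _ else 0) ≤ tT δ + (tT δ + 1) * tT δ + Bv δ
    split_ifs with hx
    · exact (hFb δ _ _ hx).trans (Nat.le_add_left _ _)
    · exact Nat.zero_le _
  obtain ⟨L, hL, hL2⟩ := lists_exist (k := k) hC hD hA (hN hC) (hN hD) hτ hle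
  have hcode : ∀ (δ : (Γ × ℕ) × ℕ) (i t : ℕ), i + t ≤ tT δ →
      i + (tT δ + 1) * t ≤ N δ ∧ τ δ (i + (tT δ + 1) * t) = F ((δ.1.1, i), t) := by
    intro δ i t hit
    constructor
    · have := Nat.mul_le_mul_left (tT δ + 1) (show t ≤ tT δ by omega)
      show _ ≤ tT δ + (tT δ + 1) * tT δ + Bv δ
      omega
    · show (if _ then _ else 0) = _
      rw [Nat.add_mul_div_left _ _ (by omega), Nat.div_eq_of_lt (show i < tT δ + 1 by omega),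
        Nat.add_mul_mod_self_left, Nat.mod_eq_of_lt (show i < tT δ + 1 by omega), Nat.zero_add,
        if_pos hit]
  have hFN : ∀ (δ : (Γ × ℕ) × ℕ) (i t : ℕ), i + t ≤ tT δ → F ((δ.1.1, i), t) ≤ N δ := by
    intro δ i t hit
    rw [← (hcode δ i t hit).2]
    exact hle _ _
  have eng := engine (k := k) hD (hN hD) (τ := τ) (fun δ x _ => hle δ x) hL hL2 (CkT N g h)
    (by
      rintro δ Q ⟨q1, q2, q3⟩ x hx w hw
      have key : ∀ t i, i + t ≤ tT δ → ∀ w ≤ N δ,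
          (Q (i + (tT δ + 1) * t) w ↔ w = F ((δ.1.1, i), t)) := by
        intro t
        induction t with
        | zero =>
          intro i hi w hw
          rw [Nat.mul_zero, Nat.add_zero, h0]
          exact q1 i (by omega) w hw
        | succ t ih =>
          intro i hi w hw
          rw [q2 t (by omega) i (by omega) (by omega) w hw, h1]
          constructor
          · rintro ⟨a, ha, ga, b, hb, gb, c, hc, gc, hw'⟩
            rw [ih (i - 1) (by omega) a ha] at ga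
            rw [ih i (by omega) b hb] at gb
            rw [ih (i + 1) (by omega) c hc] at gc
            rw [hw', ga, gb, gc]
          · intro hw'
            refine ⟨_, hFN δ (i - 1) t (by omega), (ih (i - 1) (by omega) _
              (hFN δ (i - 1) t (by omega))).2 rfl, _, hFN δ i t (by omega),
              (ih i (by omega) _ (hFN δ i t (by omega))).2 rfl, _, hFN δ (i + 1) t (by omega),
              (ih (i + 1) (by omega) _ (hFN δ (i + 1) t (by omega))).2 rfl, hw'⟩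
      have hx2 : x % (tT δ + 1) + (tT δ + 1) * (x / (tT δ + 1)) = x := Nat.mod_add_div _ _
      by_cases hc : x % (tT δ + 1) + x / (tT δ + 1) ≤ tT δ
      · have h3 := key _ _ hc w hw
        rw [hx2] at h3
        rw [h3]
        show _ ↔ w = if _ then _ else 0
        rw [if_pos hc]
      · rw [q3 x hx (by omega) w hw]
        show _ ↔ w = if _ then _ else 0
        rw [if_neg hc])
    (by
      intro δ Q hQ
      have hval : ∀ t i, i + t ≤ tT δ → ∀ w ≤ N δ,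
          (Q (i + (tT δ + 1) * t) w ↔ w = F ((δ.1.1, i), t)) := by
        intro t i hit w hw
        have h3 := hcode δ i t hit
        rw [hQ _ h3.1 w hw, h3.2]
      refine ⟨?_, ?_, ?_⟩
      · intro i hi w hw
        have h3 := hval 0 i (by omega) w hw
        rw [Nat.mul_zero, Nat.add_zero, h0] at h3
        exact h3
      · intro t ht i hi hit w hw
        rw [hval (t + 1) i (by omega) w hw, h1]
        constructor
        · intro hw'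
          refine ⟨_, hFN δ (i - 1) t (by omega), (hval t (i - 1) (by omega) _
            (hFN δ (i - 1) t (by omega))).2 rfl, _, hFN δ i t (by omega),
            (hval t i (by omega) _ (hFN δ i t (by omega))).2 rfl, _, hFN δ (i + 1) t (by omega),
            (hval t (i + 1) (by omega) _ (hFN δ (i + 1) t (by omega))).2 rfl, hw'⟩
        · rintro ⟨a, ha, ga, b, hb, gb, c, hc, gc, hw'⟩
          rw [hval t (i - 1) (by omega) a ha] at ga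
          rw [hval t i (by omega) b hb] at gb
          rw [hval t (i + 1) (by omega) c hc] at gc
          rw [hw', ga, gb, gc]
      · intro x hx hxT w hw
        rw [hQ x hx w hw]
        show w = (if _ then _ else 0) ↔ _
        rw [if_neg (by omega)])
    (fun φ hφ Q hQ => ckT_df hD (hN hD) hg hh φ hφ Q hQ)
  refine ⟨?_, B, hB⟩
  have fin : Df D (fun q : ((Γ × ℕ) × ℕ) × ℕ =>
      ((q.1.1.2 + (tT q.1 + 1) * q.1.2 ≤ N q.1 ∧ q.2 ≤ N q.1) ∧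
        q.2 = τ q.1 (q.1.1.2 + (tT q.1 + 1) * q.1.2))) := by
    have hi : Fn D (fun q : ((Γ × ℕ) × ℕ) × ℕ => q.1.1.2) :=
      (Vr.snd.ren (Rn.fst.comp Rn.fst)).fn hD
    have ht : Fn D (fun q : ((Γ × ℕ) × ℕ) × ℕ => q.1.2) := (Vr.snd.ren Rn.fst).fn hD
    exact eng.map hD (φ := fun q : ((Γ × ℕ) × ℕ) × ℕ =>
      ((q.1, q.1.1.2 + (tT q.1 + 1) * q.1.2), q.2))
      (((Rn.fst.mp hD).pair (hi.add hD ((((fn_tT hD).fst hD).add hD (Fn.nat hD 1)).mul hD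
        ht))).pair (Vr.snd.fn hD))
  refine fin.congr fun q => ?_
  have h3 := hcode q.1 q.1.1.2 q.1.2 le_rfl
  rw [h3.2]
  constructor
  · intro hq
    have hq' : q.2 = F q.1 := hq
    exact ⟨⟨h3.1, hq'.le.trans (hFN q.1 q.1.1.2 q.1.2 le_rfl)⟩, hq'⟩
  · rintro ⟨_, hq⟩
    exact hq

end Pool.Agent.TH762.WD
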